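import Pool.Agent.LibMM31.Discharge

/-!
# Existence of planar maps: every word with value `1` bounds a planar map
-/

set_option linter.unusedSectionVars false
set_option linter.style.haveILetI false

namespace MM31

open Equiv Equiv.Perm

section fold

variable {D : Type} [Finite D] [DecidableEq D]

/-- folding two consecutive darts: they are removed from the gluing -/
theorem fold {φ ε : Perm D} (h : Pl φ ε) {alive : D → Prop} {C : D → D → Prop}
    (hC : Compat C) (hg : Glue alive C ε) {a b : D} (ha : alive a) (hb : alive b)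
    (hab : a ≠ b) (e1 : φ a = b) (hc : C a b) :
    ∃ ε' : Perm D, Pl φ ε' ∧ Glue (fun d => alive d ∧ d ≠ a ∧ d ≠ b) C ε' := by
  by_cases hpp : ε a = b
  · have hba : ε b = a := by rw [← hpp, hg.inv a ha]
    have h1 : Pl φ (ε * swap a b) := h.eps_split hab ⟨1, by rw [zpow_one, hpp]⟩
    have va : (ε * swap a b) a = a := by rw [Perm.mul_apply, swap_apply_left, hba]
    have vb : (ε * swap a b) b = b := by rw [Perm.mul_apply, swap_apply_right, hpp]
    have vo : ∀ d, d ≠ a → d ≠ b → (ε * swap a b) d = ε d := by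
      intro d h1 h2
      rw [Perm.mul_apply, swap_apply_of_ne_of_ne h1 h2]
    refine ⟨ε * swap a b, h1, ⟨?_, ?_, ?_, ?_, ?_⟩⟩
    · rintro d ⟨hd, hda, hdb⟩
      rw [vo d hda hdb]
      refine ⟨hg.al d hd, ?_, ?_⟩
      · intro hh; apply hdb; rw [← hg.inv d hd, hh, hpp]
      · intro hh; apply hda; rw [← hg.inv d hd, hh, hba]
    · rintro d ⟨hd, hda, hdb⟩
      rw [vo d hda hdb, vo, hg.inv d hd]
      · intro hh; apply hdb; rw [← hg.inv d hd, hh, hpp]
      · intro hh; apply hda; rw [← hg.inv d hd, hh, hba]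
    · rintro d ⟨hd, hda, hdb⟩
      rw [vo d hda hdb]; exact hg.ne d hd
    · rintro d ⟨hd, hda, hdb⟩
      rw [vo d hda hdb]; exact hg.cm d hd
    · intro d hd
      by_cases hda : d = a; · rw [hda, va]
      by_cases hdb : d = b; · rw [hdb, vb]
      rw [vo d hda hdb]
      exact hg.dead d (fun hh => hd ⟨hh, hda, hdb⟩)
  · set s := ε a with hs
    set s' := ε b with hs'
    have es : ε s = a := hg.inv a ha
    have es' : ε s' = b := hg.inv b hb
    have hsa : s ≠ a := hg.ne a ha
    have hs'b : s' ≠ b := hg.ne b hb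
    have hs'a : s' ≠ a := by
      intro hh
      apply hpp
      rw [hs, ← hh, es']
    have hss' : s ≠ s' := by
      intro hh
      apply hab
      rw [← es, hh, es']
    have hν : SameCycle (φ * ε) s b := ⟨1, by rw [zpow_one, Perm.mul_apply, es, e1]⟩
    have h1 : Pl φ (ε * swap s b) := h.eps_nu hpp hν
    set ε1 := ε * swap s b with hε1
    have a1 : ε1 s = s' := by rw [hε1, Perm.mul_apply, swap_apply_left]
    have a2 : ε1 b = a := by rw [hε1, Perm.mul_apply, swap_apply_right, es]
    have a3 : ε1 a = s := by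
      rw [hε1, Perm.mul_apply, swap_apply_of_ne_of_ne hsa.symm hab]
    have a4 : ε1 s' = b := by
      rw [hε1, Perm.mul_apply, swap_apply_of_ne_of_ne hss'.symm hs'b, es']
    have hs2 : SameCycle ε1 a s' := by
      refine ⟨2, ?_⟩
      have : (ε1 ^ (2 : ℤ)) a = ε1 (ε1 a) := by rw [zpow_two, Perm.mul_apply]
      rw [this, a3, a1]
    have h2 : Pl φ (ε1 * swap a s') := h1.eps_split hs'a.symm hs2
    set ε2 := ε1 * swap a s' with hε2
    have b1 : ε2 a = b := by rw [hε2, Perm.mul_apply, swap_apply_left, a4]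
    have b2 : ε2 s' = s := by rw [hε2, Perm.mul_apply, swap_apply_right, a3]
    have b3 : ε2 s = s' := by
      rw [hε2, Perm.mul_apply, swap_apply_of_ne_of_ne hsa hss', a1]
    have b4 : ε2 b = a := by
      rw [hε2, Perm.mul_apply, swap_apply_of_ne_of_ne hab.symm hs'b.symm, a2]
    have b5 : ∀ d, d ≠ a → d ≠ b → d ≠ s → d ≠ s' → ε2 d = ε d := by
      intro d h1 h2 h3 h4
      rw [hε2, Perm.mul_apply, swap_apply_of_ne_of_ne h1 h4, hε1, Perm.mul_apply,
        swap_apply_of_ne_of_ne h3 h2]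
    have h3 : Pl φ (ε2 * swap a b) := h2.eps_split hab ⟨1, by rw [zpow_one, b1]⟩
    set ε3 := ε2 * swap a b with hε3
    have c1 : ε3 a = a := by rw [hε3, Perm.mul_apply, swap_apply_left, b4]
    have c2 : ε3 b = b := by rw [hε3, Perm.mul_apply, swap_apply_right, b1]
    have c3 : ε3 s = s' := by rw [hε3, Perm.mul_apply, swap_apply_of_ne_of_ne hsa hpp, b3]
    have c4 : ε3 s' = s := by rw [hε3, Perm.mul_apply, swap_apply_of_ne_of_ne hs'a hs'b, b2]
    have c5 : ∀ d, d ≠ a → d ≠ b → d ≠ s → d ≠ s' → ε3 d = ε d := by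
      intro d h1 h2 h3 h4
      rw [hε3, Perm.mul_apply, swap_apply_of_ne_of_ne h1 h2, b5 d h1 h2 h3 h4]
    have als : alive s := hg.al a ha
    have als' : alive s' := hg.al b hb
    have hcs : C s s' := hC.rect _ _ _ _ (hC.symm _ _ (hg.cm a ha)) hc (hg.cm b hb)
    refine ⟨ε3, h3, ⟨?_, ?_, ?_, ?_, ?_⟩⟩
    · rintro d ⟨hd, hda, hdb⟩
      by_cases h3 : d = s; · rw [h3, c3]; exact ⟨als', hs'a, hs'b⟩
      by_cases h4 : d = s'; · rw [h4, c4]; exact ⟨als, hsa, hpp⟩
      rw [c5 d hda hdb h3 h4]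
      refine ⟨hg.al d hd, ?_, ?_⟩
      · intro hh; apply h3; rw [← hg.inv d hd, hh]
      · intro hh; apply h4; rw [← hg.inv d hd, hh]
    · rintro d ⟨hd, hda, hdb⟩
      by_cases h3 : d = s; · rw [h3, c3, c4]
      by_cases h4 : d = s'; · rw [h4, c4, c3]
      rw [c5 d hda hdb h3 h4, c5, hg.inv d hd]
      · intro hh; apply h3; rw [← hg.inv d hd, hh]
      · intro hh; apply h4; rw [← hg.inv d hd, hh]
      · intro hh; apply hda; rw [← hg.inv d hd, hh, es]
      · intro hh; apply hdb; rw [← hg.inv d hd, hh, es']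
    · rintro d ⟨hd, hda, hdb⟩
      by_cases h3 : d = s; · rw [h3, c3]; exact hss'.symm
      by_cases h4 : d = s'; · rw [h4, c4]; exact hss'
      rw [c5 d hda hdb h3 h4]; exact hg.ne d hd
    · rintro d ⟨hd, hda, hdb⟩
      by_cases h3 : d = s; · rw [h3, c3]; exact hcs
      by_cases h4 : d = s'; · rw [h4, c4]; exact hC.symm _ _ hcs
      rw [c5 d hda hdb h3 h4]; exact hg.cm d hd
    · intro d hd
      by_cases hda : d = a; · rw [hda, c1]
      by_cases hdb : d = b; · rw [hdb, c2]
      have hd' : ¬ alive d := fun hh => hd ⟨hh, hda, hdb⟩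
      rw [c5 d hda hdb (fun hh => hd' (hh ▸ als)) (fun hh => hd' (hh ▸ als'))]
      exact hg.dead d hd'

theorem pow_agree {φ φ' : Perm D} {P : D → Prop} (h1 : ∀ d, P d → φ' d = φ d)
    (h2 : ∀ d, P d → P (φ d)) (d : D) (hd : P d) (i : ℕ) :
    (φ' ^ i) d = (φ ^ i) d ∧ P ((φ ^ i) d) := by
  induction i with
  | zero => exact ⟨rfl, by simpa using hd⟩
  | succ i ih =>
    have e1 : (φ' ^ (i + 1)) d = φ' ((φ' ^ i) d) := by rw [pow_succ']; rfl
    have e2 : (φ ^ (i + 1)) d = φ ((φ ^ i) d) := by rw [pow_succ']; rfl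
    rw [e1, e2, ih.1, h1 _ ih.2]
    exact ⟨rfl, h2 _ ih.2⟩

/-- `Seg φ z U t`: starting at the dart `z` and following `φ` one reads the darts of `U`
and arrives at `t`. -/
def Seg (φ : Perm D) : D → List D → D → Prop
  | z, [], t => z = t
  | z, d :: U, t => z = d ∧ Seg φ (φ d) U t

theorem Seg.append {φ : Perm D} {U V : List D} : ∀ {z t : D},
    Seg φ z (U ++ V) t ↔ ∃ y, Seg φ z U y ∧ Seg φ y V t := by
  induction U with
  | nil =>
    intro z t
    constructor
    · intro h; exact ⟨z, rfl, h⟩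
    · rintro ⟨y, h1, h2⟩
      have : z = y := h1
      subst this
      exact h2
  | cons d U ih =>
    intro z t
    constructor
    · rintro ⟨h1, h2⟩
      obtain ⟨y, h3, h4⟩ := ih.mp h2
      exact ⟨y, ⟨h1, h3⟩, h4⟩
    · rintro ⟨y, ⟨h1, h2⟩, h3⟩
      exact ⟨h1, ih.mpr ⟨y, h2, h3⟩⟩

theorem Seg.congr {φ φ' : Perm D} {U : List D} : ∀ {z t : D}, (∀ d ∈ U, φ' d = φ d) →
    Seg φ z U t → Seg φ' z U t := by
  induction U with
  | nil => intro z t _ h; exact h
  | cons d U ih =>
    rintro z t h ⟨h1, h2⟩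
    refine ⟨h1, ?_⟩
    rw [h d (by simp)]
    exact ih (fun e he => h e (by simp [he])) h2

theorem Seg.get {φ : Perm D} {U : List D} : ∀ {z t : D}, Seg φ z U t →
    (∀ i (h : i < U.length), U[i] = (φ ^ i) z) ∧ t = (φ ^ U.length) z := by
  induction U with
  | nil =>
    intro z t h
    refine ⟨fun i hi => absurd hi (Nat.not_lt_zero i), ?_⟩
    have : z = t := h
    simp [this]
  | cons d U ih =>
    rintro z t ⟨h1, h2⟩
    obtain ⟨h3, h4⟩ := ih h2
    subst h1
    refine ⟨?_, ?_⟩
    · intro i hi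
      cases i with
      | zero => simp
      | succ i =>
        rw [List.getElem_cons_succ, h3 i, pow_succ, Perm.mul_apply]
    · rw [h4, List.length_cons, pow_succ, Perm.mul_apply]

end fold

variable {X G : Type} [Group G]

/-- planar maps with a walker face reading a list of darts `wk`, the other faces being copies of
the loop `w`; labels and values are stored. -/
structure PM (n : ℕ) (w : ℕ → Lt X) (gv : Lt X → G) (D : Type) [Finite D] [DecidableEq D] where
  φ : Perm D
  ε : Perm D
  root : D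
  wk : List D
  inner : D → Prop
  lab : D → Lt X
  val : D → G
  tm : D → ℕ
  sg : D → Bool
  bs : D → G
  pl : Pl φ ε
  nd : (root :: wk).Nodup
  seg : Seg φ root (root :: wk) root
  inner_wk : ∀ d ∈ root :: wk, ¬ inner d
  phi_inner : ∀ d, inner d → inner (φ d)
  sg_inner : ∀ d, inner d → sg (φ d) = sg d
  bs_inner : ∀ d, inner d → bs (φ d) = bs d
  tm_lt : ∀ d, inner d → tm d < n
  tm_succ : ∀ d, inner d → tm d + 1 < n → tm (φ d) = tm d + 1
  tm_zero : ∀ d, inner d → tm d + 1 = n → tm (φ d) = 0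
  per_inner : ∀ d, inner d → (φ ^ n) d = d
  lab_inner : ∀ d, inner d → lab d = wl n w (sg d) (tm d)
  val_inner : ∀ d, inner d → val d = bs d * pre n w gv (sg d) (tm d)
  val_root : val root = 1
  val_phi_root : val (φ root) = 1
  val_wk : ∀ d ∈ wk, val (φ d) = val d * gv (lab d)
  dead : ∀ d, ¬ inner d → d ∉ root :: wk → φ d = d
  glue : Glue (fun d => inner d ∨ d ∈ wk)
    (fun d e => lab e = linv (lab d) ∧ val e = val d * gv (lab d)) ε

namespace PM

variable {n : ℕ} {w : ℕ → Lt X} {gv : Lt X → G} {D : Type} [Finite D] [DecidableEq D]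

/-- unused darts -/
def free (M : PM n w gv D) (d : D) : Prop := ¬ M.inner d ∧ d ∉ M.root :: M.wk

theorem compat (hG : GV n w gv) (M : PM n w gv D) :
    Compat (fun d e => M.lab e = linv (M.lab d) ∧ M.val e = M.val d * gv (M.lab d)) := by
  refine ⟨?_, ?_⟩
  · rintro a b ⟨h1, h2⟩
    refine ⟨by rw [h1, linv_linv], ?_⟩
    rw [h1, h2, hG.inv]; group
  · rintro a b c d ⟨h1, h2⟩ ⟨h3, h4⟩ ⟨h5, h6⟩
    refine ⟨by rw [h5, h3, h1, linv_linv], ?_⟩
    rw [h6, h4, h3, h1, linv_linv, hG.inv, h2]
    group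

/-- insertion of a spur after the dart `y` -/
theorem insert (hG : GV n w gv) (M : PM n w gv D) (U V : List D) (y : D)
    (hR : M.root :: M.wk = U ++ y :: V) (x : Lt X) (a b : D) (hab : a ≠ b) (ha : M.free a)
    (hb : M.free b) :
    ∃ M' : PM n w gv D, M'.root = M.root ∧ M'.root :: M'.wk = U ++ y :: a :: b :: V ∧
      (∀ d, d ≠ a → d ≠ b → M'.lab d = M.lab d) ∧ M'.lab a = x ∧ M'.lab b = linv x ∧
      (∀ d, M'.free d ↔ (M.free d ∧ d ≠ a ∧ d ≠ b)) := by
  classical
  have hnd := M.nd
  have hseg := M.seg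
  rw [hR] at hnd hseg
  obtain ⟨y', hs1, hs2, hs3⟩ := Seg.append.mp hseg
  subst hs2
  have hφa : M.φ a = a := M.dead a ha.1 ha.2
  have hφb : M.φ b = b := M.dead b hb.1 hb.2
  have haR := ha.2
  have hbR := hb.2
  rw [hR] at haR hbR
  have hεa : M.ε a = a := M.glue.dead a (fun hh => by
    rcases hh with hh | hh
    · exact ha.1 hh
    · exact ha.2 (List.mem_cons_of_mem _ hh))
  have hεb : M.ε b = b := M.glue.dead b (fun hh => by
    rcases hh with hh | hh
    · exact hb.1 hh
    · exact hb.2 (List.mem_cons_of_mem _ hh))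
  have hya : y' ≠ a := fun hh => haR (by simp [← hh])
  have hyb : y' ≠ b := fun hh => hbR (by simp [← hh])
  set z := M.φ y' with hz
  have hza : z ≠ a := fun hh => hya (M.φ.injective (by rw [hφa]; exact hh))
  have hzb : z ≠ b := fun hh => hyb (M.φ.injective (by rw [hφb]; exact hh))
  set φ1 := swap a z * M.φ with hφ1
  have pl1 : Pl φ1 M.ε := M.pl.phi_merge (fun hh => hza.symm (orbit_isolated hφa hεa hh))
  have f1a : φ1 a = z := by rw [hφ1, Perm.mul_apply, hφa, swap_apply_left]
  have f1b : φ1 b = b := by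
    rw [hφ1, Perm.mul_apply, hφb, swap_apply_of_ne_of_ne hab.symm hzb.symm]
  have f1y : φ1 y' = a := by rw [hφ1, Perm.mul_apply, ← hz, swap_apply_right]
  set φ2 := swap b z * φ1 with hφ2
  have pl2 : Pl φ2 M.ε := pl1.phi_merge (fun hh => hzb.symm (orbit_isolated f1b hεb hh))
  have f2y : φ2 y' = a := by
    rw [hφ2, Perm.mul_apply, f1y, swap_apply_of_ne_of_ne hab hza.symm]
  have f2a : φ2 a = b := by rw [hφ2, Perm.mul_apply, f1a, swap_apply_right]
  have f2b : φ2 b = z := by rw [hφ2, Perm.mul_apply, f1b, swap_apply_left]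
  have f2o : ∀ d, d ≠ y' → d ≠ a → d ≠ b → φ2 d = M.φ d := by
    intro d h1 h2 h3
    have e1 : M.φ d ≠ a := fun hh => h2 (M.φ.injective (hh.trans hφa.symm))
    have e2 : M.φ d ≠ z := fun hh => h1 (M.φ.injective hh)
    have e3 : M.φ d ≠ b := fun hh => h3 (M.φ.injective (hh.trans hφb.symm))
    rw [hφ2, Perm.mul_apply, hφ1, Perm.mul_apply, swap_apply_of_ne_of_ne e1 e2,
      swap_apply_of_ne_of_ne e3 e2]
  have hν : SameCycle (φ2 * M.ε) a b := ⟨1, by
    rw [zpow_one, Perm.mul_apply, hεa, f2a]⟩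
  have pl3 : Pl φ2 (M.ε * swap a b) := pl2.eps_nu hab hν
  have ga : (M.ε * swap a b) a = b := by rw [Perm.mul_apply, swap_apply_left, hεb]
  have gb : (M.ε * swap a b) b = a := by rw [Perm.mul_apply, swap_apply_right, hεa]
  have go : ∀ d, d ≠ a → d ≠ b → (M.ε * swap a b) d = M.ε d := by
    intro d h1 h2
    rw [Perm.mul_apply, swap_apply_of_ne_of_ne h1 h2]
  -- the new list
  obtain ⟨wk', hwk'⟩ : ∃ wk', M.root :: wk' = U ++ y' :: a :: b :: V := by
    cases U with
    | nil =>
      simp only [List.nil_append, List.cons.injEq] at hR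
      exact ⟨a :: b :: V, by simp [hR.1]⟩
    | cons u U =>
      simp only [List.cons_append, List.cons.injEq] at hR
      exact ⟨U ++ y' :: a :: b :: V, by simp [hR.1]⟩
  have hmem : ∀ d, d ∈ M.root :: wk' ↔ (d ∈ M.root :: M.wk ∨ d = a ∨ d = b) := by
    intro d
    rw [hwk', hR]
    simp only [List.mem_append, List.mem_cons]
    tauto
  have hrootR : M.root ∈ M.root :: M.wk := by simp
  have hra : M.root ≠ a := fun hh => ha.2 (hh ▸ hrootR)
  have hrb : M.root ≠ b := fun hh => hb.2 (hh ▸ hrootR)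
  have hrwk : M.root ∉ M.wk := (List.nodup_cons.mp M.nd).1
  have hnd' : (M.root :: wk').Nodup := by
    rw [hwk']
    rw [List.nodup_append] at hnd ⊢
    obtain ⟨n1, n2, n3⟩ := hnd
    rw [List.nodup_cons] at n2
    refine ⟨n1, ?_, ?_⟩
    · rw [List.nodup_cons, List.nodup_cons, List.nodup_cons]
      refine ⟨?_, ?_, ?_, n2.2⟩
      · simp only [List.mem_cons, not_or]
        exact ⟨hya, hyb, n2.1⟩
      · simp only [List.mem_cons, not_or]
        exact ⟨hab, fun hh => haR (by simp [hh])⟩
      · exact fun hh => hbR (by simp [hh])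
    · intro c hc e he
      simp only [List.mem_cons] at he
      rcases he with he | he | he | he
      · exact n3 c hc e (by simp [he])
      · rintro rfl; exact haR (by rw [← he]; simp [hc])
      · rintro rfl; exact hbR (by rw [← he]; simp [hc])
      · exact n3 c hc e (by simp [he])
  have hwkmem : ∀ d, d ∈ wk' ↔ (d ∈ M.wk ∨ d = a ∨ d = b) := by
    intro d
    have h1 := hmem d
    simp only [List.mem_cons] at h1
    have h2 : M.root ∉ wk' := (List.nodup_cons.mp hnd').1
    constructor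
    · intro hd
      rcases h1.mp (Or.inr hd) with (h | h) | h
      · exact absurd (h ▸ hd) h2
      · exact Or.inl h
      · exact Or.inr h
    · intro hd
      rcases h1.mpr (by tauto) with h | h
      · exfalso
        rcases hd with hd | hd | hd
        · exact hrwk (h ▸ hd)
        · exact hra (h ▸ hd)
        · exact hrb (h ▸ hd)
      · exact h
  have hyU : y' ∉ U ∧ y' ∉ V := by
    rw [List.nodup_append] at hnd
    obtain ⟨n1, n2, n3⟩ := hnd
    rw [List.nodup_cons] at n2
    exact ⟨fun hh => n3 y' hh y' (by simp) rfl, n2.1⟩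
  have hseg' : Seg φ2 M.root (M.root :: wk') M.root := by
    rw [hwk']
    refine Seg.append.mpr ⟨y', ?_, rfl, ?_⟩
    · refine Seg.congr (fun d hd => f2o d ?_ ?_ ?_) hs1
      · rintro rfl; exact hyU.1 hd
      · rintro rfl; exact haR (by simp [hd])
      · rintro rfl; exact hbR (by simp [hd])
    · rw [f2y]
      refine ⟨rfl, ?_⟩
      rw [f2a]
      refine ⟨rfl, ?_⟩
      rw [f2b]
      refine Seg.congr (fun d hd => f2o d ?_ ?_ ?_) hs3
      · rintro rfl; exact hyU.2 hd
      · rintro rfl; exact haR (by simp [hd])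
      · rintro rfl; exact hbR (by simp [hd])
  -- values
  let g0 := M.val z
  let val' : D → G := fun d => if d = a then g0 else if d = b then g0 * gv x else M.val d
  let lab' : D → Lt X := fun d => if d = a then x else if d = b then linv x else M.lab d
  have va : val' a = g0 := if_pos rfl
  have vb : val' b = g0 * gv x := by
    show (if b = a then g0 else if b = b then g0 * gv x else M.val b) = _
    rw [if_neg hab.symm, if_pos rfl]
  have vo : ∀ d, d ≠ a → d ≠ b → val' d = M.val d := by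
    intro d h1 h2; simp only [val']; rw [if_neg h1, if_neg h2]
  have la : lab' a = x := if_pos rfl
  have lb : lab' b = linv x := by
    show (if b = a then x else if b = b then linv x else M.lab b) = _
    rw [if_neg hab.symm, if_pos rfl]
  have lo : ∀ d, d ≠ a → d ≠ b → lab' d = M.lab d := by
    intro d h1 h2; simp only [lab']; rw [if_neg h1, if_neg h2]
  have inn : ∀ d, M.inner d → d ≠ y' ∧ d ≠ a ∧ d ≠ b := by
    intro d hd
    refine ⟨?_, ?_, ?_⟩
    · rintro rfl; exact M.inner_wk d (by rw [hR]; simp) hd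
    · rintro rfl; exact ha.1 hd
    · rintro rfl; exact hb.1 hd
  have hpow := pow_agree (φ := M.φ) (φ' := φ2) (P := M.inner)
    (fun d hd => f2o d (inn d hd).1 (inn d hd).2.1 (inn d hd).2.2) M.phi_inner
  have alne : ∀ d, (M.inner d ∨ d ∈ M.wk) → d ≠ a ∧ d ≠ b := by
    intro d hd
    rcases hd with hd | hd
    · exact (inn d hd).2
    · constructor
      · rintro rfl; exact ha.2 (by simp [hd])
      · rintro rfl; exact hb.2 (by simp [hd])
  refine ⟨{
    φ := φ2
    ε := M.ε * swap a b
    root := M.root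
    wk := wk'
    inner := M.inner
    lab := lab'
    val := val'
    tm := M.tm
    sg := M.sg
    bs := M.bs
    pl := pl3
    nd := hnd'
    seg := hseg'
    inner_wk := ?_
    phi_inner := fun d hd => by
      obtain ⟨q1, q2, q3⟩ := inn d hd
      rw [f2o d q1 q2 q3]; exact M.phi_inner d hd
    sg_inner := fun d hd => by
      obtain ⟨q1, q2, q3⟩ := inn d hd
      rw [f2o d q1 q2 q3]; exact M.sg_inner d hd
    bs_inner := fun d hd => by
      obtain ⟨q1, q2, q3⟩ := inn d hd
      rw [f2o d q1 q2 q3]; exact M.bs_inner d hd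
    tm_lt := M.tm_lt
    tm_succ := fun d hd h => by
      obtain ⟨q1, q2, q3⟩ := inn d hd
      rw [f2o d q1 q2 q3]; exact M.tm_succ d hd h
    tm_zero := fun d hd h => by
      obtain ⟨q1, q2, q3⟩ := inn d hd
      rw [f2o d q1 q2 q3]; exact M.tm_zero d hd h
    per_inner := fun d hd => by rw [(hpow d hd n).1]; exact M.per_inner d hd
    lab_inner := fun d hd => by
      obtain ⟨q1, q2, q3⟩ := inn d hd
      rw [lo d q2 q3]; exact M.lab_inner d hd
    val_inner := fun d hd => by
      obtain ⟨q1, q2, q3⟩ := inn d hd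
      rw [vo d q2 q3]; exact M.val_inner d hd
    val_root := by rw [vo _ hra hrb]; exact M.val_root
    val_phi_root := ?_
    val_wk := ?_
    dead := ?_
    glue := ?_ }, rfl, hwk', lo, la, lb, ?_⟩
  · intro d hd
    rcases (hmem d).mp hd with h | h | h
    · exact M.inner_wk d h
    · rw [h]; exact ha.1
    · rw [h]; exact hb.1
  · by_cases hry : M.root = y'
    · rw [hry, f2y, va]
      show M.val (M.φ y') = 1
      rw [← hry]
      exact M.val_phi_root
    · rw [f2o _ hry hra hrb]
      have e1 : M.φ M.root ≠ a := fun hh => hra (M.φ.injective (hh.trans hφa.symm))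
      have e2 : M.φ M.root ≠ b := fun hh => hrb (M.φ.injective (hh.trans hφb.symm))
      rw [vo _ e1 e2]
      exact M.val_phi_root
  · intro d hd
    rcases (hwkmem d).mp hd with h | h | h
    · obtain ⟨q2, q3⟩ := alne d (Or.inr h)
      rw [vo d q2 q3, lo d q2 q3]
      by_cases hdy : d = y'
      · rw [hdy, f2y, va]
        rw [hdy] at h
        exact M.val_wk y' h
      · rw [f2o d hdy q2 q3]
        have e1 : M.φ d ≠ a := fun hh => q2 (M.φ.injective (hh.trans hφa.symm))
        have e2 : M.φ d ≠ b := fun hh => q3 (M.φ.injective (hh.trans hφb.symm))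
        rw [vo _ e1 e2]
        exact M.val_wk d h
    · rw [h, f2a, va, vb, la]
    · rw [h, f2b, vb, lb, vo z hza hzb, hG.inv]
      simp only [g0]
      group
  · intro d h1 h2
    have h3 : d ∉ M.root :: M.wk := fun hh => h2 ((hmem d).mpr (Or.inl hh))
    have h4 : d ≠ a := fun hh => h2 ((hmem d).mpr (Or.inr (Or.inl hh)))
    have h5 : d ≠ b := fun hh => h2 ((hmem d).mpr (Or.inr (Or.inr hh)))
    have h6 : d ≠ y' := by rintro rfl; exact h3 (by rw [hR]; simp)
    rw [f2o d h6 h4 h5]
    exact M.dead d h1 h3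
  · have hal : ∀ d, (M.inner d ∨ d ∈ wk') ↔ ((M.inner d ∨ d ∈ M.wk) ∨ d = a ∨ d = b) := by
      intro d; rw [hwkmem d]; tauto
    refine ⟨?_, ?_, ?_, ?_, ?_⟩
    · intro d hd
      rw [hal] at hd
      rcases hd with hd | hd | hd
      · obtain ⟨q2, q3⟩ := alne d hd
        rw [go d q2 q3, hal]; exact Or.inl (M.glue.al d hd)
      · rw [hd, ga, hal]; simp
      · rw [hd, gb, hal]; simp
    · intro d hd
      rw [hal] at hd
      rcases hd with hd | hd | hd
      · obtain ⟨q2, q3⟩ := alne d hd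
        obtain ⟨r2, r3⟩ := alne _ (M.glue.al d hd)
        rw [go d q2 q3, go _ r2 r3]; exact M.glue.inv d hd
      · rw [hd, ga, gb]
      · rw [hd, gb, ga]
    · intro d hd
      rw [hal] at hd
      rcases hd with hd | hd | hd
      · obtain ⟨q2, q3⟩ := alne d hd
        rw [go d q2 q3]; exact M.glue.ne d hd
      · rw [hd, ga]; exact hab.symm
      · rw [hd, gb]; exact hab
    · intro d hd
      rw [hal] at hd
      rcases hd with hd | hd | hd
      · obtain ⟨q2, q3⟩ := alne d hd
        obtain ⟨r2, r3⟩ := alne _ (M.glue.al d hd)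
        rw [go d q2 q3, lo d q2 q3, vo d q2 q3, lo _ r2 r3, vo _ r2 r3]
        exact M.glue.cm d hd
      · rw [hd, ga, la, lb, va, vb]; exact ⟨rfl, rfl⟩
      · rw [hd, gb, la, lb, va, vb, hG.inv, linv_linv]
        refine ⟨rfl, ?_⟩
        group
    · intro d hd
      have h0 : ¬ ((M.inner d ∨ d ∈ M.wk) ∨ d = a ∨ d = b) := fun hh => hd ((hal d).mpr hh)
      push Not at h0
      rw [go d h0.2.1 h0.2.2]
      exact M.glue.dead d (fun hh => by
        rcases hh with hh | hh
        · exact h0.1.1 hh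
        · exact h0.1.2 hh)
  · intro d
    unfold free
    simp only
    rw [hmem]
    tauto

end PM

end MM31
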