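import Pool.Agent.LibMM31.Build

/-!
# Deleting a spur from the walker word, cutting off a block
-/

set_option linter.unusedSectionVars false
set_option linter.style.haveILetI false

namespace MM31

open Equiv Equiv.Perm

variable {X G : Type} [Group G]

namespace PM

variable {n : ℕ} {w : ℕ → Lt X} {gv : Lt X → G} {D : Type} [Finite D] [DecidableEq D]

/-- deletion of two consecutive inverse letters of the walker word -/
theorem delete (hG : GV n w gv) (M : PM n w gv D) (U V : List D) (y a b : D)
    (hR : M.root :: M.wk = U ++ y :: a :: b :: V) (hl : M.lab b = linv (M.lab a)) :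
    ∃ M' : PM n w gv D, M'.root = M.root ∧ M'.root :: M'.wk = U ++ y :: V ∧
      (∀ d, M'.lab d = M.lab d) ∧ (∀ d, M.free d → M'.free d) := by
  classical
  have hnd := M.nd
  have hseg := M.seg
  rw [hR] at hnd hseg
  obtain ⟨y', hs1, hs2, hs3⟩ := Seg.append.mp hseg
  subst hs2
  obtain ⟨hya, hs3⟩ := hs3
  obtain ⟨hyb, hs4⟩ := hs3
  -- nodup facts
  have nd1 := hnd
  rw [List.nodup_append, List.nodup_cons, List.nodup_cons, List.nodup_cons] at nd1
  obtain ⟨nU, ⟨ny, na, nb, nV⟩, nUV⟩ := nd1
  simp only [List.mem_cons, not_or] at ny na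
  have yna : y' ≠ a := ny.1
  have ynb : y' ≠ b := ny.2.1
  have hab : a ≠ b := na.1
  set z := M.φ b with hz
  have hza : z ≠ a := by
    intro hh
    exact ynb (M.φ.injective (hya.trans hh.symm))
  have hzb : z ≠ b := by
    intro hh
    exact hab (M.φ.injective (hyb.trans hh.symm))
  have hawk : a ∈ M.wk ∧ b ∈ M.wk := by
    cases U with
    | nil =>
      simp only [List.nil_append, List.cons.injEq] at hR
      rw [hR.2]; simp
    | cons u U =>
      simp only [List.cons_append, List.cons.injEq] at hR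
      rw [hR.2]; simp
  have hrwk : M.root ∉ M.wk := (List.nodup_cons.mp M.nd).1
  have hra : M.root ≠ a := fun hh => hrwk (hh ▸ hawk.1)
  have hrb : M.root ≠ b := fun hh => hrwk (hh ▸ hawk.2)
  -- the faces
  set φ1 := swap a b * M.φ with hφ1
  have pl1 : Pl φ1 M.ε := M.pl.phi_split hab ⟨1, by rw [zpow_one]; exact hyb⟩
  have f1y : φ1 y' = b := by rw [hφ1, Perm.mul_apply, hya, swap_apply_left]
  have f1a : φ1 a = a := by rw [hφ1, Perm.mul_apply, hyb, swap_apply_right]
  have f1b : φ1 b = z := by
    rw [hφ1, Perm.mul_apply, ← hz, swap_apply_of_ne_of_ne hza hzb]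
  set φ2 := swap b z * φ1 with hφ2
  have pl2 : Pl φ2 M.ε := pl1.phi_split hzb.symm ⟨1, by rw [zpow_one, f1b]⟩
  have f2y : φ2 y' = z := by rw [hφ2, Perm.mul_apply, f1y, swap_apply_left]
  have f2a : φ2 a = a := by
    rw [hφ2, Perm.mul_apply, f1a, swap_apply_of_ne_of_ne hab hza.symm]
  have f2b : φ2 b = b := by rw [hφ2, Perm.mul_apply, f1b, swap_apply_right]
  have f2o : ∀ d, d ≠ y' → d ≠ a → d ≠ b → φ2 d = M.φ d := by
    intro d h1 h2 h3
    have e1 : M.φ d ≠ a := fun hh => h1 (M.φ.injective (hh.trans hya.symm))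
    have e2 : M.φ d ≠ z := fun hh => h3 (M.φ.injective hh)
    have e3 : M.φ d ≠ b := fun hh => h2 (M.φ.injective (hh.trans hyb.symm))
    rw [hφ2, Perm.mul_apply, hφ1, Perm.mul_apply, swap_apply_of_ne_of_ne e1 e3,
      swap_apply_of_ne_of_ne e3 e2]
  -- the gluing
  have hval : M.val b = M.val a * gv (M.lab a) := by rw [← M.val_wk a hawk.1, hyb]
  obtain ⟨ε', plε0, gl⟩ := fold M.pl (M.compat hG) M.glue (Or.inr hawk.1) (Or.inr hawk.2) hab hyb
    ⟨hl, hval⟩
  -- redo the face operations with ε'
  have plA : Pl φ1 ε' := plε0.phi_split hab ⟨1, by rw [zpow_one]; exact hyb⟩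
  have plB : Pl φ2 ε' := plA.phi_split hzb.symm ⟨1, by rw [zpow_one, f1b]⟩
  -- the new list
  obtain ⟨wk', hwk'⟩ : ∃ wk', M.root :: wk' = U ++ y' :: V := by
    cases U with
    | nil =>
      simp only [List.nil_append, List.cons.injEq] at hR
      exact ⟨V, by simp [hR.1]⟩
    | cons u U =>
      simp only [List.cons_append, List.cons.injEq] at hR
      exact ⟨U ++ y' :: V, by simp [hR.1]⟩
  have hmem : ∀ d, d ∈ M.root :: M.wk ↔ (d ∈ M.root :: wk' ∨ d = a ∨ d = b) := by
    intro d
    rw [hwk', hR]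
    simp only [List.mem_append, List.mem_cons]
    tauto
  have hnota : a ∉ M.root :: wk' := by
    rw [hwk']
    simp only [List.mem_append, List.mem_cons, not_or]
    exact ⟨fun hh => nUV a hh a (by simp) rfl, yna.symm, na.2⟩
  have hnotb : b ∉ M.root :: wk' := by
    rw [hwk']
    simp only [List.mem_append, List.mem_cons, not_or]
    exact ⟨fun hh => nUV b hh b (by simp) rfl, ynb.symm, nb⟩
  have hnd' : (M.root :: wk').Nodup := by
    rw [hwk', List.nodup_append, List.nodup_cons]
    refine ⟨nU, ⟨ny.2.2, nV⟩, ?_⟩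
    intro c hc e he
    apply nUV c hc
    simp only [List.mem_cons] at he ⊢
    tauto
  have hwkmem : ∀ d, d ∈ wk' ↔ (d ∈ M.wk ∧ d ≠ a ∧ d ≠ b) := by
    intro d
    have h1 := hmem d
    simp only [List.mem_cons] at h1
    have h2 : M.root ∉ wk' := (List.nodup_cons.mp hnd').1
    simp only [List.mem_cons, not_or] at hnota hnotb
    constructor
    · intro hd
      refine ⟨?_, ?_, ?_⟩
      · rcases h1.mpr (Or.inl (Or.inr hd)) with h | h
        · exact absurd (h ▸ hd) h2
        · exact h
      · rintro rfl; exact hnota.2 hd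
      · rintro rfl; exact hnotb.2 hd
    · rintro ⟨hd, hda, hdb⟩
      rcases h1.mp (Or.inr hd) with (h | h) | h | h
      · exact absurd (h ▸ hd) hrwk
      · exact h
      · exact absurd h hda
      · exact absurd h hdb
  have hseg' : Seg φ2 M.root (M.root :: wk') M.root := by
    rw [hwk']
    have nUy : ∀ d ∈ U, d ≠ y' ∧ d ≠ a ∧ d ≠ b := fun d hd =>
      ⟨nUV d hd y' (by simp), nUV d hd a (by simp), nUV d hd b (by simp)⟩
    refine Seg.append.mpr ⟨y', ?_, rfl, ?_⟩
    · exact Seg.congr (fun d hd => f2o d (nUy d hd).1 (nUy d hd).2.1 (nUy d hd).2.2) hs1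
    · rw [f2y]
      refine Seg.congr (fun d hd => f2o d ?_ ?_ ?_) hs4
      · rintro rfl; exact ny.2.2 hd
      · rintro rfl; exact na.2 hd
      · rintro rfl; exact nb hd
  have inn : ∀ d, M.inner d → d ≠ y' ∧ d ≠ a ∧ d ≠ b := by
    intro d hd
    refine ⟨?_, ?_, ?_⟩
    · rintro rfl; exact M.inner_wk d (by rw [hR]; simp) hd
    · rintro rfl; exact M.inner_wk d (by simp [hawk.1]) hd
    · rintro rfl; exact M.inner_wk d (by simp [hawk.2]) hd
  have hpow := pow_agree (φ := M.φ) (φ' := φ2) (P := M.inner)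
    (fun d hd => f2o d (inn d hd).1 (inn d hd).2.1 (inn d hd).2.2) M.phi_inner
  have hgval : M.val z = M.val a := by
    have h1 := M.val_wk b hawk.2
    rw [← hz] at h1
    rw [h1, hl, hG.inv, hval]
    group
  have hal : ∀ d, (M.inner d ∨ d ∈ wk') ↔ ((M.inner d ∨ d ∈ M.wk) ∧ d ≠ a ∧ d ≠ b) := by
    intro d
    rw [hwkmem d]
    constructor
    · rintro (h | h)
      · exact ⟨Or.inl h, (inn d h).2⟩
      · exact ⟨Or.inr h.1, h.2⟩
    · rintro ⟨h | h, h2⟩
      · exact Or.inl h
      · exact Or.inr ⟨h, h2⟩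
  refine ⟨{
    φ := φ2
    ε := ε'
    root := M.root
    wk := wk'
    inner := M.inner
    lab := M.lab
    val := M.val
    tm := M.tm
    sg := M.sg
    bs := M.bs
    pl := plB
    nd := hnd'
    seg := hseg'
    inner_wk := fun d hd => M.inner_wk d ((hmem d).mpr (Or.inl hd))
    phi_inner := fun d hd => by
      obtain ⟨q1, q2, q3⟩ := inn d hd
      rw [f2o d q1 q2 q3]; exact M.phi_inner d hd
    sg_inner := fun d hd => by
      obtain ⟨q1, q2, q3⟩ := inn d hd
      rw [f2o d q1 q2 q3]; exact M.sg_inner d hd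
    bs_inner := fun d hd => by
      obtain ⟨q1, q2, q3⟩ := inn d hd
      rw [f2o d q1 q2 q3]; exact M.bs_inner d hd
    tm_lt := M.tm_lt
    tm_succ := fun d hd h => by
      obtain ⟨q1, q2, q3⟩ := inn d hd
      rw [f2o d q1 q2 q3]; exact M.tm_succ d hd h
    tm_zero := fun d hd h => by
      obtain ⟨q1, q2, q3⟩ := inn d hd
      rw [f2o d q1 q2 q3]; exact M.tm_zero d hd h
    per_inner := fun d hd => by rw [(hpow d hd n).1]; exact M.per_inner d hd
    lab_inner := M.lab_inner
    val_inner := M.val_inner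
    val_root := M.val_root
    val_phi_root := ?_
    val_wk := ?_
    dead := ?_
    glue := ?_ }, rfl, hwk', fun _ => rfl, ?_⟩
  · by_cases hry : M.root = y'
    · rw [hry, f2y, hgval, ← hya, ← hry]
      exact M.val_phi_root
    · rw [f2o _ hry hra hrb]
      exact M.val_phi_root
  · intro d hd
    obtain ⟨h1, h2, h3⟩ := (hwkmem d).mp hd
    by_cases hdy : d = y'
    · rw [hdy, f2y, hgval, ← hya]
      rw [hdy] at h1
      exact M.val_wk y' h1
    · rw [f2o d hdy h2 h3]
      exact M.val_wk d h1
  · intro d h1 h2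
    by_cases hda : d = a
    · rw [hda, f2a]
    by_cases hdb : d = b
    · rw [hdb, f2b]
    have h3 : d ∉ M.root :: M.wk := by
      intro hh
      rcases (hmem d).mp hh with h | h | h
      · exact h2 h
      · exact hda h
      · exact hdb h
    have h6 : d ≠ y' := by rintro rfl; exact h3 (by rw [hR]; simp)
    rw [f2o d h6 hda hdb]
    exact M.dead d h1 h3
  · have : (fun d => M.inner d ∨ d ∈ wk') = fun d => (M.inner d ∨ d ∈ M.wk) ∧ d ≠ a ∧ d ≠ b := by
      funext d; exact propext (hal d)
    simp only [this]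
    exact gl
  · intro d hd
    refine ⟨hd.1, ?_⟩
    intro hh
    exact hd.2 ((hmem d).mpr (Or.inl hh))

/-- cutting off a block reading the loop -/
theorem cut (hG : GV n w gv) (hn : 0 < n) (M : PM n w gv D) (U V : List D) (y : D) (B : List D)
    (s : Bool) (hBn : B.length = n) (hR : M.root :: M.wk = U ++ y :: (B ++ V))
    (hl : ∀ k (h : k < B.length), M.lab B[k] = wl n w s k) :
    ∃ M' : PM n w gv D, M'.root = M.root ∧ M'.root :: M'.wk = U ++ y :: V ∧
      (∀ d, M'.lab d = M.lab d) ∧ (∀ d, M.free d → M'.free d) := by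
  classical
  have hnd := M.nd
  have hseg := M.seg
  rw [hR] at hnd hseg
  obtain ⟨y', hs1, hs2, hs3⟩ := Seg.append.mp hseg
  subst hs2
  obtain ⟨z, hs4, hs5⟩ := Seg.append.mp hs3
  set b0 := M.φ y' with hb0
  obtain ⟨hBget, hBz⟩ := Seg.get hs4
  rw [hBn] at hBz
  have nd1 := hnd
  rw [List.nodup_append, List.nodup_cons, List.nodup_append] at nd1
  obtain ⟨nU, ⟨ny, nB, nV, nBV⟩, nUV⟩ := nd1
  simp only [List.mem_append, not_or] at ny
  have hB0 : B[0]'(by omega) = b0 := by rw [hBget 0 (by omega)]; simp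
  have hb0B : b0 ∈ B := by rw [← hB0]; exact List.getElem_mem _
  have hφB : ∀ k (h : k + 1 < B.length), M.φ B[k] = B[k + 1] := by
    intro k h
    rw [hBget k (by omega), hBget (k + 1) h, pow_succ']
    rfl
  have hlast : M.φ (B[n - 1]'(by omega)) = z := by
    rw [hBget (n - 1) (by omega), hBz, ← Perm.mul_apply, ← pow_succ', Nat.sub_add_cancel hn]
  -- z is not in B
  have hznB : z ∉ B := by
    intro hh
    cases V with
    | nil =>
      have hzr : z = M.root := hs5
      have : M.root ∈ B := hzr ▸ hh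
      -- root is the head of the whole list
      cases U with
      | nil =>
        simp only [List.nil_append, List.cons.injEq] at hR
        exact ny.1 (hR.1 ▸ this)
      | cons u U =>
        simp only [List.cons_append, List.cons.injEq] at hR
        exact nUV u (by simp) M.root (by simp [this]) hR.1.symm
    | cons v V =>
      have : z = v := hs5.1
      exact nBV z hh v (by simp) this
  have hb0z : b0 ≠ z := fun hh => hznB (hh ▸ hb0B)
  set φ1 := swap b0 z * M.φ with hφ1
  have hsc : SameCycle M.φ b0 z := ⟨(n : ℤ), by rw [zpow_natCast, hBz]⟩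
  have pl1 : Pl φ1 M.ε := M.pl.phi_split hb0z hsc
  have f1y : φ1 y' = z := by rw [hφ1, Perm.mul_apply, ← hb0, swap_apply_left]
  have f1l : φ1 (B[n - 1]'(by omega)) = b0 := by
    rw [hφ1, Perm.mul_apply, hlast, swap_apply_right]
  have f1o : ∀ d, d ≠ y' → d ≠ B[n - 1]'(by omega) → φ1 d = M.φ d := by
    intro d h1 h2
    rw [hφ1, Perm.mul_apply, swap_apply_of_ne_of_ne]
    · intro hh; exact h1 (M.φ.injective (hh.trans hb0))
    · intro hh; exact h2 (M.φ.injective (hh.trans hlast.symm))
  have hlm : B[n - 1]'(by omega) ∈ B := List.getElem_mem _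
  have hyB : y' ∉ B := ny.1
  have inj : ∀ i j (hi : i < B.length) (hj : j < B.length), B[i] = B[j] → i = j := by
    intro i j hi hj h
    exact (List.Nodup.getElem_inj_iff nB).mp h
  -- values of φ1 on B
  have f1B : ∀ k (h : k + 1 < B.length), φ1 B[k] = B[k + 1] := by
    intro k h
    rw [f1o, hφB k h]
    · intro hh; exact hyB (hh ▸ List.getElem_mem _)
    · intro hh; have := inj _ _ _ _ hh; omega
  have idx : ∀ d, d ∈ B → ∃ k, ∃ h : k < B.length, B[k] = d ∧ B.idxOf d = k := by
    intro d hd
    have h1 : B.idxOf d < B.length := List.idxOf_lt_length_iff.mpr hd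
    exact ⟨B.idxOf d, h1, List.getElem_idxOf h1, rfl⟩
  have idxk : ∀ k (h : k < B.length), B.idxOf B[k] = k := by
    intro k h
    exact List.Nodup.idxOf_getElem nB k h
  -- root facts
  have hrB : M.root ∉ B := by
    intro this
    cases U with
    | nil =>
      simp only [List.nil_append, List.cons.injEq] at hR
      exact ny.1 (hR.1 ▸ this)
    | cons u U =>
      simp only [List.cons_append, List.cons.injEq] at hR
      exact nUV u (by simp) M.root (by simp [this]) hR.1.symm
  obtain ⟨wk', hwk'⟩ : ∃ wk', M.root :: wk' = U ++ y' :: V := by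
    cases U with
    | nil =>
      simp only [List.nil_append, List.cons.injEq] at hR
      exact ⟨V, by simp [hR.1]⟩
    | cons u U =>
      simp only [List.cons_append, List.cons.injEq] at hR
      exact ⟨U ++ y' :: V, by simp [hR.1]⟩
  have hmem : ∀ d, d ∈ M.root :: M.wk ↔ (d ∈ M.root :: wk' ∨ d ∈ B) := by
    intro d
    rw [hwk', hR]
    simp only [List.mem_append, List.mem_cons]
    constructor
    · rintro (h | h | h | h)
      · exact Or.inl (Or.inl h)
      · exact Or.inl (Or.inr (Or.inl h))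
      · exact Or.inr h
      · exact Or.inl (Or.inr (Or.inr h))
    · rintro ((h | h | h) | h)
      · exact Or.inl h
      · exact Or.inr (Or.inl h)
      · exact Or.inr (Or.inr (Or.inr h))
      · exact Or.inr (Or.inr (Or.inl h))
  have hdis : ∀ d ∈ M.root :: wk', d ∉ B := by
    intro d hd hdB
    rw [hwk'] at hd
    simp only [List.mem_append, List.mem_cons] at hd
    rcases hd with h | h | h
    · exact nUV d h d (by simp [hdB]) rfl
    · exact hyB (h ▸ hdB)
    · exact nBV d hdB d h rfl
  have hnd' : (M.root :: wk').Nodup := by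
    rw [hwk', List.nodup_append, List.nodup_cons]
    refine ⟨nU, ⟨ny.2, nV⟩, ?_⟩
    intro c hc e he
    apply nUV c hc
    simp only [List.mem_cons, List.mem_append] at he ⊢
    rcases he with h | h
    · exact Or.inl h
    · exact Or.inr (Or.inr h)
  have hrwk : M.root ∉ M.wk := (List.nodup_cons.mp M.nd).1
  have hwkmem : ∀ d, d ∈ M.wk ↔ (d ∈ wk' ∨ d ∈ B) := by
    intro d
    have h1 := hmem d
    simp only [List.mem_cons] at h1
    have h2 : M.root ∉ wk' := (List.nodup_cons.mp hnd').1
    constructor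
    · intro hd
      rcases h1.mp (Or.inr hd) with (h | h) | h
      · exact absurd (h ▸ hd) hrwk
      · exact Or.inl h
      · exact Or.inr h
    · intro hd
      have h3 : (d = M.root ∨ d ∈ wk') ∨ d ∈ B := by
        rcases hd with h | h
        · exact Or.inl (Or.inr h)
        · exact Or.inr h
      rcases h1.mpr h3 with h | h
      · exfalso
        rcases hd with hd | hd
        · exact h2 (h ▸ hd)
        · exact hrB (h ▸ hd)
      · exact h
  have hseg' : Seg φ1 M.root (M.root :: wk') M.root := by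
    rw [hwk']
    refine Seg.append.mpr ⟨y', ?_, rfl, ?_⟩
    · refine Seg.congr (fun d hd => f1o d ?_ ?_) hs1
      · exact nUV d hd y' (by simp)
      · exact nUV d hd _ (by simp)
    · rw [f1y]
      refine Seg.congr (fun d hd => f1o d ?_ ?_) hs5
      · rintro rfl; exact ny.2 hd
      · exact (nBV _ hlm d hd).symm
  have BnI : ∀ d ∈ B, ¬ M.inner d := fun d hd => M.inner_wk d ((hmem d).mpr (Or.inr hd))
  have inn : ∀ d, M.inner d → d ≠ y' ∧ d ≠ B[n - 1]'(by omega) := by
    intro d hd
    refine ⟨?_, ?_⟩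
    · rintro rfl; exact M.inner_wk d (by rw [hR]; simp) hd
    · rintro rfl; exact BnI _ hlm hd
  have hpow := pow_agree (φ := M.φ) (φ' := φ1) (P := M.inner)
    (fun d hd => f1o d (inn d hd).1 (inn d hd).2) M.phi_inner
  -- cyclic motion in B
  have hcyc : ∀ k (h : k < B.length), φ1 B[k] = B[(k + 1) % n]'(by
      rw [hBn]; exact Nat.mod_lt _ hn) := by
    intro k h
    rcases Nat.lt_or_ge (k + 1) B.length with h1 | h1
    · rw [f1B k h1]
      congr 1
      rw [Nat.mod_eq_of_lt (by omega)]
    · have h2 : k = n - 1 := by omega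
      subst h2
      rw [f1l, ← hB0]
      congr 1
      rw [Nat.sub_add_cancel hn, Nat.mod_self]
  have hcycp : ∀ i k (h : k < B.length), (φ1 ^ i) B[k] = B[(k + i) % n]'(by
      rw [hBn]; exact Nat.mod_lt _ hn) := by
    intro i
    induction i with
    | zero =>
      intro k h
      simp only [pow_zero, Perm.one_apply, Nat.add_zero]
      congr 1
      rw [Nat.mod_eq_of_lt (by omega)]
    | succ i ih =>
      intro k h
      have e1 : (φ1 ^ (i + 1)) B[k] = φ1 ((φ1 ^ i) B[k]) := by rw [pow_succ']; rfl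
      rw [e1, ih k h, hcyc]
      have e2 : ((k + i) % n + 1) % n = (k + (i + 1)) % n := by
        rw [Nat.mod_add_mod, Nat.add_assoc]
      simp only [e2]
  -- values along B
  have hBwk : ∀ d ∈ B, d ∈ M.wk := fun d hd => (hwkmem d).mpr (Or.inr hd)
  have hvalB : ∀ k (h : k < B.length), M.val B[k] = M.val b0 * pre n w gv s k := by
    intro k
    induction k with
    | zero =>
      intro h
      rw [hB0]
      simp [pre]
    | succ k ih =>
      intro h
      have h1 := M.val_wk (B[k]'(by omega)) (hBwk _ (List.getElem_mem _))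
      rw [hφB k h, ih (by omega), hl k (by omega), mul_assoc] at h1
      exact h1
  have hone : pre n w gv s n = 1 := by
    cases s
    · rw [pre_false hG n le_rfl, Nat.sub_self]; rfl
    · exact hG.one
  have hvalz : M.val z = M.val b0 := by
    have h1 := M.val_wk (B[n - 1]'(by omega)) (hBwk _ (List.getElem_mem _))
    rw [hlast, hvalB _ (by omega), hl _ (by omega), mul_assoc] at h1
    have h2 : pre n w gv s (n - 1) * gv (wl n w s (n - 1)) = pre n w gv s n := by
      have : n = (n - 1) + 1 := by omega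
      have h3 : pre n w gv s ((n - 1) + 1) = pre n w gv s (n - 1) * gv (wl n w s (n - 1)) := rfl
      rw [← h3, ← this]
    rw [h1, h2, hone, mul_one]
  let tm' : D → ℕ := fun d => if d ∈ B then B.idxOf d else M.tm d
  let sg' : D → Bool := fun d => if d ∈ B then s else M.sg d
  let bs' : D → G := fun d => if d ∈ B then M.val b0 else M.bs d
  have tB : ∀ k (h : k < B.length), tm' B[k] = k := by
    intro k h
    show (if B[k] ∈ B then B.idxOf B[k] else M.tm B[k]) = k
    rw [if_pos (List.getElem_mem _), idxk k h]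
  have sB : ∀ d ∈ B, sg' d = s := fun d hd => if_pos hd
  have bB : ∀ d ∈ B, bs' d = M.val b0 := fun d hd => if_pos hd
  have tI : ∀ d, d ∉ B → tm' d = M.tm d := fun d hd => if_neg hd
  have sI : ∀ d, d ∉ B → sg' d = M.sg d := fun d hd => if_neg hd
  have bI : ∀ d, d ∉ B → bs' d = M.bs d := fun d hd => if_neg hd
  have iB : ∀ d, M.inner d → d ∉ B := fun d hd hh => BnI d hh hd
  refine ⟨{
    φ := φ1
    ε := M.ε
    root := M.root
    wk := wk'
    inner := fun d => M.inner d ∨ d ∈ B
    lab := M.lab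
    val := M.val
    tm := tm'
    sg := sg'
    bs := bs'
    pl := pl1
    nd := hnd'
    seg := hseg'
    inner_wk := ?_
    phi_inner := ?_
    sg_inner := ?_
    bs_inner := ?_
    tm_lt := ?_
    tm_succ := ?_
    tm_zero := ?_
    per_inner := ?_
    lab_inner := ?_
    val_inner := ?_
    val_root := M.val_root
    val_phi_root := ?_
    val_wk := ?_
    dead := ?_
    glue := ?_ }, rfl, hwk', fun _ => rfl, ?_⟩
  · rintro d hd (h | h)
    · exact M.inner_wk d ((hmem d).mpr (Or.inl hd)) h
    · exact hdis d hd h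
  · rintro d (h | h)
    · obtain ⟨q1, q2⟩ := inn d h
      rw [f1o d q1 q2]; exact Or.inl (M.phi_inner d h)
    · obtain ⟨k, hk, rfl, _⟩ := idx d h
      rw [hcyc k hk]; exact Or.inr (List.getElem_mem _)
  · rintro d (h | h)
    · obtain ⟨q1, q2⟩ := inn d h
      rw [f1o d q1 q2, sI _ (iB _ (M.phi_inner d h)), sI _ (iB _ h)]; exact M.sg_inner d h
    · obtain ⟨k, hk, rfl, _⟩ := idx d h
      rw [hcyc k hk, sB _ (List.getElem_mem _), sB _ (List.getElem_mem _)]
  · rintro d (h | h)
    · obtain ⟨q1, q2⟩ := inn d h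
      rw [f1o d q1 q2, bI _ (iB _ (M.phi_inner d h)), bI _ (iB _ h)]; exact M.bs_inner d h
    · obtain ⟨k, hk, rfl, _⟩ := idx d h
      rw [hcyc k hk, bB _ (List.getElem_mem _), bB _ (List.getElem_mem _)]
  · rintro d (h | h)
    · rw [tI _ (iB _ h)]; exact M.tm_lt d h
    · obtain ⟨k, hk, rfl, _⟩ := idx d h
      rw [tB k hk]; omega
  · rintro d (h | h) ht
    · obtain ⟨q1, q2⟩ := inn d h
      rw [tI _ (iB _ h)] at ht ⊢
      rw [f1o d q1 q2, tI _ (iB _ (M.phi_inner d h))]; exact M.tm_succ d h ht
    · obtain ⟨k, hk, rfl, _⟩ := idx d h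
      rw [tB k hk] at ht ⊢
      rw [f1B k (by omega), tB]
  · rintro d (h | h) ht
    · obtain ⟨q1, q2⟩ := inn d h
      rw [tI _ (iB _ h)] at ht
      rw [f1o d q1 q2, tI _ (iB _ (M.phi_inner d h))]; exact M.tm_zero d h ht
    · obtain ⟨k, hk, rfl, _⟩ := idx d h
      rw [tB k hk] at ht
      have h2 : k = n - 1 := by omega
      subst h2
      rw [f1l, ← hB0, tB]
  · rintro d (h | h)
    · rw [(hpow d h n).1]; exact M.per_inner d h
    · obtain ⟨k, hk, rfl, _⟩ := idx d h
      rw [hcycp n k hk]
      congr 1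
      rw [Nat.add_mod_right, Nat.mod_eq_of_lt (by omega)]
  · rintro d (h | h)
    · rw [tI _ (iB _ h), sI _ (iB _ h)]; exact M.lab_inner d h
    · obtain ⟨k, hk, rfl, _⟩ := idx d h
      rw [tB k hk, sB _ (List.getElem_mem _)]; exact hl k hk
  · rintro d (h | h)
    · rw [tI _ (iB _ h), sI _ (iB _ h), bI _ (iB _ h)]; exact M.val_inner d h
    · obtain ⟨k, hk, rfl, _⟩ := idx d h
      rw [tB k hk, sB _ (List.getElem_mem _), bB _ (List.getElem_mem _)]; exact hvalB k hk
  · have hrl : M.root ≠ B[n - 1]'(by omega) := fun hh => hrB (hh ▸ hlm)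
    by_cases hry : M.root = y'
    · rw [hry, f1y, hvalz, hb0, ← hry]
      exact M.val_phi_root
    · rw [f1o _ hry hrl]
      exact M.val_phi_root
  · intro d hd
    have h1 : d ∈ M.wk := (hwkmem d).mpr (Or.inl hd)
    have h2 : d ≠ B[n - 1]'(by omega) := by
      rintro rfl
      exact hdis _ (List.mem_cons_of_mem _ hd) hlm
    by_cases hdy : d = y'
    · rw [hdy, f1y, hvalz, hb0]
      rw [hdy] at h1
      exact M.val_wk y' h1
    · rw [f1o d hdy h2]
      exact M.val_wk d h1
  · intro d h1 h2
    have h3 : d ∉ M.root :: M.wk := by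
      intro hh
      rcases (hmem d).mp hh with h | h
      · exact h2 h
      · exact h1 (Or.inr h)
    rw [f1o d]
    · exact M.dead d (fun hh => h1 (Or.inl hh)) h3
    · rintro rfl; exact h3 (by rw [hR]; simp)
    · rintro rfl; exact h1 (Or.inr hlm)
  · have : (fun d => (M.inner d ∨ d ∈ B) ∨ d ∈ wk') = fun d => M.inner d ∨ d ∈ M.wk := by
      funext d
      rw [hwkmem d]
      apply propext
      constructor
      · rintro ((h | h) | h)
        · exact Or.inl h
        · exact Or.inr (Or.inr h)
        · exact Or.inr (Or.inl h)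
      · rintro (h | h | h)
        · exact Or.inl (Or.inl h)
        · exact Or.inr h
        · exact Or.inl (Or.inr h)
    simp only [this]
    exact M.glue
  · intro d hd
    refine ⟨?_, ?_⟩
    · rintro (h | h)
      · exact hd.1 h
      · exact hd.2 ((hmem d).mpr (Or.inr h))
    · intro hh
      exact hd.2 ((hmem d).mpr (Or.inl hh))

end PM

end MM31
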