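import Pool.Agent.LibMM31.Build2

/-!
# Every word of value one bounds a planar map
-/

set_option linter.unusedSectionVars false
set_option linter.style.haveILetI false

namespace MM31

open Equiv Equiv.Perm

variable {X G : Type} [Group G]

/-- the word read along the loop in direction `s`, as a list -/
def wlist (n : ℕ) (w : ℕ → Lt X) (s : Bool) : List (Lt X) := (List.range n).map (wl n w s)

theorem wlist_length (n : ℕ) (w : ℕ → Lt X) (s : Bool) : (wlist n w s).length = n := by
  simp [wlist]

theorem wlist_get (n : ℕ) (w : ℕ → Lt X) (s : Bool) (k : ℕ) (h : k < (wlist n w s).length) :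
    (wlist n w s)[k] = wl n w s k := by
  simp [wlist]

theorem wlist_not (n : ℕ) (w : ℕ → Lt X) (s : Bool) :
    wlist n w (!s) = FreeGroup.invRev (wlist n w s) := by
  apply List.ext_getElem
  · simp [wlist, FreeGroup.invRev]
  · intro i h1 h2
    rw [wlist_length] at h1
    rw [wlist_get]
    simp only [FreeGroup.invRev, List.getElem_reverse, List.getElem_map, List.length_map]
    rw [wlist_get]
    have h3 := wl_flip n w s (n - 1 - i) (by omega)
    have e1 : n - 1 - (n - 1 - i) = i := by omega
    rw [e1] at h3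
    rw [h3]
    simp only [wlist_length]
    rfl

/-- a word bounds planar maps -/
def Dg (n : ℕ) (w : ℕ → Lt X) (gv : Lt X → G) (W : List (Lt X)) : Prop :=
  ∀ K : ℕ, ∃ (D : Type) (_ : Fintype D) (_ : DecidableEq D) (M : PM n w gv D) (r : Lt X),
    (M.root :: M.wk).map M.lab = r :: W ∧ K ≤ Nat.card {d : D // M.free d}

variable {n : ℕ} {w : ℕ → Lt X} {gv : Lt X → G}

theorem Dg.nil : Dg n w gv [] := by
  intro K
  refine ⟨Fin (K + 1), inferInstance, inferInstance, {
    φ := 1
    ε := 1
    root := 0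
    wk := []
    inner := fun _ => False
    lab := fun _ => w 0
    val := fun _ => 1
    tm := fun _ => 0
    sg := fun _ => true
    bs := fun _ => 1
    pl := Pl.one
    nd := by simp
    seg := ⟨rfl, rfl⟩
    inner_wk := fun _ _ h => h
    phi_inner := fun _ h => h.elim
    sg_inner := fun _ h => h.elim
    bs_inner := fun _ h => h.elim
    tm_lt := fun _ h => h.elim
    tm_succ := fun _ h => h.elim
    tm_zero := fun _ h => h.elim
    per_inner := fun _ h => h.elim
    lab_inner := fun _ h => h.elim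
    val_inner := fun _ h => h.elim
    val_root := rfl
    val_phi_root := rfl
    val_wk := fun _ h => by simp at h
    dead := fun _ _ _ => rfl
    glue := ⟨fun d h => by simp at h, fun d h => by simp at h, fun d h => by simp at h,
      fun d h => by simp at h, fun _ _ => rfl⟩ }, w 0, by simp, ?_⟩
  have : {d : Fin (K + 1) // ¬ False ∧ d ∉ [(0 : Fin (K + 1))]} ≃ {d : Fin (K + 1) // d ≠ 0} :=
    Equiv.subtypeEquivRight (fun d => by simp)
  unfold PM.free
  simp only
  rw [Nat.card_congr this, Nat.card_eq_fintype_card]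
  have h2 := Fintype.card_subtype_compl (fun d : Fin (K + 1) => d = 0)
  have h3 : Fintype.card {d : Fin (K + 1) // d = 0} = 1 := by simp
  have h4 : Fintype.card {d : Fin (K + 1) // d ≠ 0} =
    Fintype.card {d : Fin (K + 1) // ¬ (d = 0)} := rfl
  rw [h4, h2, h3, Fintype.card_fin]
  omega

theorem split_map {α β : Type} {f : α → β} {R : List α} {r : β} {A B : List β}
    (h : R.map f = r :: (A ++ B)) :
    ∃ U y V, R = U ++ y :: V ∧ (U ++ [y]).map f = r :: A ∧ V.map f = B := by
  have h' : R.map f = (r :: A) ++ B := by simpa using h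
  obtain ⟨R1, R2, h1, h2, h3⟩ := List.map_eq_append_iff.mp h'
  have hne : R1 ≠ [] := by
    rintro rfl
    simp at h2
  refine ⟨R1.dropLast, R1.getLast hne, R2, ?_, ?_, h3⟩
  · rw [h1]
    conv_lhs => rw [← List.dropLast_append_getLast hne]
    simp
  · rw [List.dropLast_append_getLast hne]
    exact h2

theorem card_free_le {D : Type} [Finite D] (P Q : D → Prop) (h : ∀ d, P d → Q d) :
    Nat.card {d // P d} ≤ Nat.card {d // Q d} := by
  apply Nat.card_le_card_of_injective (fun x : {d // P d} => (⟨x.1, h _ x.2⟩ : {d // Q d}))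
  intro x y hxy
  apply Subtype.ext
  have h1 := congrArg Subtype.val hxy
  exact h1

theorem card_free_sub {D : Type} [Finite D] (P : D → Prop) (a b : D) (K : ℕ)
    (h : K + 2 ≤ Nat.card {d // P d}) : K ≤ Nat.card {d // P d ∧ d ≠ a ∧ d ≠ b} := by
  classical
  haveI : Fintype D := Fintype.ofFinite D
  have e1 : Nat.card {d // P d} = (Finset.univ.filter P).card := by
    rw [Nat.card_eq_fintype_card, Fintype.card_subtype]
  have e2 : Nat.card {d // P d ∧ d ≠ a ∧ d ≠ b} =
      (Finset.univ.filter (fun d => P d ∧ d ≠ a ∧ d ≠ b)).card := by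
    rw [Nat.card_eq_fintype_card, Fintype.card_subtype]
  rw [e1] at h
  rw [e2]
  have hsub : ((Finset.univ.filter P).erase a).erase b ⊆
      Finset.univ.filter (fun d => P d ∧ d ≠ a ∧ d ≠ b) := by
    intro d hd
    simp only [Finset.mem_erase, Finset.mem_filter, Finset.mem_univ, true_and] at hd ⊢
    exact ⟨hd.2.2, hd.2.1, hd.1⟩
  have h1 := Finset.card_le_card hsub
  have h2 := Finset.pred_card_le_card_erase (s := (Finset.univ.filter P).erase a) (a := b)
  have h3 := Finset.pred_card_le_card_erase (s := Finset.univ.filter P) (a := a)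
  omega

theorem two_free {D : Type} [Finite D] (P : D → Prop) (K : ℕ)
    (h : K + 2 ≤ Nat.card {d // P d}) : ∃ a b, a ≠ b ∧ P a ∧ P b := by
  classical
  haveI : Fintype D := Fintype.ofFinite D
  have e1 : Nat.card {d // P d} = (Finset.univ.filter P).card := by
    rw [Nat.card_eq_fintype_card, Fintype.card_subtype]
  rw [e1] at h
  obtain ⟨a, ha, b, hb, hab⟩ := Finset.one_lt_card.mp (by omega : 1 < (Finset.univ.filter P).card)
  simp only [Finset.mem_filter, Finset.mem_univ, true_and] at ha hb
  exact ⟨a, b, hab, ha, hb⟩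

theorem Dg.insert (hG : GV n w gv) {A B : List (Lt X)} (x : Lt X) (h : Dg n w gv (A ++ B)) :
    Dg n w gv (A ++ x :: linv x :: B) := by
  intro K
  obtain ⟨D, i1, i2, M, r, h1, h2⟩ := h (K + 2)
  obtain ⟨a, b, hab, ha, hb⟩ := two_free M.free K h2
  obtain ⟨U, y, V, h3, h4, h5⟩ := split_map h1
  obtain ⟨M', g1, g2, g3, g4, g5, g6⟩ := M.insert hG U V y h3 x a b hab ha hb
  refine ⟨D, i1, i2, M', r, ?_, ?_⟩
  · rw [g2]
    have e0 : ∀ d ∈ U ++ y :: V, M'.lab d = M.lab d := by
      intro d hd
      rw [← h3] at hd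
      apply g3
      · rintro rfl; exact ha.2 hd
      · rintro rfl; exact hb.2 hd
    have e1 : (U ++ [y]).map M'.lab = r :: A := by
      rw [← h4]
      apply List.map_congr_left
      intro d hd
      apply e0
      simp only [List.mem_append, List.mem_cons, List.not_mem_nil, or_false] at hd ⊢
      rcases hd with h | h
      · exact Or.inl h
      · exact Or.inr (Or.inl h)
    have e2 : V.map M'.lab = B := by
      rw [← h5]
      apply List.map_congr_left
      intro d hd
      apply e0
      simp [hd]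
    have e3 : U ++ y :: a :: b :: V = (U ++ [y]) ++ a :: b :: V := by simp
    rw [e3, List.map_append, e1, List.map_cons, List.map_cons, g4, g5, e2]
    simp
  · have := card_free_sub M.free a b K h2
    refine le_trans this (card_free_le _ _ (fun d hd => (g6 d).mpr hd))

theorem Dg.delete (hG : GV n w gv) {A B : List (Lt X)} (x : Lt X)
    (h : Dg n w gv (A ++ x :: linv x :: B)) : Dg n w gv (A ++ B) := by
  intro K
  obtain ⟨D, i1, i2, M, r, h1, h2⟩ := h K
  obtain ⟨U, y, V, h3, h4, h5⟩ := split_map h1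
  match V, h3, h5 with
  | a :: b :: V, h3, h5 =>
    simp only [List.map_cons, List.cons.injEq] at h5
    obtain ⟨ha, hb, hV⟩ := h5
    obtain ⟨M', g1, g2, g3, g4⟩ := M.delete hG U V y a b h3 (by rw [ha, hb])
    refine ⟨D, i1, i2, M', r, ?_, le_trans h2 (card_free_le _ _ g4)⟩
    rw [g2]
    have e1 : (U ++ [y]).map M'.lab = r :: A := by
      rw [← h4]
      apply List.map_congr_left
      intro d _
      exact g3 d
    have e2 : V.map M'.lab = B := by
      rw [← hV]
      apply List.map_congr_left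
      intro d _
      exact g3 d
    have e3 : U ++ y :: V = (U ++ [y]) ++ V := by simp
    rw [e3, List.map_append, e1, e2]
    simp
  | [a], h3, h5 => simp at h5
  | [], h3, h5 => simp at h5

theorem Dg.cut (hG : GV n w gv) (hn : 0 < n) {A B : List (Lt X)} (s : Bool)
    (h : Dg n w gv (A ++ (wlist n w s ++ B))) : Dg n w gv (A ++ B) := by
  intro K
  obtain ⟨D, i1, i2, M, r, h1, h2⟩ := h K
  obtain ⟨U, y, V', h3, h4, h5⟩ := split_map h1
  obtain ⟨C, V, h6, h7, h8⟩ := List.map_eq_append_iff.mp h5
  subst h6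
  have hlen : C.length = n := by
    have := congrArg List.length h7
    rwa [List.length_map, wlist_length] at this
  obtain ⟨M', g1, g2, g3, g4⟩ := M.cut hG hn U V y C s hlen h3 (by
    intro k hk
    have h9 : (C.map M.lab)[k]'(by simpa using hk) = M.lab C[k] := by simp
    rw [← h9]
    simp only [h7]
    exact wlist_get n w s k _)
  refine ⟨D, i1, i2, M', r, ?_, le_trans h2 (card_free_le _ _ g4)⟩
  rw [g2]
  have e1 : (U ++ [y]).map M'.lab = r :: A := by
    rw [← h4]
    apply List.map_congr_left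
    intro d _
    exact g3 d
  have e2 : V.map M'.lab = B := by
    rw [← h8]
    apply List.map_congr_left
    intro d _
    exact g3 d
  have e3 : U ++ y :: V = (U ++ [y]) ++ V := by simp
  rw [e3, List.map_append, e1, e2]
  simp

theorem Dg.red (hG : GV n w gv) {L L' : List (Lt X)} (h : FreeGroup.Red L L') :
    Dg n w gv L ↔ Dg n w gv L' := by
  induction h with
  | refl => exact Iff.rfl
  | tail _ hs ih =>
    rw [ih]
    cases hs with
    | not =>
      constructor
      · intro hh; exact Dg.delete hG _ hh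
      · intro hh; exact Dg.insert hG _ hh

theorem Dg.congr (hG : GV n w gv) {L L' : List (Lt X)}
    (h : FreeGroup.mk L = FreeGroup.mk L') (hL : Dg n w gv L) : Dg n w gv L' := by
  obtain ⟨L3, h1, h2⟩ := FreeGroup.Red.exact.mp h
  exact (Dg.red hG h2).mpr ((Dg.red hG h1).mp hL)

/-- inserting words -/
def Tg (n : ℕ) (w : ℕ → Lt X) (gv : Lt X → G) (g : FreeGroup X) : Prop :=
  ∀ U V W : List (Lt X), Dg n w gv (U ++ V) → FreeGroup.mk W = g → Dg n w gv (U ++ (W ++ V))

theorem Tg.one (hG : GV n w gv) : Tg n w gv 1 := by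
  intro U V W h hW
  apply Dg.congr hG _ h
  rw [← FreeGroup.mul_mk, ← FreeGroup.mul_mk, ← FreeGroup.mul_mk, hW, one_mul]

theorem Tg.mul (hG : GV n w gv) {g h : FreeGroup X} (hg : Tg n w gv g) (hh : Tg n w gv h) :
    Tg n w gv (g * h) := by
  intro U V W hUV hW
  obtain ⟨Wg, hWg⟩ := Quot.exists_rep g
  obtain ⟨Wh, hWh⟩ := Quot.exists_rep h
  have hWg' : FreeGroup.mk Wg = g := hWg
  have hWh' : FreeGroup.mk Wh = h := hWh
  have h1 := hg U V Wg hUV hWg'
  have h2 : Dg n w gv ((U ++ Wg) ++ V) := by simpa using h1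
  have h3 := hh (U ++ Wg) V Wh h2 hWh'
  apply Dg.congr hG _ h3
  rw [← FreeGroup.mul_mk, ← FreeGroup.mul_mk, ← FreeGroup.mul_mk, ← FreeGroup.mul_mk,
    ← FreeGroup.mul_mk, hW, hWg', hWh']
  group

theorem Tg.conj (hG : GV n w gv) (hn : 0 < n) (c : FreeGroup X) (s : Bool) :
    Tg n w gv (c * FreeGroup.mk (wlist n w s) * c⁻¹) := by
  intro U V W hUV hW
  obtain ⟨C, hC⟩ := Quot.exists_rep c
  have hC' : FreeGroup.mk C = c := hC
  have h1 : Dg n w gv ((U ++ C ++ wlist n w s) ++ (wlist n w (!s) ++ (FreeGroup.invRev C ++ V))) := by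
    apply Dg.congr hG _ hUV
    rw [wlist_not]
    simp only [← FreeGroup.mul_mk, ← FreeGroup.inv_mk]
    group
  have h2 := Dg.cut hG hn (!s) h1
  apply Dg.congr hG _ h2
  simp only [← FreeGroup.mul_mk, ← FreeGroup.inv_mk]
  rw [hW, hC']
  group

theorem Tg.normalClosure (hG : GV n w gv) (hn : 0 < n) {g : FreeGroup X}
    (hg : g ∈ Subgroup.normalClosure {FreeGroup.mk (wlist n w true)}) :
    Tg n w gv g ∧ Tg n w gv g⁻¹ := by
  unfold Subgroup.normalClosure at hg
  induction hg using Subgroup.closure_induction with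
  | mem x hx =>
    rw [Group.mem_conjugatesOfSet_iff] at hx
    obtain ⟨a, ha, hax⟩ := hx
    rw [Set.mem_singleton_iff] at ha
    subst ha
    obtain ⟨c, hc⟩ := isConj_iff.mp hax
    subst hc
    refine ⟨Tg.conj hG hn c true, ?_⟩
    have h2 := Tg.conj hG hn c false
    have e1 : (c * FreeGroup.mk (wlist n w true) * c⁻¹)⁻¹ =
        c * FreeGroup.mk (wlist n w false) * c⁻¹ := by
      have : wlist n w false = FreeGroup.invRev (wlist n w true) := wlist_not n w true
      rw [this, ← FreeGroup.inv_mk]
      group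
    rw [e1]
    exact h2
  | one => rw [inv_one]; exact ⟨Tg.one hG, Tg.one hG⟩
  | mul x y _ _ hx hy =>
    refine ⟨Tg.mul hG hx.1 hy.1, ?_⟩
    rw [mul_inv_rev]
    exact Tg.mul hG hy.2 hx.2
  | inv x _ hx => rw [inv_inv]; exact ⟨hx.2, hx.1⟩

/-- van Kampen: a word in the normal closure of `w` bounds a planar map -/
theorem Dg.of_mem (hG : GV n w gv) (hn : 0 < n) {W : List (Lt X)}
    (hW : FreeGroup.mk W ∈ Subgroup.normalClosure {FreeGroup.mk (wlist n w true)}) :
    Dg n w gv W := by
  have := (Tg.normalClosure hG hn hW).1 [] [] W Dg.nil rfl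
  simpa using this

end MM31
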