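import Pool.Agent.LibMM31.WDisch

/-!
# Weight certificates: no reduced walk diagram exists if suitable weights exist
-/

set_option linter.unusedSectionVars false
set_option linter.style.haveILetI false

namespace MM31

open Equiv Equiv.Perm Finset

section orbits

variable {D : Type} [Fintype D] [DecidableEq D]

open Classical in
/-- a class of a permutation as the image of an interval -/
theorem class_eq_image (ν : Perm D) (x : D) :
    (univ.filter (fun d => cs ν x d)) =
      (range (Function.minimalPeriod ν x)).image (fun i => (ν ^ i) x) := by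
  ext d
  simp only [Finset.mem_filter, Finset.mem_univ, true_and, Finset.mem_image, Finset.mem_range]
  constructor
  · intro h
    obtain ⟨i, hi⟩ := SameCycle.exists_nat_pow_eq (h : SameCycle ν x d)
    have hp : 0 < Function.minimalPeriod ν x := by
      apply Function.minimalPeriod_pos_of_mem_periodicPts
      refine ⟨orderOf ν, orderOf_pos ν, ?_⟩
      show (ν^[orderOf ν]) x = x
      rw [← Equiv.Perm.coe_pow, pow_orderOf_eq_one]
      rfl
    refine ⟨i % Function.minimalPeriod ν x, Nat.mod_lt _ hp, ?_⟩
    rw [← hi, Equiv.Perm.coe_pow, Equiv.Perm.coe_pow, Function.iterate_mod_minimalPeriod_eq]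
  · rintro ⟨i, _, rfl⟩
    exact ⟨(i : ℤ), by rw [zpow_natCast]⟩

open Classical in
theorem class_sum (ν : Perm D) (x : D) (f : D → ℤ) :
    ∑ d with cs ν x d, f d =
      ∑ i ∈ range (Function.minimalPeriod ν x), f ((ν ^ i) x) := by
  rw [class_eq_image, Finset.sum_image]
  intro i hi j hj h
  have h1 := Function.iterate_injOn_Iio_minimalPeriod (f := ν) (x := x)
  apply h1 (by simpa using hi) (by simpa using hj)
  simpa [Equiv.Perm.coe_pow] using h

theorem minPer_pos (ν : Perm D) (x : D) : 0 < Function.minimalPeriod ν x := by
  apply Function.minimalPeriod_pos_of_mem_periodicPts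
  refine ⟨orderOf ν, orderOf_pos ν, ?_⟩
  show (ν^[orderOf ν]) x = x
  rw [← Equiv.Perm.coe_pow, pow_orderOf_eq_one]
  rfl

theorem pow_minPer (ν : Perm D) (x : D) : (ν ^ (Function.minimalPeriod ν x)) x = x := by
  rw [Equiv.Perm.coe_pow]
  exact Function.iterate_minimalPeriod

open Classical in
/-- integer version of `ncl_weight` -/
theorem ncl_weight_int (r : Setoid D) (c : ℤ) (f : D → ℤ)
    (h : ∀ x : D, c ≤ ∑ d with r x d, f d) : c * ncl r ≤ ∑ d, f d := by
  haveI : Fintype (Quotient r) := Fintype.ofFinite _
  have hcard : ncl r = Fintype.card (Quotient r) := Nat.card_eq_fintype_card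
  have hf : ∑ d, f d = ∑ q : Quotient r, ∑ d with Quotient.mk r d = q, f d :=
    (Finset.sum_fiberwise _ _ _).symm
  rw [hf, hcard]
  have e1 : c * (Fintype.card (Quotient r) : ℤ) = ∑ _q : Quotient r, c := by
    rw [Finset.sum_const, Finset.card_univ, nsmul_eq_mul, mul_comm]
  rw [e1]
  apply Finset.sum_le_sum
  intro q _
  induction q using Quotient.inductionOn with
  | h x =>
    have hset : ∀ d, (Quotient.mk r d = Quotient.mk r x) ↔ r x d := by
      intro d
      constructor
      · intro h; exact r.symm' (Quotient.exact h)
      · intro h; exact Quotient.sound (r.symm' h)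
    simp only [hset]
    exact h x

end orbits

namespace WD

variable {X V : Type} {Γ : PG X V} {n κ : ℕ} {w : ℕ → Lt X} {cl : ℕ → V}
variable {D : Type} [Fintype D] [DecidableEq D]

open Classical in
/-- The abstract discharging lemma. -/
theorem no_weights (M : WD Γ n κ w cl D) (m : ℤ) (hm : 0 < m) (p : D → ℤ)
    (hE : ∀ d, M.al d → p d + p (M.ε d) ≤ m)
    (hV : ∀ x, M.al x → m ≤ ∑ d with cs (M.φ * M.ε) x d,
      (p d - if M.inner d ∧ M.tm d = 0 then m else 0)) : False := by
  set A := (univ.filter (fun d => M.al d)).card with hA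
  set δ := (univ.filter (fun d => ¬ M.al d)).card with hδ
  set F0 := (univ.filter (fun d => M.inner d ∧ M.tm d = 0)).card with hF
  have heul := M.euler
  rw [← hA, ← hδ, ← hF] at heul
  -- the total weight
  let f : D → ℤ := fun d => if M.al d then (p d - if M.inner d ∧ M.tm d = 0 then m else 0) else m
  have h1 : m * (ncl (cs (M.φ * M.ε)) : ℤ) ≤ ∑ d, f d := by
    apply ncl_weight_int
    intro x
    by_cases hx : M.al x
    · refine le_trans (hV x hx) (le_of_eq ?_)
      apply Finset.sum_congr rfl
      intro d hd
      simp only [Finset.mem_filter, Finset.mem_univ, true_and] at hd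
      have hal : M.al d := by
        have hcl : ∀ e, M.al e → M.al ((M.φ * M.ε) e) := by
          intro e he
          rw [Perm.mul_apply]
          rcases M.al_eps he with h | h
          · exact Or.inl (M.phi_inner _ h)
          · exact Or.inr (M.phi_wk _ h)
        obtain ⟨i, hi⟩ := SameCycle.exists_nat_pow_eq (hd : SameCycle (M.φ * M.ε) x d)
        rw [← hi]
        clear hi
        induction i with
        | zero => simpa using hx
        | succ i ih => rw [pow_succ', Perm.mul_apply]; exact hcl _ ih
      simp only [f, if_pos hal]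
    · have hfix : (M.φ * M.ε) x = x := by
        rw [Perm.mul_apply, M.glue.dead x hx, M.phi_dead' hx]
      have hset : (univ.filter (fun d => cs (M.φ * M.ε) x d)) = {x} := by
        ext d
        simp only [Finset.mem_filter, Finset.mem_univ, true_and, Finset.mem_singleton]
        constructor
        · intro hd
          obtain ⟨i, hi⟩ := SameCycle.exists_nat_pow_eq (hd : SameCycle (M.φ * M.ε) x d)
          rw [← hi]
          clear hi
          induction i with
          | zero => simp
          | succ i ih => rw [pow_succ', Perm.mul_apply, ih, hfix]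
        · rintro rfl; exact SameCycle.refl _ _
      rw [hset, Finset.sum_singleton]
      simp only [f, if_neg hx]
      exact le_refl m
  have h2 : ∑ d, f d = ∑ d with M.al d, p d - m * F0 + m * δ := by
    have e1 : ∑ d, f d = ∑ d with M.al d, (p d - if M.inner d ∧ M.tm d = 0 then m else 0) +
        ∑ d with ¬ M.al d, m := by
      simp only [f]
      rw [Finset.sum_ite]
    rw [e1, Finset.sum_sub_distrib, Finset.sum_const, nsmul_eq_mul, ← hδ]
    have e2 : ∑ d with M.al d, (if M.inner d ∧ M.tm d = 0 then m else 0) = m * F0 := by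
      rw [← Finset.sum_filter, Finset.filter_filter, Finset.sum_const, nsmul_eq_mul, mul_comm]
      congr 2
      rw [hF]
      congr 1
      ext d
      simp only [Finset.mem_filter, Finset.mem_univ, true_and]
      constructor
      · exact fun h => h.2
      · exact fun h => ⟨Or.inl h.1, h⟩
    rw [e2]
    ring
  have h3 : 2 * ∑ d with M.al d, p d ≤ m * A := by
    have e1 : ∑ d with M.al d, p (M.ε d) = ∑ d with M.al d, p d := by
      refine Finset.sum_nbij' (fun d => M.ε d) (fun d => M.ε d) ?_ ?_ ?_ ?_ ?_
      · intro d hd
        simp only [Finset.mem_filter, Finset.mem_univ, true_and] at hd ⊢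
        exact M.al_eps hd
      · intro d hd
        simp only [Finset.mem_filter, Finset.mem_univ, true_and] at hd ⊢
        exact M.al_eps hd
      · intro d _; exact M.eps_eps d
      · intro d _; exact M.eps_eps d
      · intro d _; rfl
    have e2 : ∑ d with M.al d, (p d + p (M.ε d)) ≤ ∑ d with M.al d, m := by
      apply Finset.sum_le_sum
      intro d hd
      simp only [Finset.mem_filter, Finset.mem_univ, true_and] at hd
      exact hE d hd
    rw [Finset.sum_add_distrib, e1, Finset.sum_const, nsmul_eq_mul, ← hA] at e2
    linarith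
  have h4 : (ncl (cs (M.φ * M.ε)) : ℤ) = cyc (M.φ * M.ε) := rfl
  rw [h4, h2] at h1
  have h5 : (A : ℤ) + 2 * δ + 2 ≤ 2 * F0 + 2 * (cyc (M.φ * M.ε) : ℕ) := by
    exact_mod_cast heul
  have h6 : m * ((A : ℤ) + 2 * δ + 2) ≤ m * (2 * F0 + 2 * (cyc (M.φ * M.ε) : ℕ)) :=
    mul_le_mul_of_nonneg_left h5 hm.le
  nlinarith [h1, h3, h6, hm]

end WD

end MM31
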