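import Pool.Agent.LibMM31.Cert

/-!
# The certificate theorem for weights on pairs of germs
-/

set_option linter.unusedSectionVars false
set_option linter.style.haveILetI false

namespace MM31

open Equiv Equiv.Perm Finset

section germs

variable {X V : Type} (Γ : PG X V) (n : ℕ) (w : ℕ → Lt X) (cl : ℕ → V)

/-- the same side of an edge seen from its other end -/
def Gm.fl : Gm X V → Gm X V
  | .L s k => .L (!s) (n - 1 - k)
  | .W p x q b => .W q (linv x) p (!b)

/-- germs of faces on the right of an edge -/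
def Gm.rt : Gm X V → Prop
  | .L _ k => k < n
  | .W p x q b => Γ.E p x q ∧ b = false

/-- germs of faces on the left of an edge -/
def Gm.lf : Gm X V → Prop
  | .L _ k => k < n
  | .W p x q b => Γ.E p x q ∧ b = true

/-- corners: a face arrives at a vertex with the germ `h` and leaves it with the germ `g`;
the walker may jump from a vertex which is not the base to the base -/
def Gm.nx : Gm X V → Gm X V → Prop
  | .L s k, .L s' k' => s' = !s ∧ k' = (n - k) % n
  | .W p x _ _, .W p' x' _ _ => (p' = p ∧ x' ≠ x) ∨ (p ≠ Γ.st ∧ p' = Γ.st)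
  | _, _ => False

/-- the cost of a corner: `m` at the base of a cell -/
def Gm.bc (m : ℤ) : Gm X V → ℤ
  | .L _ 0 => m
  | _ => 0

/-- Weights `P` on facing pairs of germs with lower bounds `B` for the total weights of the
alternating walks. -/
structure WCert (P B : Gm X V → Gm X V → ℤ) (m : ℤ) : Prop where
  pos : 0 < m
  edge : ∀ g h : Gm X V, g.rt Γ n → h.lf Γ n → g.ok n w cl h →
    P g h + P (h.fl n) (g.fl n) ≤ m
  one : ∀ g h g' : Gm X V, g.rt Γ n → h.lf Γ n → g.ok n w cl h → g'.rt Γ n → h.nx Γ n g' →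
    B g g' + h.bc m ≤ P g h
  step : ∀ f g h g' : Gm X V, f.rt Γ n → g.rt Γ n → h.lf Γ n → g.ok n w cl h → g'.rt Γ n →
    h.nx Γ n g' → B f g' + h.bc m ≤ B f g + P g h
  closed : ∀ g : Gm X V, g.rt Γ n → m ≤ B g g

end germs

namespace WD

variable {X V : Type} {Γ : PG X V} {n κ : ℕ} {w : ℕ → Lt X} {cl : ℕ → V}
variable {D : Type} [Fintype D] [DecidableEq D]

theorem rt_fg (M : WD Γ n κ w cl D) {d : D} (h : M.al d) : (M.fg d).rt Γ n := by
  rcases h with h | h
  · rw [M.fg_inner h]; exact M.tm_lt d h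
  · rw [M.fg_wk h]; exact ⟨M.edge d h, rfl⟩

theorem lf_bg (M : WD Γ n κ w cl D) {d : D} (h : M.al d) : (M.bg d).lf Γ n := by
  rcases h with h | h
  · rw [M.bg_inner h]
    have := M.tm_lt d h
    show n - 1 - M.tm d < n
    omega
  · rw [M.bg_wk h]; exact ⟨Γ.symm (M.edge d h), rfl⟩

theorem fl_fg (M : WD Γ n κ w cl D) {d : D} (h : M.al d) : (M.fg d).fl n = M.bg d := by
  rcases h with h | h
  · rw [M.fg_inner h, M.bg_inner h]; rfl
  · rw [M.fg_wk h, M.bg_wk h]; rfl

theorem fl_bg (M : WD Γ n κ w cl D) {d : D} (h : M.al d) : (M.bg d).fl n = M.fg d := by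
  rcases h with h | h
  · rw [M.fg_inner h, M.bg_inner h]
    have := M.tm_lt d h
    show Gm.L (!(!(M.sg d))) (n - 1 - (n - 1 - M.tm d)) = _
    rw [Bool.not_not]
    congr 1
    omega
  · rw [M.fg_wk h, M.bg_wk h]
    show Gm.W _ (linv (linv (M.lt d))) _ (!true) = _
    rw [linv_linv]
    rfl

theorem nx_corner (M : WD Γ n κ w cl D) (hI : M.Imm) {e : D} (h : M.al e) :
    (M.bg e).nx Γ n (M.fg (M.φ e)) := by
  rcases h with h | h
  · rw [M.bg_inner h, M.fg_inner (M.phi_inner e h), M.sg_inner e h, M.tm_step h]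
    have := M.tm_lt e h
    refine ⟨by simp, ?_⟩
    congr 1
    omega
  · rw [M.bg_wk h, M.fg_wk (M.phi_wk e h)]
    rcases M.trans e h with h1 | h1
    · exact Or.inl ⟨h1, hI e h h1⟩
    · exact Or.inr h1

open Classical in
theorem bc_corner (M : WD Γ n κ w cl D) (m : ℤ) {e : D} (h : M.al e) :
    (M.bg e).bc m = if M.inner (M.φ e) ∧ M.tm (M.φ e) = 0 then m else 0 := by
  rcases h with h | h
  · rw [M.bg_inner h, M.tm_step h]
    have h1 := M.tm_lt e h
    have h2 := M.phi_inner e h
    rcases Nat.lt_or_ge (M.tm e + 1) n with h3 | h3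
    · rw [if_neg]
      · obtain ⟨k, hk⟩ : ∃ k, n - 1 - M.tm e = k + 1 := ⟨n - 1 - M.tm e - 1, by omega⟩
        rw [hk]; rfl
      · rintro ⟨_, h4⟩
        rw [Nat.mod_eq_of_lt h3] at h4
        omega
    · have h4 : M.tm e + 1 = n := by omega
      have h5 : n - 1 - M.tm e = 0 := by omega
      rw [h5, h4, Nat.mod_self, if_pos ⟨h2, rfl⟩]
      rfl
  · rw [M.bg_wk h, if_neg (fun hh => M.disj _ hh.1 (M.phi_wk e h))]
    rfl

/-- There is no reduced walk diagram if there is a certificate. -/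
theorem no_reduced_of_cert (hC : CellIn Γ n w cl) {P B : Gm X V → Gm X V → ℤ} {m : ℤ}
    (hP : WCert Γ n w cl P B m) (M : WD Γ n κ w cl D) (hR : M.Red) (hI : M.Imm) : False := by
  classical
  have halν : ∀ e, M.al e → M.al ((M.φ * M.ε) e) := by
    intro e he
    rw [Perm.mul_apply]
    rcases M.al_eps he with h | h
    · exact Or.inl (M.phi_inner _ h)
    · exact Or.inr (M.phi_wk _ h)
  refine M.no_weights m hP.pos (fun d => P (M.fg d) (M.bg (M.ε d))) ?_ ?_
  · intro d hd
    have he := M.al_eps hd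
    have h1 := hP.edge (M.fg d) (M.bg (M.ε d)) (M.rt_fg hd) (M.lf_bg he) (M.ok_germs hC hR hd)
    rw [M.fl_bg he, M.fl_fg hd] at h1
    show P (M.fg d) (M.bg (M.ε d)) + P (M.fg (M.ε d)) (M.bg (M.ε (M.ε d))) ≤ m
    rw [M.eps_eps]
    exact h1
  · intro x hx
    set ν := M.φ * M.ε with hν
    have hal : ∀ i : ℕ, M.al ((ν ^ i) x) := by
      intro i
      induction i with
      | zero => simpa using hx
      | succ i ih => rw [pow_succ', Perm.mul_apply]; exact halν _ ih
    let b : ℕ → ℤ := fun i => if M.inner ((ν ^ i) x) ∧ M.tm ((ν ^ i) x) = 0 then m else 0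
    let p : ℕ → ℤ := fun i => P (M.fg ((ν ^ i) x)) (M.bg (M.ε ((ν ^ i) x)))
    have hcor : ∀ i : ℕ, (M.bg (M.ε ((ν ^ i) x))).nx Γ n (M.fg ((ν ^ (i + 1)) x)) ∧
        (M.bg (M.ε ((ν ^ i) x))).bc m = b (i + 1) := by
      intro i
      have h1 : (ν ^ (i + 1)) x = M.φ (M.ε ((ν ^ i) x)) := by
        rw [pow_succ', Perm.mul_apply, hν, Perm.mul_apply]
      have h2 := M.al_eps (hal i)
      constructor
      · rw [h1]; exact M.nx_corner hI h2
      · show _ = if M.inner ((ν ^ (i + 1)) x) ∧ M.tm ((ν ^ (i + 1)) x) = 0 then m else 0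
        rw [h1]; exact M.bc_corner m h2
    have key : ∀ i : ℕ, B (M.fg x) (M.fg ((ν ^ (i + 1)) x)) ≤
        ∑ j ∈ range (i + 1), (p j - b (j + 1)) := by
      intro i
      induction i with
      | zero =>
        have h0 := hP.one (M.fg ((ν ^ 0) x)) (M.bg (M.ε ((ν ^ 0) x))) (M.fg ((ν ^ (0 + 1)) x))
          (M.rt_fg (hal 0)) (M.lf_bg (M.al_eps (hal 0))) (M.ok_germs hC hR (hal 0))
          (M.rt_fg (hal 1)) (hcor 0).1
        rw [(hcor 0).2] at h0
        simp only [Finset.sum_range_succ, Finset.sum_range_zero, zero_add]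
        have e0 : (ν ^ 0) x = x := by simp
        simp only [p, b] at h0 ⊢
        rw [e0] at h0 ⊢
        simp only [zero_add] at h0 ⊢
        linarith
      | succ i ih =>
        have h0 := hP.step (M.fg x) (M.fg ((ν ^ (i + 1)) x)) (M.bg (M.ε ((ν ^ (i + 1)) x)))
          (M.fg ((ν ^ (i + 1 + 1)) x)) (M.rt_fg hx) (M.rt_fg (hal _))
          (M.lf_bg (M.al_eps (hal _))) (M.ok_germs hC hR (hal _)) (M.rt_fg (hal _)) (hcor _).1
        rw [(hcor (i + 1)).2] at h0
        rw [Finset.sum_range_succ]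
        simp only [p]
        linarith
    set N := Function.minimalPeriod ν x with hN
    have hN0 : 0 < N := minPer_pos ν x
    have hNx : (ν ^ N) x = x := pow_minPer ν x
    have h1 := key (N - 1)
    rw [Nat.sub_add_cancel hN0, hNx] at h1
    have h2 := hP.closed (M.fg x) (M.rt_fg hx)
    have h3 : ∑ j ∈ range N, b (j + 1) = ∑ j ∈ range N, b j := by
      have h4 := Finset.sum_range_succ b N
      have h5 := Finset.sum_range_succ' b N
      have h6 : b N = b 0 := by
        simp only [b]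
        rw [hNx]
        simp
      rw [h6] at h4
      linarith
    rw [class_sum ν x]
    have h7 : ∑ i ∈ range N, (P (M.fg ((ν ^ i) x)) (M.bg (M.ε ((ν ^ i) x))) -
        if M.inner ((ν ^ i) x) ∧ M.tm ((ν ^ i) x) = 0 then m else 0) =
        ∑ j ∈ range N, (p j - b (j + 1)) := by
      rw [Finset.sum_sub_distrib, Finset.sum_sub_distrib, h3]
    rw [h7]
    exact le_trans h2 h1

/-- There is no walk diagram if there is a certificate. -/
theorem no_diagram_of_cert (hC : CellIn Γ n w cl) {P B : Gm X V → Gm X V → ℤ} {m : ℤ}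
    (hP : WCert Γ n w cl P B m) (hκ : 0 < κ) (M : WD Γ n κ w cl D) : False := by
  obtain ⟨M', h1, h2⟩ := exists_red hC hκ M
  exact M'.no_reduced_of_cert hC hP h1 h2

end WD

end MM31
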