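import Pool.Agent.LibMM31.R2

/-!
# The count: no reduced walk diagram if `T0`
-/

set_option linter.unusedSectionVars false
set_option linter.style.haveILetI false

namespace MM31

open Equiv Equiv.Perm Finset

section classes

variable {D : Type} [Fintype D] [DecidableEq D]

open Classical in
theorem ncl_weight (r : Setoid D) (c : ℕ) (f g : D → ℕ)
    (h : ∀ x : D, c + ∑ d with r x d, g d ≤ ∑ d with r x d, f d) :
    c * ncl r + ∑ d, g d ≤ ∑ d, f d := by
  haveI : Fintype (Quotient r) := Fintype.ofFinite _
  have hcard : ncl r = Fintype.card (Quotient r) := Nat.card_eq_fintype_card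
  have hf : ∀ f : D → ℕ, ∑ d, f d = ∑ q : Quotient r, ∑ d with Quotient.mk r d = q, f d :=
    fun f => (Finset.sum_fiberwise _ _ _).symm
  rw [hf f, hf g, hcard]
  have e1 : c * Fintype.card (Quotient r) = ∑ _q : Quotient r, c := by
    rw [Finset.sum_const, Finset.card_univ, smul_eq_mul, mul_comm]
  rw [e1, ← Finset.sum_add_distrib]
  apply Finset.sum_le_sum
  intro q _
  induction q using Quotient.inductionOn with
  | h x =>
    have hset : ∀ d, (Quotient.mk r d = Quotient.mk r x) ↔ r x d := by
      intro d
      constructor
      · intro h; exact r.symm' (Quotient.exact h)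
      · intro h; exact Quotient.sound (r.symm' h)
    simp only [hset]
    exact h x

open Classical in
theorem ncl_weight_le (r : Setoid D) (P : D → Prop) [DecidablePred P]
    (h : ∀ x y : D, P x → P y → r x y → x = y) :
    (univ.filter P).card ≤ ncl r := by
  haveI : Fintype (Quotient r) := Fintype.ofFinite _
  have hcard : ncl r = Fintype.card (Quotient r) := Nat.card_eq_fintype_card
  rw [hcard, ← Finset.card_univ (α := Quotient r)]
  apply Finset.card_le_card_of_injOn (fun d => Quotient.mk r d)
  · intro d _
    exact Finset.mem_coe.mpr (Finset.mem_univ _)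
  · intro x hx y hy hxy
    simp only [Finset.coe_filter, Finset.mem_univ, true_and, Set.mem_setOf_eq] at hx hy
    exact h x y hx hy (Quotient.exact hxy)

end classes

namespace WM

variable {X G : Type} [Group G] {n : ℕ} {w : ℕ → Lt X} {gv : Lt X → G} {m : ℕ} {b : Fin m → G}
variable {D : Type}

section basic
variable [Finite D] [DecidableEq D]

theorem root_not_al (M : WM n w gv m b D) : ¬ M.al M.root := by
  rintro (h | ⟨t, k, hk, h⟩)
  · exact M.root_inner h
  · exact M.wd_root t k hk h.symm

theorem eps_root (M : WM n w gv m b D) : M.ε M.root = M.root := M.glue.dead _ M.root_not_al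

theorem al_eps (M : WM n w gv m b D) {d : D} (h : M.al d) : M.al (M.ε d) := M.glue.al d h

theorem al_eps_iff (M : WM n w gv m b D) (d : D) : M.al d ↔ M.al (M.ε d) :=
  inv_of_forward (fun _ h => M.al_eps h) d

theorem eps_eps (M : WM n w gv m b D) (d : D) : M.ε (M.ε d) = d := by
  by_cases h : M.al d
  · exact M.glue.inv d h
  · have := M.glue.dead d h
    rw [this, this]

theorem phi_dead' (M : WM n w gv m b D) {d : D} (h : ¬ M.al d) (hr : d ≠ M.root) : M.φ d = d :=
  M.phi_dead d (fun hh => h (Or.inl hh)) (fun t k hk hh => h (Or.inr ⟨t, k, hk, hh⟩)) hr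

theorem tm_lt_al (M : WM n w gv m b D) {d : D} (h : M.al d) : M.tm d < n := by
  rcases h with h | ⟨t, k, hk, rfl⟩
  · exact M.tm_lt d h
  · rw [M.wd_tm t k hk]; exact lt_trans hk (M.len_lt t)

/-- the dart following an alive dart on its face -/
theorem phi_al (M : WM n w gv m b D) {e : D} (h : M.al e) :
    (M.al (M.φ e) ∧ ((M.tm (M.φ e) = M.tm e + 1 ∧ M.sg (M.φ e) = M.sg e) ∨ M.tm (M.φ e) = 0)) ∨
      M.φ e = M.root := by
  rcases h with h | ⟨t, k, hk, rfl⟩
  · left
    refine ⟨Or.inl (M.phi_inner e h), ?_⟩
    have ht := M.tm_lt e h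
    rcases Nat.lt_or_ge (M.tm e + 1) n with h1 | h1
    · exact Or.inl ⟨M.tm_succ e h h1, M.sg_inner e h⟩
    · exact Or.inr (M.tm_zero e h (by omega))
  · rcases Nat.lt_or_ge (k + 1) (M.len t) with h1 | h1
    · left
      rw [M.phi_wd t k h1]
      refine ⟨Or.inr ⟨t, k + 1, h1, rfl⟩, Or.inl ⟨?_, ?_⟩⟩
      · rw [M.wd_tm t _ h1, M.wd_tm t k hk]
      · rw [M.wd_sg t _ h1, M.wd_sg t k hk]
    · have e1 : k = M.len t - 1 := by omega
      subst e1
      rcases Nat.lt_or_ge (t.1 + 1) m with h2 | h2
      · left
        rw [M.phi_next t h2]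
        exact ⟨Or.inr ⟨_, 0, M.len_pos _, rfl⟩, Or.inr (M.wd_tm _ 0 (M.len_pos _))⟩
      · right
        exact M.phi_last t (by omega)

theorem letters (M : WM n w gv m b D) {d : D} (h : M.al d) :
    wl n w (M.sg (M.ε d)) (M.tm (M.ε d)) = linv (wl n w (M.sg d) (M.tm d)) := (M.glue.cm d h).1

/-- the germ of a dart at its start -/
def germ (M : WM n w gv m b D) (d : D) : Germ := (M.sg d, M.tm d)

/-- the germ of the other side of the edge of `d`, seen from the start of `d` -/
def germ' (M : WM n w gv m b D) (d : D) : Germ := (!(M.sg (M.ε d)), n - 1 - M.tm (M.ε d))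

theorem germ_letters (M : WM n w gv m b D) {d : D} (h : M.al d) :
    wl n w (M.germ d).1 (M.germ d).2 = wl n w (M.germ' d).1 (M.germ' d).2 := by
  unfold germ germ'
  simp only
  rw [wl_flip n w _ _ (M.tm_lt_al (M.al_eps h)), M.letters h, linv_linv]

theorem germ_ne (M : WM n w gv m b D) (hR : M.Red) {d : D} (h : M.al d) :
    M.germ d ≠ M.germ' d := by
  intro hh
  apply hR d h
  unfold germ germ' at hh
  have h1 := congrArg Prod.fst hh
  have h2 := congrArg Prod.snd hh
  simp only at h1 h2
  have ht := M.tm_lt_al (M.al_eps h)
  refine ⟨?_, by omega⟩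
  rw [h1]; simp

/-- an edge is a base edge of at most one of its sides -/
theorem not_both (hn : 2 ≤ n) (hc : w (n - 1) ≠ linv (w 0)) (hU : w 0 ≠ w (n - 1))
    (M : WM n w gv m b D) (hR : M.Red) {d : D} (h : M.al d) :
    ¬ ((M.tm d = 0 ∨ M.tm d = n - 1) ∧ (M.tm (M.ε d) = 0 ∨ M.tm (M.ε d) = n - 1)) := by
  rintro ⟨h1, h2⟩
  have hl := M.letters h
  have hred := hR d h
  have e0 : n - 1 - (n - 1) = 0 := by omega
  have e1 : n - 1 - 0 = n - 1 := by omega
  rcases h1 with h1 | h1 <;> rcases h2 with h2 | h2 <;> rw [h1, h2] at hl hred <;>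
    cases hs : M.sg d <;> cases hs' : M.sg (M.ε d) <;> rw [hs, hs'] at hl hred <;>
    simp only [wl, e0, e1, linv_linv, not_true_eq_false, and_true, Bool.not_true, Bool.not_false,
      and_self] at hl hred <;>
    first
    | exact linv_ne _ hl.symm
    | exact linv_ne _ hl
    | exact hU hl
    | exact hU hl.symm
    | exact hU (linv_inj hl)
    | exact hU (linv_inj hl).symm
    | exact hc hl
    | exact hc hl.symm
    | exact hc (by rw [hl, linv_linv])
    | exact hc (by rw [← hl, linv_linv])

end basic

variable [Fintype D] [DecidableEq D]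

open Classical in
/-- the topological bound, in terms of a charge function -/
theorem euler (M : WM n w gv m b D) (hm : 0 < m) :
    (univ.filter (fun d => M.al d)).card + 2 ≤
      2 * (univ.filter (fun d => M.inner d ∧ M.tm d = 0)).card +
      (2 * cyc (M.φ * M.ε) - 2 * (univ.filter (fun d => ¬ M.al d ∧ d ≠ M.root)).card) ∧
      (univ.filter (fun d => ¬ M.al d ∧ d ≠ M.root)).card ≤ cyc (M.φ * M.ε) := by
  set A := (univ.filter (fun d => M.al d)).card with hA
  set δ := (univ.filter (fun d => ¬ M.al d ∧ d ≠ M.root)).card with hδ
  set F0 := (univ.filter (fun d => M.inner d ∧ M.tm d = 0)).card with hF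
  -- total number of darts
  have hD : Nat.card D = A + δ + 1 := by
    rw [Nat.card_eq_fintype_card, ← Finset.card_univ (α := D)]
    have h1 := Finset.card_filter_add_card_filter_not (s := (univ : Finset D))
      (fun d => M.al d)
    have h2 := Finset.card_filter_add_card_filter_not
      (s := (univ.filter (fun d => ¬ M.al d) : Finset D)) (fun d => d ≠ M.root)
    have h3 : (univ.filter (fun d => ¬ M.al d)).filter (fun d => d ≠ M.root) =
        univ.filter (fun d => ¬ M.al d ∧ d ≠ M.root) := by rw [Finset.filter_filter]
    have h4 : (univ.filter (fun d => ¬ M.al d)).filter (fun d => ¬ d ≠ M.root) = {M.root} := by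
      ext x
      simp only [Finset.mem_filter, Finset.mem_univ, true_and, Finset.mem_singleton, not_not]
      constructor
      · exact fun h => h.2
      · rintro rfl; exact ⟨M.root_not_al, rfl⟩
    rw [h3, h4, Finset.card_singleton] at h2
    omega
  -- orbits
  have hO : δ + 1 ≤ orb M.φ M.ε := by
    have h1 := ncl_weight_le (cs M.φ ⊔ cs M.ε) (fun d => ¬ M.al d) (by
      intro x y hx hy hxy
      by_cases hxr : x = M.root
      · by_cases hyr : y = M.root
        · rw [hxr, hyr]
        · exact (orbit_isolated (M.phi_dead' hy hyr) (M.glue.dead y hy)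
            ((cs M.φ ⊔ cs M.ε).symm' hxy)).symm
      · exact orbit_isolated (M.phi_dead' hx hxr) (M.glue.dead x hx) hxy)
    have h2 : (univ.filter (fun d => ¬ M.al d)).card = δ + 1 := by
      have h1 := Finset.card_filter_add_card_filter_not (s := (univ : Finset D))
        (fun d => M.al d)
      rw [Finset.card_univ, ← Nat.card_eq_fintype_card, hD] at h1
      omega
    unfold orb
    omega
  -- edges
  have hE : 2 * cyc M.ε ≤ A + 2 * (δ + 1) := by
    have h1 := ncl_weight (cs M.ε) 2 (fun d => if M.al d then 1 else 2) (fun _ => 0) (by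
      intro x
      simp only [Finset.sum_const_zero, Nat.add_zero]
      by_cases hx : M.al x
      · have hsub : ({x, M.ε x} : Finset D) ⊆ univ.filter (fun d => cs M.ε x d) := by
          intro y hy
          simp only [Finset.mem_insert, Finset.mem_singleton] at hy
          simp only [Finset.mem_filter, Finset.mem_univ, true_and]
          rcases hy with rfl | rfl
          · exact SameCycle.refl _ _
          · exact ⟨1, by simp⟩
        refine le_trans ?_ (Finset.sum_le_sum_of_subset hsub)
        rw [Finset.sum_pair (M.glue.ne x hx).symm, if_pos hx, if_pos (M.al_eps hx)]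
      · have hsub : ({x} : Finset D) ⊆ univ.filter (fun d => cs M.ε x d) := by
          intro y hy
          simp only [Finset.mem_singleton] at hy
          simp only [Finset.mem_filter, Finset.mem_univ, true_and]
          exact hy ▸ SameCycle.refl _ _
        refine le_trans ?_ (Finset.sum_le_sum_of_subset hsub)
        rw [Finset.sum_singleton, if_neg hx])
    have h2 : ∑ d, (if M.al d then 1 else 2) = A + 2 * (δ + 1) := by
      rw [Finset.sum_ite]
      simp only [Finset.sum_const, smul_eq_mul, mul_one]
      have h1 := Finset.card_filter_add_card_filter_not (s := (univ : Finset D))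
        (fun d => M.al d)
      rw [Finset.card_univ, ← Nat.card_eq_fintype_card, hD] at h1
      have h3 : (univ.filter (fun d => ¬ M.al d)).card = δ + 1 := by omega
      rw [h3, ← hA]
      ring
    rw [h2] at h1
    simpa [cyc] using h1
  -- faces
  have hΦ : cyc M.φ ≤ F0 + 1 + δ := by
    have h1 := ncl_weight (cs M.φ) 1
      (fun d => if (M.inner d ∧ M.tm d = 0) ∨ ¬ M.al d then 1 else 0) (fun _ => 0) (by
      intro x
      simp only [Finset.sum_const_zero, Nat.add_zero]
      have key : ∃ y, SameCycle M.φ x y ∧ ((M.inner y ∧ M.tm y = 0) ∨ ¬ M.al y) := by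
        by_cases hx : M.al x
        · rcases hx with hx | ⟨t, k, hk, rfl⟩
          · refine ⟨(M.φ ^ (n - M.tm x)) x, ⟨((n - M.tm x : ℕ) : ℤ), by rw [zpow_natCast]⟩,
              Or.inl ⟨M.inner_pow hx _, ?_⟩⟩
            rw [M.tm_pow hx]
            have := M.tm_lt x hx
            have e1 : M.tm x + (n - M.tm x) = n := by omega
            rw [e1, Nat.mod_self]
          · refine ⟨M.root, ?_, Or.inr M.root_not_al⟩
            -- along the walker
            have s1 : ∀ i, ∀ t k, k < M.len t → M.len t - 1 - k = i →
                SameCycle M.φ (M.wd t k) (M.nx t) := by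
              intro i
              induction i with
              | zero =>
                intro t k hk hi
                have : k = M.len t - 1 := by omega
                subst this
                exact ⟨1, by rw [zpow_one]; rfl⟩
              | succ i ih =>
                intro t k hk hi
                refine SameCycle.trans (⟨1, by rw [zpow_one, M.phi_wd t k (by omega)]⟩ :
                  SameCycle M.φ (M.wd t k) (M.wd t (k + 1))) ?_
                exact ih t (k + 1) (by omega) (by omega)
            have s2 : ∀ i, ∀ t : Fin m, m - 1 - t.1 = i → ∀ k, k < M.len t →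
                SameCycle M.φ (M.wd t k) M.root := by
              intro i
              induction i with
              | zero =>
                intro t ht k hk
                have := s1 _ t k hk rfl
                have h2 : M.nx t = M.root := M.phi_last t (by have := t.2; omega)
                rwa [h2] at this
              | succ i ih =>
                intro t ht k hk
                have h1 := s1 _ t k hk rfl
                have hlt : t.1 + 1 < m := by omega
                have h2 : M.nx t = M.wd ⟨t.1 + 1, hlt⟩ 0 := M.phi_next t hlt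
                rw [h2] at h1
                exact h1.trans (ih ⟨t.1 + 1, hlt⟩ (by simp only; omega) 0 (M.len_pos _))
            exact s2 _ t rfl k hk
        · exact ⟨x, SameCycle.refl _ _, Or.inr hx⟩
      obtain ⟨y, hy1, hy2⟩ := key
      have hsub : ({y} : Finset D) ⊆ univ.filter (fun d => cs M.φ x d) := by
        intro z hz
        simp only [Finset.mem_singleton] at hz
        simp only [Finset.mem_filter, Finset.mem_univ, true_and]
        rw [hz]
        exact hy1
      refine le_trans ?_ (Finset.sum_le_sum_of_subset hsub)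
      rw [Finset.sum_singleton, if_pos hy2])
    have h2 : ∑ d, (if (M.inner d ∧ M.tm d = 0) ∨ ¬ M.al d then 1 else 0) ≤ F0 + 1 + δ := by
      rw [← Finset.card_filter]
      have h3 : univ.filter (fun d => (M.inner d ∧ M.tm d = 0) ∨ ¬ M.al d) =
          univ.filter (fun d => M.inner d ∧ M.tm d = 0) ∪ univ.filter (fun d => ¬ M.al d) := by
        rw [Finset.filter_or]
      rw [h3]
      refine le_trans (Finset.card_union_le _ _) ?_
      have h1 := Finset.card_filter_add_card_filter_not (s := (univ : Finset D))
        (fun d => M.al d)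
      rw [Finset.card_univ, ← Nat.card_eq_fintype_card, hD] at h1
      have h3 : (univ.filter (fun d => ¬ M.al d)).card = δ + 1 := by omega
      rw [h3, ← hF]
      omega
    simp only [one_mul, Finset.sum_const_zero, Nat.add_zero] at h1
    exact le_trans h1 h2
  have hpl := (Pl.iff _ _).mp M.pl
  rw [hD] at hpl
  have hνδ : δ ≤ cyc (M.φ * M.ε) := by
    apply ncl_weight_le (cs (M.φ * M.ε)) (fun d => ¬ M.al d ∧ d ≠ M.root)
    intro x y hx hy hxy
    exact orbit_isolated (M.phi_dead' hx.1 hx.2) (M.glue.dead x hx.1)
      (cs_mul_le M.φ M.ε hxy)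
  constructor
  · omega
  · exact hνδ

end WM

end MM31
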