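import Pool.Agent.LibMM31.Ops

/-!
# Words, germs, the condition `T0`, walk diagrams
-/

set_option linter.unusedSectionVars false
set_option linter.style.haveILetI false

namespace MM31

open Equiv Equiv.Perm

/-- letters `x` (`true`) and `x⁻¹` (`false`) -/
abbrev Lt (X : Type) := X × Bool

variable {X : Type}

/-- formal inverse of a letter -/
def linv (l : Lt X) : Lt X := (l.1, !l.2)

@[simp] theorem linv_linv (l : Lt X) : linv (linv l) = l := by simp [linv]

theorem linv_ne (l : Lt X) : linv l ≠ l := by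
  intro h
  have := congrArg Prod.snd h
  simp [linv] at this

theorem linv_inj {a b : Lt X} (h : linv a = linv b) : a = b := by
  rw [← linv_linv a, h, linv_linv]

/-- the letters read along the loop `w` of length `n`, starting at the base, forwards (`true`)
or backwards (`false`) -/
def wl (n : ℕ) (w : ℕ → Lt X) : Bool → ℕ → Lt X
  | true, k => w k
  | false, k => linv (w (n - 1 - k))

theorem wl_flip (n : ℕ) (w : ℕ → Lt X) (s : Bool) (k : ℕ) (hk : k < n) :
    wl n w (!s) (n - 1 - k) = linv (wl n w s k) := by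
  have h : n - 1 - (n - 1 - k) = k := by omega
  cases s
  · simp [wl]
  · simp [wl, h]

variable {G : Type} [Group G]

/-- value of the prefix of length `k` read in the direction `s` -/
def pre (n : ℕ) (w : ℕ → Lt X) (gv : Lt X → G) (s : Bool) : ℕ → G
  | 0 => 1
  | k + 1 => pre n w gv s k * gv (wl n w s k)

/-- the group data: `gv` evaluates letters and `w` has value `1` -/
structure GV (n : ℕ) (w : ℕ → Lt X) (gv : Lt X → G) : Prop where
  inv : ∀ l, gv (linv l) = (gv l)⁻¹
  one : pre n w gv true n = 1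

theorem pre_false {n : ℕ} {w : ℕ → Lt X} {gv : Lt X → G} (h : GV n w gv) (k : ℕ) (hk : k ≤ n) :
    pre n w gv false k = pre n w gv true (n - k) := by
  induction k with
  | zero => simp [pre, h.one]
  | succ k ih =>
    have e : n - k = (n - (k + 1)) + 1 := by omega
    have e2 : n - 1 - k = n - (k + 1) := by omega
    have e3 : pre n w gv false (k + 1) = pre n w gv false k * gv (wl n w false k) := rfl
    have e4 : pre n w gv true ((n - (k + 1)) + 1) =
      pre n w gv true (n - (k + 1)) * gv (wl n w true (n - (k + 1))) := rfl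
    rw [e3, ih (by omega), e, e4]
    simp only [wl]
    rw [h.inv, e2]
    group

theorem pre_flip {n : ℕ} {w : ℕ → Lt X} {gv : Lt X → G} (h : GV n w gv) (s : Bool) (k : ℕ)
    (hk : k ≤ n) : pre n w gv (!s) (n - k) = pre n w gv s k := by
  cases s
  · rw [pre_false h k hk]; rfl
  · show pre n w gv false (n - k) = _
    rw [pre_false h (n - k) (by omega)]
    congr 1
    omega

/-- coordinates of a dart: direction, time since the base, base value -/
structure Co (G : Type) where
  s : Bool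
  k : ℕ
  b : G

/-- two darts with these coordinates can be the two sides of an edge -/
def CC (n : ℕ) (w : ℕ → Lt X) (gv : Lt X → G) (d e : Co G) : Prop :=
  wl n w e.s e.k = linv (wl n w d.s d.k) ∧
    e.b * pre n w gv e.s e.k = d.b * pre n w gv d.s (d.k + 1)

theorem CC.symm {n : ℕ} {w : ℕ → Lt X} {gv : Lt X → G} (h : GV n w gv) {d e : Co G}
    (hde : CC n w gv d e) : CC n w gv e d := by
  obtain ⟨h1, h2⟩ := hde
  refine ⟨by rw [h1, linv_linv], ?_⟩
  have e1 : pre n w gv e.s (e.k + 1) = pre n w gv e.s e.k * gv (wl n w e.s e.k) := rfl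
  have e2 : pre n w gv d.s (d.k + 1) = pre n w gv d.s d.k * gv (wl n w d.s d.k) := rfl
  rw [e1, h1, h.inv, ← mul_assoc, h2, e2]
  group

theorem CC.rect {n : ℕ} {w : ℕ → Lt X} {gv : Lt X → G} (h : GV n w gv) {a b c d : Co G}
    (h1 : CC n w gv a b) (h2 : CC n w gv b c) (h3 : CC n w gv c d) : CC n w gv a d := by
  refine ⟨by rw [h3.1, h2.1, h1.1, linv_linv], ?_⟩
  rw [h3.2, ← (CC.symm h h2).2, h1.2]

/-- mirror darts of the same line are compatible -/
theorem CC.mirror {n : ℕ} {w : ℕ → Lt X} {gv : Lt X → G} (h : GV n w gv) (s : Bool) (k : ℕ)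
    (hk : k < n) (b : G) : CC n w gv ⟨s, k, b⟩ ⟨!s, n - 1 - k, b⟩ := by
  refine ⟨wl_flip n w s k hk, ?_⟩
  show b * pre n w gv (!s) (n - 1 - k) = b * pre n w gv s (k + 1)
  have := pre_flip h s (k + 1) (by omega)
  rw [← this]
  congr 2
  omega

/-- if mirror darts are compatible, they have the same base value -/
theorem CC.mirror_base {n : ℕ} {w : ℕ → Lt X} {gv : Lt X → G} (h : GV n w gv) {s : Bool} {k : ℕ}
    (hk : k < n) {b b' : G} (hc : CC n w gv ⟨s, k, b⟩ ⟨!s, n - 1 - k, b'⟩) : b' = b := by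
  have h1 := hc.2
  have h2 := (CC.mirror h s k hk b).2
  simp only at h1 h2
  rw [← h2] at h1
  exact mul_right_cancel h1

/-! ### germs and T0 -/

/-- a germ: direction and time (position) at a vertex of the loop, `1 ≤ time ≤ n-1` -/
abbrev Germ := Bool × ℕ

/-- the opposite germ at the same vertex -/
def star (n : ℕ) (g : Germ) : Germ := (!g.1, n - g.2)

mutual
/-- closable pairs of germs -/
inductive Cl (n : ℕ) (w : ℕ → Lt X) : Germ → Germ → Prop
  | term (g h : Germ) : 1 ≤ g.2 → g.2 < n → 1 ≤ h.2 → h.2 < n → g ≠ h →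
      wl n w g.1 g.2 = wl n w h.1 h.2 → (g.2 + 1 = n ∨ h.2 + 1 = n) → Cl n w g h
  | step (g h : Germ) : 1 ≤ g.2 → g.2 + 1 < n → 1 ≤ h.2 → h.2 + 1 < n → g ≠ h →
      wl n w g.1 g.2 = wl n w h.1 h.2 → Chn n w (g.1, g.2 + 1) (h.1, h.2 + 1) → Cl n w g h
/-- alternating chains of closable pairs -/
inductive Chn (n : ℕ) (w : ℕ → Lt X) : Germ → Germ → Prop
  | one (g h : Germ) : Cl n w g h → Chn n w g h
  | cons (g h k : Germ) : Cl n w g h → Chn n w (star n h) k → Chn n w g k
end

/-- the condition `T0`: there is no closed alternating chain -/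
def T0 (n : ℕ) (w : ℕ → Lt X) : Prop := ∀ g : Germ, 1 ≤ g.2 → g.2 < n → ¬ Chn n w g (star n g)

/-! ### walk diagrams -/

/-- A planar map with one walker face (through `root`), consisting of `m` segments; all other
faces are copies of the loop `w`. -/
structure WM (n : ℕ) (w : ℕ → Lt X) (gv : Lt X → G) (m : ℕ) (b : Fin m → G)
    (D : Type) [Finite D] [DecidableEq D] where
  φ : Perm D
  ε : Perm D
  root : D
  dir : Fin m → Bool
  len : Fin m → ℕ
  wd : Fin m → ℕ → D
  inner : D → Prop
  tm : D → ℕ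
  sg : D → Bool
  bs : D → G
  pl : Pl φ ε
  len_pos : ∀ t, 0 < len t
  len_lt : ∀ t, len t < n
  wd_inj : ∀ t k t' k', k < len t → k' < len t' → wd t k = wd t' k' → t = t' ∧ k = k'
  wd_tm : ∀ t k, k < len t → tm (wd t k) = k
  wd_sg : ∀ t k, k < len t → sg (wd t k) = dir t
  wd_bs : ∀ t k, k < len t → bs (wd t k) = b t
  wd_inner : ∀ t k, k < len t → ¬ inner (wd t k)
  wd_root : ∀ t k, k < len t → wd t k ≠ root
  root_inner : ¬ inner root
  phi_root : ∀ h : 0 < m, φ root = wd ⟨0, h⟩ 0
  phi_wd : ∀ t k, k + 1 < len t → φ (wd t k) = wd t (k + 1)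
  phi_next : ∀ (t : Fin m) (h : t.1 + 1 < m), φ (wd t (len t - 1)) = wd ⟨t.1 + 1, h⟩ 0
  phi_last : ∀ (t : Fin m), t.1 + 1 = m → φ (wd t (len t - 1)) = root
  phi_inner : ∀ d, inner d → inner (φ d)
  sg_inner : ∀ d, inner d → sg (φ d) = sg d
  bs_inner : ∀ d, inner d → bs (φ d) = bs d
  tm_lt : ∀ d, inner d → tm d < n
  tm_succ : ∀ d, inner d → tm d + 1 < n → tm (φ d) = tm d + 1
  tm_zero : ∀ d, inner d → tm d + 1 = n → tm (φ d) = 0
  per_inner : ∀ d, inner d → (φ ^ n) d = d
  phi_dead : ∀ d, ¬ inner d → (∀ t k, k < len t → d ≠ wd t k) → d ≠ root → φ d = d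
  glue : Glue (fun d => inner d ∨ ∃ t k, k < len t ∧ d = wd t k)
    (fun d e => CC n w gv ⟨sg d, tm d, bs d⟩ ⟨sg e, tm e, bs e⟩) ε

namespace WM

variable {n : ℕ} {w : ℕ → Lt X} {gv : Lt X → G} {m : ℕ} {b : Fin m → G}
variable {D : Type} [Finite D] [DecidableEq D]

/-- alive darts -/
def al (M : WM n w gv m b D) (d : D) : Prop := M.inner d ∨ ∃ t k, k < M.len t ∧ d = M.wd t k

/-- number of inner faces -/
noncomputable def F (M : WM n w gv m b D) : ℕ := Nat.card {d : D // M.inner d ∧ M.tm d = 0}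

/-- reduced diagrams: the two sides of an edge are never mirror images -/
def Red (M : WM n w gv m b D) : Prop :=
  ∀ d, M.al d → ¬ (M.sg (M.ε d) = !(M.sg d) ∧ M.tm (M.ε d) = n - 1 - M.tm d)

end WM

end MM31
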