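import Pool.Agent.LibMM31.Count

/-!
# Discharging
-/

set_option linter.unusedSectionVars false
set_option linter.style.haveILetI false

namespace MM31

open Equiv Equiv.Perm Finset

theorem star_star {n : ℕ} {g : Germ} (h : g.2 ≤ n) : star n (star n g) = g := by
  unfold star
  ext
  · simp
  · simp only
    omega

namespace WM

variable {X G : Type} [Group G] {n : ℕ} {w : ℕ → Lt X} {gv : Lt X → G} {m : ℕ} {b : Fin m → G}
variable {D : Type} [Fintype D] [DecidableEq D]

/-- all darts at the vertex of `d` are alive with nonzero time -/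
def um (M : WM n w gv m b D) (d : D) : Prop :=
  ∀ e, SameCycle (M.φ * M.ε) d e → M.al e ∧ M.tm e ≠ 0

/-- closable half edges -/
def clo (M : WM n w gv m b D) (d : D) : Prop := Cl n w (M.germ d) (M.germ' d)

theorem um_next (M : WM n w gv m b D) {d : D} (h : M.um d) : M.um ((M.φ * M.ε) d) := by
  intro e he
  exact h e (SameCycle.trans ⟨1, by simp⟩ he)

theorem star_germ' (M : WM n w gv m b D) {d : D} (h : M.um d) :
    star n (M.germ' d) = M.germ ((M.φ * M.ε) d) ∧ M.tm (M.ε d) + 1 < n := by
  have hd := (h d (SameCycle.refl _ _)).1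
  have h1 := h ((M.φ * M.ε) d) ⟨1, by simp⟩
  have hlt := M.tm_lt_al h1.1
  rw [Perm.mul_apply] at h1 hlt ⊢
  rcases M.phi_al (M.al_eps hd) with ⟨_, ⟨h3, h4⟩ | h3⟩ | h3
  · refine ⟨?_, by omega⟩
    unfold star germ' germ
    rw [h3, h4]
    ext
    · simp
    · simp only
      omega
  · exact absurd h3 h1.2
  · rw [h3] at h1
    exact absurd h1.1 M.root_not_al

theorem chain_of (M : WM n w gv m b D) (r : ℕ) : ∀ d : D, M.um d →
    (∀ i ≤ r, M.clo (((M.φ * M.ε) ^ i) d)) →
    Chn n w (M.germ d) (M.germ' (((M.φ * M.ε) ^ r) d)) := by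
  induction r with
  | zero =>
    intro d _ h
    exact Chn.one _ _ (h 0 le_rfl)
  | succ r ih =>
    intro d hd h
    have h1 := ih ((M.φ * M.ε) d) (M.um_next hd) (fun i hi => by
      have := h (i + 1) (by omega)
      rwa [pow_succ, Perm.mul_apply] at this)
    have h2 := h 0 (by omega)
    rw [← (M.star_germ' hd).1] at h1
    rw [pow_succ, Perm.mul_apply]
    exact Chn.cons _ _ _ h2 h1

open Classical in
/-- the charge of a dart -/
noncomputable def chg (M : WM n w gv m b D) (d : D) : ℕ :=
  if ¬ M.al d then (if d = M.root then 0 else 2)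
  else if M.tm d = 0 then 2
  else if M.tm (M.ε d) = n - 1 then 2
  else if M.um d ∧ ¬ M.clo d then (if M.um (M.ε d) ∧ ¬ M.clo (M.ε d) then 1 else 2)
  else 0

theorem clo_of_last (M : WM n w gv m b D) (hR : M.Red) {d : D} (h : M.al d) (h0 : M.tm d ≠ 0)
    (h1 : M.tm (M.ε d) + 1 < n) (h2 : M.tm d = n - 1 ∨ M.tm (M.ε d) = 0) : M.clo d := by
  have hlt := M.tm_lt_al h
  refine Cl.term _ _ ?_ ?_ ?_ ?_ (M.germ_ne hR h) (M.germ_letters h) ?_
  · show 1 ≤ M.tm d; omega
  · exact hlt
  · show 1 ≤ n - 1 - M.tm (M.ε d); omega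
  · show n - 1 - M.tm (M.ε d) < n; omega
  · show M.tm d + 1 = n ∨ n - 1 - M.tm (M.ε d) + 1 = n
    omega

variable (hn : 2 ≤ n) (hw : ∀ k, k + 1 < n → w (k + 1) ≠ linv (w k))
  (hc : w (n - 1) ≠ linv (w 0)) (hU : w 0 ≠ w (n - 1)) (hT : T0 n w)

include hn hc hU in
theorem chg_base (M : WM n w gv m b D) (hR : M.Red) {d : D} (h : M.al d)
    (hb : M.tm d = 0 ∨ M.tm (M.ε d) = n - 1) : M.chg d = 2 ∧ M.chg (M.ε d) = 0 := by
  have hnb := M.not_both hn hc hU hR h
  have he := M.al_eps h
  have hlt := M.tm_lt_al h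
  have hlt' := M.tm_lt_al he
  constructor
  · unfold chg
    rw [if_neg (not_not.mpr h)]
    by_cases h1 : M.tm d = 0
    · rw [if_pos h1]
    · rw [if_neg h1, if_pos (hb.resolve_left h1)]
  · unfold chg
    rw [if_neg (not_not.mpr he), M.eps_eps]
    have h2 : M.tm (M.ε d) ≠ 0 := by
      intro h2
      apply hnb
      rcases hb with hb | hb
      · exact ⟨Or.inl hb, Or.inl h2⟩
      · omega
    have h3 : M.tm d ≠ n - 1 := by
      intro h3
      apply hnb
      rcases hb with hb | hb
      · omega
      · exact ⟨Or.inr h3, Or.inr hb⟩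
    rw [if_neg h2, if_neg h3]
    have h4 : M.clo (M.ε d) := by
      apply M.clo_of_last hR he h2
      · rw [M.eps_eps]; omega
      · rw [M.eps_eps]; rcases hb with hb | hb
        · exact Or.inr hb
        · exact Or.inl hb
    rw [if_neg (fun hh => hh.2 h4)]

include hn hc hU in
theorem chg_pair (M : WM n w gv m b D) (hR : M.Red) {d : D} (h : M.al d) :
    M.chg d + M.chg (M.ε d) ≤ 2 := by
  have he := M.al_eps h
  by_cases h1 : M.tm d = 0 ∨ M.tm (M.ε d) = n - 1
  · have := M.chg_base hn hc hU hR h h1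
    omega
  by_cases h2 : M.tm (M.ε d) = 0 ∨ M.tm d = n - 1
  · have := M.chg_base hn hc hU hR he (by rw [M.eps_eps]; exact h2)
    rw [M.eps_eps] at this
    omega
  push Not at h1 h2
  unfold chg
  rw [if_neg (not_not.mpr h), if_neg (not_not.mpr he), M.eps_eps, if_neg h1.1, if_neg h1.2,
    if_neg h2.1, if_neg h2.2]
  by_cases h3 : M.um d ∧ ¬ M.clo d <;> by_cases h4 : M.um (M.ε d) ∧ ¬ M.clo (M.ε d)
  · rw [if_pos h3, if_pos h4, if_pos h4, if_pos h3]
  · rw [if_pos h3, if_neg h4, if_neg h4]
  · rw [if_neg h3, if_pos h4, if_neg h3]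
  · rw [if_neg h3, if_neg h4]; omega

include hn hc hU in
open Classical in
theorem chg_sum (M : WM n w gv m b D) (hR : M.Red) :
    ∑ d, M.chg d ≤ (univ.filter (fun d => M.al d)).card +
      2 * (univ.filter (fun d => ¬ M.al d ∧ d ≠ M.root)).card := by
  have h1 : ∑ d, M.chg (M.ε d) = ∑ d, M.chg d := Equiv.sum_comp M.ε M.chg
  have h2 : ∑ d, (M.chg d + M.chg (M.ε d)) ≤
      ∑ d, ((if M.al d then 2 else 0) + (if ¬ M.al d ∧ d ≠ M.root then 4 else 0)) := by
    apply Finset.sum_le_sum
    intro d _
    by_cases hd : M.al d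
    · rw [if_pos hd, if_neg (fun hh => hh.1 hd)]
      have := M.chg_pair hn hc hU hR hd
      omega
    · rw [if_neg hd, M.glue.dead d hd]
      by_cases hr : d = M.root
      · have : M.chg d = 0 := by
          unfold chg; rw [if_pos hd, if_pos hr]
        omega
      · rw [if_pos ⟨hd, hr⟩]
        have : M.chg d = 2 := by
          unfold chg; rw [if_pos hd, if_neg hr]
        omega
  rw [Finset.sum_add_distrib, Finset.sum_add_distrib, h1] at h2
  have h3 : ∑ d, (if M.al d then 2 else 0) = 2 * (univ.filter (fun d => M.al d)).card := by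
    rw [← Finset.sum_filter, Finset.sum_const, smul_eq_mul, mul_comm]
  have h4 : ∑ d, (if ¬ M.al d ∧ d ≠ M.root then 4 else 0) =
      4 * (univ.filter (fun d => ¬ M.al d ∧ d ≠ M.root)).card := by
    rw [← Finset.sum_filter, Finset.sum_const, smul_eq_mul, mul_comm]
  rw [h3, h4] at h2
  omega

include hn hw hT in
open Classical in
/-- unmarked vertices receive charge at least 2 -/
theorem chg_um (M : WM n w gv m b D) (hR : M.Red) {x : D} (hx : M.um x) :
    2 ≤ ∑ d with cs (M.φ * M.ε) x d, M.chg d := by
  set ν := M.φ * M.ε with hν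
  have humall : ∀ d, SameCycle ν x d → M.um d := fun d hd e he => hx e (hd.trans he)
  have hval : ∀ d, SameCycle ν x d → ¬ M.clo d →
      M.chg d = if M.um (M.ε d) ∧ ¬ M.clo (M.ε d) then 1 else 2 := by
    intro d hd hcl
    have hud := humall d hd
    have h1 := hud d (SameCycle.refl _ _)
    have h2 := (M.star_germ' hud).2
    unfold chg
    rw [if_neg (not_not.mpr h1.1), if_neg h1.2, if_neg (by omega), if_pos ⟨hud, hcl⟩]
  by_cases hex : ∃ d, SameCycle ν x d ∧ ¬ M.clo d
  · obtain ⟨d0, hd0, hcl0⟩ := hex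
    by_cases hex2 : ∃ d, SameCycle ν x d ∧ ¬ M.clo d ∧ d ≠ d0
    · obtain ⟨d1, hd1, hcl1, hne⟩ := hex2
      have hsub : ({d0, d1} : Finset D) ⊆ univ.filter (fun d => cs ν x d) := by
        intro y hy
        simp only [Finset.mem_insert, Finset.mem_singleton] at hy
        simp only [Finset.mem_filter, Finset.mem_univ, true_and]
        rcases hy with rfl | rfl
        · exact hd0
        · exact hd1
      refine le_trans ?_ (Finset.sum_le_sum_of_subset hsub)
      rw [Finset.sum_pair hne.symm, hval d0 hd0 hcl0, hval d1 hd1 hcl1]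
      split_ifs <;> omega
    · push Not at hex2
      have hclo : ∀ d, SameCycle ν x d → d ≠ d0 → M.clo d := by
        intro d hd hne
        by_contra hcon
        exact hne (hex2 d hd hcon)
      have hsub : ({d0} : Finset D) ⊆ univ.filter (fun d => cs ν x d) := by
        intro y hy
        simp only [Finset.mem_singleton] at hy
        simp only [Finset.mem_filter, Finset.mem_univ, true_and]
        exact hy ▸ hd0
      refine le_trans ?_ (Finset.sum_le_sum_of_subset hsub)
      rw [Finset.sum_singleton, hval d0 hd0 hcl0, if_neg]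
      rintro ⟨hue, hcle⟩
      apply hcle
      -- the reverse half edge is closable
      have hud := humall d0 hd0
      have hd0al := hud d0 (SameCycle.refl _ _)
      have hlt0 := M.tm_lt_al hd0al.1
      have hst := M.star_germ' hud
      have heal := hue (M.ε d0) (SameCycle.refl _ _)
      -- minimal period
      have hper : ∃ k, 0 < k ∧ (ν ^ k) d0 = d0 :=
        ⟨orderOf ν, orderOf_pos ν, by simp [pow_orderOf_eq_one]⟩
      let p := Nat.find hper
      obtain ⟨hp0, hp⟩ : 0 < p ∧ (ν ^ p) d0 = d0 := Nat.find_spec hper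
      have hmin : ∀ i, 0 < i → i < p → (ν ^ i) d0 ≠ d0 := fun i h0 hi h1 =>
        Nat.find_min hper hi ⟨h0, h1⟩
      have hsc : ∀ i : ℕ, SameCycle ν x ((ν ^ i) d0) := fun i =>
        hd0.trans ⟨(i : ℤ), by rw [zpow_natCast]⟩
      have hp2 : 2 ≤ p := by
        by_contra hcon
        have hp1 : p = 1 := by omega
        rw [hp1, pow_one] at hp
        -- ν d0 = d0
        have h1 := hst.1
        rw [← hν, hp] at h1
        have h2 : M.sg (M.ε d0) = M.sg d0 := by
          have := congrArg Prod.fst h1
          simpa [star, germ', germ] using this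
        have h3 : M.tm (M.ε d0) + 1 = M.tm d0 := by
          have := congrArg Prod.snd h1
          simp only [star, germ', germ] at this
          omega
        have h4 := M.letters hd0al.1
        rw [h2, ← h3] at h4
        cases hs : M.sg d0
        · rw [hs] at h4
          simp only [wl, linv_linv] at h4
          have := hw (n - 1 - (M.tm (M.ε d0) + 1)) (by omega)
          apply this
          have e1 : n - 1 - (M.tm (M.ε d0) + 1) + 1 = n - 1 - M.tm (M.ε d0) := by omega
          rw [e1, ← h4, linv_linv]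
        · rw [hs] at h4
          simp only [wl] at h4
          have := hw (M.tm (M.ε d0)) (by omega)
          apply this
          rw [h4, linv_linv]
      have hchain := M.chain_of (p - 2) (ν d0) (M.um_next hud) (fun i hi => by
        have e1 : ((M.φ * M.ε) ^ i) (ν d0) = (ν ^ (i + 1)) d0 := by
          rw [pow_succ]; rfl
        rw [e1]
        apply hclo _ (hsc _)
        exact hmin _ (by omega) (by omega))
      have e2 : ((M.φ * M.ε) ^ (p - 2)) (ν d0) = (ν ^ (p - 1)) d0 := by
        have : p - 1 = (p - 2) + 1 := by omega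
        rw [this, pow_succ]; rfl
      rw [e2] at hchain
      have hul := humall _ (hsc (p - 1))
      have e3 : ν ((ν ^ (p - 1)) d0) = d0 := by
        rw [← Perm.mul_apply, ← pow_succ', Nat.sub_add_cancel hp0, hp]
      have h5 := (M.star_germ' hul).1
      rw [← hν, e3] at h5
      have h6 : M.germ' ((ν ^ (p - 1)) d0) = star n (M.germ d0) := by
        rw [← h5, star_star]
        show n - 1 - M.tm _ ≤ n
        omega
      rw [h6, ← hst.1] at hchain
      have hd0n : M.tm d0 + 1 < n := by
        by_contra hcon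
        apply hcl0
        apply M.clo_of_last hR hd0al.1 hd0al.2 hst.2
        left
        omega
      refine Cl.step _ _ ?_ ?_ ?_ ?_ (M.germ_ne hR heal.1) (M.germ_letters heal.1) ?_
      · show 1 ≤ M.tm (M.ε d0); have := heal.2; omega
      · exact hst.2
      · show 1 ≤ n - 1 - M.tm (M.ε (M.ε d0)); rw [M.eps_eps]; omega
      · show n - 1 - M.tm (M.ε (M.ε d0)) + 1 < n; rw [M.eps_eps]; have := hd0al.2; omega
      · have h7 : star n (M.germ' d0) = ((M.germ (M.ε d0)).1, (M.germ (M.ε d0)).2 + 1) := by
          unfold star germ' germ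
          ext
          · simp
          · simp only; omega
        have h8 : star n (M.germ d0) = ((M.germ' (M.ε d0)).1, (M.germ' (M.ε d0)).2 + 1) := by
          unfold star germ' germ
          rw [M.eps_eps]
          ext
          · simp
          · simp only; omega
        rw [h7, h8] at hchain
        exact hchain
  · -- everything closable: contradiction with T0
    exfalso
    push Not at hex
    have hxal := hx x (SameCycle.refl _ _)
    have ho : 0 < orderOf ν := orderOf_pos ν
    have hchain := M.chain_of (orderOf ν - 1) x hx (fun i _ => hex _ ⟨(i : ℤ), by rw [zpow_natCast]⟩)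
    have hul := humall ((ν ^ (orderOf ν - 1)) x) ⟨((orderOf ν - 1 : ℕ) : ℤ), by rw [zpow_natCast]⟩
    have e3 : ν ((ν ^ (orderOf ν - 1)) x) = x := by
      rw [← Perm.mul_apply, ← pow_succ', Nat.sub_add_cancel ho, pow_orderOf_eq_one]
      rfl
    have h5 := (M.star_germ' hul).1
    rw [← hν, e3] at h5
    have h6 : M.germ' ((ν ^ (orderOf ν - 1)) x) = star n (M.germ x) := by
      rw [← h5, star_star]
      show n - 1 - M.tm _ ≤ n
      omega
    rw [h6] at hchain
    have := hxal.2
    exact hT (M.germ x) (by show 1 ≤ M.tm x; omega) (M.tm_lt_al hxal.1) hchain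

include hn hw hc hU hT in
open Classical in
theorem chg_class (M : WM n w gv m b D) (hR : M.Red) (hm : 0 < m) (x : D) :
    2 + ∑ d with cs (M.φ * M.ε) x d, (if M.inner d ∧ M.tm d = 0 then 2 else 0) ≤
      ∑ d with cs (M.φ * M.ε) x d, M.chg d := by
  set ν := M.φ * M.ε with hν
  by_cases hmark : ∃ y, SameCycle ν x y ∧ M.al y ∧ M.tm y = 0
  · obtain ⟨y, hy, hyal, hy0⟩ := hmark
    -- the predecessors
    let p : D → D := fun d => M.ε (M.φ⁻¹ d)
    have hpν : ∀ d, ν (p d) = d := by
      intro d
      show M.φ (M.ε (M.ε (M.φ⁻¹ d))) = d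
      rw [M.eps_eps]
      simp
    have hpinj : Function.Injective p := by
      intro a c hac
      rw [← hpν a, hac, hpν]
    have hpt : ∀ d, M.inner d → M.tm d = 0 → M.al (p d) ∧ M.tm (M.ε (p d)) = n - 1 := by
      intro d hd hd0
      have h1 : M.inner (M.φ⁻¹ d) := (M.inner_iff _).mpr (by simpa using hd)
      refine ⟨M.al_eps (Or.inl h1), ?_⟩
      show M.tm (M.ε (M.ε (M.φ⁻¹ d))) = n - 1
      rw [M.eps_eps]
      have h2 := M.tm_step h1
      have h3 := M.tm_lt _ h1
      have h4 : M.φ (M.φ⁻¹ d) = d := by simp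
      rw [h4, hd0] at h2
      rcases Nat.lt_or_ge (M.tm (M.φ⁻¹ d) + 1) n with h5 | h5
      · rw [Nat.mod_eq_of_lt h5] at h2; omega
      · omega
    let Q : Finset D := univ.filter (fun d => cs ν x d)
    let Z : Finset D := Q.filter (fun d => M.al d ∧ M.tm d = 0)
    let I : Finset D := Q.filter (fun d => M.inner d ∧ M.tm d = 0)
    let P : Finset D := I.image p
    have hPQ : P ⊆ Q := by
      intro z hz
      obtain ⟨d, hd, rfl⟩ := Finset.mem_image.mp hz
      simp only [I, Q, Finset.mem_filter, Finset.mem_univ, true_and] at hd ⊢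
      refine SameCycle.trans hd.1 (SameCycle.symm ⟨1, ?_⟩)
      rw [zpow_one, hpν]
    have hZQ : Z ⊆ Q := Finset.filter_subset _ _
    have hPc : ∀ z ∈ P, M.chg z = 2 ∧ M.tm z ≠ 0 := by
      intro z hz
      obtain ⟨d, hd, rfl⟩ := Finset.mem_image.mp hz
      simp only [I, Q, Finset.mem_filter, Finset.mem_univ, true_and] at hd
      obtain ⟨h1, h2⟩ := hpt d hd.2.1 hd.2.2
      refine ⟨(M.chg_base hn hc hU hR h1 (Or.inr h2)).1, ?_⟩
      intro h3
      exact M.not_both hn hc hU hR h1 ⟨Or.inl h3, Or.inr h2⟩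
    have hZc : ∀ z ∈ Z, M.chg z = 2 ∧ M.tm z = 0 := by
      intro z hz
      simp only [Z, Finset.mem_filter] at hz
      exact ⟨(M.chg_base hn hc hU hR hz.2.1 (Or.inl hz.2.2)).1, hz.2.2⟩
    have hdisj : Disjoint Z P := by
      rw [Finset.disjoint_left]
      intro z h1 h2
      exact (hPc z h2).2 (hZc z h1).2
    have hsum : ∑ d ∈ Z ∪ P, M.chg d ≤ ∑ d ∈ Q, M.chg d :=
      Finset.sum_le_sum_of_subset (Finset.union_subset hZQ hPQ)
    rw [Finset.sum_union hdisj, Finset.sum_congr rfl (fun z hz => (hZc z hz).1),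
      Finset.sum_congr rfl (fun z hz => (hPc z hz).1), Finset.sum_const, Finset.sum_const,
      smul_eq_mul, smul_eq_mul, Finset.card_image_of_injective I hpinj] at hsum
    have hZpos : 0 < Z.card := Finset.card_pos.mpr ⟨y, by
      simp only [Z, Q, Finset.mem_filter, Finset.mem_univ, true_and]
      exact ⟨hy, hyal, hy0⟩⟩
    have hI : ∑ d with cs ν x d, (if M.inner d ∧ M.tm d = 0 then 2 else 0) = I.card * 2 := by
      rw [← Finset.sum_filter, Finset.sum_const, smul_eq_mul]
    rw [hI]
    have : ∑ d ∈ Q, M.chg d = ∑ d with cs ν x d, M.chg d := rfl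
    omega
  · push Not at hmark
    have hg0 : ∑ d with cs ν x d, (if M.inner d ∧ M.tm d = 0 then 2 else 0) = 0 := by
      apply Finset.sum_eq_zero
      intro d hd
      simp only [Finset.mem_filter, Finset.mem_univ, true_and] at hd
      rw [if_neg]
      intro hh
      exact hmark d hd (Or.inl hh.1) hh.2
    rw [hg0, Nat.add_zero]
    by_cases hall : ∀ y, SameCycle ν x y → M.al y
    · exact M.chg_um hn hw hT hR (fun e he => ⟨hall e he, hmark e he (hall e he)⟩)
    · push Not at hall
      obtain ⟨y, hy, hyal⟩ := hall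
      by_cases hyr : y = M.root
      · exfalso
        have h1 : ν M.root = M.wd ⟨0, hm⟩ 0 := by
          show M.φ (M.ε M.root) = _
          rw [M.eps_root, M.phi_root hm]
        have h2 : SameCycle ν x (M.wd ⟨0, hm⟩ 0) := by
          refine SameCycle.trans hy ⟨1, ?_⟩
          rw [zpow_one, hyr, h1]
        exact hmark _ h2 (Or.inr ⟨_, 0, M.len_pos _, rfl⟩) (M.wd_tm _ 0 (M.len_pos _))
      · have hsub : ({y} : Finset D) ⊆ univ.filter (fun d => cs ν x d) := by
          intro z hz
          simp only [Finset.mem_singleton] at hz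
          simp only [Finset.mem_filter, Finset.mem_univ, true_and]
          exact hz ▸ hy
        refine le_trans ?_ (Finset.sum_le_sum_of_subset hsub)
        rw [Finset.sum_singleton]
        unfold chg
        rw [if_pos hyal, if_neg hyr]

include hn hw hc hU hT in
/-- there is no reduced walk diagram if `T0` holds -/
theorem no_reduced (M : WM n w gv m b D) (hR : M.Red) (hm : 0 < m) : False := by
  classical
  have h1 := ncl_weight (cs (M.φ * M.ε)) 2 M.chg
    (fun d => if M.inner d ∧ M.tm d = 0 then 2 else 0)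
    (fun x => M.chg_class hn hw hc hU hT hR hm x)
  have h2 := M.chg_sum hn hc hU hR
  obtain ⟨h3, h4⟩ := M.euler hm
  have h5 : ∑ d, (if M.inner d ∧ M.tm d = 0 then 2 else 0) =
      2 * (univ.filter (fun d => M.inner d ∧ M.tm d = 0)).card := by
    rw [← Finset.sum_filter, Finset.sum_const, smul_eq_mul, mul_comm]
  rw [h5] at h1
  have h6 : ncl (cs (M.φ * M.ε)) = cyc (M.φ * M.ε) := rfl
  rw [h6] at h1
  omega

/-- minimal diagrams are reduced -/
theorem exists_reduced (hG : GV n w gv) (hb : Function.Injective b) (M : WM n w gv m b D) :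
    ∃ M' : WM n w gv m b D, M'.Red := by
  classical
  suffices H : ∀ k, ∀ M : WM n w gv m b D, M.F ≤ k → ∃ M' : WM n w gv m b D, M'.Red from
    H _ M le_rfl
  intro k
  induction k with
  | zero =>
    intro M hM
    by_contra hcon
    push Not at hcon
    have hnr := hcon M
    obtain ⟨M', hM'⟩ := key hG hb M hnr
    omega
  | succ k ih =>
    intro M hM
    by_cases hR : M.Red
    · exact ⟨M, hR⟩
    · obtain ⟨M', hM'⟩ := key hG hb M hR
      exact ih M' (by omega)
where
  key (hG : GV n w gv) (hb : Function.Injective b) (M : WM n w gv m b D) (hnr : ¬ M.Red) :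
      ∃ M' : WM n w gv m b D, M'.F < M.F := by
    unfold Red at hnr
    push Not at hnr
    obtain ⟨d, hd, hs, ht⟩ := hnr
    have hlt := M.tm_lt_al hd
    rcases hd with hd | ⟨t, k, hk, hdk⟩
    · rcases M.al_eps (Or.inl hd) with he | ⟨t, k, hk, hek⟩
      · exact M.R1 hG d hd he hs ht
      · have h1 : M.ε (M.wd t k) = d := by rw [← hek, M.eps_eps]
        have h2 : M.sg (M.wd t k) = M.dir t := M.wd_sg t k hk
        have h3 : M.tm (M.wd t k) = k := M.wd_tm t k hk
        rw [hek, h2] at hs
        rw [hek, h3] at ht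
        apply M.R2 hG t k hk
        · rw [h1]; exact hd
        · rw [h1, hs]; simp
        · rw [h1]; omega
    · subst hdk
      have h2 : M.sg (M.wd t k) = M.dir t := M.wd_sg t k hk
      have h3 : M.tm (M.wd t k) = k := M.wd_tm t k hk
      rcases M.al_eps (Or.inr ⟨t, k, hk, rfl⟩) with he | ⟨t', k', hk', hek⟩
      · rw [h2] at hs
        rw [h3] at ht
        exact M.R2 hG t k hk he hs ht
      · exfalso
        have hcm := M.glue.cm (M.wd t k) (Or.inr ⟨t, k, hk, rfl⟩)
        simp only [hs, ht] at hcm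
        have hbs := CC.mirror_base hG hlt hcm
        rw [hek, M.wd_bs t' k' hk', M.wd_bs t k hk] at hbs
        have htt := hb hbs
        rw [hek, M.wd_sg t' k' hk', h2, htt] at hs
        cases hh : M.dir t <;> rw [hh] at hs <;> simp at hs

include hn hw hc hU hT in
/-- Main topological theorem: if `T0` holds then there is no walk diagram at all. -/
theorem no_diagram (hG : GV n w gv) (hb : Function.Injective b) (M : WM n w gv m b D)
    (hm : 0 < m) : False := by
  obtain ⟨M', hM'⟩ := exists_reduced hG hb M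
  exact M'.no_reduced hn hw hc hU hT hM' hm

end WM

end MM31
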