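import Pool.Agent.LibMM31.InvMon

/-!
# The overlap closure and the cyclic conjugates which are `1`

`Dom w i k` is the closure of the rules: every position dominates itself and the base
`0`; transitivity; and if the same letter leads from `i` to `i'` and from `k` to `k'`
along the cyclic word `w`, and `i'` dominates `k'`, then `i` dominates `k`.
If `0` dominates `k` then the cyclic conjugate of `w` starting at `k` is `1` in
`Inv⟨X | w = 1⟩`.
-/

namespace MM31

variable {X : Type}

/-- `x` is the label of an edge from position `i` to position `i'` of the cyclic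
word `w` (forwards, or backwards with the inverse letter). -/
def Mv (w : List (Lt X)) (i : ℕ) (x : Lt X) (i' : ℕ) : Prop :=
  (i < w.length ∧ w[i]? = some x ∧ i' = (i + 1) % w.length) ∨
    (i' < w.length ∧ w[i']? = some (linv x) ∧ i = (i' + 1) % w.length)

/-- Position `i` of the cyclic word `w` dominates position `k`. -/
inductive Dom (w : List (Lt X)) : ℕ → ℕ → Prop
  | refl (i : ℕ) : Dom w i i
  | base (i : ℕ) : Dom w i 0
  | trans (i k l : ℕ) : Dom w i k → Dom w k l → Dom w i l
  | letter (i k i' k' : ℕ) (x : Lt X) : Mv w i x i' → Mv w k x k' → Dom w i' k' → Dom w i k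

/-! ## Computing in `Inv⟨X | w = 1⟩` -/

section mon

variable (w : List (Lt X))

@[simp] lemma linv_linv' (a : Lt X) : linv (linv a) = a := by simp [linv]

@[simp] lemma winv_append (u v : List (Lt X)) : winv (u ++ v) = winv v ++ winv u := by
  simp [winv]

@[simp] lemma winv_nil : winv ([] : List (Lt X)) = [] := rfl

@[simp] lemma winv_singleton (a : Lt X) : winv [a] = [linv a] := rfl

@[simp] lemma winv_winv (u : List (Lt X)) : winv (winv u) = u := by
  induction u with
  | nil => rfl
  | cons a u ih =>
    have : a :: u = [a] ++ u := rfl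
    rw [this, winv_append, winv_append, ih]
    simp

lemma toInv_append (u v : List (Lt X)) : toInv w (u ++ v) = toInv w u * toInv w v := by
  unfold toInv
  rw [FreeMonoid.ofList_append]
  rfl

lemma toInv_nil : toInv w ([] : List (Lt X)) = 1 := rfl

lemma toInv_self : toInv w w = 1 := by
  unfold toInv invCon
  exact (Con.eq _).mpr (ConGen.Rel.of _ _ InvRel.rel)

lemma toInv_vagner (u : List (Lt X)) :
    toInv w u * toInv w (winv u) * toInv w u = toInv w u := by
  rw [← toInv_append, ← toInv_append]
  unfold toInv invCon
  exact (Con.eq _).mpr (ConGen.Rel.of _ _ (InvRel.vagner u))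

lemma toInv_comm (u v : List (Lt X)) :
    (toInv w u * toInv w (winv u)) * (toInv w v * toInv w (winv v)) =
      (toInv w v * toInv w (winv v)) * (toInv w u * toInv w (winv u)) := by
  simp only [← toInv_append]
  unfold toInv invCon
  exact (Con.eq _).mpr (ConGen.Rel.of _ _ (InvRel.comm u v))

lemma toInv_winv_self : toInv w (winv w) = 1 := by
  have h := toInv_vagner w w
  rw [toInv_self, one_mul, mul_one] at h
  exact h

/-- Inversion respects equality in `Inv⟨X | w = 1⟩`. -/
lemma winv_congr {u v : List (Lt X)} (h : toInv w u = toInv w v) :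
    toInv w (winv u) = toInv w (winv v) := by
  have h1 : invCon w (FreeMonoid.ofList u) (FreeMonoid.ofList v) := (Con.eq _).mp h
  have key : ∀ a b : FreeMonoid (Lt X), ConGen.Rel (InvRel w) a b →
      toInv w (winv (FreeMonoid.toList a)) = toInv w (winv (FreeMonoid.toList b)) := by
    intro a b hab
    induction hab with
    | of a b hab =>
      cases hab with
      | vagner u =>
        simp only [FreeMonoid.toList_ofList, winv_append, winv_winv, toInv_append]
        have := toInv_vagner w (winv u)
        rw [winv_winv] at this
        rw [← mul_assoc]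
        exact this
      | comm u v =>
        simp only [FreeMonoid.toList_ofList, winv_append, winv_winv, toInv_append]
        exact toInv_comm w v u
      | rel =>
        simp only [FreeMonoid.toList_ofList, FreeMonoid.toList_one, winv_nil]
        rw [toInv_winv_self, toInv_nil]
    | refl a => rfl
    | symm _ ih => exact ih.symm
    | trans _ _ ih1 ih2 => exact ih1.trans ih2
    | mul _ _ ih1 ih2 =>
      simp only [FreeMonoid.toList_mul, winv_append, toInv_append]
      rw [ih1, ih2]
  have h2 := key _ _ h1
  simpa using h2

/-- If `u x b = 1` then `u x x⁻¹ = u`. -/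
lemma mul_letter_cancel {u b : List (Lt X)} {x : Lt X} (h : toInv w (u ++ [x] ++ b) = 1) :
    toInv w u * (toInv w [x] * toInv w [linv x]) = toInv w u := by
  -- `r = u x` is right invertible, so `r r⁻¹ = 1`
  have hr : toInv w (u ++ [x]) * toInv w (winv (u ++ [x])) = 1 := by
    have h1 := toInv_vagner w (u ++ [x])
    have h2 : toInv w (u ++ [x]) * toInv w (winv (u ++ [x])) * toInv w (u ++ [x]) * toInv w b =
        toInv w (u ++ [x]) * toInv w b := by rw [h1]
    rw [mul_assoc (toInv w (u ++ [x]) * toInv w (winv (u ++ [x]))),
      ← toInv_append w (u ++ [x]) b, h, mul_one] at h2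
    exact h2
  have h3 : toInv w u * (toInv w [x] * toInv w [linv x]) *
      (toInv w (winv u) * toInv w u) = toInv w u := by
    have h4 : toInv w (u ++ [x]) * toInv w (winv (u ++ [x])) * toInv w u = toInv w u := by
      rw [hr, one_mul]
    simp only [winv_append, winv_singleton, toInv_append] at h4
    simp only [mul_assoc] at h4 ⊢
    exact h4
  have h5 := toInv_comm w [x] (winv u)
  rw [winv_winv, winv_singleton] at h5
  rw [mul_assoc, h5, ← mul_assoc, ← mul_assoc (toInv w u), toInv_vagner] at h3
  exact h3

/-- The relation `a_i E_k = a_i`, i.e. `E_i ≤ E_k` for the idempotents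
`E_k = a_k⁻¹ a_k`. -/
def Low (i k : ℕ) : Prop :=
  toInv w (w.take i) * (toInv w (winv (w.take k)) * toInv w (w.take k)) = toInv w (w.take i)

lemma toInv_take_length {i : ℕ} (h : w.length ≤ i) : toInv w (w.take i) = 1 := by
  rw [List.take_of_length_le h, toInv_self]

lemma toInv_take_mod {i : ℕ} (h : i ≤ w.length) :
    toInv w (w.take (i % w.length)) = toInv w (w.take i) := by
  rcases Nat.lt_or_ge i w.length with h1 | h1
  · rw [Nat.mod_eq_of_lt h1]
  · have : i = w.length := le_antisymm h h1
    subst this
    rw [Nat.mod_self, List.take_zero, toInv_nil, List.take_length, toInv_self]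

lemma Mv.step {i i' : ℕ} {x : Lt X} (h : Mv w i x i') :
    toInv w (w.take i') = toInv w (w.take i) * toInv w [x] ∧
      toInv w (w.take i) * (toInv w [x] * toInv w [linv x]) = toInv w (w.take i) := by
  -- forward facts
  have key : ∀ (j : ℕ) (y : Lt X), j < w.length → w[j]? = some y →
      toInv w (w.take (j + 1)) = toInv w (w.take j) * toInv w [y] ∧
      toInv w (w.take j) * (toInv w [y] * toInv w [linv y]) = toInv w (w.take j) := by
    intro j y hj hy
    have e1 : w.take (j + 1) = w.take j ++ [y] := by
      rw [List.take_add_one, hy]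
      rfl
    refine ⟨by rw [e1, toInv_append], ?_⟩
    apply mul_letter_cancel w (b := w.drop (j + 1))
    rw [← e1, List.take_append_drop, toInv_self]
  rcases h with ⟨hi, hx, rfl⟩ | ⟨hi, hx, rfl⟩
  · obtain ⟨h1, h2⟩ := key i x hi hx
    exact ⟨by rw [toInv_take_mod w (by omega), h1], h2⟩
  · obtain ⟨h1, h2⟩ := key i' (linv x) hi hx
    rw [linv_linv'] at h2
    rw [toInv_take_mod w (by omega), h1]
    refine ⟨by rw [mul_assoc, h2], ?_⟩
    have h3 := toInv_vagner w [linv x]
    rw [winv_singleton, linv_linv'] at h3
    rw [mul_assoc, ← mul_assoc (toInv w [linv x]), h3]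

/-- Domination implies the order relation between the idempotents `a_i⁻¹ a_i`. -/
theorem Dom.low {i k : ℕ} (h : Dom w i k) : Low w i k := by
  induction h with
  | refl i =>
    unfold Low
    rw [← mul_assoc, toInv_vagner]
  | base i =>
    unfold Low
    rw [List.take_zero, winv_nil, toInv_nil, mul_one, mul_one]
  | trans i k l _ _ ih1 ih2 =>
    unfold Low at *
    set E := toInv w (winv (w.take k)) * toInv w (w.take k) with hE
    set G := toInv w (winv (w.take l)) * toInv w (w.take l) with hG
    have h1 : E * G = E := by rw [hE, mul_assoc, ih2]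
    calc toInv w (w.take i) * G = toInv w (w.take i) * E * G := by rw [ih1]
      _ = toInv w (w.take i) * E := by rw [mul_assoc, h1]
      _ = toInv w (w.take i) := ih1
  | letter i k i' k' x hi hk _ ih =>
    unfold Low at *
    obtain ⟨hi1, hi2⟩ := Mv.step w hi
    obtain ⟨hk1, hk2⟩ := Mv.step w hk
    -- inverse of `a_{k'}`
    have hk3 : toInv w (winv (w.take k')) = toInv w [linv x] * toInv w (winv (w.take k)) := by
      have : toInv w (w.take k') = toInv w (w.take k ++ [x]) := by rw [hk1, toInv_append]
      rw [winv_congr w this, winv_append, toInv_append, winv_singleton]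
    rw [hi1, hk1, hk3] at ih
    -- multiply by `x⁻¹`
    set a := toInv w (w.take i) with ha
    set E := toInv w (winv (w.take k)) * toInv w (w.take k) with hE
    have h4 : a * ((toInv w [x] * toInv w [linv x]) * E * (toInv w [x] * toInv w [linv x])) =
        a * (toInv w [x] * toInv w [linv x]) := by
      have := congrArg (fun z => z * toInv w [linv x]) ih
      simp only [hE] at this ⊢
      simp only [mul_assoc] at this ⊢
      exact this
    have h5 := toInv_comm w [x] (winv (w.take k))
    rw [winv_winv, winv_singleton] at h5
    have h6 : (toInv w [x] * toInv w [linv x]) * (toInv w [x] * toInv w [linv x]) =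
        toInv w [x] * toInv w [linv x] := by
      have h7 := toInv_vagner w [x]
      rw [winv_singleton] at h7
      rw [← mul_assoc, h7]
    rw [hi2] at h4
    rw [h5, mul_assoc E, h6, ← h5, ← mul_assoc, hi2] at h4
    exact h4

/-- If `0` dominates `k` then the cyclic conjugate of `w` starting at `k` is `1`
in `Inv⟨X | w = 1⟩`. -/
theorem Dom.eqOne {k : ℕ} (h : Dom w 0 k) (hk : k ≤ w.length) : EqOne w (w.rotate k) := by
  have h1 := h.low
  unfold Low at h1
  rw [List.take_zero, toInv_nil, one_mul] at h1
  unfold EqOne
  rw [List.rotate_eq_drop_append_take hk, toInv_append]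
  have h2 : toInv w (w.take k) * toInv w (w.drop k) = 1 := by
    rw [← toInv_append, List.take_append_drop, toInv_self]
  have h3 : toInv w (w.drop k) = toInv w (winv (w.take k)) := by
    calc toInv w (w.drop k) = (toInv w (winv (w.take k)) * toInv w (w.take k)) *
          toInv w (w.drop k) := by rw [h1, one_mul]
      _ = toInv w (winv (w.take k)) := by rw [mul_assoc, h2, mul_one]
  rw [h3, h1]

end mon

end MM31
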