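import Pool.Agent.LibMM31.Dom
import Mathlib.Computability.Primrec.List

/-!
# The overlap closure is primitive recursive

Uniformly in the alphabet (letters are pairs of a natural number and a sign), the
relation `Dom w 0 k` between a word `w` and a position `k` is primitive recursive.
-/

namespace MM31

open Primrec

/-! ### The closure as an intersection of closed sets coded by numbers -/

/-- The set of pairs coded by the number `y.2`; `y.1` is the word. -/
def Bt (y : List (ℕ × Bool) × ℕ) (a b : ℕ) : Prop :=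
  y.2.testBit (a * y.1.length + b) = true

/-- The coded set of pairs is closed under the rules of `Dom`. -/
def ClosedCode (y : List (ℕ × Bool) × ℕ) : Prop :=
  (∀ i < y.1.length, Bt y i i) ∧ (∀ i < y.1.length, Bt y i 0) ∧
  (∀ i < y.1.length, ∀ k < y.1.length, ∀ l < y.1.length, Bt y i k → Bt y k l → Bt y i l) ∧
  (∀ i < y.1.length, ∀ k < y.1.length, y.1[i]? = y.1[k]? →
    Bt y ((i + 1) % y.1.length) ((k + 1) % y.1.length) → Bt y i k) ∧
  (∀ i < y.1.length, ∀ k < y.1.length, y.1[i]? = y.1[k]? →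
    Bt y i k → Bt y ((i + 1) % y.1.length) ((k + 1) % y.1.length)) ∧
  (∀ i < y.1.length, ∀ k < y.1.length, y.1[k]? = (y.1[i]?).map linv →
    Bt y ((i + 1) % y.1.length) k → Bt y i ((k + 1) % y.1.length)) ∧
  (∀ i < y.1.length, ∀ k < y.1.length, y.1[k]? = (y.1[i]?).map linv →
    Bt y i ((k + 1) % y.1.length) → Bt y ((i + 1) % y.1.length) k)

theorem Dom.eq_of_ge {X : Type} {w : List (Lt X)} {i k : ℕ} (h : Dom w i k) (hk : w.length ≤ k)
    (hw : 0 < w.length) : i = k := by
  induction h with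
  | refl i => rfl
  | base i => omega
  | trans i k l _ _ ih1 ih2 =>
    have e := ih2 hk
    rw [← e] at hk
    rw [ih1 hk, e]
  | letter i k i' k' x hi hk' _ _ =>
    exfalso
    rcases hk' with ⟨h1, _, _⟩ | ⟨_, _, h3⟩
    · omega
    · have := Nat.mod_lt (k' + 1) hw
      omega

theorem Mv.lt {X : Type} {w : List (Lt X)} {i i' : ℕ} {x : Lt X} (h : Mv w i x i') :
    i < w.length ∧ i' < w.length := by
  rcases h with ⟨h1, _, h3⟩ | ⟨h1, _, h3⟩
  · exact ⟨h1, by rw [h3]; exact Nat.mod_lt _ (by omega)⟩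
  · exact ⟨by rw [h3]; exact Nat.mod_lt _ (by omega), h1⟩

theorem Dom.bt {w : List (ℕ × Bool)} {c : ℕ} (hc : ClosedCode (w, c)) (hw : 0 < w.length)
    {i k : ℕ} (h : Dom w i k) : i < w.length → k < w.length → Bt (w, c) i k := by
  obtain ⟨c1, c2, c3, c4, c5, c6, c7⟩ := hc
  simp only at c1 c2 c3 c4 c5 c6 c7
  induction h with
  | refl i => intro h1 _; exact c1 i h1
  | base i => intro h1 _; exact c2 i h1
  | trans i k l hik hkl ih1 ih2 =>
    intro h1 h2
    by_cases hk : k < w.length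
    · exact c3 i h1 k hk l h2 (ih1 h1 hk) (ih2 hk h2)
    · have := hik.eq_of_ge (by omega) hw
      omega
  | letter i k i' k' x hi hk _ ih =>
    intro h1 h2
    have b := ih hi.lt.2 hk.lt.2
    rcases hi with ⟨hi1, hi2, hi3⟩ | ⟨hi1, hi2, hi3⟩ <;>
      rcases hk with ⟨hk1, hk2, hk3⟩ | ⟨hk1, hk2, hk3⟩
    · subst hi3; subst hk3
      exact c4 i h1 k h2 (by rw [hi2, hk2]) b
    · subst hi3; subst hk3
      exact c6 i h1 k' hk1 (by rw [hi2, hk2]; rfl) b
    · subst hi3; subst hk3
      refine c7 i' hi1 k h2 ?_ b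
      rw [hi2, hk2]
      simp [linv]
    · subst hi3; subst hk3
      exact c5 i' hi1 k' hk1 (by rw [hi2, hk2]) b

theorem exists_code (w : List (ℕ × Bool)) (hw : 0 < w.length) :
    ∃ c < 2 ^ (w.length * w.length), ClosedCode (w, c) ∧
      ∀ i < w.length, ∀ k < w.length, Bt (w, c) i k → Dom w i k := by
  classical
  set n := w.length with hn
  set f : Fin (n * n) → Bool := fun m => decide (Dom w (m.1 / n) (m.1 % n)) with hf
  have key : ∀ i < n, ∀ k < n, (Bt (w, Nat.ofBits f) i k ↔ Dom w i k) := by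
    intro i hi k hk
    have hm : i * n + k < n * n := by
      calc i * n + k < i * n + n := by omega
        _ = (i + 1) * n := by ring
        _ ≤ n * n := Nat.mul_le_mul_right _ hi
    unfold Bt
    simp only [← hn]
    rw [Nat.testBit_ofBits_lt f _ hm]
    simp only [hf, decide_eq_true_eq]
    have e1 : (i * n + k) / n = i := by
      rw [mul_comm, Nat.mul_add_div hw, Nat.div_eq_of_lt hk, add_zero]
    have e2 : (i * n + k) % n = k := by
      rw [mul_comm, Nat.mul_add_mod, Nat.mod_eq_of_lt hk]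
    rw [e1, e2]
  have hmod : ∀ i, (i + 1) % n < n := fun i => Nat.mod_lt _ hw
  refine ⟨Nat.ofBits f, Nat.ofBits_lt_two_pow f, ⟨?_, ?_, ?_, ?_, ?_, ?_, ?_⟩, ?_⟩
  · intro i hi
    exact (key i hi i hi).2 (Dom.refl i)
  · intro i hi
    exact (key i hi 0 hw).2 (Dom.base i)
  · intro i hi k hk l hl h1 h2
    exact (key i hi l hl).2 (Dom.trans i k l ((key i hi k hk).1 h1) ((key k hk l hl).1 h2))
  · intro i hi k hk he hb
    simp only at hi hk he
    have hx := List.getElem?_eq_getElem hi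
    exact (key i hi k hk).2 (Dom.letter i k _ _ w[i] (Or.inl ⟨hi, hx, rfl⟩)
      (Or.inl ⟨hk, by rw [← he, hx], rfl⟩) ((key _ (hmod i) _ (hmod k)).1 hb))
  · intro i hi k hk he hb
    simp only at hi hk he
    have hx := List.getElem?_eq_getElem hi
    exact (key _ (hmod i) _ (hmod k)).2 (Dom.letter _ _ i k (linv w[i])
      (Or.inr ⟨hi, by rw [linv_linv', hx], rfl⟩)
      (Or.inr ⟨hk, by rw [linv_linv', ← he, hx], rfl⟩) ((key i hi k hk).1 hb))
  · intro i hi k hk he hb
    simp only at hi hk he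
    have hx := List.getElem?_eq_getElem hi
    exact (key i hi _ (hmod k)).2 (Dom.letter i _ _ k w[i] (Or.inl ⟨hi, hx, rfl⟩)
      (Or.inr ⟨hk, by rw [he, hx]; rfl, rfl⟩) ((key _ (hmod i) k hk).1 hb))
  · intro i hi k hk he hb
    simp only at hi hk he
    have hx := List.getElem?_eq_getElem hi
    exact (key _ (hmod i) k hk).2 (Dom.letter _ k i _ (linv w[i])
      (Or.inr ⟨hi, by rw [linv_linv', hx], rfl⟩)
      (Or.inl ⟨hk, by rw [he, hx]; rfl, rfl⟩) ((key i hi _ (hmod k)).1 hb))
  · intro i hi k hk h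
    exact (key i hi k hk).1 h

theorem dom_iff_codes (w : List (ℕ × Bool)) (k : ℕ) (hk : k < w.length) :
    Dom w 0 k ↔ ∀ c < 2 ^ (w.length * w.length), ClosedCode (w, c) → Bt (w, c) 0 k := by
  have hw : 0 < w.length := by omega
  constructor
  · intro h c _ hc
    exact h.bt hc hw hw hk
  · intro h
    obtain ⟨c, hc1, hc2, hc3⟩ := exists_code w hw
    exact hc3 0 hw k hk (h c hc1 hc2)

/-! ### Primitive recursiveness -/

theorem primrec_two_pow : Primrec fun m : ℕ => 2 ^ m := by
  have h : Primrec₂ (fun (_ : ℕ) (a : ℕ) => a * 2) :=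
    (Primrec.nat_mul.comp Primrec.snd (Primrec.const 2)).to₂
  refine (Primrec.nat_rec₁ 1 h).of_eq fun m => ?_
  induction m with
  | zero => rfl
  | succ m ih => rw [pow_succ, ← ih]

theorem primrec_testBit : PrimrecRel fun c m : ℕ => c.testBit m = true := by
  have h : PrimrecRel fun c m : ℕ => c / 2 ^ m % 2 = 1 :=
    Primrec.eq.comp (Primrec.nat_mod.comp (Primrec.nat_div.comp Primrec.fst
      (primrec_two_pow.comp Primrec.snd)) (Primrec.const 2)) (Primrec.const 1)
  refine PrimrecRel.of_eq h fun c m => ?_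
  rw [Nat.testBit_eq_decide_div_mod_eq, decide_eq_true_iff]

theorem primrec_forall_lt {β : Type} [Primcodable β] {R : ℕ → β → Prop} (hR : PrimrecRel R)
    {f : β → ℕ} (hf : Primrec f) : PrimrecPred fun y => ∀ x < f y, R x y :=
  (hR.forall_mem_list.comp (Primrec.list_range.comp hf) Primrec.id).of_eq (by simp)

theorem primrec_imp {β : Type} [Primcodable β] {p q : β → Prop} (hp : PrimrecPred p)
    (hq : PrimrecPred q) : PrimrecPred fun y => p y → q y :=
  (hp.not.or hq).of_eq fun y => by tauto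

theorem primrec_bt {β : Type} [Primcodable β] {y : β → List (ℕ × Bool) × ℕ} {a b : β → ℕ}
    (hy : Primrec y) (ha : Primrec a) (hb : Primrec b) :
    PrimrecPred fun z => Bt (y z) (a z) (b z) :=
  primrec_testBit.comp (Primrec.snd.comp hy)
    (Primrec.nat_add.comp (Primrec.nat_mul.comp ha (Primrec.list_length.comp
      (Primrec.fst.comp hy))) hb)

theorem primrec_linv : Primrec (linv : ℕ × Bool → ℕ × Bool) :=
  Primrec.pair Primrec.fst (Primrec.not.comp Primrec.snd)

/-- A quantifier over two positions. -/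
theorem primrec_forall₂ {R : ℕ → ℕ → List (ℕ × Bool) × ℕ → Prop}
    (hR : PrimrecPred fun z : ℕ × (ℕ × (List (ℕ × Bool) × ℕ)) => R z.2.1 z.1 z.2.2) :
    PrimrecPred fun y : List (ℕ × Bool) × ℕ =>
      ∀ i < y.1.length, ∀ k < y.1.length, R i k y := by
  have hlen : Primrec fun y : List (ℕ × Bool) × ℕ => y.1.length :=
    Primrec.list_length.comp Primrec.fst
  have h1 : PrimrecPred fun z : ℕ × (List (ℕ × Bool) × ℕ) =>
      ∀ k < z.2.1.length, R z.1 k z.2 :=
    primrec_forall_lt (R := fun (k : ℕ) (z : ℕ × (List (ℕ × Bool) × ℕ)) => R z.1 k z.2) hR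
      (hlen.comp Primrec.snd)
  exact primrec_forall_lt (R := fun (i : ℕ) (y : List (ℕ × Bool) × ℕ) =>
    ∀ k < y.1.length, R i k y) h1 hlen

theorem primrec_closedCode : PrimrecPred ClosedCode := by
  have hlen : Primrec fun y : List (ℕ × Bool) × ℕ => y.1.length :=
    Primrec.list_length.comp Primrec.fst
  -- projections for two positions
  have pk : Primrec fun z : ℕ × (ℕ × (List (ℕ × Bool) × ℕ)) => z.1 := Primrec.fst
  have pi : Primrec fun z : ℕ × (ℕ × (List (ℕ × Bool) × ℕ)) => z.2.1 :=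
    Primrec.fst.comp Primrec.snd
  have py : Primrec fun z : ℕ × (ℕ × (List (ℕ × Bool) × ℕ)) => z.2.2 :=
    Primrec.snd.comp Primrec.snd
  have pw : Primrec fun z : ℕ × (ℕ × (List (ℕ × Bool) × ℕ)) => z.2.2.1 := Primrec.fst.comp py
  have pn : Primrec fun z : ℕ × (ℕ × (List (ℕ × Bool) × ℕ)) => z.2.2.1.length := hlen.comp py
  have psk : Primrec fun z : ℕ × (ℕ × (List (ℕ × Bool) × ℕ)) => (z.1 + 1) % z.2.2.1.length :=
    Primrec.nat_mod.comp (Primrec.succ.comp pk) pn
  have psi : Primrec fun z : ℕ × (ℕ × (List (ℕ × Bool) × ℕ)) => (z.2.1 + 1) % z.2.2.1.length :=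
    Primrec.nat_mod.comp (Primrec.succ.comp pi) pn
  have gi : Primrec fun z : ℕ × (ℕ × (List (ℕ × Bool) × ℕ)) => z.2.2.1[z.2.1]? :=
    Primrec.list_getElem?.comp pw pi
  have gk : Primrec fun z : ℕ × (ℕ × (List (ℕ × Bool) × ℕ)) => z.2.2.1[z.1]? :=
    Primrec.list_getElem?.comp pw pk
  have gil : Primrec fun z : ℕ × (ℕ × (List (ℕ × Bool) × ℕ)) => (z.2.2.1[z.2.1]?).map linv :=
    Primrec.option_map gi (primrec_linv.comp Primrec.snd).to₂
  have e1 : PrimrecPred fun z : ℕ × (ℕ × (List (ℕ × Bool) × ℕ)) =>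
      z.2.2.1[z.2.1]? = z.2.2.1[z.1]? := Primrec.eq.comp gi gk
  have e2 : PrimrecPred fun z : ℕ × (ℕ × (List (ℕ × Bool) × ℕ)) =>
      z.2.2.1[z.1]? = (z.2.2.1[z.2.1]?).map linv := Primrec.eq.comp gk gil
  unfold ClosedCode
  refine PrimrecPred.and ?_ (PrimrecPred.and ?_ (PrimrecPred.and ?_ (PrimrecPred.and ?_
    (PrimrecPred.and ?_ (PrimrecPred.and ?_ ?_)))))
  · exact primrec_forall_lt (R := fun i y => Bt y i i)
      (primrec_bt Primrec.snd Primrec.fst Primrec.fst) hlen
  · exact primrec_forall_lt (R := fun i y => Bt y i 0)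
      (primrec_bt Primrec.snd Primrec.fst (Primrec.const 0)) hlen
  · refine primrec_forall₂ (R := fun i k y => ∀ l < y.1.length,
      Bt y i k → Bt y k l → Bt y i l) ?_
    refine primrec_forall_lt (R := fun l z => Bt z.2.2 z.2.1 z.1 → Bt z.2.2 z.1 l →
      Bt z.2.2 z.2.1 l) ?_ pn
    exact primrec_imp (primrec_bt (py.comp Primrec.snd) (pi.comp Primrec.snd)
      (pk.comp Primrec.snd)) (primrec_imp (primrec_bt (py.comp Primrec.snd)
      (pk.comp Primrec.snd) Primrec.fst) (primrec_bt (py.comp Primrec.snd)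
      (pi.comp Primrec.snd) Primrec.fst))
  · exact primrec_forall₂ (R := fun i k y => y.1[i]? = y.1[k]? →
      Bt y ((i + 1) % y.1.length) ((k + 1) % y.1.length) → Bt y i k)
      (primrec_imp e1 (primrec_imp (primrec_bt py psi psk) (primrec_bt py pi pk)))
  · exact primrec_forall₂ (R := fun i k y => y.1[i]? = y.1[k]? →
      Bt y i k → Bt y ((i + 1) % y.1.length) ((k + 1) % y.1.length))
      (primrec_imp e1 (primrec_imp (primrec_bt py pi pk) (primrec_bt py psi psk)))
  · exact primrec_forall₂ (R := fun i k y => y.1[k]? = (y.1[i]?).map linv →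
      Bt y ((i + 1) % y.1.length) k → Bt y i ((k + 1) % y.1.length))
      (primrec_imp e2 (primrec_imp (primrec_bt py psi pk) (primrec_bt py pi psk)))
  · exact primrec_forall₂ (R := fun i k y => y.1[k]? = (y.1[i]?).map linv →
      Bt y i ((k + 1) % y.1.length) → Bt y ((i + 1) % y.1.length) k)
      (primrec_imp e2 (primrec_imp (primrec_bt py pi psk) (primrec_bt py psi pk)))

/-- The relation `Dom w 0 k` between a word `w` and a position `k < |w|` is primitive
recursive. -/
theorem primrec_dom : PrimrecPred fun p : List (ℕ × Bool) × ℕ =>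
    p.2 < p.1.length ∧ Dom p.1 0 p.2 := by
  have hlen : Primrec fun p : List (ℕ × Bool) × ℕ => p.1.length :=
    Primrec.list_length.comp Primrec.fst
  have hlt : PrimrecPred fun p : List (ℕ × Bool) × ℕ => p.2 < p.1.length :=
    Primrec.nat_lt.comp Primrec.snd hlen
  have hall : PrimrecPred fun p : List (ℕ × Bool) × ℕ =>
      ∀ c < 2 ^ (p.1.length * p.1.length), ClosedCode (p.1, c) → Bt (p.1, c) 0 p.2 := by
    refine primrec_forall_lt (R := fun c (p : List (ℕ × Bool) × ℕ) =>
      ClosedCode (p.1, c) → Bt (p.1, c) 0 p.2) ?_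
      (primrec_two_pow.comp (Primrec.nat_mul.comp hlen hlen))
    have py : Primrec fun z : ℕ × (List (ℕ × Bool) × ℕ) => (z.2.1, z.1) :=
      Primrec.pair (Primrec.fst.comp Primrec.snd) Primrec.fst
    exact primrec_imp (primrec_closedCode.comp py)
      (primrec_bt py (Primrec.const 0) (Primrec.snd.comp Primrec.snd))
  refine (hlt.and hall).of_eq fun p => ?_
  constructor
  · rintro ⟨h1, h2⟩
    exact ⟨h1, (dom_iff_codes p.1 p.2 h1).2 h2⟩
  · rintro ⟨h1, h2⟩
    exact ⟨h1, (dom_iff_codes p.1 p.2 h1).1 h2⟩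

end MM31
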