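import Pool.Agent.LibMM31.Defs

/-!
# `T0` is decidable: a finite closure computation
-/

namespace MM31

variable {X : Type}

/-! ### One inductive relation for chains -/

/-- Appending two chains. -/
theorem Chn.append {n : ℕ} {w : ℕ → Lt X} {g h k : Germ} (h1 : Chn n w g h)
    (h2 : Chn n w (star n h) k) : Chn n w g k := by
  refine Chn.rec (motive_1 := fun _ _ _ => True)
    (motive_2 := fun g h _ => ∀ k, Chn n w (star n h) k → Chn n w g k)
    ?_ ?_ ?_ ?_ h1 k h2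
  · intros; trivial
  · intros; trivial
  · intro g h hc _ k hk
    exact Chn.cons g h k hc hk
  · intro g h k hc _ _ ih l hl
    exact Chn.cons g h l hc (ih l hl)

/-- All proper germs. -/
def germs (n : ℕ) : Finset Germ := (Finset.univ : Finset Bool) ×ˢ Finset.Ico 1 n

theorem mem_germs {n : ℕ} {g : Germ} : g ∈ germs n ↔ 1 ≤ g.2 ∧ g.2 < n := by
  simp [germs]

theorem Chn.mem {n : ℕ} {w : ℕ → Lt X} {g h : Germ} (h1 : Chn n w g h) :
    g ∈ germs n ∧ h ∈ germs n := by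
  refine Chn.rec (motive_1 := fun g h _ => g ∈ germs n ∧ h ∈ germs n)
    (motive_2 := fun g h _ => g ∈ germs n ∧ h ∈ germs n)
    ?_ ?_ ?_ ?_ h1
  · intro g h a b c d _ _ _
    exact ⟨mem_germs.2 ⟨a, b⟩, mem_germs.2 ⟨c, d⟩⟩
  · intro g h a b c d _ _ _ _
    exact ⟨mem_germs.2 ⟨a, by omega⟩, mem_germs.2 ⟨c, by omega⟩⟩
  · intro g h _ ih
    exact ih
  · intro g h k _ _ ih1 ih2
    exact ⟨ih1.1, ih2.2⟩

/-! ### The closure computation -/

section dec

variable [DecidableEq X]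

/-- One step of the closure computation for closable pairs and chains. -/
def t0step (n : ℕ) (w : ℕ → Lt X) (C : Finset (Germ × Germ)) : Finset (Germ × Germ) :=
  (germs n ×ˢ germs n).filter fun p =>
    p ∈ C ∨
    (p.1 ≠ p.2 ∧ wl n w p.1.1 p.1.2 = wl n w p.2.1 p.2.2 ∧
      (p.1.2 + 1 = n ∨ p.2.2 + 1 = n ∨ ((p.1.1, p.1.2 + 1), (p.2.1, p.2.2 + 1)) ∈ C)) ∨
    ∃ h ∈ germs n, (p.1, h) ∈ C ∧ (star n h, p.2) ∈ C

/-- The set of all chains, computed by iterating `t0step`. -/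
def t0set (n : ℕ) (w : ℕ → Lt X) : Finset (Germ × Germ) :=
  (t0step n w)^[(germs n ×ˢ germs n).card] ∅

/-- The Boolean test for `T0`. -/
def t0test (n : ℕ) (w : ℕ → Lt X) : Bool :=
  decide (∀ g ∈ germs n, (g, star n g) ∉ t0set n w)

theorem t0step_sub (n : ℕ) (w : ℕ → Lt X) (C : Finset (Germ × Germ)) :
    t0step n w C ⊆ germs n ×ˢ germs n := Finset.filter_subset _ _

theorem sub_t0step (n : ℕ) (w : ℕ → Lt X) {C : Finset (Germ × Germ)}
    (hC : C ⊆ germs n ×ˢ germs n) : C ⊆ t0step n w C := by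
  intro p hp
  unfold t0step
  rw [Finset.mem_filter]
  exact ⟨hC hp, Or.inl hp⟩

theorem t0iter_sub (n : ℕ) (w : ℕ → Lt X) (k : ℕ) :
    (t0step n w)^[k] ∅ ⊆ germs n ×ˢ germs n := by
  cases k with
  | zero => simp
  | succ k => rw [Function.iterate_succ_apply']; exact t0step_sub _ _ _

theorem t0iter_mono (n : ℕ) (w : ℕ → Lt X) (k : ℕ) :
    (t0step n w)^[k] ∅ ⊆ (t0step n w)^[k + 1] ∅ := by
  rw [Function.iterate_succ_apply']
  exact sub_t0step n w (t0iter_sub n w k)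

theorem t0iter_stab (n : ℕ) (w : ℕ → Lt X) (k : ℕ) :
    (∃ j ≤ k, (t0step n w)^[j + 1] ∅ = (t0step n w)^[j] ∅) ∨
      k + 1 ≤ ((t0step n w)^[k + 1] ∅).card := by
  induction k with
  | zero =>
    by_cases h : (t0step n w)^[0 + 1] ∅ = (t0step n w)^[0] ∅
    · exact Or.inl ⟨0, le_rfl, h⟩
    · right
      have h1 : (t0step n w)^[0] ∅ ⊂ (t0step n w)^[0 + 1] ∅ :=
        Finset.ssubset_iff_subset_ne.2 ⟨t0iter_mono n w 0, fun e => h e.symm⟩
      have := Finset.card_lt_card h1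
      omega
  | succ k ih =>
    rcases ih with ⟨j, hj, h⟩ | ih
    · exact Or.inl ⟨j, by omega, h⟩
    · by_cases h : (t0step n w)^[(k + 1) + 1] ∅ = (t0step n w)^[k + 1] ∅
      · exact Or.inl ⟨k + 1, le_rfl, h⟩
      · right
        have h1 : (t0step n w)^[k + 1] ∅ ⊂ (t0step n w)^[(k + 1) + 1] ∅ :=
          Finset.ssubset_iff_subset_ne.2 ⟨t0iter_mono n w (k + 1), fun e => h e.symm⟩
        have := Finset.card_lt_card h1
        omega

theorem t0iter_fix (n : ℕ) (w : ℕ → Lt X) (j : ℕ)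
    (h : (t0step n w)^[j + 1] ∅ = (t0step n w)^[j] ∅) (k : ℕ) (hk : j ≤ k) :
    (t0step n w)^[k] ∅ = (t0step n w)^[j] ∅ := by
  induction k, hk using Nat.le_induction with
  | base => rfl
  | succ k _ ih =>
    have e := Function.iterate_succ_apply' (t0step n w) j ∅
    rw [Function.iterate_succ_apply', ih, ← e]
    exact h

/-- `t0set` is a fixed point of `t0step`. -/
theorem t0set_fix (n : ℕ) (w : ℕ → Lt X) : t0step n w (t0set n w) = t0set n w := by
  unfold t0set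
  rw [← Function.iterate_succ_apply' (t0step n w)]
  rcases t0iter_stab n w (germs n ×ˢ germs n).card with ⟨j, hj, h⟩ | h
  · rw [t0iter_fix n w j h _ hj, t0iter_fix n w j h _ (by omega)]
  · have := Finset.card_le_card (t0iter_sub n w ((germs n ×ˢ germs n).card + 1))
    omega

theorem mem_of_step {n : ℕ} {w : ℕ → Lt X} {p : Germ × Germ} (h1 : p.1 ∈ germs n)
    (h2 : p.2 ∈ germs n)
    (h : (p.1 ≠ p.2 ∧ wl n w p.1.1 p.1.2 = wl n w p.2.1 p.2.2 ∧
      (p.1.2 + 1 = n ∨ p.2.2 + 1 = n ∨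
        ((p.1.1, p.1.2 + 1), (p.2.1, p.2.2 + 1)) ∈ t0set n w)) ∨
    ∃ h ∈ germs n, (p.1, h) ∈ t0set n w ∧ (star n h, p.2) ∈ t0set n w) :
    p ∈ t0set n w := by
  rw [← t0set_fix]
  unfold t0step
  rw [Finset.mem_filter]
  exact ⟨Finset.mem_product.2 ⟨h1, h2⟩, Or.inr h⟩

theorem chn_mem_t0set {n : ℕ} {w : ℕ → Lt X} {g h : Germ} (hc : Chn n w g h) :
    (g, h) ∈ t0set n w := by
  refine Chn.rec (motive_1 := fun g h _ => (g, h) ∈ t0set n w)
    (motive_2 := fun g h _ => (g, h) ∈ t0set n w)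
    ?_ ?_ ?_ ?_ hc
  · intro g h a b c d e f hl
    refine mem_of_step (p := (g, h)) (mem_germs.2 ⟨a, b⟩) (mem_germs.2 ⟨c, d⟩) (Or.inl ⟨e, f, ?_⟩)
    rcases hl with hl | hl
    · exact Or.inl hl
    · exact Or.inr (Or.inl hl)
  · intro g h a b c d e f _ ih
    have b' : g.2 < n := by omega
    have d' : h.2 < n := by omega
    exact mem_of_step (p := (g, h)) (mem_germs.2 ⟨a, b'⟩) (mem_germs.2 ⟨c, d'⟩)
      (Or.inl ⟨e, f, Or.inr (Or.inr ih)⟩)
  · intro g h _ ih
    exact ih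
  · intro g h k hc1 hc2 ih1 ih2
    have m1 := (Chn.one g h hc1).mem
    have m2 := hc2.mem
    exact mem_of_step (p := (g, k)) m1.1 m2.2 (Or.inr ⟨h, m1.2, ih1, ih2⟩)

theorem chn_of_mem_iter {n : ℕ} {w : ℕ → Lt X} (k : ℕ) :
    ∀ p : Germ × Germ, p ∈ (t0step n w)^[k] ∅ → Chn n w p.1 p.2 := by
  induction k with
  | zero => intro p hp; simp at hp
  | succ k ih =>
    intro p hp
    rw [Function.iterate_succ_apply'] at hp
    unfold t0step at hp
    rw [Finset.mem_filter] at hp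
    obtain ⟨hm, h⟩ := hp
    obtain ⟨m1, m2⟩ := Finset.mem_product.1 hm
    have m1' := mem_germs.1 m1
    have m2' := mem_germs.1 m2
    rcases h with h | ⟨hne, hl, h⟩ | ⟨h, hh, h1, h2⟩
    · exact ih p h
    · by_cases hb : p.1.2 + 1 = n ∨ p.2.2 + 1 = n
      · exact Chn.one _ _ (Cl.term _ _ m1'.1 m1'.2 m2'.1 m2'.2 hne hl hb)
      · have hC : ((p.1.1, p.1.2 + 1), (p.2.1, p.2.2 + 1)) ∈ (t0step n w)^[k] ∅ := by
          rcases h with h | h | h
          · exact absurd (Or.inl h) hb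
          · exact absurd (Or.inr h) hb
          · exact h
        have hc := ih _ hC
        exact Chn.one _ _ (Cl.step _ _ m1'.1 (by omega) m2'.1 (by omega) hne hl hc)
    · exact (ih _ h1).append (ih _ h2)

/-- The Boolean test decides `T0`. -/
theorem t0test_iff (n : ℕ) (w : ℕ → Lt X) : t0test n w = true ↔ T0 n w := by
  unfold t0test T0
  rw [decide_eq_true_iff]
  constructor
  · intro h g h1 h2 hc
    exact h g (mem_germs.2 ⟨h1, h2⟩) (chn_mem_t0set hc)
  · intro h g hg hc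
    obtain ⟨h1, h2⟩ := mem_germs.1 hg
    exact h g h1 h2 (chn_of_mem_iter _ _ hc)

instance (n : ℕ) (w : ℕ → Lt X) : Decidable (T0 n w) :=
  decidable_of_iff _ (t0test_iff n w)

end dec

end MM31
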