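import Mathlib

/-!
# Iterating a finite closure step
-/

namespace MM31

variable {α : Type*} [DecidableEq α]

/-- iterate `f` at most `k` times, stopping at a fixed point -/
def fixAux (f : Finset α → Finset α) : ℕ → Finset α → Finset α
  | 0, C => C
  | k + 1, C => let D := f C; if D = C then C else fixAux f k D

/-- the closure computed by iterating a step on subsets of a finite set -/
def fixIter (Ω : Finset α) (f : Finset α → Finset α) : Finset α := fixAux f Ω.card ∅

theorem fixAux_eq (f : Finset α → Finset α) (k : ℕ) (C : Finset α) :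
    fixAux f k C = f^[k] C := by
  induction k generalizing C with
  | zero => rfl
  | succ k ih =>
    rw [Function.iterate_succ_apply]
    show (if f C = C then C else fixAux f k (f C)) = _
    split
    · rename_i h
      rw [h, Function.iterate_fixed h]
    · exact ih _

theorem fixIter_def (Ω : Finset α) (f : Finset α → Finset α) :
    fixIter Ω f = f^[Ω.card] ∅ := fixAux_eq _ _ _

section

variable {Ω : Finset α} {f : Finset α → Finset α} (h1 : ∀ C, f C ⊆ Ω)
  (h2 : ∀ C, C ⊆ Ω → C ⊆ f C)

include h1 in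
theorem fixIter_sub_aux (k : ℕ) : f^[k] ∅ ⊆ Ω := by
  cases k with
  | zero => simp
  | succ k => rw [Function.iterate_succ_apply']; exact h1 _

include h1 h2 in
theorem fixIter_mono (k : ℕ) : f^[k] ∅ ⊆ f^[k + 1] ∅ := by
  rw [Function.iterate_succ_apply']
  exact h2 _ (fixIter_sub_aux h1 k)

include h1 h2 in
theorem fixIter_stab (k : ℕ) :
    (∃ j ≤ k, f^[j + 1] ∅ = f^[j] ∅) ∨ k + 1 ≤ (f^[k + 1] ∅).card := by
  induction k with
  | zero =>
    by_cases h : f^[0 + 1] ∅ = f^[0] ∅
    · exact Or.inl ⟨0, le_rfl, h⟩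
    · right
      have h3 : f^[0] ∅ ⊂ f^[0 + 1] ∅ :=
        Finset.ssubset_iff_subset_ne.2 ⟨fixIter_mono h1 h2 0, fun e => h e.symm⟩
      have := Finset.card_lt_card h3
      omega
  | succ k ih =>
    rcases ih with ⟨j, hj, h⟩ | ih
    · exact Or.inl ⟨j, by omega, h⟩
    · by_cases h : f^[(k + 1) + 1] ∅ = f^[k + 1] ∅
      · exact Or.inl ⟨k + 1, le_rfl, h⟩
      · right
        have h3 : f^[k + 1] ∅ ⊂ f^[(k + 1) + 1] ∅ :=
          Finset.ssubset_iff_subset_ne.2 ⟨fixIter_mono h1 h2 (k + 1), fun e => h e.symm⟩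
        have := Finset.card_lt_card h3
        omega

omit [DecidableEq α] in
theorem fixIter_fix (j : ℕ) (h : f^[j + 1] ∅ = f^[j] ∅) (k : ℕ) (hk : j ≤ k) :
    f^[k] ∅ = f^[j] ∅ := by
  induction k, hk using Nat.le_induction with
  | base => rfl
  | succ k _ ih =>
    have e := Function.iterate_succ_apply' f j ∅
    rw [Function.iterate_succ_apply', ih, ← e]
    exact h

include h1 h2 in
/-- the iteration reaches a fixed point -/
theorem fixIter_eq : f (fixIter Ω f) = fixIter Ω f := by
  rw [fixIter_def]
  rw [← Function.iterate_succ_apply' f]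
  rcases fixIter_stab h1 h2 Ω.card with ⟨j, hj, h⟩ | h
  · rw [fixIter_fix j h _ hj, fixIter_fix j h _ (by omega)]
  · have := Finset.card_le_card (fixIter_sub_aux h1 (Ω.card + 1))
    omega

/-- induction over the iteration -/
theorem fixIter_induct {P : α → Prop} (hP : ∀ C, (∀ p ∈ C, P p) → ∀ p ∈ f C, P p) :
    ∀ p ∈ fixIter Ω f, P p := by
  rw [fixIter_def]
  generalize Ω.card = k
  induction k with
  | zero => intro p hp; simp at hp
  | succ k ih => intro p hp; rw [Function.iterate_succ_apply'] at hp; exact hP _ ih p hp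

end

end MM31
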