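import Pool.Agent.LibMM31.WDefs
import Pool.Agent.LibMM31.FixIter

/-!
# `T0W` is decidable: a finite closure computation
-/

set_option linter.unusedSectionVars false

namespace MM31

section

variable {X V : Type} [DecidableEq X] [DecidableEq V]

variable (Γ : PG X V) (EL : List (V × Lt X × V)) (n : ℕ) (w : ℕ → Lt X) (cl : ℕ → V)

instance decTerm (g : Gm X V) : Decidable (g.term Γ n) := by
  cases g <;> unfold Gm.term <;> infer_instance

instance decOk (g h : Gm X V) : Decidable (g.ok n w cl h) := by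
  cases g <;> cases h <;> unfold Gm.ok <;> infer_instance

instance decCont (g h : Gm X V) : Decidable (g.cont h) := by
  cases g <;> cases h <;> unfold Gm.cont <;> infer_instance

instance decCor (g h : Gm X V) : Decidable (g.cor n h) := by
  cases g <;> cases h <;> unfold Gm.cor <;> infer_instance

/-- the list of the valid germs -/
def gms : Finset (Gm X V) :=
  (((List.range n).filter (fun k => 1 ≤ k)).flatMap (fun k => [Gm.L true k, Gm.L false k]) ++
    (EL.filter (fun e : V × Lt X × V => e.1 ≠ Γ.st)).flatMap (fun e : V × Lt X × V =>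
      Gm.W e.1 e.2.1 e.2.2 true ::
        (if e.2.2 = Γ.st then [] else [Gm.W e.1 e.2.1 e.2.2 false]))).toFinset

variable {Γ} {EL} in
theorem mem_gms (hEL : ∀ p x q, Γ.E p x q ↔ (p, x, q) ∈ EL) (g : Gm X V) :
    g ∈ gms Γ EL n ↔ g.valid Γ n := by
  unfold gms
  rw [List.mem_toFinset, List.mem_append, List.mem_flatMap, List.mem_flatMap]
  cases g with
  | L s k =>
    simp only [Gm.valid]
    constructor
    · rintro (⟨j, hj, h⟩ | ⟨e, he, h⟩)
      · rw [List.mem_filter, List.mem_range] at hj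
        simp only [List.mem_cons, Gm.L.injEq, List.not_mem_nil, or_false] at h
        have : k = j := by rcases h with h | h <;> exact h.2
        subst this
        exact ⟨by simpa using hj.2, hj.1⟩
      · exfalso
        by_cases h1 : e.2.2 = Γ.st <;> simp [h1] at h
    · rintro ⟨h1, h2⟩
      left
      refine ⟨k, ?_, ?_⟩
      · rw [List.mem_filter, List.mem_range]; exact ⟨h2, by simpa using h1⟩
      · cases s <;> simp
  | W p x q b =>
    simp only [Gm.valid]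
    constructor
    · rintro (⟨j, hj, h⟩ | ⟨e, he, h⟩)
      · simp at h
      · rw [List.mem_filter] at he
        obtain ⟨he1, he2⟩ := he
        have he2' : e.1 ≠ Γ.st := by simpa using he2
        by_cases h1 : e.2.2 = Γ.st
        · simp only [h1, if_true, List.mem_cons, Gm.W.injEq, List.not_mem_nil, or_false] at h
          obtain ⟨rfl, rfl, rfl, rfl⟩ := h
          refine ⟨(hEL _ _ _).2 ?_, he2', by simp⟩
          rw [← h1]; exact he1
        · simp only [h1, if_false, List.mem_cons, Gm.W.injEq, List.not_mem_nil, or_false] at h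
          rcases h with ⟨rfl, rfl, rfl, rfl⟩ | ⟨rfl, rfl, rfl, rfl⟩
          · exact ⟨(hEL _ _ _).2 he1, he2', by simp⟩
          · exact ⟨(hEL _ _ _).2 he1, he2', fun _ => h1⟩
    · rintro ⟨h1, h2, h3⟩
      right
      refine ⟨(p, x, q), ?_, ?_⟩
      · rw [List.mem_filter]; exact ⟨(hEL _ _ _).1 h1, by simpa using h2⟩
      · cases b
        · have := h3 rfl
          simp [this]
        · simp

/-- one step of the closure computation -/
def twSt (C : Finset (Gm X V × Gm X V)) : Finset (Gm X V × Gm X V) :=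
  (gms Γ EL n ×ˢ gms Γ EL n).filter fun p =>
    p ∈ C ∨
    (p.1.ok n w cl p.2 ∧ (p.1.term Γ n ∨ p.2.term Γ n ∨ ∃ q ∈ C, p.1.cont q.1 ∧ p.2.cont q.2)) ∨
    ∃ q ∈ C, ∃ r ∈ C, q.1 = p.1 ∧ r.2 = p.2 ∧ q.2.cor n r.1

/-- all chains of closable pairs -/
def twSet : Finset (Gm X V × Gm X V) :=
  fixIter (gms Γ EL n ×ˢ gms Γ EL n) (twSt Γ EL n w cl)

/-- the Boolean test for `T0W` -/
def twTest : Bool :=
  decide (∀ g ∈ gms Γ EL n, ∀ h ∈ gms Γ EL n, h.cor n g → (g, h) ∉ twSet Γ EL n w cl)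

theorem twSt_sub (C : Finset (Gm X V × Gm X V)) :
    twSt Γ EL n w cl C ⊆ gms Γ EL n ×ˢ gms Γ EL n := Finset.filter_subset _ _

theorem sub_twSt (C : Finset (Gm X V × Gm X V)) (hC : C ⊆ gms Γ EL n ×ˢ gms Γ EL n) :
    C ⊆ twSt Γ EL n w cl C := by
  intro p hp
  unfold twSt
  rw [Finset.mem_filter]
  exact ⟨hC hp, Or.inl hp⟩

theorem twSet_fix : twSt Γ EL n w cl (twSet Γ EL n w cl) = twSet Γ EL n w cl :=
  fixIter_eq (twSt_sub Γ EL n w cl) (sub_twSt Γ EL n w cl)

variable {Γ EL n w cl}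

theorem ChnW.append {g h h' k : Gm X V} (h1 : ChnW Γ n w cl g h) (hv : h'.valid Γ n)
    (hc : h.cor n h') (h2 : ChnW Γ n w cl h' k) : ChnW Γ n w cl g k := by
  refine ChnW.rec (motive_1 := fun _ _ _ => True)
    (motive_2 := fun g h _ => ∀ h' k, h'.valid Γ n → h.cor n h' → ChnW Γ n w cl h' k →
      ChnW Γ n w cl g k) ?_ ?_ ?_ ?_ h1 h' k hv hc h2
  · intros; trivial
  · intros; trivial
  · intro g h hcl _ h' k hv hc hk
    exact ChnW.cons g h h' k hcl hv hc hk
  · intro g h h' k hcl hv hc _ _ ih l m hl hm hk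
    exact ChnW.cons g h h' m hcl hv hc (ih l m hl hm hk)

theorem chnW_mem (hEL : ∀ p x q, Γ.E p x q ↔ (p, x, q) ∈ EL) {g h : Gm X V}
    (hc : ChnW Γ n w cl g h) : (g, h) ∈ twSet Γ EL n w cl := by
  have hsub : ∀ p ∈ twSet Γ EL n w cl, p.1 ∈ gms Γ EL n ∧ p.2 ∈ gms Γ EL n := by
    intro p hp
    rw [← twSet_fix] at hp
    exact Finset.mem_product.1 (twSt_sub _ _ _ _ _ _ hp)
  have step : ∀ p : Gm X V × Gm X V, p.1 ∈ gms Γ EL n → p.2 ∈ gms Γ EL n →
      ((p.1.ok n w cl p.2 ∧ (p.1.term Γ n ∨ p.2.term Γ n ∨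
        ∃ q ∈ twSet Γ EL n w cl, p.1.cont q.1 ∧ p.2.cont q.2)) ∨
      ∃ q ∈ twSet Γ EL n w cl, ∃ r ∈ twSet Γ EL n w cl, q.1 = p.1 ∧ r.2 = p.2 ∧
        q.2.cor n r.1) → p ∈ twSet Γ EL n w cl := by
    intro p h1 h2 h3
    rw [← twSet_fix]
    unfold twSt
    rw [Finset.mem_filter]
    exact ⟨Finset.mem_product.2 ⟨h1, h2⟩, Or.inr h3⟩
  refine ChnW.rec (motive_1 := fun g h _ => (g, h) ∈ twSet Γ EL n w cl)
    (motive_2 := fun g h _ => (g, h) ∈ twSet Γ EL n w cl) ?_ ?_ ?_ ?_ hc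
  · intro g h v1 v2 ok t
    refine step (g, h) ((mem_gms n hEL g).2 v1) ((mem_gms n hEL h).2 v2) (Or.inl ⟨ok, ?_⟩)
    rcases t with t | t
    · exact Or.inl t
    · exact Or.inr (Or.inl t)
  · intro g h g' h' v1 v2 ok v3 v4 c1 c2 _ ih
    exact step (g, h) ((mem_gms n hEL g).2 v1) ((mem_gms n hEL h).2 v2)
      (Or.inl ⟨ok, Or.inr (Or.inr ⟨(g', h'), ih, c1, c2⟩)⟩)
  · intro g h _ ih
    exact ih
  · intro g h h' k _ _ c _ ih1 ih2
    exact step (g, k) (hsub _ ih1).1 (hsub _ ih2).2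
      (Or.inr ⟨(g, h), ih1, (h', k), ih2, rfl, rfl, c⟩)

theorem chnW_of_mem (hEL : ∀ p x q, Γ.E p x q ↔ (p, x, q) ∈ EL) :
    ∀ p ∈ twSet Γ EL n w cl, ChnW Γ n w cl p.1 p.2 := by
  unfold twSet
  have key : ∀ C : Finset (Gm X V × Gm X V),
      (∀ p ∈ C, (p.1.valid Γ n ∧ p.2.valid Γ n) ∧ ChnW Γ n w cl p.1 p.2) →
      ∀ p ∈ twSt Γ EL n w cl C, (p.1.valid Γ n ∧ p.2.valid Γ n) ∧ ChnW Γ n w cl p.1 p.2 := by
    intro C hC p hp
    unfold twSt at hp
    rw [Finset.mem_filter] at hp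
    obtain ⟨hm, h⟩ := hp
    obtain ⟨m1, m2⟩ := Finset.mem_product.1 hm
    have v1 := (mem_gms n hEL _).1 m1
    have v2 := (mem_gms n hEL _).1 m2
    refine ⟨⟨v1, v2⟩, ?_⟩
    rcases h with h | ⟨ok, h⟩ | ⟨q, hq, r, hr, e1, e2, hc⟩
    · exact (hC p h).2
    · rcases h with h | h | ⟨q, hq, c1, c2⟩
      · exact ChnW.one _ _ (ClW.term _ _ v1 v2 ok (Or.inl h))
      · exact ChnW.one _ _ (ClW.term _ _ v1 v2 ok (Or.inr h))
      · have := hC q hq
        exact ChnW.one _ _ (ClW.step _ _ _ _ v1 v2 ok this.1.1 this.1.2 c1 c2 this.2)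
    · have h1 := (hC q hq).2
      have h2 := (hC r hr).2
      rw [e1] at h1
      rw [e2] at h2
      exact h1.append (hC r hr).1.1 hc h2
  intro p hp
  exact (fixIter_induct (P := fun p => (p.1.valid Γ n ∧ p.2.valid Γ n) ∧
    ChnW Γ n w cl p.1 p.2) key p hp).2

/-- The Boolean test decides `T0W`. -/
theorem twTest_iff (hEL : ∀ p x q, Γ.E p x q ↔ (p, x, q) ∈ EL) :
    twTest Γ EL n w cl = true ↔ T0W Γ n w cl := by
  unfold twTest T0W
  rw [decide_eq_true_iff]
  constructor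
  · intro h g k v1 v2 hc hch
    exact h g ((mem_gms n hEL g).2 v1) k ((mem_gms n hEL k).2 v2) hc (chnW_mem hEL hch)
  · intro h g hg k hk hc hch
    exact h g k ((mem_gms n hEL g).1 hg) ((mem_gms n hEL k).1 hk) hc (chnW_of_mem hEL _ hch)

end

end MM31
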