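import Pool.Agent.LibMM31.WFinal
import Pool.Agent.LibMM31.DomComp
import Pool.Agent.LibMM31.T0Dec
import Pool.Agent.LibMM31.WTest

/-!
# The domination closure of a cyclic word: computation and folded graph
-/

set_option linter.unusedSectionVars false

namespace MM31

variable {X : Type}

/-- the two letters leaving the position `i` of the cyclic word `w`, with the positions they
lead to -/
def nbs (w : List (Lt X)) (a : Lt X) (i : ℕ) : List (Lt X × ℕ) :=
  [(cw w a i, (i + 1) % w.length),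
    (linv (cw w a (i + (w.length - 1))), (i + (w.length - 1)) % w.length)]

theorem cw_mod (w : List (Lt X)) (a : Lt X) (i : ℕ) : cw w a (i % w.length) = cw w a i := by
  unfold cw; rw [Nat.mod_mod]

theorem getElem?_cw {w : List (Lt X)} {a : Lt X} {i : ℕ} (h : i < w.length) :
    w[i]? = some (cw w a i) := by
  rw [cw_of_lt h]
  unfold wf
  rw [List.getD_eq_getElem?_getD, List.getElem?_eq_getElem h]
  rfl

theorem back_mod {N i : ℕ} (hN : 0 < N) : ((i + (N - 1)) % N + 1) % N = i % N := by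
  rw [Nat.mod_add_mod, show i + (N - 1) + 1 = i + N by omega, Nat.add_mod_right]

theorem forw_mod {N i : ℕ} (hN : 0 < N) : ((i + 1) % N + (N - 1)) % N = i % N := by
  rw [Nat.mod_add_mod, show i + 1 + (N - 1) = i + N by omega, Nat.add_mod_right]

theorem mem_nbs_iff {w : List (Lt X)} {a : Lt X} {i : ℕ} (hi : i < w.length) (x : Lt X)
    (i' : ℕ) : (x, i') ∈ nbs w a i ↔ Mv w i x i' := by
  have hN : 0 < w.length := by omega
  unfold nbs Mv
  simp only [List.mem_cons, Prod.mk.injEq, List.not_mem_nil, or_false]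
  constructor
  · rintro (⟨rfl, rfl⟩ | ⟨rfl, rfl⟩)
    · exact Or.inl ⟨hi, getElem?_cw hi, rfl⟩
    · right
      have h1 : (i + (w.length - 1)) % w.length < w.length := Nat.mod_lt _ hN
      refine ⟨h1, ?_, ?_⟩
      · rw [getElem?_cw (a := a) h1, cw_mod, linv_linv]
      · rw [back_mod hN, Nat.mod_eq_of_lt hi]
  · rintro (⟨_, h2, h3⟩ | ⟨h1, h2, h3⟩)
    · left
      rw [getElem?_cw (a := a) hi] at h2
      exact ⟨(Option.some.inj h2).symm, h3⟩
    · right
      rw [getElem?_cw (a := a) h1] at h2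
      have h4 : (i + (w.length - 1)) % w.length = i' := by
        rw [h3, forw_mod hN, Nat.mod_eq_of_lt h1]
      rw [h4]
      refine ⟨?_, rfl⟩
      rw [← cw_mod, h4, Option.some.inj h2, linv_linv]

theorem nbs_symm {w : List (Lt X)} {a : Lt X} {i : ℕ} (hi : i < w.length) {x : Lt X}
    {i' : ℕ} (h : (x, i') ∈ nbs w a i) : i' < w.length ∧ (linv x, i) ∈ nbs w a i' := by
  have h1 := (mem_nbs_iff hi x i').1 h
  have h2 := h1.lt
  refine ⟨h2.2, (mem_nbs_iff h2.2 _ _).2 ?_⟩
  rcases h1 with ⟨a1, a2, a3⟩ | ⟨a1, a2, a3⟩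
  · exact Or.inr ⟨a1, by rw [linv_linv]; exact a2, a3⟩
  · exact Or.inl ⟨a1, a2, a3⟩

section dec

variable [DecidableEq X]

/-- one step of the domination closure -/
def domSt (w : List (Lt X)) (a : Lt X) (C : Finset (ℕ × ℕ)) : Finset (ℕ × ℕ) :=
  (Finset.range w.length ×ˢ Finset.range w.length).filter fun p =>
    p ∈ C ∨ p.1 = p.2 ∨ p.2 = 0 ∨
    (∃ m ∈ Finset.range w.length, (p.1, m) ∈ C ∧ (m, p.2) ∈ C) ∨
    ∃ y ∈ nbs w a p.1, ∃ z ∈ nbs w a p.2, y.1 = z.1 ∧ (y.2, z.2) ∈ C

/-- the domination closure -/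
def domSet (w : List (Lt X)) (a : Lt X) : Finset (ℕ × ℕ) :=
  fixIter (Finset.range w.length ×ˢ Finset.range w.length) (domSt w a)

theorem domSt_sub (w : List (Lt X)) (a : Lt X) (C : Finset (ℕ × ℕ)) :
    domSt w a C ⊆ Finset.range w.length ×ˢ Finset.range w.length := Finset.filter_subset _ _

theorem sub_domSt (w : List (Lt X)) (a : Lt X) (C : Finset (ℕ × ℕ))
    (hC : C ⊆ Finset.range w.length ×ˢ Finset.range w.length) : C ⊆ domSt w a C := by
  intro p hp
  unfold domSt
  rw [Finset.mem_filter]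
  exact ⟨hC hp, Or.inl hp⟩

theorem domSet_fix (w : List (Lt X)) (a : Lt X) : domSt w a (domSet w a) = domSet w a :=
  fixIter_eq (domSt_sub w a) (sub_domSt w a)

theorem dom_of_mem {w : List (Lt X)} {a : Lt X} : ∀ p ∈ domSet w a, Dom w p.1 p.2 := by
  refine fixIter_induct (P := fun p : ℕ × ℕ => Dom w p.1 p.2) ?_
  intro C hC p hp
  unfold domSt at hp
  rw [Finset.mem_filter, Finset.mem_product, Finset.mem_range, Finset.mem_range] at hp
  obtain ⟨⟨h1, h2⟩, h⟩ := hp
  rcases h with h | h | h | ⟨m, _, h3, h4⟩ | ⟨y, hy, z, hz, h3, h4⟩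
  · exact hC p h
  · rw [← h]; exact Dom.refl _
  · rw [h]; exact Dom.base _
  · exact Dom.trans _ _ _ (hC (p.1, m) h3) (hC (m, p.2) h4)
  · refine Dom.letter _ _ y.2 z.2 y.1 ((mem_nbs_iff h1 _ _).1 hy) ?_ (hC (y.2, z.2) h4)
    rw [h3]
    exact (mem_nbs_iff h2 _ _).1 hz

theorem mem_of_dom {w : List (Lt X)} {a : Lt X} {i k : ℕ} (h : Dom w i k) :
    i < w.length → k < w.length → (i, k) ∈ domSet w a := by
  have step : ∀ i k, i < w.length → k < w.length →
      (i = k ∨ k = 0 ∨ (∃ m ∈ Finset.range w.length, (i, m) ∈ domSet w a ∧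
        (m, k) ∈ domSet w a) ∨
        ∃ y ∈ nbs w a i, ∃ z ∈ nbs w a k, y.1 = z.1 ∧ (y.2, z.2) ∈ domSet w a) →
      (i, k) ∈ domSet w a := by
    intro i k hi hk h
    rw [← domSet_fix]
    unfold domSt
    rw [Finset.mem_filter, Finset.mem_product, Finset.mem_range, Finset.mem_range]
    exact ⟨⟨hi, hk⟩, Or.inr h⟩
  induction h with
  | refl i => intro hi _; exact step i i hi hi (Or.inl rfl)
  | base i => intro hi hk; exact step i 0 hi hk (Or.inr (Or.inl rfl))
  | trans i m k hik hmk ih1 ih2 =>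
    intro hi hk
    by_cases hm : m < w.length
    · exact step i k hi hk (Or.inr (Or.inr (Or.inl
        ⟨m, Finset.mem_range.2 hm, ih1 hi hm, ih2 hm hk⟩)))
    · have := hik.eq_of_ge (by omega) (by omega)
      omega
  | letter i k i' k' x h1 h2 _ ih =>
    intro hi hk
    refine step i k hi hk (Or.inr (Or.inr (Or.inr ⟨(x, i'), (mem_nbs_iff hi _ _).2 h1,
      (x, k'), (mem_nbs_iff hk _ _).2 h2, rfl, ih h1.lt.2 h2.lt.2⟩)))

theorem mem_domSet_iff {w : List (Lt X)} {a : Lt X} {i k : ℕ} (hi : i < w.length)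
    (hk : k < w.length) : (i, k) ∈ domSet w a ↔ Dom w i k :=
  ⟨fun h => dom_of_mem _ h, fun h => mem_of_dom h hi hk⟩

/-- the representative of the class of the position `i` modulo mutual domination -/
def rp (w : List (Lt X)) (a : Lt X) (i : ℕ) : ℕ :=
  ((List.range w.length).filter (fun k => decide ((i % w.length, k) ∈ domSet w a ∧
    (k, i % w.length) ∈ domSet w a))).headD 0

theorem rp_mod (w : List (Lt X)) (a : Lt X) (i : ℕ) : rp w a (i % w.length) = rp w a i := by
  unfold rp; rw [Nat.mod_mod]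

theorem rp_spec {w : List (Lt X)} {a : Lt X} {i : ℕ} (hi : i < w.length) :
    rp w a i < w.length ∧ Dom w i (rp w a i) ∧ Dom w (rp w a i) i := by
  have hm : i % w.length = i := Nat.mod_eq_of_lt hi
  have hii : (i, i) ∈ domSet w a := (mem_domSet_iff hi hi).2 (Dom.refl i)
  have hmem : ∀ l : List ℕ, (∃ j, j ∈ l) → l.headD 0 ∈ l := by
    intro l hl
    cases l with
    | nil => simp at hl
    | cons b l => simp
  have h1 := hmem ((List.range w.length).filter (fun k => decide ((i % w.length, k) ∈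
    domSet w a ∧ (k, i % w.length) ∈ domSet w a))) ⟨i, by
      rw [List.mem_filter, List.mem_range]
      refine ⟨hi, ?_⟩
      rw [hm]
      simp [hii]⟩
  rw [List.mem_filter, List.mem_range] at h1
  obtain ⟨h2, h3⟩ := h1
  have h4 := of_decide_eq_true h3
  rw [hm] at h4
  have e : rp w a i = ((List.range w.length).filter (fun k => decide ((i % w.length, k) ∈
    domSet w a ∧ (k, i % w.length) ∈ domSet w a))).headD 0 := rfl
  rw [hm] at e
  rw [hm] at h2
  rw [← e] at h2 h4
  exact ⟨h2, dom_of_mem _ h4.1, dom_of_mem _ h4.2⟩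

theorem rp_eq_iff {w : List (Lt X)} {a : Lt X} {i k : ℕ} (hi : i < w.length)
    (hk : k < w.length) : rp w a i = rp w a k ↔ Dom w i k ∧ Dom w k i := by
  constructor
  · intro h
    have h1 := rp_spec (a := a) hi
    have h2 := rp_spec (a := a) hk
    rw [h] at h1
    exact ⟨h1.2.1.trans _ _ _ h2.2.2, h2.2.1.trans _ _ _ h1.2.2⟩
  · rintro ⟨h1, h2⟩
    unfold rp
    rw [Nat.mod_eq_of_lt hi, Nat.mod_eq_of_lt hk]
    congr 1
    apply List.filter_congr
    intro m hm
    rw [List.mem_range] at hm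
    rw [decide_eq_decide, mem_domSet_iff hi hm, mem_domSet_iff hm hi, mem_domSet_iff hk hm,
      mem_domSet_iff hm hk]
    exact ⟨fun h => ⟨h2.trans _ _ _ h.1, h.2.trans _ _ _ h1⟩,
      fun h => ⟨h1.trans _ _ _ h.1, h.2.trans _ _ _ h2⟩⟩

/-- the edges of the folded graph -/
def edL (w : List (Lt X)) (a : Lt X) : List (ℕ × Lt X × ℕ) :=
  (List.range w.length).flatMap (fun i => (nbs w a i).map (fun y => (rp w a i, y.1, rp w a y.2)))

theorem mem_edL {w : List (Lt X)} {a : Lt X} {p : ℕ} {x : Lt X} {q : ℕ} :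
    (p, x, q) ∈ edL w a ↔ ∃ i < w.length, ∃ i', (x, i') ∈ nbs w a i ∧ p = rp w a i ∧
      q = rp w a i' := by
  unfold edL
  rw [List.mem_flatMap]
  constructor
  · rintro ⟨i, hi, h⟩
    rw [List.mem_range] at hi
    rw [List.mem_map] at h
    obtain ⟨y, hy, h⟩ := h
    simp only [Prod.mk.injEq] at h
    obtain ⟨rfl, rfl, rfl⟩ := h
    exact ⟨i, hi, y.2, hy, rfl, rfl⟩
  · rintro ⟨i, hi, i', h, rfl, rfl⟩
    exact ⟨i, List.mem_range.2 hi, List.mem_map.2 ⟨(x, i'), h, rfl⟩⟩

/-- the folded graph of the cyclic word: positions modulo mutual domination -/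
def gD (w : List (Lt X)) (a : Lt X) : PG X ℕ where
  st := rp w a 0
  E := fun p x q => (p, x, q) ∈ edL w a
  symm := by
    intro p x q h
    rw [mem_edL] at h ⊢
    obtain ⟨i, hi, i', h1, h2, h3⟩ := h
    obtain ⟨h4, h5⟩ := nbs_symm hi h1
    exact ⟨i', h4, i, h5, h3, h2⟩
  det := by
    intro p x q q' h h'
    rw [mem_edL] at h h'
    obtain ⟨i, hi, i', h1, h2, h3⟩ := h
    obtain ⟨k, hk, k', h1', h2', h3'⟩ := h'
    obtain ⟨h4, h5⟩ := nbs_symm hi h1
    obtain ⟨h4', h5'⟩ := nbs_symm hk h1'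
    rw [h3, h3', rp_eq_iff h4 h4']
    have h6 := (rp_eq_iff hi hk).1 (h2.symm.trans h2')
    have m1 := (mem_nbs_iff h4 _ _).1 h5
    have m2 := (mem_nbs_iff h4' _ _).1 h5'
    exact ⟨Dom.letter _ _ _ _ _ m1 m2 h6.1, Dom.letter _ _ _ _ _ m2 m1 h6.2⟩

theorem gD_edge {w : List (Lt X)} {a : Lt X} (hN : 0 < w.length) (k : ℕ) :
    (gD w a).E (rp w a k) (cw w a k) (rp w a (k + 1)) := by
  show (_, _, _) ∈ edL w a
  rw [mem_edL]
  refine ⟨k % w.length, Nat.mod_lt _ hN, (k % w.length + 1) % w.length, ?_, ?_, ?_⟩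
  · unfold nbs
    rw [cw_mod]
    exact List.mem_cons_self
  · rw [rp_mod]
  · rw [Nat.mod_add_mod, rp_mod]

/-- Boolean form of the loop condition at the base. -/
def loopTest (w : List (Lt X)) (a : Lt X) : Bool :=
  (edL w a).all fun e => (edL w a).all fun f =>
    decide (e.1 = rp w a 0 → f.1 = rp w a 0 → f.2.1 = linv e.2.1 → e.2.2 = rp w a 0)

theorem loopTest_iff (w : List (Lt X)) (a : Lt X) : loopTest w a = true ↔ LoopP (gD w a) := by
  unfold loopTest LoopP
  simp only [List.all_eq_true, decide_eq_true_eq]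
  constructor
  · intro h x p q h1 h2
    exact h _ h1 _ h2 rfl rfl rfl
  · intro h e he f hf h1 h2 h3
    obtain ⟨e1, e2, e3⟩ := e
    obtain ⟨f1, f2, f3⟩ := f
    simp only at h1 h2 h3
    subst h1 h2 h3
    exact h e2 e3 f3 he hf

/-- The test with the base position `u` and the period `n`. -/
def baseTest (w : List (Lt X)) (a : Lt X) (n u : ℕ) : Bool :=
  decide (rp w a u = rp w a 0 ∧ cw w a u ≠ cw w a (u + (n - 1))) &&
    twTest (gD w a) (edL w a) n (fun k => cw w a (u + k)) (fun k => rp w a (u + k))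

/-- `n` is a period of the cyclic word and of its classes. -/
def perTest (w : List (Lt X)) (a : Lt X) (n : ℕ) : Bool :=
  decide (2 ≤ n ∧ n ∣ w.length) && (List.range w.length).all fun k =>
    decide (cw w a (k + n) = cw w a k ∧ rp w a (k + n) = rp w a k)

/-- The graph test. -/
def graphTest (w : List (Lt X)) (a : Lt X) : Bool :=
  loopTest w a && (List.range (w.length + 1)).any fun n =>
    perTest w a n && (List.range w.length).any fun u => baseTest w a n u

theorem not_eqOne_of_graphTest (w : List (Lt X)) (hred : CycRed w) (a : Lt X)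
    (h : graphTest w a = true) (j : ℕ) (hj : j < w.length) (hd : ¬ Dom w 0 j) :
    ¬ EqOne w (w.rotate j) := by
  unfold graphTest at h
  rw [Bool.and_eq_true, List.any_eq_true] at h
  obtain ⟨hL, n, -, h⟩ := h
  rw [Bool.and_eq_true, List.any_eq_true] at h
  obtain ⟨hP, u, hu, h⟩ := h
  rw [List.mem_range] at hu
  unfold perTest at hP
  rw [Bool.and_eq_true, List.all_eq_true, decide_eq_true_iff] at hP
  obtain ⟨⟨hn2, κ, hκ⟩, hP⟩ := hP
  unfold baseTest at h
  rw [Bool.and_eq_true, decide_eq_true_iff, twTest_iff (fun _ _ _ => Iff.rfl)] at h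
  obtain ⟨⟨hu0, hU⟩, hT⟩ := h
  have hN : 0 < w.length := by omega
  have hκ0 : 0 < κ := by
    rcases Nat.eq_zero_or_pos κ with h | h
    · rw [h, Nat.mul_zero] at hκ; omega
    · exact h
  have hP' : ∀ k, cw w a (k + n) = cw w a k ∧ rp w a (k + n) = rp w a k := by
    intro k
    have h1 := hP (k % w.length) (List.mem_range.2 (Nat.mod_lt _ hN))
    rw [decide_eq_true_iff] at h1
    rw [← cw_mod w a (k + n), ← rp_mod w a (k + n), ← cw_mod w a k, ← rp_mod w a k,
      ← Nat.mod_add_mod, cw_mod, rp_mod]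
    exact h1
  refine not_eqOne_of_cert w hred a n κ u hn2 hκ0 (by rw [hκ, Nat.mul_comm])
    (fun k => (hP' k).1) (gD w a) (rp w a) rfl hu0 (gD_edge hN) (fun k => (hP' k).2) hU
    ((loopTest_iff w a).1 hL) hT j hj ?_
  intro h1
  exact hd ((rp_eq_iff hN hj).1 h1.symm).1

end dec

end MM31
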