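import Pool.Agent.LibMM31.Defs

/-!
# The inverse monoid `Inv⟨X | w = 1⟩` and its cyclic conjugates

Words over `X ∪ X⁻¹` are lists over `X × Bool`; `(x, true)` is the letter `x`
and `(x, false)` is its formal inverse (the convention of `FreeGroup`).
-/

namespace MM31

variable {X : Type}

/-- The formal inverse of a word. -/
def winv (u : List (Lt X)) : List (Lt X) := (u.map linv).reverse

/-- The defining relations of `Inv⟨X | w = 1⟩` as a monoid: Vagner's relations
`u u⁻¹ u = u` and `u u⁻¹ v v⁻¹ = v v⁻¹ u u⁻¹` for all words `u, v`
(these present the free inverse monoid on `X`), and `w = 1`. -/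
inductive InvRel (w : List (Lt X)) : FreeMonoid (Lt X) → FreeMonoid (Lt X) → Prop
  | vagner (u : List (Lt X)) :
      InvRel w (FreeMonoid.ofList (u ++ winv u ++ u)) (FreeMonoid.ofList u)
  | comm (u v : List (Lt X)) :
      InvRel w (FreeMonoid.ofList (u ++ winv u ++ (v ++ winv v)))
        (FreeMonoid.ofList (v ++ winv v ++ (u ++ winv u)))
  | rel : InvRel w (FreeMonoid.ofList w) 1

/-- The congruence on the free monoid over `X ∪ X⁻¹` whose quotient is
`Inv⟨X | w = 1⟩`. -/
def invCon (w : List (Lt X)) : Con (FreeMonoid (Lt X)) := conGen (InvRel w)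

/-- The inverse monoid `M = Inv⟨X | w = 1⟩`. -/
abbrev InvMon (w : List (Lt X)) : Type := (invCon w).Quotient

/-- The image of a word in `M = Inv⟨X | w = 1⟩`. -/
def toInv (w u : List (Lt X)) : InvMon w := ((FreeMonoid.ofList u : FreeMonoid (Lt X)) : InvMon w)

/-- The word `u` is equal to `1` in `M = Inv⟨X | w = 1⟩`. -/
def EqOne (w u : List (Lt X)) : Prop := toInv w u = 1

/-- `w` is cyclically reduced: no two cyclically consecutive letters are mutually
inverse. -/
def CycRed (w : List (Lt X)) : Prop :=
  List.IsChain (fun a b => b ≠ linv a) w ∧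
    ∀ a ∈ w.head?, ∀ b ∈ w.getLast?, a ≠ linv b

/-! ## Values in a group and the submonoid generated by prefixes -/

section group

variable {G : Type} [Group G] (f : X → G)

/-- The value of a letter in a group. -/
def lval (a : Lt X) : G := if a.2 then f a.1 else (f a.1)⁻¹

/-- The value of a word in a group. -/
def val (u : List (Lt X)) : G := (u.map (lval f)).prod

@[simp] lemma val_nil : val f [] = 1 := rfl

@[simp] lemma val_cons (a : Lt X) (u : List (Lt X)) : val f (a :: u) = lval f a * val f u := by
  simp [val]

@[simp] lemma val_append (u v : List (Lt X)) : val f (u ++ v) = val f u * val f v := by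
  simp [val]

@[simp] lemma lval_linv (a : Lt X) : lval f (linv a) = (lval f a)⁻¹ := by
  rcases a with ⟨x, b⟩
  cases b <;> simp [lval, linv]

@[simp] lemma val_winv (u : List (Lt X)) : val f (winv u) = (val f u)⁻¹ := by
  induction u with
  | nil => simp [winv]
  | cons a u ih =>
    have : winv (a :: u) = winv u ++ [linv a] := by simp [winv]
    rw [this, val_append, ih]
    simp

lemma val_eq_lift (u : List (Lt X)) : val f u = FreeGroup.lift f (FreeGroup.mk u) := by
  rw [FreeGroup.lift_mk]
  unfold val
  congr 1
  apply List.map_congr_left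
  intro a _
  rcases a with ⟨x, b⟩
  cases b <;> simp [lval]

/-- The submonoid of `G` generated by the values of the prefixes of `w`. -/
def prefMon (w : List (Lt X)) : Submonoid G :=
  Submonoid.closure (Set.range fun j : ℕ => val f (w.take j))

/-- All prefixes of `u` move `p` inside `P`. -/
def Stay (P : Submonoid G) : G → List (Lt X) → Prop
  | p, [] => p ∈ P
  | p, a :: u => p ∈ P ∧ Stay P (p * lval f a) u

lemma Stay.mem {P : Submonoid G} {p : G} {u : List (Lt X)} (h : Stay f P p u) : p ∈ P := by
  cases u with
  | nil => exact h
  | cons a u => exact h.1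

lemma stay_append (P : Submonoid G) (p : G) (u v : List (Lt X)) :
    Stay f P p (u ++ v) ↔ Stay f P p u ∧ Stay f P (p * val f u) v := by
  induction u generalizing p with
  | nil =>
    simp only [List.nil_append, val_nil, mul_one, Stay]
    exact ⟨fun h => ⟨h.mem, h⟩, fun h => h.2⟩
  | cons a u ih =>
    simp only [List.cons_append, Stay, ih, val_cons, mul_assoc]
    tauto

lemma Stay.end_mem {P : Submonoid G} {p : G} {u : List (Lt X)} (h : Stay f P p u) :
    p * val f u ∈ P := by
  have := (stay_append f P p u []).1 (by simpa using h)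
  exact this.2

lemma stay_winv {P : Submonoid G} {p : G} {u : List (Lt X)} (h : Stay f P p u) :
    Stay f P (p * val f u) (winv u) := by
  induction u generalizing p with
  | nil => simpa [winv, Stay] using h
  | cons a u ih =>
    have e : winv (a :: u) = winv u ++ [linv a] := by simp [winv]
    rw [e, stay_append]
    obtain ⟨h1, h2⟩ := h
    refine ⟨?_, ?_⟩
    · have := ih h2
      rwa [val_cons, ← mul_assoc]
    · simp only [Stay, val_cons, val_winv, lval_linv]
      refine ⟨?_, ?_⟩
      · have : p * (lval f a * val f u) * (val f u)⁻¹ = p * lval f a := by group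
        rw [this]
        exact h2.mem
      · have : p * (lval f a * val f u) * (val f u)⁻¹ * (lval f a)⁻¹ = p := by group
        rwa [this]

lemma stay_idem (P : Submonoid G) (p : G) (u : List (Lt X)) :
    Stay f P p (u ++ winv u) ↔ Stay f P p u := by
  rw [stay_append]
  exact ⟨fun h => h.1, fun h => ⟨h, stay_winv f h⟩⟩

/-- Two words that act in the same way on `P` by right multiplication of paths
inside `P`. -/
def actCon (P : Submonoid G) : Con (FreeMonoid (Lt X)) where
  r u v := ∀ p : G, (Stay f P p (FreeMonoid.toList u) ↔ Stay f P p (FreeMonoid.toList v)) ∧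
    (Stay f P p (FreeMonoid.toList u) → val f (FreeMonoid.toList u) = val f (FreeMonoid.toList v))
  iseqv := {
    refl := fun u p => ⟨Iff.rfl, fun _ => rfl⟩
    symm := fun {u v} h p => ⟨(h p).1.symm, fun hs => ((h p).2 ((h p).1.2 hs)).symm⟩
    trans := fun {u v t} h h' p =>
      ⟨(h p).1.trans (h' p).1, fun hs => ((h p).2 hs).trans ((h' p).2 ((h p).1.1 hs))⟩ }
  mul' := by
    intro u u' v v' h h' p
    simp only [FreeMonoid.toList_mul, stay_append, val_append]
    constructor
    · constructor
      · rintro ⟨h1, h2⟩
        have e := (h p).2 h1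
        refine ⟨(h p).1.1 h1, ?_⟩
        rw [← e]
        exact (h' _).1.1 h2
      · rintro ⟨h1, h2⟩
        have h1' := (h p).1.2 h1
        have e := (h p).2 h1'
        refine ⟨h1', ?_⟩
        rw [e]
        exact (h' _).1.2 h2
    · rintro ⟨h1, h2⟩
      rw [(h p).2 h1, (h' _).2 h2]

lemma invCon_le_actCon (w : List (Lt X)) (hw : val f w = 1) :
    invCon w ≤ actCon f (prefMon f w) := by
  unfold invCon
  apply Con.conGen_le.2
  intro u v huv
  induction huv with
  | vagner u =>
    intro p
    simp only [FreeMonoid.toList_ofList]
    have e : val f (u ++ winv u ++ u) = val f u := by simp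
    refine ⟨?_, fun _ => e⟩
    rw [stay_append, stay_idem]
    constructor
    · exact fun h => h.1
    · intro h
      refine ⟨h, ?_⟩
      simpa using h
  | comm u v =>
    intro p
    simp only [FreeMonoid.toList_ofList]
    constructor
    · rw [stay_append, stay_append _ _ _ (v ++ winv v), stay_idem, stay_idem]
      have e1 : p * val f (u ++ winv u) = p := by simp
      have e2 : p * val f (v ++ winv v) = p := by simp
      rw [e1, e2, stay_idem, stay_idem]
      exact and_comm
    · intro _
      simp
  | rel =>
    intro p
    simp only [FreeMonoid.toList_ofList, FreeMonoid.toList_one]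
    refine ⟨⟨fun h => h.mem, fun h => ?_⟩, fun _ => by simpa using hw⟩
    -- every prefix of `w` keeps `P` invariant
    have key : ∀ v u : List (Lt X), w = u ++ v → Stay f (prefMon f w) (p * val f u) v := by
      intro v
      induction v with
      | nil =>
        intro u hu
        simp only [Stay]
        refine mul_mem h (Submonoid.subset_closure ⟨u.length, ?_⟩)
        simp [hu]
      | cons a v ih =>
        intro u hu
        simp only [Stay]
        refine ⟨mul_mem h (Submonoid.subset_closure ⟨u.length, ?_⟩), ?_⟩
        · simp [hu]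
        · have := ih (u ++ [a]) (by simp [hu])
          simpa [mul_assoc] using this
    have := key w [] rfl
    simpa using this

/-- If the cyclic conjugate of `w` starting at position `j` is `1` in
`Inv⟨X | w = 1⟩`, then the inverse of the prefix of length `j` lies in the
submonoid of `G` generated by the prefixes of `w`, for every group `G` in which
`w = 1`. -/
theorem prefix_inv_mem_of_eqOne (w : List (Lt X)) (hw : val f w = 1) (j : ℕ)
    (hj : j ≤ w.length) (h : EqOne w (w.rotate j)) :
    (val f (w.take j))⁻¹ ∈ prefMon f w := by
  have h1 : invCon w (FreeMonoid.ofList (w.rotate j)) 1 := by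
    have := h
    unfold EqOne toInv at this
    exact (Con.eq (invCon w)).1 (by simpa using this)
  have h2 := invCon_le_actCon f w hw h1 1
  simp only [FreeMonoid.toList_ofList, FreeMonoid.toList_one] at h2
  have h3 : Stay f (prefMon f w) 1 (w.rotate j) := h2.1.2 (by simp [Stay, one_mem])
  rw [List.rotate_eq_drop_append_take hj, stay_append] at h3
  have h4 := h3.1.end_mem
  have h5 : val f (w.take j) * val f (w.drop j) = 1 := by
    rw [← val_append, List.take_append_drop]
    exact hw
  rw [one_mul] at h4
  rwa [inv_eq_of_mul_eq_one_right h5]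

/-- Members of the submonoid generated by the prefixes are products of proper
nonempty prefixes. -/
lemma exists_list_of_mem_prefMon (w : List (Lt X)) (hw : val f w = 1) {x : G}
    (hx : x ∈ prefMon f w) :
    ∃ js : List ℕ, (∀ k ∈ js, 0 < k ∧ k < w.length) ∧
      (js.map fun k => val f (w.take k)).prod = x := by
  unfold prefMon at hx
  induction hx using Submonoid.closure_induction with
  | mem x hx =>
    obtain ⟨k, rfl⟩ := hx
    by_cases hk : 0 < k ∧ k < w.length
    · exact ⟨[k], by simpa using hk, by simp⟩
    · refine ⟨[], by simp, ?_⟩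
      simp only [List.map_nil, List.prod_nil]
      rcases Nat.eq_zero_or_pos k with rfl | h0
      · simp
      · have : w.take k = w := List.take_of_length_le (by omega)
        rw [this, hw]
  | one => exact ⟨[], by simp, by simp⟩
  | mul x y _ _ ihx ihy =>
    obtain ⟨js, h1, rfl⟩ := ihx
    obtain ⟨ks, h2, rfl⟩ := ihy
    refine ⟨js ++ ks, ?_, by simp⟩
    intro k hk
    rcases List.mem_append.1 hk with h | h
    · exact h1 k h
    · exact h2 k h

/-- If a proper cyclic conjugate of `w` is `1` in `Inv⟨X | w = 1⟩`, then in every
group in which `w = 1` some nonempty product of proper nonempty prefixes of `w` is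
trivial. -/
theorem exists_walk_of_eqOne (w : List (Lt X)) (hw : val f w = 1) (j : ℕ)
    (hj0 : 0 < j) (hj : j < w.length) (h : EqOne w (w.rotate j)) :
    ∃ js : List ℕ, js ≠ [] ∧ (∀ k ∈ js, 0 < k ∧ k < w.length) ∧
      (js.map fun k => val f (w.take k)).prod = 1 := by
  obtain ⟨js, h1, h2⟩ := exists_list_of_mem_prefMon f w hw
    (prefix_inv_mem_of_eqOne f w hw j hj.le h)
  refine ⟨j :: js, by simp, ?_, ?_⟩
  · intro k hk
    rcases List.mem_cons.1 hk with rfl | hk
    · exact ⟨hj0, hj⟩
    · exact h1 k hk
  · rw [List.map_cons, List.prod_cons, h2]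
    simp

end group

/-- The group `G = Gp⟨X | w = 1⟩`. -/
abbrev Gp (w : List (Lt X)) : Type :=
  PresentedGroup ({FreeGroup.mk w} : Set (FreeGroup X))

/-- The value of a word in `G = Gp⟨X | w = 1⟩`. -/
def gval (w u : List (Lt X)) : Gp w := PresentedGroup.mk _ (FreeGroup.mk u)

lemma val_of (w u : List (Lt X)) :
    val (fun x => (PresentedGroup.of x : Gp w)) u = gval w u := by
  rw [val_eq_lift]
  unfold gval
  have : (FreeGroup.lift fun x => (PresentedGroup.of x : Gp w)) =
      PresentedGroup.mk ({FreeGroup.mk w} : Set (FreeGroup X)) := by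
    ext x
    simp [PresentedGroup.of]
  rw [this]

lemma gval_self (w : List (Lt X)) : gval w w = 1 := by
  unfold gval
  exact PresentedGroup.one_of_mem (by simp)

/-- `u` is trivial in `Gp⟨X | w = 1⟩` iff it lies in the normal closure of `w`. -/
lemma gval_eq_one_iff (w u : List (Lt X)) :
    gval w u = 1 ↔ FreeGroup.mk u ∈ Subgroup.normalClosure ({FreeGroup.mk w} : Set (FreeGroup X)) := by
  exact QuotientGroup.eq_one_iff _

/-- The word read by the walk with segments `w₀ ⋯ w_{k-1}`, `k ∈ js`. -/
def walkWord (w : List (Lt X)) (js : List ℕ) : List (Lt X) := (js.map fun k => w.take k).flatten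

/-- If a proper cyclic conjugate of `w` is `1` in `Inv⟨X | w = 1⟩`, then a nonempty
product of proper nonempty prefixes of `w` lies in the normal closure of `w`. -/
theorem exists_walkWord_of_eqOne (w : List (Lt X)) (j : ℕ)
    (hj0 : 0 < j) (hj : j < w.length) (h : EqOne w (w.rotate j)) :
    ∃ js : List ℕ, js ≠ [] ∧ (∀ k ∈ js, 0 < k ∧ k < w.length) ∧
      FreeGroup.mk (walkWord w js) ∈
        Subgroup.normalClosure ({FreeGroup.mk w} : Set (FreeGroup X)) := by
  obtain ⟨js, h0, h1, h2⟩ := exists_walk_of_eqOne (fun x => (PresentedGroup.of x : Gp w)) w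
    (by rw [val_of, gval_self]) j hj0 hj h
  refine ⟨js, h0, h1, ?_⟩
  rw [← gval_eq_one_iff, ← val_of]
  rw [← h2]
  unfold walkWord
  clear h0 h1 h2
  induction js with
  | nil => simp
  | cons k js ih => simp [ih]

/-- A shortest closed walk has pairwise distinct partial products. -/
theorem exists_min_walk {G : Type} [Group G] (v : ℕ → G) (P : ℕ → Prop) :
    ∀ (N : ℕ) (js : List ℕ), js.length ≤ N → js ≠ [] → (∀ k ∈ js, P k) → (js.map v).prod = 1 →
      ∃ ks : List ℕ, ks ≠ [] ∧ (∀ k ∈ ks, P k) ∧ (ks.map v).prod = 1 ∧
        ∀ s t, s < t → t < ks.length → ((ks.take s).map v).prod ≠ ((ks.take t).map v).prod := by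
  intro N
  induction N with
  | zero =>
    intro js h h0
    exact absurd (List.length_eq_zero_iff.1 (Nat.le_zero.1 h)) h0
  | succ N ih =>
    intro js h h0 h1 h2
    by_cases hd : ∀ s t, s < t → t < js.length → ((js.take s).map v).prod ≠ ((js.take t).map v).prod
    · exact ⟨js, h0, h1, h2, hd⟩
    · push Not at hd
      obtain ⟨s, t, hst, ht, he⟩ := hd
      apply ih ((js.take t).drop s)
      · simp only [List.length_drop, List.length_take]
        omega
      · intro hnil
        have := congrArg List.length hnil
        simp only [List.length_drop, List.length_take, List.length_nil] at this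
        omega
      · intro k hk
        exact h1 k (List.mem_of_mem_take (List.mem_of_mem_drop hk))
      · have e : js.take t = js.take s ++ (js.take t).drop s := by
          conv_lhs => rw [← List.take_append_drop s (js.take t)]
          rw [List.take_take, min_eq_left hst.le]
        rw [e, List.map_append, List.prod_append] at he
        exact (left_eq_mul.1 he)

/-! ## Interface with `Defs`: words as functions of the position -/

/-- The word `w` as a function of the position (`a` outside the range). -/
def wf (w : List (Lt X)) (a : Lt X) (k : ℕ) : Lt X := w.getD k a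

lemma pre_eq_val {G : Type} [Group G] (f : X → G) (w : List (Lt X)) (a : Lt X) (k : ℕ)
    (hk : k ≤ w.length) : pre w.length (wf w a) (lval f) true k = val f (w.take k) := by
  induction k with
  | zero => simp [pre]
  | succ k ih =>
    have hk' : k < w.length := hk
    have e1 : pre w.length (wf w a) (lval f) true (k + 1) =
        pre w.length (wf w a) (lval f) true k * lval f (wl w.length (wf w a) true k) := rfl
    rw [e1, ih hk'.le, List.take_add_one, val_append]
    congr 1
    simp [wl, wf, List.getElem?_eq_getElem hk']

lemma gv_of_val {G : Type} [Group G] (f : X → G) (w : List (Lt X)) (a : Lt X)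
    (hw : val f w = 1) : GV w.length (wf w a) (lval f) where
  inv := lval_linv f
  one := by rw [pre_eq_val f w a _ le_rfl, List.take_length, hw]

lemma CycRed.wf_succ {w : List (Lt X)} (h : CycRed w) (a : Lt X) (k : ℕ)
    (hk : k + 1 < w.length) : wf w a (k + 1) ≠ linv (wf w a k) := by
  have h1 := List.isChain_iff_getElem.1 h.1 k hk
  have h2 : k < w.length := by omega
  simpa [wf, List.getElem?_eq_getElem hk, List.getElem?_eq_getElem h2] using h1

lemma CycRed.wf_last {w : List (Lt X)} (h : CycRed w) (a : Lt X) (hn : 0 < w.length) :
    wf w a (w.length - 1) ≠ linv (wf w a 0) := by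
  have h0 : w ≠ [] := List.length_pos_iff.1 hn
  have h1 := h.2 (w.head h0) (List.head?_eq_some_head h0) (w.getLast h0)
    (List.getLast?_eq_some_getLast h0)
  intro h2
  apply h1
  have e1 : wf w a 0 = w.head h0 := by
    cases w with
    | nil => exact absurd rfl h0
    | cons x w => simp [wf]
  have e2 : wf w a (w.length - 1) = w.getLast h0 := by
    have h3 : w.length - 1 < w.length := by omega
    simp [wf, List.getElem?_eq_getElem h3, List.getLast_eq_getElem]
  rw [e1, e2] at h2
  rw [h2, linv_linv]

end MM31
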