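import Pool.Agent.LibMM31.Defs

/-!
# A compatible total order with minimal base implies `T0`
-/

set_option linter.unusedSectionVars false
set_option linter.style.haveILetI false

namespace MM31

variable {X : Type}

/-- a total order (given by an injective rank) on the `n` positions of the loop `w`, with the base
minimal, such that two edges with the same label never cross -/
structure TotOrd (n : ℕ) (w : ℕ → Lt X) (ρ : ℕ → ℕ) : Prop where
  inj : ∀ i j, i < n → j < n → ρ i = ρ j → i = j
  zero : ∀ i, 0 < i → i < n → ρ 0 < ρ i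
  pp : ∀ i j, i < n → j < n → w i = w j → (ρ i < ρ j ↔ ρ ((i + 1) % n) < ρ ((j + 1) % n))
  pm : ∀ i j, i < n → j < n → w i = linv (w j) →
    (ρ i < ρ ((j + 1) % n) ↔ ρ ((i + 1) % n) < ρ j)

/-- position of a germ -/
def gpos (n : ℕ) (g : Germ) : ℕ := (if g.1 then g.2 else n - g.2) % n

/-- continuation of a germ -/
def cont (g : Germ) : Germ := (g.1, g.2 + 1)

/-- the germ points away from the position `m` -/
def away (n m : ℕ) (g : Germ) : Prop := if g.1 then m ≤ g.2 else n - g.2 ≤ m

theorem gpos_star {n : ℕ} {g : Germ} (h : g.2 ≤ n) : gpos n (star n g) = gpos n g := by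
  unfold gpos star
  rcases g with ⟨s, k⟩
  cases s
  · simp
  · simp only [Bool.not_true, Bool.false_eq_true, if_false, if_true] at h ⊢
    congr 1
    omega

variable {n : ℕ} {w : ℕ → Lt X} {ρ : ℕ → ℕ}

/-- the order is compatible in terms of germs -/
theorem TotOrd.germ (hρ : TotOrd n w ρ) {g h : Germ} (hg : g.2 < n) (hh : h.2 < n)
    (hl : wl n w g.1 g.2 = wl n w h.1 h.2) :
    ρ (gpos n g) < ρ (gpos n h) ↔ ρ (gpos n (cont g)) < ρ (gpos n (cont h)) := by
  rcases g with ⟨s, k⟩
  rcases h with ⟨t, l⟩
  simp only at hg hh hl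
  unfold gpos cont
  cases s <;> cases t <;> simp only [wl, Bool.false_eq_true, if_false, if_true] at hl ⊢
  · -- both backwards
    have h1 := hρ.pp (n - 1 - k) (n - 1 - l) (by omega) (by omega) (linv_inj hl)
    have e1 : n - 1 - k + 1 = n - k := by omega
    have e2 : n - 1 - l + 1 = n - l := by omega
    have e3 : (n - (k + 1)) % n = n - 1 - k := by rw [Nat.mod_eq_of_lt (by omega)]; omega
    have e4 : (n - (l + 1)) % n = n - 1 - l := by rw [Nat.mod_eq_of_lt (by omega)]; omega
    rw [e1, e2] at h1
    rw [e3, e4]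
    exact h1.symm
  · -- g backwards, h forwards
    have h1 := hρ.pm l (n - 1 - k) hh (by omega) hl.symm
    have e1 : n - 1 - k + 1 = n - k := by omega
    have e3 : (n - (k + 1)) % n = n - 1 - k := by rw [Nat.mod_eq_of_lt (by omega)]; omega
    have e4 : l % n = l := Nat.mod_eq_of_lt hh
    rw [e1] at h1
    rw [e3, e4]
    have i1 : (n - k) % n < n := Nat.mod_lt _ (by omega)
    have i2 : (l + 1) % n < n := Nat.mod_lt _ (by omega)
    -- compare using totality
    constructor
    · intro h2
      by_contra h3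
      rcases Nat.lt_or_ge (ρ ((l + 1) % n)) (ρ (n - 1 - k)) with h4 | h4
      · have := h1.mpr h4; omega
      · have h5 : ρ ((l + 1) % n) = ρ (n - 1 - k) := by omega
        have h6 := hρ.inj _ _ i2 (by omega) h5
        have h7 := hρ.pm (n - 1 - k) l (by omega) hh (by rw [← hl, linv_linv])
        rw [e1] at h7
        have : ¬ ρ (n - 1 - k) < ρ ((l + 1) % n) := by omega
        exact this (h7.mpr h2)
    · intro h2
      have h7 := hρ.pm (n - 1 - k) l (by omega) hh (by rw [← hl, linv_linv])
      rw [e1] at h7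
      exact h7.mp h2
  · -- g forwards, h backwards
    have h1 := hρ.pm k (n - 1 - l) hg (by omega) hl
    have e1 : n - 1 - l + 1 = n - l := by omega
    have e3 : (n - (l + 1)) % n = n - 1 - l := by rw [Nat.mod_eq_of_lt (by omega)]; omega
    have e4 : k % n = k := Nat.mod_eq_of_lt hg
    rw [e1] at h1
    rw [e3, e4]
    exact h1
  · have h1 := hρ.pp k l hg hh hl
    rw [Nat.mod_eq_of_lt hg, Nat.mod_eq_of_lt hh]
    exact h1

theorem exists_max (hn : 2 ≤ n) (hρ : TotOrd n w ρ) :
    ∃ m, 0 < m ∧ m < n ∧ ∀ i, i < n → i ≠ m → ρ i < ρ m := by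
  obtain ⟨m, hm, hmax⟩ := Finset.exists_max_image (Finset.range n) ρ ⟨0, by simp; omega⟩
  rw [Finset.mem_range] at hm
  refine ⟨m, ?_, hm, ?_⟩
  · rcases Nat.eq_zero_or_pos m with h | h
    · subst h
      have h1 := hρ.zero 1 (by omega) (by omega)
      have h2 := hmax 1 (Finset.mem_range.mpr (by omega))
      omega
    · exact h
  · intro i hi him
    have h2 := hmax i (Finset.mem_range.mpr hi)
    rcases Nat.lt_or_ge (ρ i) (ρ m) with h3 | h3
    · exact h3
    · exact absurd (hρ.inj i m hi hm (by omega)) him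

section main

variable (hn : 2 ≤ n) (hw : ∀ k, k + 1 < n → w (k + 1) ≠ linv (w k)) (hρ : TotOrd n w ρ)
  {m : ℕ} (hm0 : 0 < m) (hmn : m < n) (hmax : ∀ i, i < n → i ≠ m → ρ i < ρ m)

theorem gpos_lt {g : Germ} (hn : 0 < n) : gpos n g < n := Nat.mod_lt _ hn

theorem gpos_inner {g : Germ} (h1 : 1 ≤ g.2) (h2 : g.2 < n) :
    gpos n g = if g.1 then g.2 else n - g.2 := by
  unfold gpos
  rcases g with ⟨s, k⟩
  cases s
  · simp only [Bool.false_eq_true, if_false] at h1 h2 ⊢
    exact Nat.mod_eq_of_lt (by omega)
  · simp only [if_true] at h1 h2 ⊢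
    exact Nat.mod_eq_of_lt (by omega)

/-- two different germs with the same letter have different positions -/
theorem gpos_ne (hw : ∀ k, k + 1 < n → w (k + 1) ≠ linv (w k)) {g h : Germ} (h1 : 1 ≤ g.2)
    (h2 : g.2 < n) (h3 : 1 ≤ h.2) (h4 : h.2 < n) (hne : g ≠ h)
    (hl : wl n w g.1 g.2 = wl n w h.1 h.2) : gpos n g ≠ gpos n h := by
  rw [gpos_inner h1 h2, gpos_inner h3 h4]
  rcases g with ⟨s, k⟩
  rcases h with ⟨t, l⟩
  simp only at h1 h2 h3 h4 hl ⊢
  intro he
  cases s <;> cases t <;> simp only [wl, Bool.false_eq_true, if_false, if_true] at hl he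
  · apply hne
    have : k = l := by omega
    rw [this]
  · -- linv (w (n-1-k)) = w l, n - k = l
    apply hw (n - 1 - k) (by omega)
    have : n - 1 - k + 1 = l := by omega
    rw [this, ← hl]
  · apply hw (n - 1 - l) (by omega)
    have : n - 1 - l + 1 = k := by omega
    rw [this, hl]
  · apply hne
    rw [he]

theorem not_away_star {g : Germ} (h1 : 1 ≤ g.2) (h2 : g.2 < n) (hp : gpos n g ≠ m)
    (ha : away n m g) : ¬ away n m (star n g) := by
  rw [gpos_inner h1 h2] at hp
  rcases g with ⟨s, k⟩
  unfold away star at *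
  cases s <;> simp only [Bool.not_false, Bool.not_true, Bool.false_eq_true, if_false, if_true]
    at h1 h2 hp ha ⊢ <;> omega

theorem away_star {g : Germ} (h1 : 1 ≤ g.2) (h2 : g.2 < n) (ha : ¬ away n m g) :
    away n m (star n g) := by
  rcases g with ⟨s, k⟩
  unfold away star at *
  cases s <;> simp only [Bool.not_false, Bool.not_true, Bool.false_eq_true, if_false, if_true]
    at h1 h2 ha ⊢ <;> omega

theorem cont_not_away {g : Germ} (h1 : 1 ≤ g.2) (h2 : g.2 + 1 < n) (ha : ¬ away n m g)
    (hp : gpos n (cont g) ≠ m) : ¬ away n m (cont g) := by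
  rw [gpos_inner (g := cont g) (by show 1 ≤ g.2 + 1; omega) h2] at hp
  rcases g with ⟨s, k⟩
  unfold away cont at *
  cases s <;> simp only [Bool.false_eq_true, if_false, if_true] at h1 h2 hp ha ⊢ <;> omega

theorem away_terminal (hm0 : 0 < m) (hmn : m < n) {g : Germ} (h1 : g.2 + 1 = n) :
    away n m g := by
  rcases g with ⟨s, k⟩
  unfold away
  cases s <;> simp only [Bool.false_eq_true, if_false, if_true] at h1 ⊢ <;> omega

/-- the invariant -/
def QQ (n : ℕ) (ρ : ℕ → ℕ) (m : ℕ) (g h : Germ) : Prop :=
  (¬ away n m g → ρ (gpos n h) < ρ (gpos n g) ∧ away n m h) ∧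
  (¬ away n m h → ρ (gpos n g) < ρ (gpos n h) ∧ away n m g)

theorem range_of_cl {g h : Germ} (hc : Cl n w g h) : 1 ≤ g.2 ∧ g.2 < n ∧ 1 ≤ h.2 ∧ h.2 < n ∧
    g ≠ h ∧ wl n w g.1 g.2 = wl n w h.1 h.2 := by
  cases hc with
  | term _ _ h1 h2 h3 h4 h5 h6 h7 => exact ⟨h1, h2, h3, h4, h5, h6⟩
  | step _ _ h1 h2 h3 h4 h5 h6 h7 => exact ⟨h1, by omega, h3, by omega, h5, h6⟩

theorem QQ.of_P (hw : ∀ k, k + 1 < n → w (k + 1) ≠ linv (w k)) (hρ : TotOrd n w ρ)
    {g h : Germ} (h1 : 1 ≤ g.2)
    (h2 : g.2 < n) (h3 : 1 ≤ h.2) (h4 : h.2 < n) (hne : g ≠ h)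
    (hl : wl n w g.1 g.2 = wl n w h.1 h.2)
    (p1 : ρ (gpos n g) < ρ (gpos n h) → away n m g)
    (p2 : ρ (gpos n h) < ρ (gpos n g) → away n m h) : QQ n ρ m g h := by
  have hpos := gpos_ne hw h1 h2 h3 h4 hne hl
  have hn : 0 < n := by omega
  have hr : ρ (gpos n g) ≠ ρ (gpos n h) := fun hh =>
    hpos (hρ.inj _ _ (gpos_lt hn) (gpos_lt hn) hh)
  refine ⟨?_, ?_⟩
  · intro ha
    have h5 : ¬ ρ (gpos n g) < ρ (gpos n h) := fun hh => ha (p1 hh)
    have h6 : ρ (gpos n h) < ρ (gpos n g) := by omega
    exact ⟨h6, p2 h6⟩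
  · intro ha
    have h5 : ¬ ρ (gpos n h) < ρ (gpos n g) := fun hh => ha (p2 hh)
    have h6 : ρ (gpos n g) < ρ (gpos n h) := by omega
    exact ⟨h6, p1 h6⟩

include hn hw hρ hm0 hmn hmax in
theorem QQ_all : (∀ g h, Cl n w g h → QQ n ρ m g h) ∧ (∀ g h, Chn n w g h → QQ n ρ m g h) := by
  have hn0 : 0 < n := by omega
  have key : ∀ g h, Chn n w g h → QQ n ρ m g h := by
    intro g h hc
    refine Chn.rec (motive_1 := fun g h _ => QQ n ρ m g h)
      (motive_2 := fun g h _ => QQ n ρ m g h) ?_ ?_ ?_ ?_ hc
    · intro g h h1 h2 h3 h4 h5 h6 h7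
      refine QQ.of_P hw hρ h1 h2 h3 h4 h5 h6 ?_ ?_
      · intro hlt
        rcases h7 with h7 | h7
        · exact away_terminal hm0 hmn h7
        · exfalso
          have h8 := (hρ.germ h2 h4 h6).mp hlt
          have h9 : gpos n (cont h) = 0 := by
            unfold gpos cont
            rcases h with ⟨s, k⟩
            simp only at h7 ⊢
            cases s
            · simp only [Bool.false_eq_true, if_false]
              rw [h7, Nat.sub_self, Nat.zero_mod]
            · simp only [if_true]
              rw [h7, Nat.mod_self]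
          rw [h9] at h8
          rcases Nat.eq_zero_or_pos (gpos n (cont g)) with h10 | h10
          · rw [h10] at h8; omega
          · have := hρ.zero _ h10 (gpos_lt hn0)
            omega
      · intro hlt
        rcases h7 with h7 | h7
        · exfalso
          have h8 := (hρ.germ h4 h2 h6.symm).mp hlt
          have h9 : gpos n (cont g) = 0 := by
            unfold gpos cont
            rcases g with ⟨s, k⟩
            simp only at h7 ⊢
            cases s
            · simp only [Bool.false_eq_true, if_false]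
              rw [h7, Nat.sub_self, Nat.zero_mod]
            · simp only [if_true]
              rw [h7, Nat.mod_self]
          rw [h9] at h8
          rcases Nat.eq_zero_or_pos (gpos n (cont h)) with h10 | h10
          · rw [h10] at h8; omega
          · have := hρ.zero _ h10 (gpos_lt hn0)
            omega
        · exact away_terminal hm0 hmn h7
    · intro g h h1 h2 h3 h4 h5 h6 h7 ih
      refine QQ.of_P hw hρ h1 (by omega) h3 (by omega) h5 h6 ?_ ?_
      · intro hlt
        by_contra ha
        have h8 := (hρ.germ (by omega) (by omega) h6).mp hlt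
        have h9 : gpos n (cont g) ≠ m := by
          intro hh
          rw [hh] at h8
          by_cases h10 : gpos n (cont h) = m
          · rw [h10] at h8; omega
          · have := hmax _ (gpos_lt hn0) h10
            omega
        have h11 := (ih.1 (cont_not_away h1 h2 ha h9)).1
        have h12 : ρ (gpos n (cont h)) < ρ (gpos n (cont g)) := h11
        omega
      · intro hlt
        by_contra ha
        have h8 := (hρ.germ (by omega) (by omega) h6.symm).mp hlt
        have h9 : gpos n (cont h) ≠ m := by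
          intro hh
          rw [hh] at h8
          by_cases h10 : gpos n (cont g) = m
          · rw [h10] at h8; omega
          · have := hmax _ (gpos_lt hn0) h10
            omega
        have h11 := (ih.2 (cont_not_away h3 h4 ha h9)).1
        have h12 : ρ (gpos n (cont g)) < ρ (gpos n (cont h)) := h11
        omega
    · intro g h _ ih
      exact ih
    · intro g h k h1 _ ih1 ih2
      obtain ⟨r1, r2, r3, r4, r5, r6⟩ := range_of_cl h1
      have es : gpos n (star n h) = gpos n h := gpos_star (by omega)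
      refine ⟨?_, ?_⟩
      · intro ha
        obtain ⟨h8, h9⟩ := ih1.1 ha
        have hpm : gpos n h ≠ m := by
          intro hh
          rw [hh] at h8
          by_cases h10 : gpos n g = m
          · rw [h10] at h8; omega
          · have := hmax _ (gpos_lt hn0) h10
            omega
        obtain ⟨h11, h12⟩ := ih2.1 (not_away_star r3 r4 hpm h9)
        rw [es] at h11
        exact ⟨by omega, h12⟩
      · intro ha
        obtain ⟨h8, h9⟩ := ih2.2 ha
        rw [es] at h8
        have hpm : gpos n h ≠ m := by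
          intro hh
          rw [hh] at h8
          by_cases h10 : gpos n k = m
          · rw [h10] at h8; omega
          · have := hmax _ (gpos_lt hn0) h10
            omega
        have hna : ¬ away n m h := fun hh => not_away_star r3 r4 hpm hh h9
        obtain ⟨h11, h12⟩ := ih1.2 hna
        exact ⟨by omega, h12⟩
  exact ⟨fun g h hc => key g h (Chn.one g h hc), key⟩

end main

/-- A compatible total order with minimal base implies `T0`. -/
theorem T0_of_TotOrd (hn : 2 ≤ n) (hw : ∀ k, k + 1 < n → w (k + 1) ≠ linv (w k))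
    (hρ : TotOrd n w ρ) : T0 n w := by
  obtain ⟨m, hm0, hmn, hmax⟩ := exists_max hn hρ
  have hn0 : 0 < n := by omega
  obtain ⟨hcl, hchn⟩ := QQ_all hn hw hρ hm0 hmn hmax
  intro g h1 h2 hc
  have es : gpos n (star n g) = gpos n g := gpos_star (by omega)
  by_cases hp : gpos n g = m
  · cases hc with
    | one _ _ h =>
      obtain ⟨r1, r2, r3, r4, r5, r6⟩ := range_of_cl h
      exact gpos_ne hw r1 r2 r3 r4 r5 r6 es.symm
    | cons _ h _ h3 h4 =>
      obtain ⟨r1, r2, r3, r4, r5, r6⟩ := range_of_cl h3
      have hpn := gpos_ne hw r1 r2 r3 r4 r5 r6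
      have hph : gpos n h ≠ m := fun hh => hpn (hp.trans hh.symm)
      have hlt : ρ (gpos n h) < ρ (gpos n g) := by
        rw [hp]; exact hmax _ (gpos_lt hn0) hph
      have hah : away n m h := by
        by_contra hcon
        have := ((hcl _ _ h3).2 hcon).1
        omega
      have h5 := ((hchn _ _ h4).1 (not_away_star r3 r4 hph hah)).1
      rw [es, gpos_star (by omega)] at h5
      omega
  · by_cases ha : away n m g
    · have h5 := ((hchn _ _ hc).2 (not_away_star h1 h2 hp ha)).1
      rw [es] at h5
      omega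
    · have h5 := ((hchn _ _ hc).1 ha).1
      rw [es] at h5
      omega

theorem TotOrd.first_ne_last (hn : 2 ≤ n) (hρ : TotOrd n w ρ) : w 0 ≠ w (n - 1) := by
  intro h
  have h1 := hρ.pp 0 (n - 1) (by omega) (by omega) h
  have h2 := hρ.zero (n - 1) (by omega) (by omega)
  have h3 := h1.mp h2
  have e1 : n - 1 + 1 = n := by omega
  rw [e1, Nat.mod_self] at h3
  rcases Nat.lt_or_ge 1 n with h4 | h4
  · rw [Nat.mod_eq_of_lt (by omega : 0 + 1 < n)] at h3
    have h5 := hρ.zero 1 (by omega) (by omega)
    simp only [Nat.zero_add] at h3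
    omega
  · omega

end MM31
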