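import Pool.Agent.LibMM31.Walk
import Pool.Agent.LibMM31.InvMon
import Pool.Agent.LibMM31.Order

/-!
# Cyclic conjugates equal to one: the conditional theorem
-/

namespace MM31

variable {X : Type}

theorem range_map_wf (w : List (Lt X)) (a : Lt X) (k : ℕ) (hk : k ≤ w.length) :
    (List.range k).map (wf w a) = w.take k := by
  apply List.ext_getElem
  · simp [hk]
  · intro i h1 h2
    have h3 : i < k := by simpa using h1
    have h4 : i < w.length := by omega
    simp [wf, List.getElem?_eq_getElem h4]

theorem wlist_wf (w : List (Lt X)) (a : Lt X) : wlist w.length (wf w a) true = w := by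
  have h := range_map_wf w a w.length le_rfl
  rw [List.take_length] at h
  exact h

theorem wword_wf (w : List (Lt X)) (a : Lt X) (js : List ℕ) (h : ∀ k ∈ js, k < w.length) :
    wword (wf w a) js = walkWord w js := by
  induction js with
  | nil => simp [wword, walkWord]
  | cons k js ih =>
    have h1 := range_map_wf w a k (h k (by simp)).le
    have h2 := ih (fun k hk => h k (by simp [hk]))
    unfold wword walkWord at h2 ⊢
    rw [List.flatMap_cons, h1, h2]
    simp

/-- The conditional theorem: `T0` implies that no proper cyclic conjugate is `1`. -/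
theorem not_eqOne_rotate (w : List (Lt X)) (hred : CycRed w) (hn : 2 ≤ w.length) (a : Lt X)
    (hU : wf w a 0 ≠ wf w a (w.length - 1)) (hT : T0 w.length (wf w a)) (j : ℕ) (hj0 : 0 < j)
    (hj : j < w.length) : ¬ EqOne w (w.rotate j) := by
  intro h
  obtain ⟨js, h1, h2, h3⟩ := exists_walkWord_of_eqOne w j hj0 hj h
  have h4 := no_closed_walk hn (fun k hk => hred.wf_succ a k hk) (hred.wf_last a (by omega)) hU hT
    js h2 h1
  apply h4
  rw [← wword_val, PresentedGroup.mk_eq_one_iff, wword_wf w a js (fun k hk => (h2 k hk).2),
    wlist_wf]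
  exact h3

end MM31
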