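import Pool.Agent.LibMM31.Planar

/-!
# Planar pairs of permutations and the basic operations
-/

set_option linter.unusedSectionVars false
set_option linter.style.haveILetI false

namespace MM31

open Equiv Equiv.Perm

variable {D : Type} [Finite D] [DecidableEq D]

/-- planar pair: faces `φ`, edges `ε`, vertices `φ * ε` -/
def Pl (φ ε : Perm D) : Prop := PT φ ε (φ * ε)⁻¹

theorem Pl.iff (φ ε : Perm D) :
    Pl φ ε ↔ Nat.card D + 2 * orb φ ε ≤ cyc φ + cyc ε + cyc (φ * ε) := by
  unfold Pl PT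
  rw [cyc_inv]
  simp

theorem Pl.one : Pl (1 : Perm D) 1 := by
  rw [Pl.iff]
  have : orb (1 : Perm D) 1 = Nat.card D := by
    unfold orb
    rw [sup_idem]
    exact cyc_one
  rw [this, mul_one, cyc_one]
  omega

theorem Pl.of_PT {α β γ : Perm D} (h : PT α β γ) : Pl α β := by
  have : γ = (α * β)⁻¹ := eq_inv_of_mul_eq_one_right h.1
  unfold Pl
  rw [← this]
  exact h

/-- `φ → swap x y * φ`, splitting `φ` -/
theorem Pl.phi_split {φ ε : Perm D} (h : Pl φ ε) {x y : D} (hxy : x ≠ y)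
    (hs : SameCycle φ x y) : Pl (swap x y * φ) ε := by
  have h1 : PT ((φ * ε)⁻¹) φ ε := h.rot.rot
  have h2 := h1.split hxy (Or.inr hs)
  exact Pl.of_PT h2.rot

/-- `φ → swap x y * φ`, splitting the vertex permutation -/
theorem Pl.phi_nu {φ ε : Perm D} (h : Pl φ ε) {x y : D} (hxy : x ≠ y)
    (hs : SameCycle (φ * ε) x y) : Pl (swap x y * φ) ε := by
  have h1 : PT ((φ * ε)⁻¹) φ ε := h.rot.rot
  have h2 := h1.split hxy (Or.inl (sameCycle_inv.mpr hs))
  exact Pl.of_PT h2.rot

/-- `φ → swap x y * φ`, merging two orbits -/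
theorem Pl.phi_merge {φ ε : Perm D} (h : Pl φ ε) {x y : D}
    (hs : ¬ (cs φ ⊔ cs ε) x y) : Pl (swap x y * φ) ε := by
  have h1 : PT ((φ * ε)⁻¹) φ ε := h.rot.rot
  have h3 : cs ((φ * ε)⁻¹) ⊔ cs φ ≤ cs φ ⊔ cs ε := by
    refine sup_le ?_ le_sup_left
    rw [cs_inv]
    exact cs_mul_le φ ε
  have h2 := h1.merge (x := x) (y := y) (fun hh => hs (h3 hh))
  exact Pl.of_PT h2.rot

/-- `ε → ε * swap x y`, splitting `ε` -/
theorem Pl.eps_split {φ ε : Perm D} (h : Pl φ ε) {x y : D} (hxy : x ≠ y)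
    (hs : SameCycle ε x y) : Pl φ (ε * swap x y) := by
  have h1 : PT ε ((φ * ε)⁻¹) φ := h.rot
  have h2 := h1.split hxy (Or.inl hs)
  exact Pl.of_PT h2.rot.rot

/-- `ε → ε * swap x y`, splitting the vertex permutation -/
theorem Pl.eps_nu {φ ε : Perm D} (h : Pl φ ε) {x y : D} (hxy : x ≠ y)
    (hs : SameCycle (φ * ε) x y) : Pl φ (ε * swap x y) := by
  have h1 : PT ε ((φ * ε)⁻¹) φ := h.rot
  have h2 := h1.split hxy (Or.inr (sameCycle_inv.mpr hs))
  exact Pl.of_PT h2.rot.rot

/-- an isolated dart is alone in its orbit -/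
theorem orbit_isolated {φ ε : Perm D} {a z : D} (h1 : φ a = a) (h2 : ε a = a)
    (h : (cs φ ⊔ cs ε) a z) : a = z := by
  have hle : cs φ ⊔ cs ε ≤ (⟨fun x y => (x = a ↔ y = a), by
      refine ⟨fun x => Iff.rfl, fun h => h.symm, fun h k => h.trans k⟩⟩ : Setoid D) := by
    refine sup_le ?_ ?_
    · apply cs_le_of_apply
      intro x
      show (x = a ↔ φ x = a)
      constructor
      · rintro rfl; exact h1
      · intro hx
        exact φ.injective (hx.trans h1.symm)
    · apply cs_le_of_apply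
      intro x
      show (x = a ↔ ε x = a)
      constructor
      · rintro rfl; exact h2
      · intro hx
        exact ε.injective (hx.trans h2.symm)
  have := hle h
  exact ((show (a = a ↔ z = a) from this).mp rfl).symm

/-- isolate, in `φ`, the darts of a set -/
theorem Pl.kill_phi {φ ε : Perm D} (h : Pl φ ε) (S : D → Prop) (hS : ∀ d, S d ↔ S (φ d)) :
    ∃ φ' : Perm D, Pl φ' ε ∧ (∀ d, S d → φ' d = d) ∧ (∀ d, ¬ S d → φ' d = φ d) := by
  classical
  haveI : Fintype D := Fintype.ofFinite D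
  suffices H : ∀ n, ∀ φ : Perm D, Pl φ ε → (∀ d, S d ↔ S (φ d)) →
      (Finset.univ.filter (fun d => S d ∧ φ d ≠ d)).card ≤ n →
      ∃ φ' : Perm D, Pl φ' ε ∧ (∀ d, S d → φ' d = d) ∧ (∀ d, ¬ S d → φ' d = φ d) from
    H _ φ h hS le_rfl
  intro n
  induction n with
  | zero =>
    intro φ h hS hc
    refine ⟨φ, h, ?_, fun d _ => rfl⟩
    intro d hd
    by_contra hne
    have : d ∈ Finset.univ.filter (fun d => S d ∧ φ d ≠ d) := by simp [hd, hne]
    have := Finset.card_pos.mpr ⟨d, this⟩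
    omega
  | succ n ih =>
    intro φ h hS hc
    by_cases hex : ∃ x, S x ∧ φ x ≠ x
    · obtain ⟨x, hx, hne⟩ := hex
      have hpl : Pl (swap x (φ x) * φ) ε :=
        h.phi_split (Ne.symm hne) ⟨1, by simp⟩
      have val : ∀ d, d ≠ x → φ d ≠ x → (swap x (φ x) * φ) d = φ d := by
        intro d h1 h2
        rw [Perm.mul_apply, swap_apply_of_ne_of_ne h2 (fun hh => h1 (φ.injective hh))]
      have valx : (swap x (φ x) * φ) x = x := by simp
      have valp : ∀ d, φ d = x → (swap x (φ x) * φ) d = φ x := by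
        intro d hd
        rw [Perm.mul_apply, hd, swap_apply_left]
      have hS' : ∀ d, S d ↔ S ((swap x (φ x) * φ) d) := by
        intro d
        by_cases h1 : d = x
        · subst h1; rw [valx]
        by_cases h2 : φ d = x
        · rw [valp d h2]
          have : S d := (hS d).mpr (by rw [h2]; exact hx)
          exact ⟨fun _ => (hS x).mp hx, fun _ => this⟩
        · rw [val d h1 h2]; exact hS d
      have hlt : (Finset.univ.filter (fun d => S d ∧ (swap x (φ x) * φ) d ≠ d)).card ≤ n := by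
        have hsub : Finset.univ.filter (fun d => S d ∧ (swap x (φ x) * φ) d ≠ d) ⊆
            (Finset.univ.filter (fun d => S d ∧ φ d ≠ d)).erase x := by
          intro d hd
          simp only [Finset.mem_filter, Finset.mem_univ, true_and, Finset.mem_erase] at hd ⊢
          have hdx : d ≠ x := by
            rintro rfl
            exact hd.2 valx
          refine ⟨hdx, hd.1, ?_⟩
          intro hfix
          by_cases h2 : φ d = x
          · exact hdx (hfix.symm.trans h2)
          · rw [val d hdx h2] at hd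
            exact hd.2 hfix
        have hxm : x ∈ Finset.univ.filter (fun d => S d ∧ φ d ≠ d) := by simp [hx, hne]
        have := Finset.card_le_card hsub
        rw [Finset.card_erase_of_mem hxm] at this
        omega
      obtain ⟨φ', p1, p2, p3⟩ := ih _ hpl hS' hlt
      refine ⟨φ', p1, p2, ?_⟩
      intro d hd
      rw [p3 d hd]
      apply val
      · rintro rfl; exact hd hx
      · intro h2
        exact hd ((hS d).mpr (by rw [h2]; exact hx))
    · push Not at hex
      exact ⟨φ, h, fun d hd => hex d hd, fun d _ => rfl⟩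

/-- isolate, in `ε`, the darts of a set -/
theorem Pl.kill_eps {φ ε : Perm D} (h : Pl φ ε) (S : D → Prop) (hS : ∀ d, S d ↔ S (ε d)) :
    ∃ ε' : Perm D, Pl φ ε' ∧ (∀ d, S d → ε' d = d) ∧ (∀ d, ¬ S d → ε' d = ε d) := by
  -- by symmetry `(φ, ε) → (ε, (φ ε)⁻¹)`, `ε` is the first permutation
  have h1 : Pl ε φ := by
    have hc : cyc (ε * φ) = cyc (φ * ε) := by
      have e : ε * φ = φ⁻¹ * (φ * ε) * φ := by group
      unfold cyc ncl
      refine Nat.card_congr (Quotient.congr φ ?_)
      intro a b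
      show SameCycle (ε * φ) a b ↔ SameCycle (φ * ε) (φ a) (φ b)
      rw [e]
      have := sameCycle_conj (g := φ⁻¹) (f := φ * ε) (x := a) (y := b)
      rw [inv_inv] at this
      exact this
    rw [Pl.iff] at h ⊢
    have ho : orb ε φ = orb φ ε := by unfold orb; rw [sup_comm]
    rw [hc, ho]
    omega
  obtain ⟨ε', p1, p2, p3⟩ := h1.kill_phi S hS
  refine ⟨ε', ?_, p2, p3⟩
  have hc : cyc (φ * ε') = cyc (ε' * φ) := by
    have e : φ * ε' = ε'⁻¹ * (ε' * φ) * ε' := by group
    unfold cyc ncl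
    refine Nat.card_congr (Quotient.congr ε' ?_)
    intro a b
    show SameCycle (φ * ε') a b ↔ SameCycle (ε' * φ) (ε' a) (ε' b)
    rw [e]
    have := sameCycle_conj (g := ε'⁻¹) (f := ε' * φ) (x := a) (y := b)
    rw [inv_inv] at this
    exact this
  rw [Pl.iff] at p1 ⊢
  have ho : orb φ ε' = orb ε' φ := by unfold orb; rw [sup_comm]
  rw [hc, ho]
  omega

/-! ### gluings -/

/-- `ε` is a fixed point free involution on the alive darts, pairs compatible darts,
and is the identity elsewhere. -/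
structure Glue (alive : D → Prop) (C : D → D → Prop) (ε : Perm D) : Prop where
  al : ∀ d, alive d → alive (ε d)
  inv : ∀ d, alive d → ε (ε d) = d
  ne : ∀ d, alive d → ε d ≠ d
  cm : ∀ d, alive d → C d (ε d)
  dead : ∀ d, ¬ alive d → ε d = d

/-- the compatibility relations which can occur -/
structure Compat (C : D → D → Prop) : Prop where
  symm : ∀ a b, C a b → C b a
  rect : ∀ a b c d, C a b → C b c → C c d → C a d

/-- the diamond switch -/
theorem switch {φ ε : Perm D} (h : Pl φ ε) {alive : D → Prop} {C : D → D → Prop}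
    (hC : Compat C) (hg : Glue alive C ε) {q p p' : D}
    (hq : alive q) (hp : alive p) (hp' : alive p') (e1 : φ q = p) (e2 : φ p' = ε q)
    (hne : p ≠ p') (hc : C p p') :
    ∃ ε' : Perm D, Pl φ ε' ∧ Glue alive C ε' ∧ ε' p = p' ∧ ε' p' = p ∧
      ∀ d, d ≠ p → d ≠ p' → ε d ≠ p → ε d ≠ p' → ε' d = ε d := by
  by_cases hpp : ε p = p'
  · refine ⟨ε, h, hg, hpp, ?_, fun d _ _ _ _ => rfl⟩
    rw [← hpp, hg.inv p hp]
  set s := ε p with hs
  set s' := ε p' with hs'
  have es : ε s = p := hg.inv p hp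
  have es' : ε s' = p' := hg.inv p' hp'
  have hs'p : s' ≠ p := by
    intro hh
    apply hpp
    rw [hs, ← hh, es']
  have hsp : s ≠ p := hg.ne p hp
  have hs'p' : s' ≠ p' := hg.ne p' hp'
  have hss' : s ≠ s' := by
    intro hh
    apply hne
    rw [← es, hh, es']
  have hsp' : s ≠ p' := hpp
  -- first step
  have hν : SameCycle (φ * ε) s' p := by
    refine ⟨2, ?_⟩
    have : ((φ * ε) ^ (2 : ℤ)) s' = (φ * ε) ((φ * ε) s') := by
      rw [zpow_two, Perm.mul_apply]
    rw [this, Perm.mul_apply, Perm.mul_apply, es', e2, hg.inv q hq, e1]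
  have h1 : Pl φ (ε * swap s' p) := h.eps_nu hs'p hν
  set ε1 := ε * swap s' p with hε1
  have a1 : ε1 s' = s := by rw [hε1, Perm.mul_apply, swap_apply_left]
  have a2 : ε1 p = p' := by rw [hε1, Perm.mul_apply, swap_apply_right, es']
  have a3 : ε1 s = p := by rw [hε1, Perm.mul_apply, swap_apply_of_ne_of_ne hss' hsp, es]
  have a4 : ε1 p' = s' := by rw [hε1, Perm.mul_apply, swap_apply_of_ne_of_ne (Ne.symm hs'p') (Ne.symm hne)]
  have hs2 : SameCycle ε1 p' s := by
    refine ⟨2, ?_⟩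
    have : (ε1 ^ (2 : ℤ)) p' = ε1 (ε1 p') := by rw [zpow_two, Perm.mul_apply]
    rw [this, a4, a1]
  have h2 : Pl φ (ε1 * swap p' s) := h1.eps_split (Ne.symm hsp') hs2
  set ε2 := ε1 * swap p' s with hε2
  have b1 : ε2 p' = p := by rw [hε2, Perm.mul_apply, swap_apply_left, a3]
  have b2 : ε2 s = s' := by rw [hε2, Perm.mul_apply, swap_apply_right, a4]
  have b3 : ε2 p = p' := by rw [hε2, Perm.mul_apply, swap_apply_of_ne_of_ne hne (Ne.symm hsp), a2]
  have b4 : ε2 s' = s := by
    rw [hε2, Perm.mul_apply, swap_apply_of_ne_of_ne hs'p' (Ne.symm hss'), a1]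
  have b5 : ∀ d, d ≠ p → d ≠ p' → d ≠ s → d ≠ s' → ε2 d = ε d := by
    intro d h1 h2 h3 h4
    rw [hε2, Perm.mul_apply, swap_apply_of_ne_of_ne h2 h3, hε1, Perm.mul_apply,
      swap_apply_of_ne_of_ne h4 h1]
  have als : alive s := hg.al p hp
  have als' : alive s' := hg.al p' hp'
  refine ⟨ε2, h2, ⟨?_, ?_, ?_, ?_, ?_⟩, b3, b1, ?_⟩
  · intro d hd
    by_cases h1 : d = p; · rw [h1, b3]; exact hp'
    by_cases h2 : d = p'; · rw [h2, b1]; exact hp
    by_cases h3 : d = s; · rw [h3, b2]; exact als'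
    by_cases h4 : d = s'; · rw [h4, b4]; exact als
    rw [b5 d h1 h2 h3 h4]; exact hg.al d hd
  · intro d hd
    by_cases h1 : d = p; · rw [h1, b3, b1]
    by_cases h2 : d = p'; · rw [h2, b1, b3]
    by_cases h3 : d = s; · rw [h3, b2, b4]
    by_cases h4 : d = s'; · rw [h4, b4, b2]
    rw [b5 d h1 h2 h3 h4, b5, hg.inv d hd]
    · intro hh; apply h3; rw [← hg.inv d hd, hh]
    · intro hh; apply h4; rw [← hg.inv d hd, hh]
    · intro hh; apply h1; rw [← hg.inv d hd, hh, es]
    · intro hh; apply h2; rw [← hg.inv d hd, hh, es']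
  · intro d hd
    by_cases h1 : d = p; · rw [h1, b3]; exact Ne.symm hne
    by_cases h2 : d = p'; · rw [h2, b1]; exact hne
    by_cases h3 : d = s; · rw [h3, b2]; exact Ne.symm hss'
    by_cases h4 : d = s'; · rw [h4, b4]; exact hss'
    rw [b5 d h1 h2 h3 h4]; exact hg.ne d hd
  · intro d hd
    have c1 : C p s := hg.cm p hp
    have c2 : C p' s' := hg.cm p' hp'
    by_cases h1 : d = p; · rw [h1, b3]; exact hc
    by_cases h2 : d = p'; · rw [h2, b1]; exact hC.symm _ _ hc
    by_cases h3 : d = s; · rw [h3, b2]; exact hC.rect _ _ _ _ (hC.symm _ _ c1) hc c2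
    by_cases h4 : d = s'
    · rw [h4, b4]; exact hC.symm _ _ (hC.rect _ _ _ _ (hC.symm _ _ c1) hc c2)
    rw [b5 d h1 h2 h3 h4]; exact hg.cm d hd
  · intro d hd
    rw [b5 d]
    · exact hg.dead d hd
    · rintro rfl; exact hd hp
    · rintro rfl; exact hd hp'
    · rintro rfl; exact hd als
    · rintro rfl; exact hd als'
  · intro d h1 h2 h3 h4
    apply b5 d h1 h2
    · intro hh; apply h3; rw [hh, es]
    · intro hh; apply h4; rw [hh, es']

/-- zipping two chains of darts, starting from a glued pair -/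
theorem zip {φ ε : Perm D} (h : Pl φ ε) {alive : D → Prop} {C : D → D → Prop}
    (hC : Compat C) (hg : Glue alive C ε) (ℓ : ℕ) (A B : ℕ → D)
    (hA : ∀ k < ℓ, alive (A k)) (hB : ∀ k < ℓ, alive (B k))
    (fA : ∀ k, k + 1 < ℓ → φ (A k) = A (k + 1)) (fB : ∀ k, k + 1 < ℓ → φ (B (k + 1)) = B k)
    (iA : ∀ k < ℓ, ∀ l < ℓ, A k = A l → k = l) (iB : ∀ k < ℓ, ∀ l < ℓ, B k = B l → k = l)
    (iAB : ∀ k < ℓ, ∀ l < ℓ, A k ≠ B l)
    (hc : ∀ k < ℓ, C (A k) (B k)) (h0 : 0 < ℓ → ε (A 0) = B 0) :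
    ∃ ε' : Perm D, Pl φ ε' ∧ Glue alive C ε' ∧ (∀ k < ℓ, ε' (A k) = B k) ∧
      (∀ d, (∀ k < ℓ, d ≠ A k ∧ d ≠ B k ∧ ε d ≠ A k ∧ ε d ≠ B k) → ε' d = ε d) := by
  induction ℓ with
  | zero => exact ⟨ε, h, hg, fun k hk => absurd hk (Nat.not_lt_zero k), fun d _ => rfl⟩
  | succ ℓ ih =>
    rcases Nat.eq_zero_or_pos ℓ with hℓ | hℓ
    · subst hℓ
      refine ⟨ε, h, hg, ?_, fun d _ => rfl⟩
      intro k hk
      have : k = 0 := by omega
      subst this
      exact h0 hk
    · obtain ⟨ε1, q1, q2, q3, q4⟩ := ih (fun k hk => hA k (by omega)) (fun k hk => hB k (by omega))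
        (fun k hk => fA k (by omega)) (fun k hk => fB k (by omega))
        (fun k hk l hl => iA k (by omega) l (by omega))
        (fun k hk l hl => iB k (by omega) l (by omega))
        (fun k hk l hl => iAB k (by omega) l (by omega))
        (fun k hk => hc k (by omega)) (fun _ => h0 (by omega))
      have s1 : φ (A (ℓ - 1)) = A ℓ := by
        have := fA (ℓ - 1) (by omega)
        rwa [Nat.sub_add_cancel hℓ] at this
      have s2 : φ (B ℓ) = ε1 (A (ℓ - 1)) := by
        rw [q3 (ℓ - 1) (by omega)]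
        have := fB (ℓ - 1) (by omega)
        rwa [Nat.sub_add_cancel hℓ] at this
      obtain ⟨ε2, r1, r2, r3, r4, r5⟩ := switch q1 hC q2 (hA (ℓ - 1) (by omega))
        (hA ℓ (by omega)) (hB ℓ (by omega)) s1 s2 (iAB ℓ (by omega) ℓ (by omega))
        (hc ℓ (by omega))
      refine ⟨ε2, r1, r2, ?_, ?_⟩
      · intro k hk
        rcases Nat.lt_or_ge k ℓ with hk' | hk'
        · rw [r5 (A k), q3 k hk']
          · intro hh; have := iA k (by omega) ℓ (by omega) hh; omega
          · exact iAB k (by omega) ℓ (by omega)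
          · rw [q3 k hk']; exact (iAB ℓ (by omega) k (by omega)).symm
          · rw [q3 k hk']; intro hh; have := iB k (by omega) ℓ (by omega) hh; omega
        · have : k = ℓ := by omega
          rw [this, r3]
      · intro d hd
        have hd1 : ε1 d = ε d := q4 d (fun k hk => hd k (by omega))
        obtain ⟨x1, x2, x3, x4⟩ := hd ℓ (by omega)
        rw [r5 d x1 x2 (by rw [hd1]; exact x3) (by rw [hd1]; exact x4), hd1]

end MM31
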