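import Mathlib

/-!
# Planarity of a pair of permutations

`cs σ` is the setoid of cycles, `ncl r` the number of classes of `r`.
`Planar φ ε` : the genus inequality is an equality for the pair `(φ, ε)`.
-/

set_option linter.unusedSectionVars false
set_option linter.style.haveILetI false

namespace MM31

open Equiv Equiv.Perm

variable {D : Type} [Finite D] [DecidableEq D]

/-- the setoid of the cycles of a permutation -/
abbrev cs (σ : Perm D) : Setoid D := SameCycle.setoid σ

/-- number of classes -/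
noncomputable def ncl (r : Setoid D) : ℕ := Nat.card (Quotient r)

/-- the setoid identifying `x` and `y` only -/
def jn (x y : D) : Setoid D where
  r a b := a = b ∨ (a = x ∧ b = y) ∨ (a = y ∧ b = x)
  iseqv := by
    refine ⟨fun a => Or.inl rfl, ?_, ?_⟩
    · rintro a b (h | ⟨h1, h2⟩ | ⟨h1, h2⟩)
      · exact Or.inl h.symm
      · exact Or.inr (Or.inr ⟨h2, h1⟩)
      · exact Or.inr (Or.inl ⟨h2, h1⟩)
    · rintro a b c (h | ⟨h1, h2⟩ | ⟨h1, h2⟩) (k | ⟨k1, k2⟩ | ⟨k1, k2⟩) <;> subst_vars <;> simp_all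

omit [Finite D] [DecidableEq D] in
theorem jn_le {r : Setoid D} {x y : D} (h : r x y) : jn x y ≤ r := by
  intro a b hab
  rcases hab with h1 | ⟨h1, h2⟩ | ⟨h1, h2⟩
  · subst h1; exact r.refl' a
  · subst h1 h2; exact h
  · subst h1 h2; exact r.symm' h

omit [Finite D] [DecidableEq D] in
theorem jn_self (x y : D) : jn x y x y := Or.inr (Or.inl ⟨rfl, rfl⟩)

/-- explicit form of `r ⊔ jn x y` -/
def sj (r : Setoid D) (x y : D) : Setoid D where
  r a b := r a b ∨ (r a x ∧ r y b) ∨ (r a y ∧ r x b)
  iseqv := by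
    refine ⟨fun a => Or.inl (r.refl' a), ?_, ?_⟩
    · rintro a b (h | ⟨h1, h2⟩ | ⟨h1, h2⟩)
      · exact Or.inl (r.symm' h)
      · exact Or.inr (Or.inr ⟨r.symm' h2, r.symm' h1⟩)
      · exact Or.inr (Or.inl ⟨r.symm' h2, r.symm' h1⟩)
    · rintro a b c (h | ⟨h1, h2⟩ | ⟨h1, h2⟩) (k | ⟨k1, k2⟩ | ⟨k1, k2⟩)
      · exact Or.inl (r.trans' h k)
      · exact Or.inr (Or.inl ⟨r.trans' h k1, k2⟩)
      · exact Or.inr (Or.inr ⟨r.trans' h k1, k2⟩)
      · exact Or.inr (Or.inl ⟨h1, r.trans' h2 k⟩)
      · exact Or.inr (Or.inl ⟨h1, k2⟩)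
      · exact Or.inl (r.trans' h1 k2)
      · exact Or.inr (Or.inr ⟨h1, r.trans' h2 k⟩)
      · exact Or.inl (r.trans' h1 k2)
      · exact Or.inr (Or.inr ⟨h1, k2⟩)

omit [Finite D] [DecidableEq D] in
theorem sup_jn_iff (r : Setoid D) (x y a b : D) :
    (r ⊔ jn x y) a b ↔ r a b ∨ (r a x ∧ r y b) ∨ (r a y ∧ r x b) := by
  constructor
  · have : r ⊔ jn x y ≤ sj r x y := by
      refine sup_le ?_ ?_
      · intro a b h; exact Or.inl h
      · apply jn_le
        exact Or.inr (Or.inl ⟨r.refl' x, r.refl' y⟩)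
    exact fun h => this h
  · intro h
    have h1 : r ≤ r ⊔ jn x y := le_sup_left
    have h2 : jn x y ≤ r ⊔ jn x y := le_sup_right
    rcases h with h | ⟨ha, hb⟩ | ⟨ha, hb⟩
    · exact h1 h
    · exact (r ⊔ jn x y).trans' ((r ⊔ jn x y).trans' (h1 ha) (h2 (jn_self x y))) (h1 hb)
    · exact (r ⊔ jn x y).trans' ((r ⊔ jn x y).trans' (h1 ha)
        ((r ⊔ jn x y).symm' (h2 (jn_self x y)))) (h1 hb)

omit [DecidableEq D] in
theorem ncl_mono {r s : Setoid D} (h : r ≤ s) : ncl s ≤ ncl r := by
  unfold ncl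
  refine Nat.card_le_card_of_surjective (Quotient.map' id (fun a b hab => h hab)) ?_
  intro q
  induction q using Quotient.inductionOn with
  | h a => exact ⟨Quotient.mk _ a, rfl⟩

omit [DecidableEq D] in
theorem ncl_sup_jn {r : Setoid D} {x y : D} (h : ¬ r x y) : ncl (r ⊔ jn x y) + 1 = ncl r := by
  classical
  unfold ncl
  haveI : Fintype D := Fintype.ofFinite D
  haveI : Fintype (Quotient r) := Fintype.ofFinite _
  haveI : Fintype (Quotient (r ⊔ jn x y)) := Fintype.ofFinite _
  rw [Nat.card_eq_fintype_card, Nat.card_eq_fintype_card]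
  have hc : Fintype.card {q : Quotient r // q ≠ Quotient.mk r y} =
      Fintype.card (Quotient (r ⊔ jn x y)) := by
    refine Fintype.card_of_bijective
      (f := fun q => Quotient.map' (s₁ := r) (s₂ := r ⊔ jn x y) id
        (fun a b hab => (le_sup_left : r ≤ r ⊔ jn x y) hab) q.1) ⟨?_, ?_⟩
    · rintro ⟨q1, h1⟩ ⟨q2, h2⟩ heq
      induction q1 using Quotient.inductionOn with
      | h a =>
      induction q2 using Quotient.inductionOn with
      | h b =>
      have h1' : ¬ r a y := fun hh => h1 (Quotient.sound hh)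
      have h2' : ¬ r b y := fun hh => h2 (Quotient.sound hh)
      have h3 : (r ⊔ jn x y) a b := Quotient.exact heq
      rw [sup_jn_iff] at h3
      rcases h3 with h3 | ⟨h3, h4⟩ | ⟨h3, h4⟩
      · exact Subtype.ext (Quotient.sound h3)
      · exact absurd (r.symm' h4) h2'
      · exact absurd h3 h1'
    · intro q
      induction q using Quotient.inductionOn with
      | h a =>
      by_cases hay : r a y
      · refine ⟨⟨Quotient.mk r x, fun hh => h (Quotient.exact hh)⟩, ?_⟩
        apply Quotient.sound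
        show (r ⊔ jn x y) x a
        rw [sup_jn_iff]
        exact Or.inr (Or.inl ⟨r.refl' x, r.symm' hay⟩)
      · refine ⟨⟨Quotient.mk r a, fun hh => hay (Quotient.exact hh)⟩, ?_⟩
        apply Quotient.sound
        exact (r ⊔ jn x y).refl' a
  rw [← hc]
  have := Fintype.card_subtype_compl (fun q : Quotient r => q = Quotient.mk r y)
  have h1 : Fintype.card {q : Quotient r // q = Quotient.mk r y} = 1 := by
    simp
  have h2 : 1 ≤ Fintype.card (Quotient r) := Fintype.card_pos_iff.mpr ⟨Quotient.mk r y⟩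
  rw [h1] at this
  have h3 : Fintype.card {q : Quotient r // q ≠ Quotient.mk r y} =
    Fintype.card {q : Quotient r // ¬ (q = Quotient.mk r y)} := rfl
  omega

omit [DecidableEq D] in
theorem sup_jn_eq {r : Setoid D} {x y : D} (h : r x y) : r ⊔ jn x y = r :=
  sup_eq_left.mpr (jn_le h)

/-! ### swaps -/

omit [Finite D] in
theorem cs_le_of_apply {σ : Perm D} {r : Setoid D} (h : ∀ a, r a (σ a)) : cs σ ≤ r := by
  intro a b hab
  obtain ⟨i, hi⟩ := hab
  subst hi
  induction i using Int.induction_on with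
  | zero => exact r.refl' _
  | succ i ih =>
    refine r.trans' ih ?_
    have : (σ ^ ((i : ℤ) + 1)) a = σ ((σ ^ (i : ℤ)) a) := by
      rw [add_comm, zpow_add, zpow_one, Perm.mul_apply]
    rw [this]
    exact h _
  | pred i ih =>
    refine r.trans' ih ?_
    have : (σ ^ (-(i : ℤ))) a = σ ((σ ^ (-(i : ℤ) - 1)) a) := by
      rw [sub_eq_neg_add, ← Perm.mul_apply, ← zpow_one_add]
      congr 2
      ring
    rw [this]
    exact r.symm' (h _)

omit [Finite D] in
theorem cs_mul_swap_le (σ : Perm D) (x y : D) : cs (σ * swap x y) ≤ cs σ ⊔ jn x y := by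
  apply cs_le_of_apply
  intro a
  rw [sup_jn_iff]
  by_cases hx : a = x
  · subst hx
    simp only [Perm.mul_apply, swap_apply_left]
    exact Or.inr (Or.inl ⟨SameCycle.refl _ _, ⟨1, by simp⟩⟩)
  by_cases hy : a = y
  · subst hy
    simp only [Perm.mul_apply, swap_apply_right]
    exact Or.inr (Or.inr ⟨SameCycle.refl _ _, ⟨1, by simp⟩⟩)
  · rw [Perm.mul_apply, swap_apply_of_ne_of_ne hx hy]
    exact Or.inl ⟨1, by simp⟩

omit [Finite D] in
theorem cs_le_mul_swap (σ : Perm D) (x y : D) : cs σ ≤ cs (σ * swap x y) ⊔ jn x y := by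
  have := cs_mul_swap_le (σ * swap x y) x y
  rwa [mul_assoc, swap_mul_self, mul_one] at this

omit [Finite D] in
theorem cs_sup_jn (σ : Perm D) (x y : D) : cs (σ * swap x y) ⊔ jn x y = cs σ ⊔ jn x y := by
  apply le_antisymm
  · exact sup_le (cs_mul_swap_le σ x y) le_sup_right
  · exact sup_le (cs_le_mul_swap σ x y) le_sup_right

theorem sameCycle_mul_swap {σ : Perm D} {x y : D} (h : ¬ SameCycle σ x y) :
    SameCycle (σ * swap x y) x y := by
  classical
  have hex : ∃ k, 0 < k ∧ (σ ^ k) y = y := ⟨orderOf σ, orderOf_pos σ, by simp [pow_orderOf_eq_one]⟩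
  let k := Nat.find hex
  obtain ⟨hk0, hk⟩ : 0 < k ∧ (σ ^ k) y = y := Nat.find_spec hex
  have hmin : ∀ i, 0 < i → i < k → (σ ^ i) y ≠ y := fun i h0 hi h1 =>
    Nat.find_min hex hi ⟨h0, h1⟩
  have step : ∀ i, i < k → ((σ * swap x y) ^ (i + 1)) x = (σ ^ (i + 1)) y := by
    intro i
    induction i with
    | zero => intro _; simp
    | succ i ih =>
      intro hi
      rw [pow_succ', Perm.mul_apply, ih (by omega)]
      have h1 : (σ ^ (i + 1)) y ≠ y := hmin _ (by omega) hi
      have h2 : (σ ^ (i + 1)) y ≠ x := by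
        intro h2
        exact h (SameCycle.symm ⟨((i + 1 : ℕ) : ℤ), by rw [zpow_natCast]; exact h2⟩)
      rw [Perm.mul_apply, swap_apply_of_ne_of_ne h2 h1, pow_succ' σ (i + 1), Perm.mul_apply]
  refine ⟨((k : ℕ) : ℤ), ?_⟩
  have := step (k - 1) (by omega)
  rw [Nat.sub_add_cancel hk0, hk] at this
  rw [zpow_natCast]
  exact this

theorem not_sameCycle_mul_swap {σ : Perm D} {x y : D} (h : SameCycle σ x y) (hne : x ≠ y) :
    ¬ SameCycle (σ * swap x y) x y := by
  classical
  have hex : ∃ k, (σ ^ k) y = x := by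
    obtain ⟨i, _, hi⟩ := h.symm.exists_pow_eq'
    exact ⟨i, hi⟩
  let k := Nat.find hex
  have hk : (σ ^ k) y = x := Nat.find_spec hex
  have hmin : ∀ i, i < k → (σ ^ i) y ≠ x := fun i hi h1 => Nat.find_min hex hi h1
  have hk0 : 0 < k := by
    rcases Nat.eq_zero_or_pos k with h0 | h0
    · rw [h0] at hk; simp at hk; exact absurd hk.symm hne
    · exact h0
  have hy : ∀ i, 0 < i → i < k → (σ ^ i) y ≠ y := by
    intro i h0 hi h1
    apply hmin (k - i) (by omega)
    have : (σ ^ k) y = (σ ^ (k - i)) ((σ ^ i) y) := by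
      rw [← Perm.mul_apply, ← pow_add]; congr 2; omega
    rw [h1] at this
    rw [← this, hk]
  have step : ∀ i, i < k → ((σ * swap x y) ^ (i + 1)) x = (σ ^ (i + 1)) y := by
    intro i
    induction i with
    | zero => intro _; simp
    | succ i ih =>
      intro hi
      rw [pow_succ', Perm.mul_apply, ih (by omega)]
      have h1 : (σ ^ (i + 1)) y ≠ y := hy _ (by omega) hi
      have h2 : (σ ^ (i + 1)) y ≠ x := hmin _ hi
      rw [Perm.mul_apply, swap_apply_of_ne_of_ne h2 h1, pow_succ' σ (i + 1), Perm.mul_apply]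
  have hper : ((σ * swap x y) ^ k) x = x := by
    have := step (k - 1) (by omega)
    rwa [Nat.sub_add_cancel hk0, hk] at this
  intro hs
  obtain ⟨j, _, hj⟩ := hs.exists_pow_eq'
  have hmod : ((σ * swap x y) ^ (j % k)) x = y := by
    have hmul : ∀ t : ℕ, ((σ * swap x y) ^ (k * t)) x = x := by
      intro t
      induction t with
      | zero => simp
      | succ t ih => rw [Nat.mul_succ, pow_add, Perm.mul_apply, hper, ih]
    have : ((σ * swap x y) ^ j) x = ((σ * swap x y) ^ (j % k)) (((σ * swap x y) ^ (k * (j / k))) x) := by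
      rw [← Perm.mul_apply, ← pow_add, Nat.mod_add_div]
    rw [hmul] at this
    rw [← this, hj]
  have hlt : j % k < k := Nat.mod_lt _ hk0
  rcases Nat.eq_zero_or_pos (j % k) with h0 | h0
  · rw [h0] at hmod; simp at hmod; exact hne hmod
  · have := step (j % k - 1) (by omega)
    rw [Nat.sub_add_cancel h0, hmod] at this
    exact hy _ h0 hlt this.symm

/-- number of cycles -/
noncomputable def cyc (σ : Perm D) : ℕ := ncl (cs σ)

theorem cyc_mul_swap_of_same {σ : Perm D} {x y : D} (h : SameCycle σ x y) (hne : x ≠ y) :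
    cyc (σ * swap x y) = cyc σ + 1 := by
  have h1 := ncl_sup_jn (r := cs (σ * swap x y)) (not_sameCycle_mul_swap h hne)
  rw [cs_sup_jn, sup_jn_eq (r := cs σ) h] at h1
  exact h1.symm

theorem cyc_mul_swap_of_not {σ : Perm D} {x y : D} (h : ¬ SameCycle σ x y) :
    cyc (σ * swap x y) + 1 = cyc σ := by
  have h1 := ncl_sup_jn (r := cs σ) h
  rw [← cs_sup_jn, sup_jn_eq (r := cs (σ * swap x y)) (sameCycle_mul_swap h)] at h1
  exact h1

omit [Finite D] [DecidableEq D] in
theorem cs_inv (σ : Perm D) : cs σ⁻¹ = cs σ := by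
  ext a b
  exact sameCycle_inv

omit [Finite D] [DecidableEq D] in
theorem cyc_inv (σ : Perm D) : cyc σ⁻¹ = cyc σ := by unfold cyc; rw [cs_inv]

omit [Finite D] in
theorem swap_mul_inv_form (σ : Perm D) (x y : D) : (swap x y * σ)⁻¹ = σ⁻¹ * swap x y := by
  rw [mul_inv_rev, swap_inv]

omit [Finite D] in
theorem cs_swap_mul (σ : Perm D) (x y : D) : cs (swap x y * σ) = cs (σ⁻¹ * swap x y) := by
  rw [← cs_inv, swap_mul_inv_form]

omit [Finite D] in
theorem cs_swap_mul_sup_jn (σ : Perm D) (x y : D) : cs (swap x y * σ) ⊔ jn x y = cs σ ⊔ jn x y := by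
  rw [cs_swap_mul, cs_sup_jn, cs_inv]

theorem cyc_swap_mul_of_same {σ : Perm D} {x y : D} (h : SameCycle σ x y) (hne : x ≠ y) :
    cyc (swap x y * σ) = cyc σ + 1 := by
  have := cyc_mul_swap_of_same (σ := σ⁻¹) (sameCycle_inv.mpr h) hne
  rw [cyc_inv] at this
  unfold cyc at *
  rw [cs_swap_mul]
  exact this

theorem cyc_swap_mul_of_not {σ : Perm D} {x y : D} (h : ¬ SameCycle σ x y) :
    cyc (swap x y * σ) + 1 = cyc σ := by
  have := cyc_mul_swap_of_not (σ := σ⁻¹) (x := x) (y := y) (fun hh => h (sameCycle_inv.mp hh))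
  rw [cyc_inv] at this
  unfold cyc at *
  rw [cs_swap_mul]
  exact this

/-! ### orbits and the genus inequality -/

/-- number of orbits of the group generated by two permutations -/
noncomputable def orb (φ ε : Perm D) : ℕ := ncl (cs φ ⊔ cs ε)

omit [DecidableEq D] in
theorem cyc_one : cyc (1 : Perm D) = Nat.card D := by
  unfold cyc ncl
  refine Nat.card_congr (Equiv.ofBijective (fun q : Quotient (cs (1 : Perm D)) =>
    Quotient.lift id (fun a b (h : SameCycle (1 : Perm D) a b) => sameCycle_one.mp h) q) ⟨?_, ?_⟩)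
  · intro q1 q2 h
    induction q1 using Quotient.inductionOn with
    | h a =>
    induction q2 using Quotient.inductionOn with
    | h b =>
    exact Quotient.sound (sameCycle_one.mpr h)
  · intro a
    exact ⟨Quotient.mk _ a, rfl⟩

omit [Finite D] [DecidableEq D] in
theorem cs_one_le (r : Setoid D) : cs (1 : Perm D) ≤ r := by
  intro a b h
  have : a = b := sameCycle_one.mp h
  subst this
  exact r.refl' a

omit [Finite D] [DecidableEq D] in
theorem cs_mul_le (φ ε : Perm D) : cs (φ * ε) ≤ cs φ ⊔ cs ε := by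
  classical
  apply cs_le_of_apply
  intro a
  have h1 : cs φ ≤ cs φ ⊔ cs ε := le_sup_left
  have h2 : cs ε ≤ cs φ ⊔ cs ε := le_sup_right
  refine (cs φ ⊔ cs ε).trans' (h2 (⟨1, rfl⟩ : SameCycle ε a (ε a))) ?_
  exact h1 (⟨1, by simp⟩ : SameCycle φ (ε a) ((φ * ε) a))

theorem genus (φ ε : Perm D) : cyc φ + cyc ε + cyc (φ * ε) ≤ Nat.card D + 2 * orb φ ε := by
  classical
  haveI : Fintype D := Fintype.ofFinite D
  suffices H : ∀ n, ∀ ε : Perm D, ε.support.card ≤ n →
      cyc φ + cyc ε + cyc (φ * ε) ≤ Nat.card D + 2 * orb φ ε from H _ ε le_rfl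
  intro n
  induction n with
  | zero =>
    intro ε hε
    have : ε = 1 := by
      rw [← Perm.support_eq_empty_iff, ← Finset.card_eq_zero]
      omega
    subst this
    have h1 : orb φ 1 = cyc φ := by
      unfold orb cyc
      rw [sup_eq_left.mpr (cs_one_le _)]
    rw [h1, mul_one, cyc_one]
    omega
  | succ n ih =>
    intro ε hε
    by_cases h1 : ε = 1
    · exact ih ε (by rw [h1]; simp)
    obtain ⟨x, hx⟩ : ∃ x, ε x ≠ x := by
      by_contra hcon
      push Not at hcon
      exact h1 (Equiv.ext hcon)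
    set y := ε⁻¹ x with hy
    have hεy : ε y = x := by rw [hy]; simp
    have hxy : x ≠ y := by
      intro h
      apply hx
      rw [← h] at hεy
      exact hεy
    have hsame : SameCycle ε x y := by
      refine SameCycle.symm ⟨1, ?_⟩
      simpa using hεy
    set ε' := ε * swap x y with hε'
    have hsupp : ε'.support.card ≤ n := by
      have hsub : ε'.support ⊆ ε.support.erase x := by
        intro a ha
        rw [Perm.mem_support] at ha
        rw [Finset.mem_erase, Perm.mem_support]
        have hax : a ≠ x := by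
          intro hax
          apply ha
          rw [hax, hε', Perm.mul_apply, swap_apply_left, hεy]
        refine ⟨hax, ?_⟩
        intro haε
        by_cases hay : a = y
        · rw [hay] at haε
          rw [hεy] at haε
          exact hxy haε
        · apply ha
          rw [hε', Perm.mul_apply, swap_apply_of_ne_of_ne hax hay, haε]
      have hxs : x ∈ ε.support := by rw [Perm.mem_support]; exact hx
      have := Finset.card_le_card hsub
      rw [Finset.card_erase_of_mem hxs] at this
      omega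
    have IH := ih ε' hsupp
    have hc1 : cyc ε' = cyc ε + 1 := cyc_mul_swap_of_same hsame hxy
    have hprod : φ * ε' = φ * ε * swap x y := by rw [hε', mul_assoc]
    have horb : cs φ ⊔ cs ε = (cs φ ⊔ cs ε') ⊔ jn x y := by
      rw [sup_assoc, hε', cs_sup_jn, sup_jn_eq (r := cs ε) hsame]
    by_cases hO : (cs φ ⊔ cs ε') x y
    · have h2 : orb φ ε = orb φ ε' := by
        unfold orb
        rw [horb, sup_jn_eq hO]
      by_cases hS : SameCycle (φ * ε) x y
      · have h3 := cyc_mul_swap_of_same hS hxy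
        rw [← hprod] at h3
        omega
      · have h3 := cyc_mul_swap_of_not hS
        rw [← hprod] at h3
        omega
    · have h2 : orb φ ε + 1 = orb φ ε' := by
        unfold orb
        rw [horb, ncl_sup_jn hO]
      by_cases hS : SameCycle (φ * ε) x y
      · have h3 := cyc_mul_swap_of_same hS hxy
        rw [← hprod] at h3
        omega
      · exfalso
        apply hO
        have h4 := sameCycle_mul_swap hS
        rw [← hprod] at h4
        exact cs_mul_le φ ε' h4

/-- planar triples of permutations: `α β γ = 1` and equality in the genus inequality -/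
def PT (α β γ : Perm D) : Prop :=
  α * β * γ = 1 ∧ Nat.card D + 2 * orb α β ≤ cyc α + cyc β + cyc γ

theorem cyc_eq_of_mul_eq_one {α β γ : Perm D} (h : α * β * γ = 1) : cyc (α * β) = cyc γ := by
  have : α * β = γ⁻¹ := by rwa [mul_eq_one_iff_eq_inv] at h
  rw [this, cyc_inv]

theorem orb_rot {α β γ : Perm D} (h : α * β * γ = 1) : orb α β = orb β γ := by
  have h1 : cs α ≤ cs β ⊔ cs γ := by
    have : α = (β * γ)⁻¹ := by
      rw [mul_assoc] at h
      exact eq_inv_of_mul_eq_one_left h
    rw [this, cs_inv]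
    exact cs_mul_le β γ
  have h2 : cs γ ≤ cs α ⊔ cs β := by
    have : γ = (α * β)⁻¹ := by
      exact (eq_inv_of_mul_eq_one_right h)
    rw [this, cs_inv]
    exact cs_mul_le α β
  unfold orb
  congr 1
  apply le_antisymm
  · exact sup_le h1 le_sup_left
  · exact sup_le le_sup_right h2

theorem PT.rot {α β γ : Perm D} (h : PT α β γ) : PT β γ α := by
  refine ⟨?_, ?_⟩
  · have h1 := h.1
    rw [mul_assoc] at h1
    exact mul_eq_one_comm.mp h1
  · rw [← orb_rot h.1]
    have := h.2
    omega

/-- Lemma P: changing two of the three permutations by a transposition keeps planarity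
as soon as one of the two is split. -/
theorem PT.split {α β γ : Perm D} (h : PT α β γ) {x y : D} (hxy : x ≠ y)
    (hs : SameCycle α x y ∨ SameCycle β x y) : PT (α * swap x y) (swap x y * β) γ := by
  obtain ⟨h1, h2⟩ := h
  refine ⟨?_, ?_⟩
  · have : α * swap x y * (swap x y * β) = α * β := by
      rw [mul_assoc, ← mul_assoc (swap x y), swap_mul_self, one_mul]
    rw [this, h1]
  set α' := α * swap x y with hα'
  set β' := swap x y * β with hβ'
  have hprod : α' * β' = α * β := by
    rw [hα', hβ', mul_assoc, ← mul_assoc (swap x y), swap_mul_self, one_mul]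
  have hg := genus α' β'
  rw [hprod, cyc_eq_of_mul_eq_one h1] at hg
  have hboth : (cs α' ⊔ cs β') ⊔ jn x y = (cs α ⊔ cs β) ⊔ jn x y := by
    have e1 : (cs α' ⊔ cs β') ⊔ jn x y = (cs α' ⊔ jn x y) ⊔ (cs β' ⊔ jn x y) := by
      rw [sup_sup_sup_comm, sup_idem]
    have e2 : (cs α ⊔ cs β) ⊔ jn x y = (cs α ⊔ jn x y) ⊔ (cs β ⊔ jn x y) := by
      rw [sup_sup_sup_comm, sup_idem]
    rw [e1, e2, hα', hβ', cs_sup_jn, cs_swap_mul_sup_jn]
  have hold : (cs α ⊔ cs β) x y := by
    rcases hs with hs | hs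
    · exact (le_sup_left : cs α ≤ cs α ⊔ cs β) hs
    · exact (le_sup_right : cs β ≤ cs α ⊔ cs β) hs
  rw [sup_jn_eq hold] at hboth
  by_cases hO : (cs α' ⊔ cs β') x y
  · have h3 : orb α β = orb α' β' := by
      unfold orb; rw [← hboth, sup_jn_eq hO]
    have ca : cyc α' = cyc α + 1 ∨ cyc α' + 1 = cyc α := by
      by_cases h : SameCycle α x y
      · exact Or.inl (cyc_mul_swap_of_same h hxy)
      · exact Or.inr (cyc_mul_swap_of_not h)
    have cb : cyc β' = cyc β + 1 ∨ cyc β' + 1 = cyc β := by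
      by_cases h : SameCycle β x y
      · exact Or.inl (cyc_swap_mul_of_same h hxy)
      · exact Or.inr (cyc_swap_mul_of_not h)
    rcases hs with hs | hs
    · have := cyc_mul_swap_of_same hs hxy
      rw [← hα'] at this
      omega
    · have := cyc_swap_mul_of_same hs hxy
      rw [← hβ'] at this
      omega
  · have h3 : orb α β + 1 = orb α' β' := by
      unfold orb; rw [← hboth, ncl_sup_jn hO]
    have ha : SameCycle α x y := by
      by_contra hcon
      exact hO ((le_sup_left : cs α' ≤ cs α' ⊔ cs β') (sameCycle_mul_swap hcon))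
    have hb : SameCycle β x y := by
      by_contra hcon
      apply hO
      have h4 := sameCycle_mul_swap (σ := β⁻¹) (fun hh => hcon (sameCycle_inv.mp hh))
      have h5 : cs β' x y := by
        rw [hβ', cs_swap_mul]
        exact h4
      exact (le_sup_right : cs β' ≤ cs α' ⊔ cs β') h5
    have := cyc_mul_swap_of_same ha hxy
    have := cyc_swap_mul_of_same hb hxy
    rw [← hα', ← hβ'] at *
    omega

/-- merging with another component keeps planarity -/
theorem PT.merge {α β γ : Perm D} (h : PT α β γ) {x y : D}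
    (hs : ¬ (cs α ⊔ cs β) x y) : PT (α * swap x y) (swap x y * β) γ := by
  obtain ⟨h1, h2⟩ := h
  have hxy : x ≠ y := by
    rintro rfl
    exact hs ((cs α ⊔ cs β).refl' x)
  refine ⟨?_, ?_⟩
  · have : α * swap x y * (swap x y * β) = α * β := by
      rw [mul_assoc, ← mul_assoc (swap x y), swap_mul_self, one_mul]
    rw [this, h1]
  set α' := α * swap x y with hα'
  set β' := swap x y * β with hβ'
  have hboth : (cs α' ⊔ cs β') ⊔ jn x y = (cs α ⊔ cs β) ⊔ jn x y := by
    have e1 : (cs α' ⊔ cs β') ⊔ jn x y = (cs α' ⊔ jn x y) ⊔ (cs β' ⊔ jn x y) := by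
      rw [sup_sup_sup_comm, sup_idem]
    have e2 : (cs α ⊔ cs β) ⊔ jn x y = (cs α ⊔ jn x y) ⊔ (cs β ⊔ jn x y) := by
      rw [sup_sup_sup_comm, sup_idem]
    rw [e1, e2, hα', hβ', cs_sup_jn, cs_swap_mul_sup_jn]
  have ha : ¬ SameCycle α x y := fun hh => hs ((le_sup_left : cs α ≤ cs α ⊔ cs β) hh)
  have hb : ¬ SameCycle β x y := fun hh => hs ((le_sup_right : cs β ≤ cs α ⊔ cs β) hh)
  have hO : (cs α' ⊔ cs β') x y :=
    (le_sup_left : cs α' ≤ cs α' ⊔ cs β') (sameCycle_mul_swap ha)
  have h3 : orb α β = orb α' β' + 1 := by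
    unfold orb
    rw [← ncl_sup_jn hs, ← hboth, sup_jn_eq hO]
  have c1 := cyc_mul_swap_of_not ha
  have c2 := cyc_swap_mul_of_not hb
  rw [← hα'] at c1
  rw [← hβ'] at c2
  omega

end MM31
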