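import Pool.Agent.LibMM31.StackOrd

/-!
# Existence of closed orders
-/

set_option linter.unusedSectionVars false

namespace MM31

variable {X : Type}

/-- a closed preorder on the positions of the cyclic word `c` -/
structure ClR (c : ℕ → Lt X) (n : ℕ) (Q : ℕ → ℕ → Prop) : Prop where
  refl : ∀ i, Q i i
  trans : ∀ i j k, Q i j → Q j k → Q i k
  perl : ∀ i k, Q (i + n) k ↔ Q i k
  perr : ∀ i k, Q i (k + n) ↔ Q i k
  fwd : ∀ i k, c i = c k → (Q i k ↔ Q (i + 1) (k + 1))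
  mix : ∀ i k, c i = linv (c k) → (Q i (k + 1) ↔ Q (i + 1) k)

/-- a closed preorder inside `R` which decides all pairs of classes of `R` -/
structure Adm (c : ℕ → Lt X) (n : ℕ) (R Q : ℕ → ℕ → Prop) : Prop extends ClR c n Q where
  sub : ∀ i k, Q i k → R i k
  strict : ∀ i k, R i k → ¬ R k i → Q i k
  total : ∀ i k, R i k → R k i → Q i k ∨ Q k i

section

variable {c : ℕ → Lt X} {n : ℕ} {R Q : ℕ → ℕ → Prop}

theorem ClR.mix' (h : ClR c n Q) (i k : ℕ) (hc : c i = linv (c k)) :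
    Q (k + 1) i ↔ Q k (i + 1) :=
  (h.mix k i (by rw [hc, linv_linv])).symm

theorem ClR.eqv (h : ClR c n Q) : EqvP c n (fun i k => Q i k ∧ Q k i) where
  refl := fun i => ⟨h.refl i, h.refl i⟩
  symm := fun _ _ hh => ⟨hh.2, hh.1⟩
  trans := fun _ _ _ h1 h2 => ⟨h.trans _ _ _ h1.1 h2.1, h.trans _ _ _ h2.2 h1.2⟩
  per := fun i => ⟨(h.perl _ _).2 (h.refl i), (h.perr _ _).2 (h.refl i)⟩
  fwd := fun i k hc => and_congr (h.fwd i k hc) (h.fwd k i hc.symm)
  mix := fun i k hc => and_congr (h.mix i k hc) (h.mix' i k hc)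

theorem ClR.mod (h : ClR c n Q) (i k : ℕ) : Q i k ↔ Q (i % n) (k % n) := by
  have h1 : ∀ m i k, Q (i + n * m) k ↔ Q i k := by
    intro m
    induction m with
    | zero => intro i k; rfl
    | succ m ih =>
      intro i k
      rw [show i + n * (m + 1) = i + n * m + n by ring, h.perl, ih]
  have h2 : ∀ m i k, Q i (k + n * m) ↔ Q i k := by
    intro m
    induction m with
    | zero => intro i k; rfl
    | succ m ih =>
      intro i k
      rw [show k + n * (m + 1) = k + n * m + n by ring, h.perr, ih]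
  have h3 := h1 (i / n) (i % n) (k % n + n * (k / n))
  have h4 := h2 (k / n) (i % n) (k % n)
  rw [Nat.mod_add_div, Nat.mod_add_div] at h3
  rw [Nat.mod_add_div] at h4
  rw [h3, h4]

open Classical in
/-- refinement by a height function -/
theorem Adm.refine (h : Adm c n R Q) {φ : ℕ → ℤ} (hφ : Coc c n (fun i k => Q i k ∧ Q k i) φ) :
    Adm c n R (fun i k => Q i k ∧ (Q k i →
      ∑ t ∈ Finset.Ico 0 k, φ t ≤ ∑ t ∈ Finset.Ico 0 i, φ t)) := by
  set ht : ℕ → ℤ := fun i => ∑ t ∈ Finset.Ico 0 i, φ t with hht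
  have hs : ∀ i, ht (i + 1) = ht i + φ i := by
    intro i
    simp only [hht]
    rw [Finset.sum_Ico_succ_top (Nat.zero_le i)]
  have hn : ∀ i, ht (i + n) = ht i := by
    intro i
    have h1 := Finset.sum_Ico_consecutive φ (Nat.zero_le i) (Nat.le_add_right i n)
    have h2 := sum_Ico_per hφ.per i
    rw [hφ.tot] at h2
    simp only [hht]
    rw [← h1, h2, add_zero]
  show Adm c n R (fun i k => Q i k ∧ (Q k i → ht k ≤ ht i))
  refine ⟨⟨?_, ?_, ?_, ?_, ?_, ?_⟩, ?_, ?_, ?_⟩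
  · exact fun i => ⟨h.refl i, fun _ => le_rfl⟩
  · rintro i j k ⟨h1, h2⟩ ⟨h3, h4⟩
    refine ⟨h.trans _ _ _ h1 h3, fun h5 => ?_⟩
    have h6 := h2 (h.trans _ _ _ h3 h5)
    have h7 := h4 (h.trans _ _ _ h5 h1)
    exact h7.trans h6
  · intro i k
    rw [h.perl, h.perr, hn]
  · intro i k
    rw [h.perl, h.perr, hn]
  · intro i k hc
    have h1 := h.fwd i k hc
    have h2 := h.fwd k i hc.symm
    constructor
    · rintro ⟨h3, h4⟩
      refine ⟨h1.1 h3, fun h5 => ?_⟩
      have h6 := h2.2 h5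
      have h7 := hφ.same i k hc ⟨h3, h6⟩
      rw [hs, hs, h7]
      have := h4 h6
      linarith
    · rintro ⟨h3, h4⟩
      have h3' := h1.2 h3
      refine ⟨h3', fun h5 => ?_⟩
      have h7 := hφ.same i k hc ⟨h3', h5⟩
      have h8 := h4 (h2.1 h5)
      rw [hs, hs, h7] at h8
      linarith
  · intro i k hc
    have h1 := h.mix i k hc
    have h2 := h.mix' i k hc
    constructor
    · rintro ⟨h3, h4⟩
      refine ⟨h1.1 h3, fun h5 => ?_⟩
      have h6 := h2.2 h5
      have h7 := hφ.opp i k hc ⟨h3, h6⟩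
      have h8 := h4 h6
      rw [hs] at h8
      rw [hs, h7]
      linarith
    · rintro ⟨h3, h4⟩
      have h3' := h1.2 h3
      refine ⟨h3', fun h5 => ?_⟩
      have h7 := hφ.opp i k hc ⟨h3', h5⟩
      have h8 := h4 (h2.1 h5)
      rw [hs, h7] at h8
      rw [hs]
      linarith
  · rintro i k ⟨h1, _⟩
    exact h.sub i k h1
  · intro i k h1 h2
    exact ⟨h.strict i k h1 h2, fun h3 => absurd (h.sub _ _ h3) h2⟩
  · intro i k h1 h2
    by_cases h3 : Q i k <;> by_cases h4 : Q k i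
    · rcases le_total (ht k) (ht i) with h5 | h5
      · exact Or.inl ⟨h3, fun _ => h5⟩
      · exact Or.inr ⟨h4, fun _ => h5⟩
    · exact Or.inl ⟨h3, fun h5 => absurd h5 h4⟩
    · exact Or.inr ⟨h4, fun h5 => absurd h5 h3⟩
    · rcases h.total i k h1 h2 with h5 | h5
      · exact absurd h5 h3
      · exact absurd h5 h4

open Classical in
/-- the related pairs of residues -/
noncomputable def prs (n : ℕ) (Q : ℕ → ℕ → Prop) : Finset (ℕ × ℕ) :=
  (Finset.range n ×ˢ Finset.range n).filter (fun p : ℕ × ℕ => Q p.1 p.2)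

theorem mem_prs {n : ℕ} {Q : ℕ → ℕ → Prop} {p : ℕ × ℕ} :
    p ∈ prs n Q ↔ (p.1 < n ∧ p.2 < n) ∧ Q p.1 p.2 := by
  simp only [prs, Finset.mem_filter, Finset.mem_product, Finset.mem_range]

/-- For a cyclically reduced cyclic word of minimal period `n` every closed preorder contains an
antisymmetric one which is total on its classes and contains its strict pairs. -/
theorem exists_order (hn : 0 < n) (hper : ∀ k, c (k + n) = c k)
    (hred : ∀ k, c (k + 1) ≠ linv (c k)) (hmin : ∀ d, 0 < d → d < n → ∃ k, c (k + d) ≠ c k)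
    (hR : ClR c n R) :
    ∃ Q, Adm c n R Q ∧ ∀ i k, Q i k → Q k i → i % n = k % n := by
  classical
  have hex : ∃ m, ∃ Q, Adm c n R Q ∧ (prs n Q).card = m :=
    ⟨(prs n R).card, R, ⟨hR, fun _ _ h => h, fun _ _ h _ => h, fun _ _ h _ => Or.inl h⟩, rfl⟩
  obtain ⟨Q, hQ, hm⟩ := Nat.find_spec hex
  have hmin' : ∀ Q', Adm c n R Q' → (prs n Q).card ≤ (prs n Q').card := by
    intro Q' h'
    rw [hm]
    exact Nat.find_min' hex ⟨Q', h', rfl⟩
  refine ⟨Q, hQ, ?_⟩
  have key := eqv_trivial hn hper hred hmin hQ.toClR.eqv (by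
    intro φ hφ i k hik hM
    have hQ' := hQ.refine hφ
    set Q' : ℕ → ℕ → Prop := fun i k => Q i k ∧ (Q k i →
      ∑ t ∈ Finset.Ico 0 k, φ t ≤ ∑ t ∈ Finset.Ico 0 i, φ t) with hQ'def
    have h1 : prs n Q' ⊆ prs n Q := by
      intro p hp
      rw [mem_prs] at hp ⊢
      exact ⟨hp.1, hp.2.1⟩
    have h2 := Finset.eq_of_subset_of_card_le h1 (hmin' Q' hQ')
    have h3 : ∀ a b, Q a b → Q' a b := by
      intro a b hab
      rw [hQ'.toClR.mod a b]
      have h4 : (a % n, b % n) ∈ prs n Q := by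
        rw [mem_prs]
        exact ⟨⟨Nat.mod_lt _ hn, Nat.mod_lt _ hn⟩, (hQ.toClR.mod a b).1 hab⟩
      rw [← h2, mem_prs] at h4
      exact h4.2
    have h4 := (h3 i k hM.1).2 hM.2
    have h5 := (h3 k i hM.2).2 hM.1
    have h6 := Finset.sum_Ico_consecutive φ (Nat.zero_le i) hik
    have h7 : ∑ t ∈ Finset.Ico 0 i, φ t = ∑ t ∈ Finset.Ico 0 k, φ t := le_antisymm h5 h4
    linarith)
  exact fun i k h1 h2 => key i k ⟨h1, h2⟩

end

end MM31
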