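import Pool.Agent.LibMM31.WPow
import Pool.Agent.LibMM31.StackOrd2

/-!
# The flagged order of a cyclic word from a closed antisymmetric order
-/

set_option linter.unusedSectionVars false

namespace MM31

variable {X V : Type}

/-- `x` leads from the position `i` to the neighbouring position `i'` -/
def MvC (c : ℕ → Lt X) (i : ℕ) (x : Lt X) (i' : ℕ) : Prop :=
  (x = c i ∧ i' = i + 1) ∨ (x = linv (c i') ∧ i = i' + 1)

theorem MvC.symm {c : ℕ → Lt X} {i i' : ℕ} {x : Lt X} (h : MvC c i x i') :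
    MvC c i' (linv x) i := by
  rcases h with ⟨e1, e2⟩ | ⟨e1, e2⟩
  · exact Or.inr ⟨by rw [e1], e2⟩
  · exact Or.inl ⟨by rw [e1, linv_linv], e2⟩

theorem ClR.mv {c : ℕ → Lt X} {n : ℕ} {Q : ℕ → ℕ → Prop} (h : ClR c n Q) {i k i' k' : ℕ}
    {x : Lt X} (h1 : MvC c i x i') (h2 : MvC c k x k') : Q i k ↔ Q i' k' := by
  rcases h1 with ⟨e1, rfl⟩ | ⟨e1, rfl⟩ <;> rcases h2 with ⟨e2, rfl⟩ | ⟨e2, rfl⟩
  · exact h.fwd i k (e1.symm.trans e2)
  · exact h.mix i k' (e1.symm.trans e2)
  · exact h.mix' k i' (e2.symm.trans e1)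
  · refine (h.fwd i' k' ?_).symm
    have h3 := congrArg linv (e1.symm.trans e2)
    rwa [linv_linv, linv_linv] at h3

/-- strict order of the vertices -/
def slt (R : ℕ → ℕ → Prop) (cl : ℕ → V) (p q : V) : Prop :=
  ∃ i k, p = cl i ∧ q = cl k ∧ R k i ∧ ¬ R i k

/-- the vertex of an object -/
def obV (u : ℕ) (cl : ℕ → V) : ℕ ⊕ V → V
  | .inl k => cl (u + k)
  | .inr p => p

/-- strict order of the objects -/
def ltQ (R Q : ℕ → ℕ → Prop) (cl : ℕ → V) (u : ℕ) (x y : ℕ ⊕ V) : Prop :=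
  slt R cl (obV u cl x) (obV u cl y) ∨
    ∃ a b, x = Sum.inl a ∧ y = Sum.inl b ∧ Q (u + b) (u + a) ∧ ¬ Q (u + a) (u + b)

/-- the data from which the flagged order is built -/
structure SetQ (c : ℕ → Lt X) (n : ℕ) (R Q : ℕ → ℕ → Prop) (Γ : PG X V) (cl : ℕ → V) (u : ℕ) :
    Prop where
  hn : 2 ≤ n
  hper : ∀ k, c (k + n) = c k
  hred : ∀ k, c (k + 1) ≠ linv (c k)
  cR : ClR c n R
  A : Adm c n R Q
  anti : ∀ i k, Q i k → Q k i → i % n = k % n
  base : ∀ i, R i 0
  st : Γ.st = cl 0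
  cls : ∀ i k, cl i = cl k ↔ R i k ∧ R k i
  edg : ∀ p x q, Γ.E p x q → ∃ i i', MvC c i x i' ∧ p = cl i ∧ q = cl i'
  least : ∀ i, Q i u

section

variable {c : ℕ → Lt X} {n : ℕ} {R Q : ℕ → ℕ → Prop} {Γ : PG X V} {cl : ℕ → V} {u : ℕ}

theorem SetQ.clu (S : SetQ c n R Q Γ cl u) : cl u = Γ.st := by
  rw [S.st, S.cls]
  exact ⟨S.base u, S.A.sub _ _ (S.least 0)⟩

theorem SetQ.cper (S : SetQ c n R Q Γ cl u) (k : ℕ) : cl (k + n) = cl k := by
  rw [S.cls]
  exact ⟨(S.cR.perl _ _).2 (S.cR.refl k), (S.cR.perr _ _).2 (S.cR.refl k)⟩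

theorem slt_irr (S : SetQ c n R Q Γ cl u) (p : V) : ¬ slt R cl p p := by
  rintro ⟨i, k, e1, e2, _, h2⟩
  exact h2 ((S.cls i k).1 (e1.symm.trans e2)).1

theorem slt_trans (S : SetQ c n R Q Γ cl u) {p q r : V} (h1 : slt R cl p q)
    (h2 : slt R cl q r) : slt R cl p r := by
  obtain ⟨i, k, e1, e2, h3, h4⟩ := h1
  obtain ⟨k', m, e3, e4, h5, h6⟩ := h2
  have h7 := (S.cls k k').1 (e2.symm.trans e3)
  refine ⟨i, m, e1, e4, S.cR.trans _ _ _ h5 (S.cR.trans _ _ _ h7.2 h3), fun h8 => h4 ?_⟩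
  exact S.cR.trans _ _ _ h8 (S.cR.trans _ _ _ h5 h7.2)

/-- strictness passes along a further comparison above -/
theorem slt_le (S : SetQ c n R Q Γ cl u) {p : V} {a b : ℕ} (h1 : slt R cl p (cl a))
    (h2 : R b a) : slt R cl p (cl b) := by
  obtain ⟨i, k, e1, e2, h3, h4⟩ := h1
  have h7 := (S.cls k a).1 e2.symm
  refine ⟨i, b, e1, rfl, S.cR.trans _ _ _ h2 (S.cR.trans _ _ _ h7.2 h3), fun h8 => h4 ?_⟩
  exact S.cR.trans _ _ _ h8 (S.cR.trans _ _ _ h2 h7.2)

theorem le_slt (S : SetQ c n R Q Γ cl u) {r : V} {a b : ℕ} (h1 : R b a)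
    (h2 : slt R cl (cl b) r) : slt R cl (cl a) r := by
  obtain ⟨i, k, e1, e2, h3, h4⟩ := h2
  have h7 := (S.cls b i).1 e1
  refine ⟨a, k, rfl, e2, S.cR.trans _ _ _ h3 (S.cR.trans _ _ _ h7.2 h1), fun h8 => h4 ?_⟩
  exact S.cR.trans _ _ _ h7.2 (S.cR.trans _ _ _ h1 h8)

/-- strict pairs of classes are strict for `Q` -/
theorem slt_Q (S : SetQ c n R Q Γ cl u) {a b : ℕ} (h : slt R cl (cl a) (cl b)) :
    Q b a ∧ ¬ Q a b := by
  obtain ⟨i, k, e1, e2, h3, h4⟩ := h
  have h5 := (S.cls a i).1 e1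
  have h6 := (S.cls b k).1 e2
  have h7 : R b a := S.cR.trans _ _ _ h6.1 (S.cR.trans _ _ _ h3 h5.2)
  have h8 : ¬ R a b := fun h => h4 (S.cR.trans _ _ _ h5.2 (S.cR.trans _ _ _ h h6.1))
  exact ⟨S.A.strict _ _ h7 h8, fun h => h8 (S.A.sub _ _ h)⟩

theorem ltQ_inl (S : SetQ c n R Q Γ cl u) {a b : ℕ} :
    ltQ R Q cl u (Sum.inl a) (Sum.inl b) ↔ Q (u + b) (u + a) ∧ ¬ Q (u + a) (u + b) := by
  constructor
  · rintro (h | ⟨a', b', e1, e2, h⟩)
    · exact slt_Q S h
    · rw [Sum.inl.inj e1, Sum.inl.inj e2]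
      exact h
  · intro h
    exact Or.inr ⟨a, b, rfl, rfl, h⟩

/-- pull back along edges with the same letter -/
theorem slt_mv (S : SetQ c n R Q Γ cl u) {i k i' k' : ℕ} {x : Lt X}
    (h1 : MvC c i x i') (h2 : MvC c k x k') (h : slt R cl (cl i') (cl k')) :
    slt R cl (cl i) (cl k) := by
  obtain ⟨a, b, e1, e2, h3, h4⟩ := h
  have h5 := (S.cls i' a).1 e1
  have h6 := (S.cls k' b).1 e2
  refine ⟨i, k, rfl, rfl, (S.cR.mv h2 h1).2 ?_, fun h => h4 ?_⟩
  · exact S.cR.trans _ _ _ h6.1 (S.cR.trans _ _ _ h3 h5.2)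
  · exact S.cR.trans _ _ _ h5.2 (S.cR.trans _ _ _ ((S.cR.mv h1 h2).1 h) h6.1)

/-- the start and the end position of a germ of the loop -/
theorem gL_mv (c : ℕ → Lt X) (n u : ℕ) (s : Bool) {k : ℕ} (hk : k < n) :
    ∃ a b, (Gm.L s k : Gm X V).ob n = Sum.inl a ∧
      (Gm.L s (k + 1) : Gm X V).ob n = Sum.inl b ∧
      MvC c (u + a) ((Gm.L s k : Gm X V).lt n (fun k => c (u + k))) (u + b) ∧
      a ≤ n ∧ b ≤ n ∧ (b % n = 0 → k + 1 = n ∧ ((s = true ∧ b = n) ∨ (s = false ∧ b = 0))) := by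
  cases s
  · refine ⟨n - k, n - (k + 1), rfl, rfl, ?_, by omega, by omega, ?_⟩
    · right
      constructor
      · show linv (c (u + (n - 1 - k))) = linv (c (u + (n - (k + 1))))
        rw [show n - 1 - k = n - (k + 1) by omega]
      · omega
    · intro h
      have h1 : n - (k + 1) < n := by omega
      rw [Nat.mod_eq_of_lt h1] at h
      exact ⟨by omega, Or.inr ⟨rfl, h⟩⟩
  · refine ⟨k, k + 1, rfl, rfl, ?_, by omega, by omega, ?_⟩
    · left
      exact ⟨rfl, rfl⟩
    · intro h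
      rcases Nat.lt_or_ge (k + 1) n with h1 | h1
      · rw [Nat.mod_eq_of_lt h1] at h
        omega
      · exact ⟨by omega, Or.inl ⟨rfl, by omega⟩⟩

/-- start and end position of any germ -/
theorem germ_mv (S : SetQ c n R Q Γ cl u) {g : Gm X V} (hg : g.valid Γ n) :
    ∃ i i', MvC c i (g.lt n (fun k => c (u + k))) i' ∧ obV u cl (g.ob n) = cl i ∧
      (∀ g' : Gm X V, g.cont g' → obV u cl (g'.ob n) = cl i') ∧
      (g.term Γ n → cl i' = Γ.st) ∧ g.sr n (fun k => cl (u + k)) = cl i := by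
  cases g with
  | L s k =>
    obtain ⟨a, b, h1, h2, h3, _, _, h4⟩ := gL_mv (V := V) c n u s hg.2
    refine ⟨u + a, u + b, h3, ?_, ?_, ?_, ?_⟩
    · rw [h1]; rfl
    · intro g' hc
      cases g' with
      | L s' k' =>
        obtain ⟨rfl, rfl⟩ := hc
        rw [h2]; rfl
      | W p x q b => exact absurd hc (by simp [Gm.cont])
    · intro ht
      have ht' : k + 1 = n := ht
      rw [ht'] at h2
      cases s
      · have h5 : (Sum.inl (n - n) : ℕ ⊕ V) = Sum.inl b := h2
        have h6 : n - n = b := Sum.inl.inj h5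
        rw [← h6, Nat.sub_self, Nat.add_zero]
        exact S.clu
      · have h5 : (Sum.inl n : ℕ ⊕ V) = Sum.inl b := h2
        have h6 : n = b := Sum.inl.inj h5
        rw [← h6, S.cper]
        exact S.clu
    · have h5 := h1
      cases s
      · have h6 : n - k = a := Sum.inl.inj h5
        rw [← h6]; rfl
      · have h6 : k = a := Sum.inl.inj h5
        rw [← h6]; rfl
  | W p x q b =>
    obtain ⟨i, i', h1, h2, h3⟩ := S.edg p x q hg.1
    refine ⟨i, i', h1, h2, ?_, ?_, h2⟩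
    · intro g' hc
      cases g' with
      | L s' k' => exact absurd hc (by simp [Gm.cont])
      | W p' x' q' b' =>
        obtain ⟨h4, _, _⟩ := hc
        show p' = _
        rw [h4, h3]
    · intro ht
      rw [← h3]
      exact ht.1

/-- a class which is not the base class is above it -/
theorem slt_st (S : SetQ c n R Q Γ cl u) {i k : ℕ} (h1 : cl i = Γ.st) (h2 : cl k ≠ Γ.st) :
    slt R cl (cl i) (cl k) := by
  rw [S.st] at h1 h2
  refine ⟨0, k, h1, rfl, S.base k, fun h => h2 ?_⟩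
  rw [S.cls]
  exact ⟨S.base k, h⟩

/-- same letter, same end: same start -/
theorem cl_det (S : SetQ c n R Q Γ cl u) {i k i' k' : ℕ} {x : Lt X}
    (h1 : MvC c i x i') (h2 : MvC c k x k') (h : cl i' = cl k') : cl i = cl k := by
  rw [S.cls] at h ⊢
  exact ⟨(S.cR.mv h1 h2).2 h.1, (S.cR.mv h2 h1).2 h.2⟩

theorem ltQ_base (S : SetQ c n R Q Γ cl u) (g h : Gm X V) (hg : g.valid Γ n)
    (hh : h.valid Γ n) (hok : g.ok n (fun k => c (u + k)) (fun k => cl (u + k)) h)
    (ht : g.term Γ n) : ltQ R Q cl u (g.ob n) (h.ob n) := by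
  have main : g.sr n (fun k => cl (u + k)) ≠ h.sr n (fun k => cl (u + k)) →
      ltQ R Q cl u (g.ob n) (h.ob n) := by
    intro hne
    obtain ⟨i, i', h1, h2, _, h4, h5⟩ := germ_mv S hg
    obtain ⟨k, k', h1', h2', _, _, h5'⟩ := germ_mv S hh
    rw [← Gm.ok_lt hok] at h1'
    rw [h5, h5'] at hne
    left
    rw [h2, h2']
    refine slt_mv S h1 h1' (slt_st S (h4 ht) fun h6 => hne ?_)
    exact cl_det S h1 h1' ((h4 ht).trans h6.symm)
  cases g with
  | W p x q b => cases h <;> exact main hok.2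
  | L s k =>
    cases h with
    | W p x q b => exact main hok.2
    | L s' k' =>
      obtain ⟨a, b, h1, h2, h3, _, _, h4⟩ := gL_mv (V := V) c n u s hg.2
      obtain ⟨a', b', h1', h2', h3', _, hb', h4'⟩ := gL_mv (V := V) c n u s' hh.2
      have e1 := h1
      have e2 := h1'
      rw [e1, e2, ltQ_inl S]
      have hlt : (Gm.L s' k' : Gm X V).lt n (fun k => c (u + k)) =
        (Gm.L s k : Gm X V).lt n (fun k => c (u + k)) := (Gm.ok_lt hok).symm
      have h6 := h3'
      rw [hlt] at h6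
      rw [S.A.mv h6 h3, S.A.mv h3 h6]
      -- the end of the first germ is the base
      have ht' : k + 1 = n := ht
      have hb : (u + b) % n = u % n := by
        rw [ht'] at h2
        cases s
        · have h5 : (Sum.inl (n - n) : ℕ ⊕ V) = Sum.inl b := h2
          have h6 : n - n = b := Sum.inl.inj h5
          rw [← h6, Nat.sub_self, Nat.add_zero]
        · have h5 : (Sum.inl n : ℕ ⊕ V) = Sum.inl b := h2
          have h6 : n = b := Sum.inl.inj h5
          rw [← h6, Nat.add_mod_right]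
      have hl : ∀ i, Q i (u + b) := by
        intro i
        rw [S.A.toClR.mod, hb, ← S.A.toClR.mod]
        exact S.least i
      refine ⟨hl _, fun h7 => ?_⟩
      have h8 := S.anti _ _ h7 (hl _)
      rw [hb] at h8
      have h9 : b' % n = 0 := by
        have h10 : (u + 0) % n = (u + b') % n := h8
        have h11 := Nat.ModEq.add_left_cancel' u h10
        have h12 : 0 % n = b' % n := h11
        rw [← h12, Nat.zero_mod]
      obtain ⟨h10, h11⟩ := h4' h9
      have hkk : k' = k := by omega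
      subst hkk
      have hss : s ≠ s' := fun h => hok.2 (by rw [h])
      -- the letters are inverse
      have hlt2 : wl n (fun k => c (u + k)) s k' = wl n (fun k => c (u + k)) s' k' := hok.1
      have hk1 : k' = n - 1 := by omega
      have key : c (u + (n - 1)) = linv (c u) → False := by
        intro h
        have h12 := S.hred (u + (n - 1))
        have h13 : u + (n - 1) + 1 = u + n := by omega
        rw [h13, S.hper] at h12
        exact h12 (by rw [h, linv_linv])
      cases s <;> cases s'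
      · exact hss rfl
      · have h12 : linv (c (u + (n - 1 - k'))) = c (u + k') := hlt2
        rw [hk1, Nat.sub_self, Nat.add_zero] at h12
        exact key h12.symm
      · have h12 : c (u + k') = linv (c (u + (n - 1 - k'))) := hlt2
        rw [hk1, Nat.sub_self, Nat.add_zero] at h12
        exact key h12
      · exact hss rfl

theorem ltQ_comp (S : SetQ c n R Q Γ cl u) (g h g' h' : Gm X V) (hg : g.valid Γ n)
    (hh : h.valid Γ n) (hok : g.ok n (fun k => c (u + k)) (fun k => cl (u + k)) h)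
    (hc : g.cont g') (hc' : h.cont h') (hlt : ltQ R Q cl u (g'.ob n) (h'.ob n)) :
    ltQ R Q cl u (g.ob n) (h.ob n) := by
  obtain ⟨i, i', h1, h2, h3, _, _⟩ := germ_mv S hg
  obtain ⟨k, k', h1', h2', h3', _, _⟩ := germ_mv S hh
  rw [← Gm.ok_lt hok] at h1'
  rcases hlt with hlt | ⟨a, b, e1, e2, h6⟩
  · left
    rw [h3 g' hc, h3' h' hc'] at hlt
    rw [h2, h2']
    exact slt_mv S h1 h1' hlt
  · cases g' with
    | W p x q b => exact absurd e1 (by simp [Gm.ob])
    | L s k1 =>
      cases h' with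
      | W p x q b => exact absurd e2 (by simp [Gm.ob])
      | L s' k1' =>
        cases g with
        | W p x q b => exact absurd hc (by simp [Gm.cont])
        | L s0 k0 =>
          cases h with
          | W p x q b => exact absurd hc' (by simp [Gm.cont])
          | L s0' k0' =>
            obtain ⟨rfl, rfl⟩ := hc
            obtain ⟨rfl, rfl⟩ := hc'
            obtain ⟨x, y, f1, f2, f3, _, _, _⟩ := gL_mv (V := V) c n u s hg.2
            obtain ⟨x', y', f1', f2', f3', _, _, _⟩ := gL_mv (V := V) c n u s' hh.2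
            have g1 := f1
            have g2 := f1'
            rw [g1, g2, ltQ_inl S]
            have hl2 : (Gm.L s' k0' : Gm X V).lt n (fun k => c (u + k)) =
              (Gm.L s k0 : Gm X V).lt n (fun k => c (u + k)) := (Gm.ok_lt hok).symm
            rw [hl2] at f3'
            rw [S.A.mv f3' f3, S.A.mv f3 f3']
            have hy : y = a := Sum.inl.inj (f2.symm.trans e1)
            have hy' : y' = b := Sum.inl.inj (f2'.symm.trans e2)
            rw [hy, hy']
            exact h6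

/-- The flagged order. -/
def SetQ.ord (S : SetQ c n R Q Γ cl u) {p0 : ℕ} (h1 : 1 ≤ p0) (h2 : p0 < n)
    (hmax : ∀ i, Q i (u + p0) → Q (u + p0) i) :
    OrdH Γ n (fun k => c (u + k)) (fun k => cl (u + k)) p0 where
  lt := ltQ R Q cl u
  irr := by
    rintro a (h | ⟨a', b', e1, e2, h3, h4⟩)
    · exact slt_irr S _ h
    · have : a' = b' := Sum.inl.inj (e1.symm.trans e2)
      rw [this] at h4
      exact h4 (S.A.refl _)
  trans := by
    rintro a b d (h | ⟨a', b', rfl, rfl, h3, h4⟩) (h' | ⟨b'', d', e1, rfl, h5, h6⟩)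
    · exact Or.inl (slt_trans S h h')
    · subst e1
      exact Or.inl (slt_le S h (S.A.sub _ _ h5))
    · exact Or.inl (le_slt S (S.A.sub _ _ h3) h')
    · have : b' = b'' := Sum.inl.inj e1
      subst this
      rw [ltQ_inl S]
      exact ⟨S.A.trans _ _ _ h5 h3, fun h => h4 (S.A.trans _ _ _ h h5)⟩
  base := fun g h hg hh hok ht => ltQ_base S g h hg hh hok ht
  comp := fun g h g' h' hg hh _ _ hok hc hc' hlt => ltQ_comp S g h g' h' hg hh hok hc hc' hlt
  p0_pos := h1
  p0_lt := h2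
  maxi := by
    intro h hh hlt
    obtain ⟨i, i', _, e2, _, _, _⟩ := germ_mv S hh
    rcases hlt with hlt | ⟨a, b, e3, _, h5, h6⟩
    · rw [e2] at hlt
      have h7 := slt_Q S (a := u + p0) (b := i) hlt
      exact h7.2 (hmax _ h7.1)
    · rw [← Sum.inl.inj e3] at h5 h6
      exact h6 (hmax _ h5)

/-- The loop condition. -/
theorem SetQ.loop (S : SetQ c n R Q Γ cl u) : LoopP Γ := by
  intro x p q h1 h2
  obtain ⟨i, i', m1, e1, e2⟩ := S.edg _ _ _ h1
  obtain ⟨k, k', m2, e3, e4⟩ := S.edg _ _ _ h2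
  have m3 := m2.symm
  rw [linv_linv] at m3
  rw [S.st, S.cls] at e1 e3
  rw [e2, S.st, S.cls]
  refine ⟨S.base i', ?_⟩
  have h3 : R k' i := S.cR.trans _ _ _ (S.base k') e1.1
  exact S.cR.trans _ _ _ e3.1 ((S.cR.mv m3 m1).1 h3)

/-- The letters around the base position are different. -/
theorem SetQ.hU (S : SetQ c n R Q Γ cl u) : c u ≠ c (u + (n - 1)) := by
  intro h
  have hn := S.hn
  have h1 := (S.A.fwd _ _ h.symm).1 (S.least (u + (n - 1)))
  have h2 : u + (n - 1) + 1 = u + n := by omega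
  rw [h2, S.A.perl] at h1
  have h3 := S.anti _ _ h1 (S.least (u + 1))
  have h4 : (u + 0) % n = (u + 1) % n := h3
  have h5 := Nat.ModEq.add_left_cancel' u h4
  have h6 : 0 % n = 1 % n := h5
  rw [Nat.zero_mod, Nat.mod_eq_of_lt (by omega)] at h6
  omega

open Classical in
/-- A closed antisymmetric order has a maximal element. -/
theorem exists_maxQ (hn : 0 < n) (A : ClR c n Q) : ∃ v < n, ∀ i, Q i v → Q v i := by
  obtain ⟨v, hv, hmin⟩ := Finset.exists_min_image (Finset.range n)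
    (fun v => ((Finset.range n).filter (fun i => Q i v)).card) ⟨0, Finset.mem_range.2 hn⟩
  refine ⟨v, Finset.mem_range.1 hv, fun i hi => ?_⟩
  by_contra h
  have hi' : Q (i % n) v := by
    have := (A.mod i v).1 hi
    rwa [← Nat.mod_mod i n, ← A.mod] at this
  have hni : ¬ Q v (i % n) := by
    intro h2
    apply h
    rw [A.mod] at h2 ⊢
    rwa [Nat.mod_mod] at h2
  have h3 := hmin (i % n) (Finset.mem_range.2 (Nat.mod_lt _ hn))
  have h4 : ((Finset.range n).filter (fun k => Q k (i % n))) ⊂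
      ((Finset.range n).filter (fun k => Q k v)) := by
    refine Finset.ssubset_iff_of_subset (fun k hk => ?_) |>.2 ⟨v, ?_, ?_⟩
    · rw [Finset.mem_filter] at hk ⊢
      exact ⟨hk.1, A.trans _ _ _ hk.2 hi'⟩
    · rw [Finset.mem_filter]
      exact ⟨hv, A.refl v⟩
    · rw [Finset.mem_filter]
      exact fun h5 => hni h5.2
  exact absurd (Finset.card_lt_card h4) (not_lt.2 h3)

open Classical in
/-- If `0` is below everything for `R` then there is a least element for `Q`. -/
theorem exists_leastQ (hn : 0 < n) (hR : ClR c n R) (A : Adm c n R Q) (hb : ∀ i, R i 0) :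
    ∃ u < n, ∀ i, Q i u := by
  obtain ⟨u, hu, hmax⟩ := Finset.exists_max_image ((Finset.range n).filter (fun i => R 0 i))
    (fun v => ((Finset.range n).filter (fun i => Q i v)).card)
    ⟨0, by rw [Finset.mem_filter]; exact ⟨Finset.mem_range.2 hn, hR.refl 0⟩⟩
  rw [Finset.mem_filter, Finset.mem_range] at hu
  refine ⟨u, hu.1, ?_⟩
  have key : ∀ i < n, Q i u := by
    intro i hi
    have h1 : R i u := hR.trans _ _ _ (hb i) hu.2
    by_cases h0 : R u i
    · rcases A.total _ _ h1 h0 with h2 | h2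
      · exact h2
      · by_contra h3
        have h4 := hmax i (by
          rw [Finset.mem_filter, Finset.mem_range]
          exact ⟨hi, hR.trans _ _ _ hu.2 h0⟩)
        have h5 : ((Finset.range n).filter (fun k => Q k u)) ⊂
            ((Finset.range n).filter (fun k => Q k i)) := by
          refine Finset.ssubset_iff_of_subset (fun k hk => ?_) |>.2 ⟨i, ?_, ?_⟩
          · rw [Finset.mem_filter] at hk ⊢
            exact ⟨hk.1, A.trans _ _ _ hk.2 h2⟩
          · rw [Finset.mem_filter, Finset.mem_range]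
            exact ⟨hi, A.refl i⟩
          · rw [Finset.mem_filter]
            exact fun h6 => h3 h6.2
        exact absurd (Finset.card_lt_card h5) (not_lt.2 h4)
    · exact A.strict _ _ h1 h0
  intro i
  have h1 := key (i % n) (Nat.mod_lt _ hn)
  rw [A.toClR.mod] at h1 ⊢
  rwa [Nat.mod_mod] at h1

end

end MM31
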