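import Pool.Agent.LibMM31.DomGraph
import Pool.Agent.LibMM31.PowAbs

/-!
# Cyclic conjugates of proper powers
-/

set_option linter.unusedSectionVars false

namespace MM31

variable {X : Type}

theorem Mv.symm {w : List (Lt X)} {i i' : ℕ} {x : Lt X} (h : Mv w i x i') :
    Mv w i' (linv x) i := by
  rcases h with ⟨h1, h2, h3⟩ | ⟨h1, h2, h3⟩
  · exact Or.inr ⟨h1, by rw [linv_linv]; exact h2, h3⟩
  · exact Or.inl ⟨h1, h2, h3⟩

theorem Mv.cw_fwd (w : List (Lt X)) (a : Lt X) (hN : 0 < w.length) (i : ℕ) :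
    Mv w (i % w.length) (cw w a i) ((i + 1) % w.length) := by
  have h1 : i % w.length < w.length := Nat.mod_lt _ hN
  refine Or.inl ⟨h1, ?_, ?_⟩
  · rw [getElem?_cw (a := a) h1, cw_mod]
  · rw [Nat.mod_add_mod]

theorem dom_mv {w : List (Lt X)} {i k i' k' : ℕ} {x : Lt X} (h1 : Mv w i x i')
    (h2 : Mv w k x k') : Dom w i k ↔ Dom w i' k' :=
  ⟨fun h => Dom.letter _ _ _ _ _ h1.symm h2.symm h, fun h => Dom.letter _ _ _ _ _ h1 h2 h⟩

/-- domination of positions modulo the length -/
def DomR (w : List (Lt X)) (i k : ℕ) : Prop := Dom w (i % w.length) (k % w.length)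

theorem DomR.fwd {w : List (Lt X)} (a : Lt X) (hN : 0 < w.length) {i k : ℕ}
    (h : cw w a i = cw w a k) : DomR w i k ↔ DomR w (i + 1) (k + 1) := by
  have h1 := Mv.cw_fwd w a hN i
  have h2 := Mv.cw_fwd w a hN k
  rw [h] at h1
  exact dom_mv h1 h2

theorem DomR.mix {w : List (Lt X)} (a : Lt X) (hN : 0 < w.length) {i k : ℕ}
    (h : cw w a i = linv (cw w a k)) : DomR w i (k + 1) ↔ DomR w (i + 1) k := by
  have h1 := Mv.cw_fwd w a hN i
  have h2 := (Mv.cw_fwd w a hN k).symm
  rw [h] at h1
  exact dom_mv h1 h2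

theorem DomR.base {w : List (Lt X)} (i : ℕ) : DomR w i 0 := by
  unfold DomR
  rw [Nat.zero_mod]
  exact Dom.base _

/-- Domination is a closed preorder modulo every period. -/
theorem clR_domR (w : List (Lt X)) (a : Lt X) (hN : 0 < w.length) {n κ : ℕ} (hκ : 0 < κ)
    (hlen : κ * n = w.length) (hper : ∀ k, cw w a (k + n) = cw w a k) :
    ClR (cw w a) n (DomR w) := by
  have hrefl : ∀ i, DomR w i i := fun i => Dom.refl _
  have htr : ∀ i j k, DomR w i j → DomR w j k → DomR w i k :=
    fun i j k h1 h2 => Dom.trans _ _ _ h1 h2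
  have h0 : ∀ i, DomR w (i + n) i := by
    intro i
    induction i with
    | zero => exact DomR.base _
    | succ i ih =>
      have h1 := (DomR.fwd a hN (hper i)).1 ih
      rwa [show i + n + 1 = i + 1 + n by omega] at h1
  have h1 : ∀ m i, DomR w (i + m * n) i := by
    intro m
    induction m with
    | zero => intro i; rw [Nat.zero_mul, Nat.add_zero]; exact hrefl i
    | succ m ih =>
      intro i
      have h2 := h0 (i + m * n)
      rw [show i + m * n + n = i + (m + 1) * n by ring] at h2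
      exact htr _ _ _ h2 (ih i)
  have h2 : ∀ i, DomR w i (i + n) := by
    intro i
    have h3 := h1 (κ - 1) (i + n)
    have h4 : i + n + (κ - 1) * n = i + w.length := by
      rw [← hlen]
      obtain ⟨m, rfl⟩ : ∃ m, κ = m + 1 := ⟨κ - 1, by omega⟩
      rw [Nat.add_sub_cancel]
      ring
    rw [h4] at h3
    unfold DomR at h3 ⊢
    rwa [Nat.add_mod_right] at h3
  refine ⟨hrefl, htr, ?_, ?_, ?_, ?_⟩
  · exact fun i k => ⟨fun h => htr _ _ _ (h2 i) h, fun h => htr _ _ _ (h0 i) h⟩
  · exact fun i k => ⟨fun h => htr _ _ _ h (h0 k), fun h => htr _ _ _ h (h2 k)⟩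
  · exact fun i k h => DomR.fwd a hN h
  · exact fun i k h => DomR.mix a hN h

theorem cw_rotate {w : List (Lt X)} (a : Lt X) (hN : 0 < w.length) {d : ℕ}
    (h : w.rotate d = w) (k : ℕ) : cw w a (k + d) = cw w a k := by
  have h1 := rotate_eq_cw w a d
  have h2 := rotate_eq_cw w a 0
  rw [h] at h1
  rw [List.rotate_zero] at h2
  have h3 := h1.symm.trans h2
  have h4 : k % w.length < w.length := Nat.mod_lt _ hN
  have h5 := congrArg (fun l => l[k % w.length]?) h3
  simp only [List.getElem?_map, List.getElem?_range h4, Option.map_some, Option.some.injEq,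
    Nat.zero_add] at h5
  rw [cw_mod] at h5
  rw [← h5, ← cw_mod w a (k + d), ← cw_mod w a (d + k % w.length), Nat.add_mod_mod,
    Nat.add_comm k d]

/-- The base `0` dominates every position of a word all of whose letters are equal. -/
theorem dom_of_const (w : List (Lt X)) (a : Lt X)
    (h : ∀ k, cw w a (k + 1) = cw w a k) (j : ℕ) (hj : j < w.length) : Dom w 0 j := by
  have hN : 0 < w.length := by omega
  have hC := clR_domR w a hN (n := 1) (κ := w.length) hN (Nat.mul_one _) h
  have h1 := (hC.mod 0 j).2 (by rw [Nat.mod_one, Nat.mod_one]; exact hC.refl 0)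
  unfold DomR at h1
  rwa [Nat.zero_mod, Nat.mod_eq_of_lt hj] at h1

open Classical in
/-- Cyclic conjugates of a cyclically reduced proper power which start at a position not
dominated by the base are not `1`. -/
theorem not_eqOne_of_not_dom (w : List (Lt X)) (hred : CycRed w) (d : ℕ) (hd0 : 0 < d)
    (hd : d < w.length) (hrot : w.rotate d = w) (j : ℕ) (hj : j < w.length)
    (hD : ¬ Dom w 0 j) : ¬ EqOne w (w.rotate j) := by
  have hN : 0 < w.length := by omega
  set a : Lt X := w[0] with ha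
  -- the minimal period
  have hex : ∃ n, 0 < n ∧ ∀ k, cw w a (k + n) = cw w a k := ⟨d, hd0, cw_rotate a hN hrot⟩
  obtain ⟨hn0, hper⟩ := Nat.find_spec hex
  have hmin0 : ∀ m, 0 < m → (∀ k, cw w a (k + m) = cw w a k) → Nat.find hex ≤ m :=
    fun m h1 h2 => Nat.find_min' hex ⟨h1, h2⟩
  set n := Nat.find hex with hn
  have hnd : n ≤ d := hmin0 d hd0 (cw_rotate a hN hrot)
  have hmin : ∀ e, 0 < e → e < n → ∃ k, cw w a (k + e) ≠ cw w a k := by
    intro e h1 h2
    by_contra h3
    push Not at h3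
    have := hmin0 e h1 h3
    omega
  -- it divides the length
  have hperN : ∀ k, cw w a (k + w.length) = cw w a k := by
    intro k
    rw [← cw_mod, Nat.add_mod_right, cw_mod]
  have hperm : ∀ m k, cw w a (k + m * n) = cw w a k := by
    intro m
    induction m with
    | zero => intro k; rw [Nat.zero_mul, Nat.add_zero]
    | succ m ih => intro k; rw [show k + (m + 1) * n = k + m * n + n by ring, hper, ih]
  have hdvd : n ∣ w.length := by
    rw [Nat.dvd_iff_mod_eq_zero]
    by_contra h1
    have h2 : w.length % n < n := Nat.mod_lt _ hn0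
    obtain ⟨k, hk⟩ := hmin (w.length % n) (Nat.pos_of_ne_zero h1) h2
    apply hk
    have h3 := hperm (w.length / n) (k + w.length % n)
    have h4 : k + w.length % n + w.length / n * n = k + w.length := by
      have h5 := Nat.mod_add_div w.length n
      rw [Nat.mul_comm] at h5
      omega
    rw [h4, hperN] at h3
    exact h3.symm
  obtain ⟨κ, hκ⟩ := hdvd
  have hκ2 : 2 ≤ κ := by
    by_contra h1
    have h2 : κ ≤ 1 := by omega
    have h3 : n * κ ≤ n * 1 := Nat.mul_le_mul_left n h2
    omega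
  have hlen : κ * n = w.length := by rw [hκ, Nat.mul_comm]
  have hC := clR_domR w a hN (by omega) hlen hper
  obtain ⟨Q, A, hanti⟩ := exists_order hn0 hper (hred.cw_succ a hN) hmin hC
  -- period 1
  rcases Nat.lt_or_ge n 2 with hn1 | hn2
  · have : n = 1 := by omega
    rw [this] at hper
    exact absurd (dom_of_const w a hper j hj) hD
  -- the base
  obtain ⟨u, hu, hleast⟩ := exists_leastQ hn0 hC A (fun i => DomR.base i)
  obtain ⟨v, hv, hmax⟩ := exists_maxQ hn0 A.toClR
  have hvu : v ≠ u := by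
    rintro rfl
    have h1 := hanti _ _ (hleast (v + 1)) (hmax _ (hleast (v + 1)))
    have h2 : (v + 1) % n = (v + 0) % n := h1
    have h3 := Nat.ModEq.add_left_cancel' v h2
    have h4 : 1 % n = 0 % n := h3
    rw [Nat.zero_mod, Nat.mod_eq_of_lt (by omega)] at h4
    omega
  have hS : SetQ (cw w a) n (DomR w) Q (gD w a) (rp w a) u := by
    refine ⟨hn2, hper, hred.cw_succ a hN, hC, A, hanti, fun i => DomR.base i, rfl, ?_, ?_,
      hleast⟩
    · intro i k
      rw [← rp_mod w a i, ← rp_mod w a k]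
      exact rp_eq_iff (Nat.mod_lt _ hN) (Nat.mod_lt _ hN)
    · intro p x q h
      have h1 : (p, x, q) ∈ edL w a := h
      rw [mem_edL] at h1
      obtain ⟨i, hi, i', h2, rfl, rfl⟩ := h1
      unfold nbs at h2
      simp only [List.mem_cons, Prod.mk.injEq, List.not_mem_nil, or_false] at h2
      rcases h2 with ⟨rfl, rfl⟩ | ⟨rfl, rfl⟩
      · exact ⟨i, i + 1, Or.inl ⟨rfl, rfl⟩, rfl, rp_mod _ _ _⟩
      · refine ⟨i + w.length, i + (w.length - 1), Or.inr ⟨rfl, by omega⟩, ?_, rp_mod _ _ _⟩
        rw [← rp_mod w a (i + w.length), Nat.add_mod_right, rp_mod]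
  -- the maximal position
  obtain ⟨p0, hp1, hp2, hp3⟩ : ∃ p0, 1 ≤ p0 ∧ p0 < n ∧ (u + p0) % n = v % n := by
    rcases Nat.lt_or_ge v u with h | h
    · refine ⟨n - (u - v), by omega, by omega, ?_⟩
      rw [show u + (n - (u - v)) = v + n by omega, Nat.add_mod_right]
    · exact ⟨v - u, by omega, by omega, by rw [show u + (v - u) = v by omega]⟩
  have hmax' : ∀ i, Q i (u + p0) → Q (u + p0) i := by
    intro i h
    rw [A.toClR.mod, hp3, ← A.toClR.mod] at h ⊢
    exact hmax i h
  refine not_eqOne_of_pow w hred a n κ u hn2 hκ2 hlen hper (gD w a) (rp w a) rfl hS.clu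
    (gD_edge hN) hS.cper hS.hU hS.loop (hS.ord hp1 hp2 hmax') j hj ?_
  intro h
  apply hD
  have h1 := (hS.cls 0 j).1 (hS.st ▸ h.symm)
  have h2 := h1.1
  unfold DomR at h2
  rwa [Nat.zero_mod, Nat.mod_eq_of_lt hj] at h2

/-- The cyclic conjugates of a cyclically reduced proper power which are `1`. -/
theorem eqOne_iff_dom_of_power (w : List (Lt X)) (hred : CycRed w) (d : ℕ) (hd0 : 0 < d)
    (hd : d < w.length) (hrot : w.rotate d = w) (j : ℕ) (hj : j < w.length) :
    EqOne w (w.rotate j) ↔ Dom w 0 j := by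
  refine ⟨fun h => ?_, fun h => h.eqOne w hj.le⟩
  by_contra hD
  exact not_eqOne_of_not_dom w hred d hd0 hd hrot j hj hD h

end MM31
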