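import Pool.Agent.LibMM31.Defs

/-!
# Removing two mirror cells
-/

set_option linter.unusedSectionVars false
set_option linter.style.haveILetI false

namespace MM31

open Equiv Equiv.Perm

theorem inv_of_forward {D : Type} [Finite D] {φ : Perm D} {S : D → Prop}
    (h : ∀ x, S x → S (φ x)) : ∀ x, S x ↔ S (φ x) := by
  intro x
  refine ⟨h x, ?_⟩
  intro hx
  have hpow : ∀ k x, S x → S ((φ ^ k) x) := by
    intro k
    induction k with
    | zero => intro x hx; simpa using hx
    | succ k ih => intro x hx; rw [pow_succ', Perm.mul_apply]; exact h _ (ih x hx)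
  have ho : 0 < orderOf φ := orderOf_pos φ
  have := hpow (orderOf φ - 1) (φ x) hx
  have e : (φ ^ (orderOf φ - 1)) (φ x) = x := by
    rw [← Perm.mul_apply, ← pow_succ, Nat.sub_add_cancel ho, pow_orderOf_eq_one]
    rfl
  rwa [e] at this

theorem card_sub_lt {D : Type} [Finite D] {P Q : D → Prop} (h : ∀ d, P d → Q d) (d0 : D)
    (hq : Q d0) (hp : ¬ P d0) : Nat.card {d // P d} < Nat.card {d // Q d} := by
  classical
  haveI : Fintype D := Fintype.ofFinite D
  rw [Nat.card_eq_fintype_card, Nat.card_eq_fintype_card]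
  apply Fintype.card_lt_of_injective_of_notMem
    (f := fun x : {d : D // P d} => (⟨x.1, h _ x.2⟩ : {d : D // Q d}))
    (b := ⟨d0, hq⟩)
  · intro x y hxy
    apply Subtype.ext
    have h1 := congrArg Subtype.val hxy
    exact h1
  · rintro ⟨x, hx⟩
    have h1 : x.1 = d0 := congrArg Subtype.val hx
    exact hp (h1 ▸ x.2)

namespace WM

variable {X G : Type} [Group G] {n : ℕ} {w : ℕ → Lt X} {gv : Lt X → G} {m : ℕ} {b : Fin m → G}
variable {D : Type} [Finite D] [DecidableEq D]

theorem n_pos_of_inner (M : WM n w gv m b D) {d : D} (hd : M.inner d) : 0 < n :=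
  lt_of_le_of_lt (Nat.zero_le _) (M.tm_lt d hd)

theorem inner_pow (M : WM n w gv m b D) {d : D} (hd : M.inner d) (k : ℕ) :
    M.inner ((M.φ ^ k) d) := by
  induction k with
  | zero => simpa using hd
  | succ k ih => rw [pow_succ', Perm.mul_apply]; exact M.phi_inner _ ih

theorem sg_pow (M : WM n w gv m b D) {d : D} (hd : M.inner d) (k : ℕ) :
    M.sg ((M.φ ^ k) d) = M.sg d := by
  induction k with
  | zero => simp
  | succ k ih =>
    rw [pow_succ', Perm.mul_apply, M.sg_inner _ (M.inner_pow hd k), ih]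

theorem bs_pow (M : WM n w gv m b D) {d : D} (hd : M.inner d) (k : ℕ) :
    M.bs ((M.φ ^ k) d) = M.bs d := by
  induction k with
  | zero => simp
  | succ k ih =>
    rw [pow_succ', Perm.mul_apply, M.bs_inner _ (M.inner_pow hd k), ih]

theorem tm_step (M : WM n w gv m b D) {d : D} (hd : M.inner d) :
    M.tm (M.φ d) = (M.tm d + 1) % n := by
  have h := M.tm_lt d hd
  rcases Nat.lt_or_ge (M.tm d + 1) n with h1 | h1
  · rw [M.tm_succ d hd h1, Nat.mod_eq_of_lt h1]
  · have h2 : M.tm d + 1 = n := by omega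
    rw [M.tm_zero d hd h2, h2, Nat.mod_self]

theorem tm_pow (M : WM n w gv m b D) {d : D} (hd : M.inner d) (k : ℕ) :
    M.tm ((M.φ ^ k) d) = (M.tm d + k) % n := by
  induction k with
  | zero => simp [Nat.mod_eq_of_lt (M.tm_lt d hd)]
  | succ k ih =>
    rw [pow_succ', Perm.mul_apply, M.tm_step (M.inner_pow hd k), ih]
    rw [Nat.mod_add_mod]
    rfl

/-- the inverse of `φ` on inner darts -/
theorem phi_pred (M : WM n w gv m b D) {d : D} (hd : M.inner d) :
    M.φ ((M.φ ^ (n - 1)) d) = d := by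
  have hn := M.n_pos_of_inner hd
  have := M.per_inner d hd
  rw [← Perm.mul_apply, ← pow_succ', Nat.sub_add_cancel hn]
  exact this

theorem inner_iff (M : WM n w gv m b D) (d : D) : M.inner d ↔ M.inner (M.φ d) :=
  inv_of_forward M.phi_inner d

theorem compat (hG : GV n w gv) (M : WM n w gv m b D) :
    Compat (fun d e => CC n w gv ⟨M.sg d, M.tm d, M.bs d⟩ ⟨M.sg e, M.tm e, M.bs e⟩) :=
  ⟨fun _ _ h => h.symm hG, fun _ _ _ _ h1 h2 h3 => CC.rect hG h1 h2 h3⟩

/-- general removal: a `φ`- and `ε`-invariant set of inner darts can be deleted -/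
theorem remove (M : WM n w gv m b D) (ε1 : Perm D) (hpl : Pl M.φ ε1)
    (hgl : Glue (fun d => M.inner d ∨ ∃ t k, k < M.len t ∧ d = M.wd t k)
      (fun d e => CC n w gv ⟨M.sg d, M.tm d, M.bs d⟩ ⟨M.sg e, M.tm e, M.bs e⟩) ε1)
    (S : D → Prop) (hS : ∀ d, S d → M.inner d) (h1 : ∀ d, S d → S (M.φ d))
    (h2 : ∀ d, S d → S (ε1 d)) (hex : ∃ d, S d ∧ M.tm d = 0) :
    ∃ M' : WM n w gv m b D, M'.F < M.F := by
  classical
  have h1' := inv_of_forward h1
  have h2' := inv_of_forward h2
  obtain ⟨φ', p1, p2, p3⟩ := hpl.kill_phi S h1'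
  obtain ⟨ε', q1, q2, q3⟩ := p1.kill_eps S h2'
  have hw : ∀ t k, k < M.len t → ¬ S (M.wd t k) := fun t k hk hs =>
    M.wd_inner t k hk (hS _ hs)
  have hr : ¬ S M.root := fun hs => M.root_inner (hS _ hs)
  have hpow : ∀ d, ¬ S d → ∀ k : ℕ, (φ' ^ k) d = (M.φ ^ k) d ∧ ¬ S ((M.φ ^ k) d) := by
    intro d hd k
    induction k with
    | zero => simpa using hd
    | succ k ih =>
      rw [pow_succ', Perm.mul_apply, ih.1, pow_succ', Perm.mul_apply, p3 _ ih.2]
      exact ⟨rfl, fun hh => ih.2 ((h1' _).mpr hh)⟩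
  refine ⟨{
    φ := φ'
    ε := ε'
    root := M.root
    dir := M.dir
    len := M.len
    wd := M.wd
    inner := fun d => M.inner d ∧ ¬ S d
    tm := M.tm
    sg := M.sg
    bs := M.bs
    pl := q1
    len_pos := M.len_pos
    len_lt := M.len_lt
    wd_inj := M.wd_inj
    wd_tm := M.wd_tm
    wd_sg := M.wd_sg
    wd_bs := M.wd_bs
    wd_inner := fun t k hk h => M.wd_inner t k hk h.1
    wd_root := M.wd_root
    root_inner := fun h => M.root_inner h.1
    phi_root := fun h => by rw [p3 _ hr]; exact M.phi_root h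
    phi_wd := fun t k hk => by rw [p3 _ (hw t k (by omega))]; exact M.phi_wd t k hk
    phi_next := fun t h => by
      rw [p3 _ (hw t _ (Nat.sub_lt (M.len_pos t) Nat.one_pos))]; exact M.phi_next t h
    phi_last := fun t h => by
      rw [p3 _ (hw t _ (Nat.sub_lt (M.len_pos t) Nat.one_pos))]; exact M.phi_last t h
    phi_inner := fun d hd => by
      rw [p3 _ hd.2]; exact ⟨M.phi_inner d hd.1, fun hh => hd.2 ((h1' _).mpr hh)⟩
    sg_inner := fun d hd => by rw [p3 _ hd.2]; exact M.sg_inner d hd.1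
    bs_inner := fun d hd => by rw [p3 _ hd.2]; exact M.bs_inner d hd.1
    tm_lt := fun d hd => M.tm_lt d hd.1
    tm_succ := fun d hd h => by rw [p3 _ hd.2]; exact M.tm_succ d hd.1 h
    tm_zero := fun d hd h => by rw [p3 _ hd.2]; exact M.tm_zero d hd.1 h
    per_inner := fun d hd => by rw [(hpow d hd.2 n).1]; exact M.per_inner d hd.1
    phi_dead := fun d h3 h4 h5 => by
      by_cases hs : S d
      · exact p2 d hs
      · rw [p3 d hs]
        exact M.phi_dead d (fun hh => h3 ⟨hh, hs⟩) h4 h5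
    glue := ?_ }, ?_⟩
  · refine ⟨?_, ?_, ?_, ?_, ?_⟩
    · intro d hd
      have hds : ¬ S d := by
        rcases hd with hd | ⟨t, k, hk, rfl⟩
        · exact hd.2
        · exact hw t k hk
      have hd1 : M.inner d ∨ ∃ t k, k < M.len t ∧ d = M.wd t k := by
        rcases hd with hd | hd
        · exact Or.inl hd.1
        · exact Or.inr hd
      rw [q3 d hds]
      rcases hgl.al d hd1 with h | h
      · exact Or.inl ⟨h, fun hh => hds ((h2' _).mpr hh)⟩
      · exact Or.inr h
    · intro d hd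
      have hds : ¬ S d := by
        rcases hd with hd | ⟨t, k, hk, rfl⟩
        · exact hd.2
        · exact hw t k hk
      have hd1 : M.inner d ∨ ∃ t k, k < M.len t ∧ d = M.wd t k := by
        rcases hd with hd | hd
        · exact Or.inl hd.1
        · exact Or.inr hd
      rw [q3 d hds, q3 _ (fun hh => hds ((h2' _).mpr hh))]
      exact hgl.inv d hd1
    · intro d hd
      have hds : ¬ S d := by
        rcases hd with hd | ⟨t, k, hk, rfl⟩
        · exact hd.2
        · exact hw t k hk
      have hd1 : M.inner d ∨ ∃ t k, k < M.len t ∧ d = M.wd t k := by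
        rcases hd with hd | hd
        · exact Or.inl hd.1
        · exact Or.inr hd
      rw [q3 d hds]
      exact hgl.ne d hd1
    · intro d hd
      have hds : ¬ S d := by
        rcases hd with hd | ⟨t, k, hk, rfl⟩
        · exact hd.2
        · exact hw t k hk
      have hd1 : M.inner d ∨ ∃ t k, k < M.len t ∧ d = M.wd t k := by
        rcases hd with hd | hd
        · exact Or.inl hd.1
        · exact Or.inr hd
      rw [q3 d hds]
      exact hgl.cm d hd1
    · intro d hd
      by_cases hs : S d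
      · exact q2 d hs
      · rw [q3 d hs]
        apply hgl.dead
        rintro (h | h)
        · exact hd (Or.inl ⟨h, hs⟩)
        · exact hd (Or.inr h)
  · obtain ⟨d0, hd0, ht0⟩ := hex
    unfold F
    exact card_sub_lt (fun d hd => ⟨hd.1.1, hd.2⟩) d0 ⟨hS _ hd0, ht0⟩ (fun hh => hh.1.2 hd0)

/-- two inner mirror cells can be removed -/
theorem R1 (hG : GV n w gv) (M : WM n w gv m b D) (d : D) (hd : M.inner d)
    (he : M.inner (M.ε d)) (hs : M.sg (M.ε d) = !(M.sg d))
    (ht : M.tm (M.ε d) = n - 1 - M.tm d) : ∃ M' : WM n w gv m b D, M'.F < M.F := by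
  classical
  have hn := M.n_pos_of_inner hd
  have htd := M.tm_lt d hd
  set e := M.ε d with hee
  have hglue := M.glue
  have hcm := hglue.cm d (Or.inl hd)
  simp only [← hee, hs, ht] at hcm
  have hbs : M.bs e = M.bs d := CC.mirror_base hG htd hcm
  set A : ℕ → D := fun k => (M.φ ^ k) d with hA
  set B : ℕ → D := fun k => (M.φ ^ ((n - k) % n)) e with hB
  have tA : ∀ k, M.tm (A k) = (M.tm d + k) % n := fun k => M.tm_pow hd k
  have tB : ∀ k < n, M.tm (B k) = n - 1 - (M.tm d + k) % n := by
    intro k hk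
    rw [hB]
    simp only
    rw [M.tm_pow he, ht]
    rcases Nat.eq_zero_or_pos k with h0 | h0
    · subst h0
      simp only [Nat.sub_zero, Nat.mod_self, Nat.add_zero]
      rw [Nat.mod_eq_of_lt (by omega), Nat.mod_eq_of_lt htd]
    · rw [Nat.mod_eq_of_lt (by omega : n - k < n)]
      rcases Nat.lt_or_ge (M.tm d + k) n with h1 | h1
      · rw [Nat.mod_eq_of_lt h1]
        have : n - 1 - M.tm d + (n - k) = (n - 1 - (M.tm d + k)) + n := by omega
        rw [this, Nat.add_mod_right, Nat.mod_eq_of_lt (by omega)]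
      · have e1 : (M.tm d + k) % n = M.tm d + k - n := by
          rw [Nat.mod_eq_sub_mod h1, Nat.mod_eq_of_lt (by omega)]
        rw [e1, Nat.mod_eq_of_lt (by omega)]
        omega
  have fA : ∀ k, M.φ (A k) = A (k + 1) := by
    intro k
    rw [hA]
    simp only
    rw [pow_succ', Perm.mul_apply]
  have fB : ∀ k, k + 1 < n → M.φ (B (k + 1)) = B k := by
    intro k hk
    rw [hB]
    simp only
    rw [← Perm.mul_apply, ← pow_succ']
    rcases Nat.eq_zero_or_pos k with h0 | h0
    · subst h0
      have e1 : (n - (0 + 1)) % n + 1 = n := by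
        rw [Nat.mod_eq_of_lt (by omega)]; omega
      rw [e1, M.per_inner e he]
      simp
    · have e1 : (n - (k + 1)) % n + 1 = (n - k) % n := by
        rw [Nat.mod_eq_of_lt (by omega), Nat.mod_eq_of_lt (by omega)]; omega
      rw [e1]
  have iA : ∀ k < n, ∀ l < n, A k = A l → k = l := by
    intro k hk l hl h
    have h1 := congrArg M.tm h
    rw [tA, tA] at h1
    have h2 : (M.tm d + k) ≡ (M.tm d + l) [MOD n] := h1
    have h3 := Nat.ModEq.add_left_cancel' _ h2
    rwa [Nat.ModEq, Nat.mod_eq_of_lt hk, Nat.mod_eq_of_lt hl] at h3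
  have iB : ∀ k < n, ∀ l < n, B k = B l → k = l := by
    intro k hk l hl h
    have h1 := congrArg M.tm h
    rw [tB k hk, tB l hl] at h1
    have l1 : (M.tm d + k) % n < n := Nat.mod_lt _ hn
    have l2 : (M.tm d + l) % n < n := Nat.mod_lt _ hn
    have h2 : (M.tm d + k) ≡ (M.tm d + l) [MOD n] := by
      show (M.tm d + k) % n = (M.tm d + l) % n
      omega
    have h3 := Nat.ModEq.add_left_cancel' _ h2
    rwa [Nat.ModEq, Nat.mod_eq_of_lt hk, Nat.mod_eq_of_lt hl] at h3
  have sA : ∀ k, M.sg (A k) = M.sg d := fun k => M.sg_pow hd k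
  have sB : ∀ k, M.sg (B k) = !(M.sg d) := fun k => by
    rw [← hs]; exact M.sg_pow he _
  have iAB : ∀ k < n, ∀ l < n, A k ≠ B l := by
    intro k _ l _ h
    have h1 := congrArg M.sg h
    rw [sA, sB] at h1
    cases hh : M.sg d <;> rw [hh] at h1 <;> simp at h1
  have innA : ∀ k, M.inner (A k) := fun k => M.inner_pow hd k
  have innB : ∀ k, M.inner (B k) := fun k => M.inner_pow he _
  have bA : ∀ k, M.bs (A k) = M.bs d := fun k => M.bs_pow hd k
  have bB : ∀ k, M.bs (B k) = M.bs d := fun k => by rw [← hbs]; exact M.bs_pow he _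
  have hc : ∀ k < n, CC n w gv ⟨M.sg (A k), M.tm (A k), M.bs (A k)⟩
      ⟨M.sg (B k), M.tm (B k), M.bs (B k)⟩ := by
    intro k hk
    rw [sA, sB, bA, bB, tB k hk, tA]
    exact CC.mirror hG _ _ (Nat.mod_lt _ hn) _
  obtain ⟨ε1, z1, z2, z3, z4⟩ := zip M.pl (M.compat hG) hglue n A B
    (fun k _ => Or.inl (innA k)) (fun k _ => Or.inl (innB k)) (fun k _ => fA k) fB iA iB iAB hc
    (fun _ => by simp [hA, hB, hee])
  refine M.remove ε1 z1 z2 (fun x => ∃ k < n, x = A k ∨ x = B k) ?_ ?_ ?_ ?_
  · rintro x ⟨k, _, rfl | rfl⟩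
    · exact innA k
    · exact innB k
  · rintro x ⟨k, hk, rfl | rfl⟩
    · rcases Nat.lt_or_ge (k + 1) n with h1 | h1
      · exact ⟨k + 1, h1, Or.inl (fA k)⟩
      · refine ⟨0, hn, Or.inl ?_⟩
        rw [fA]
        have : k + 1 = n := by omega
        rw [this, hA]
        simp only [pow_zero]
        exact M.per_inner d hd
    · rcases Nat.eq_zero_or_pos k with h0 | h0
      · refine ⟨n - 1, by omega, Or.inr ?_⟩
        subst h0
        rw [hB]
        simp only [Nat.sub_zero, Nat.mod_self, pow_zero]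
        rcases Nat.lt_or_ge 1 n with h2 | h2
        · have : (n - (n - 1)) % n = 1 := by
            rw [Nat.mod_eq_of_lt (by omega)]; omega
          rw [this]; simp
        · have hn1 : n = 1 := by omega
          have h3 := M.per_inner e he
          have h4 : ∀ (φ : Perm D) (l : ℕ), l = 1 → φ ^ l = φ := by
            intro φ l hl
            rw [hl, pow_one]
          have h5 : (n - (n - 1)) % n = 0 := by
            have : ∀ l : ℕ, l = 1 → (l - (l - 1)) % l = 0 := by
              intro l hl; rw [hl]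
            exact this n hn1
          rw [h4 _ _ hn1] at h3
          rw [h5]
          simpa using h3
      · refine ⟨k - 1, by omega, Or.inr ?_⟩
        have := fB (k - 1) (by omega)
        rwa [Nat.sub_add_cancel h0] at this
  · rintro x ⟨k, hk, rfl | rfl⟩
    · exact ⟨k, hk, Or.inr (z3 k hk)⟩
    · refine ⟨k, hk, Or.inl ?_⟩
      have := z2.inv (A k) (Or.inl (innA k))
      rw [z3 k hk] at this
      exact this
  · have : ∃ k < n, (M.tm d + k) % n = 0 := by
      rcases Nat.eq_zero_or_pos (M.tm d) with h0 | h0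
      · exact ⟨0, hn, by rw [h0]; simp⟩
      · refine ⟨n - M.tm d, by omega, ?_⟩
        have : M.tm d + (n - M.tm d) = n := by omega
        rw [this, Nat.mod_self]
    obtain ⟨k, hk, hk0⟩ := this
    exact ⟨A k, ⟨k, hk, Or.inl rfl⟩, by rw [tA, hk0]⟩

end WM

end MM31
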