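import Pool.Agent.LibMM31.R1

/-!
# Flipping a segment over a mirror cell
-/

set_option linter.unusedSectionVars false
set_option linter.style.haveILetI false

namespace MM31

open Equiv Equiv.Perm

namespace WM

variable {X G : Type} [Group G] {n : ℕ} {w : ℕ → Lt X} {gv : Lt X → G} {m : ℕ} {b : Fin m → G}
variable {D : Type} [Finite D] [DecidableEq D]

/-- the cell of an inner dart, indexed by time -/
theorem cell (M : WM n w gv m b D) {e : D} (he : M.inner e) :
    ∃ c : ℕ → D, (∀ k, M.inner (c k)) ∧ (∀ k < n, M.tm (c k) = k) ∧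
      (∀ k, M.φ (c k) = c (k + 1)) ∧ c n = c 0 ∧ c (M.tm e) = e ∧
      (∀ k, M.sg (c k) = M.sg e) ∧ (∀ k, M.bs (c k) = M.bs e) := by
  have ht := M.tm_lt e he
  refine ⟨fun k => (M.φ ^ (k + (n - M.tm e))) e, ?_, ?_, ?_, ?_, ?_, ?_, ?_⟩
  · intro k; exact M.inner_pow he _
  · intro k hk
    simp only
    rw [M.tm_pow he]
    have : M.tm e + (k + (n - M.tm e)) = k + n := by omega
    rw [this, Nat.add_mod_right, Nat.mod_eq_of_lt hk]
  · intro k
    simp only
    rw [← Perm.mul_apply, ← pow_succ']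
    congr 2
    omega
  · simp only
    have h1 : n + (n - M.tm e) = (n - M.tm e) + n := by omega
    rw [h1, pow_add, Perm.mul_apply, M.per_inner e he]
    simp
  · simp only
    have h1 : M.tm e + (n - M.tm e) = n := by omega
    rw [h1, M.per_inner e he]
  · intro k; exact M.sg_pow he _
  · intro k; exact M.bs_pow he _

/-- the dart following segment `t` -/
noncomputable def nx (M : WM n w gv m b D) (t : Fin m) : D := M.φ (M.wd t (M.len t - 1))

theorem nx_cases (M : WM n w gv m b D) (t : Fin m) :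
    M.nx t = M.root ∨ ∃ t', t' ≠ t ∧ M.nx t = M.wd t' 0 := by
  unfold nx
  rcases Nat.lt_or_ge (t.1 + 1) m with h | h
  · right
    refine ⟨⟨t.1 + 1, h⟩, ?_, M.phi_next t h⟩
    intro hh
    have := congrArg Fin.val hh
    simp at this
  · left
    exact M.phi_last t (by omega)

/-- flipping a segment over an inner mirror cell -/
theorem R2 (hG : GV n w gv) (M : WM n w gv m b D) (t : Fin m) (k0 : ℕ) (hk0 : k0 < M.len t)
    (he : M.inner (M.ε (M.wd t k0))) (hs : M.sg (M.ε (M.wd t k0)) = !(M.dir t))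
    (ht : M.tm (M.ε (M.wd t k0)) = n - 1 - k0) : ∃ M' : WM n w gv m b D, M'.F < M.F := by
  classical
  set e := M.ε (M.wd t k0) with hee
  have hn := M.n_pos_of_inner he
  set ℓ := M.len t with hℓ
  have hℓ0 : 0 < ℓ := M.len_pos t
  have hℓn : ℓ < n := M.len_lt t
  have hglue := M.glue
  have hcm := hglue.cm (M.wd t k0) (Or.inr ⟨t, k0, hk0, rfl⟩)
  simp only [← hee, hs, ht, M.wd_sg t k0 hk0, M.wd_tm t k0 hk0, M.wd_bs t k0 hk0] at hcm
  have hbs : M.bs e = b t := CC.mirror_base hG (by omega) hcm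
  obtain ⟨c, cinn, ctm, cphi, cn, ce, csg, cbs⟩ := M.cell he
  rw [ht] at ce
  rw [hs] at csg
  rw [hbs] at cbs
  have ci : ∀ k < n, ∀ l < n, c k = c l → k = l := by
    intro k hk l hl h
    have := congrArg M.tm h
    rwa [ctm k hk, ctm l hl] at this
  have wi : ∀ k < ℓ, ∀ l < ℓ, M.wd t k = M.wd t l → k = l := fun k hk l hl h =>
    (M.wd_inj t k t l hk hl h).2
  have cw : ∀ k, ∀ t' l, l < M.len t' → c k ≠ M.wd t' l := by
    intro k t' l hl h
    exact M.wd_inner t' l hl (h ▸ cinn k)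
  have cr : ∀ k, c k ≠ M.root := fun k h => M.root_inner (h ▸ cinn k)
  have hcc : ∀ k < ℓ, CC n w gv ⟨M.sg (M.wd t k), M.tm (M.wd t k), M.bs (M.wd t k)⟩
      ⟨M.sg (c (n - 1 - k)), M.tm (c (n - 1 - k)), M.bs (c (n - 1 - k))⟩ := by
    intro k hk
    rw [csg, cbs, ctm _ (by omega), M.wd_sg t k hk, M.wd_tm t k hk, M.wd_bs t k hk]
    exact CC.mirror hG _ _ (by omega) _
  -- forward zip
  obtain ⟨ε1, z1, z2, z3, z4⟩ := zip M.pl (M.compat hG) hglue (ℓ - k0)
    (fun k => M.wd t (k0 + k)) (fun k => c (n - 1 - k0 - k))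
    (fun k hk => Or.inr ⟨t, k0 + k, by omega, rfl⟩) (fun k _ => Or.inl (cinn _))
    (fun k hk => M.phi_wd t (k0 + k) (by omega))
    (fun k hk => by
      show M.φ (c (n - 1 - k0 - (k + 1))) = c (n - 1 - k0 - k)
      rw [cphi]; congr 1; omega)
    (fun k hk l hl h => by
      have := wi _ (by omega) _ (by omega) h
      omega)
    (fun k hk l hl h => by
      have := ci _ (by omega) _ (by omega) h
      omega)
    (fun k hk l hl h => cw _ _ _ (by omega) h.symm)
    (fun k hk => by
      have := hcc (k0 + k) (by omega)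
      have e1 : n - 1 - (k0 + k) = n - 1 - k0 - k := by omega
      rw [e1] at this
      exact this)
    (fun _ => by
      show M.ε (M.wd t (k0 + 0)) = c (n - 1 - k0 - 0)
      rw [Nat.add_zero, Nat.sub_zero, ce])
  have z2i : ∀ d, (M.inner d ∨ ∃ t k, k < M.len t ∧ d = M.wd t k) → ε1 (ε1 d) = d := z2.inv
  -- backward zip
  obtain ⟨ε2, y1, y2, y3, y4⟩ := zip z1 (M.compat hG) z2 (k0 + 1)
    (fun k => c (n - 1 - k0 + k)) (fun k => M.wd t (k0 - k))
    (fun k _ => Or.inl (cinn _)) (fun k hk => Or.inr ⟨t, k0 - k, by omega, rfl⟩)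
    (fun k hk => by
      show M.φ (c (n - 1 - k0 + k)) = c (n - 1 - k0 + (k + 1))
      rw [cphi]; rfl)
    (fun k hk => by
      show M.φ (M.wd t (k0 - (k + 1))) = M.wd t (k0 - k)
      rw [M.phi_wd t _ (by omega)]
      congr 1
      omega)
    (fun k hk l hl h => by
      have := ci _ (by omega) _ (by omega) h
      omega)
    (fun k hk l hl h => by
      have := wi _ (by omega) _ (by omega) h
      omega)
    (fun k hk l hl h => cw _ _ _ (by omega) h)
    (fun k hk => by
      have := (hcc (k0 - k) (by omega)).symm hG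
      have e1 : n - 1 - (k0 - k) = n - 1 - k0 + k := by omega
      rw [e1] at this
      exact this)
    (fun _ => by
      show ε1 (c (n - 1 - k0 + 0)) = M.wd t (k0 - 0)
      have h1 := z3 0 (by omega)
      simp only [Nat.add_zero, Nat.sub_zero] at h1 ⊢
      rw [← h1]
      exact z2i _ (Or.inr ⟨t, k0, hk0, rfl⟩))
  have hε2 : ∀ k < ℓ, ε2 (M.wd t k) = c (n - 1 - k) := by
    intro k hk
    rcases Nat.lt_or_ge k0 k with h | h
    · have h1 : ε1 (M.wd t k) = c (n - 1 - k) := by
        have := z3 (k - k0) (by omega)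
        have e1 : k0 + (k - k0) = k := by omega
        have e2 : n - 1 - k0 - (k - k0) = n - 1 - k := by omega
        rwa [e1, e2] at this
      rw [← h1]
      apply y4
      intro i hi
      refine ⟨?_, ?_, ?_, ?_⟩
      · exact (cw _ _ _ (by omega)).symm
      · intro hh
        have := wi _ (by omega) _ (by omega) hh
        omega
      · rw [h1]
        intro hh
        have := ci _ (by omega) _ (by omega) hh
        omega
      · rw [h1]
        exact cw _ _ _ (by omega)
    · have h1 := y3 (k0 - k) (by omega)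
      have e1 : k0 - (k0 - k) = k := by omega
      have e2 : n - 1 - k0 + (k0 - k) = n - 1 - k := by omega
      rw [e1, e2] at h1
      rw [← h1]
      exact y2.inv _ (Or.inl (cinn _))
  have hε2' : ∀ k < ℓ, ε2 (c (n - 1 - k)) = M.wd t k := by
    intro k hk
    rw [← hε2 k hk]
    exact y2.inv _ (Or.inr ⟨t, k, hk, rfl⟩)
  -- the new face permutation
  set z := M.nx t with hz
  have hzr : z = M.root ∨ ∃ t', t' ≠ t ∧ z = M.wd t' 0 := M.nx_cases t
  have hzc : ∀ k, z ≠ c k := by
    intro k hh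
    rcases hzr with h | ⟨t', _, h⟩
    · exact cr k (hh.symm.trans h)
    · exact cw k t' 0 (M.len_pos t') (hh.symm.trans h)
  have hzw : ∀ k < ℓ, z ≠ M.wd t k := by
    intro k hk hh
    rcases hzr with h | ⟨t', ht', h⟩
    · exact M.wd_root t k hk (hh.symm.trans h)
    · exact ht' (M.wd_inj t' 0 t k (M.len_pos t') hk (h.symm.trans hh)).1
  have hφl : M.φ (M.wd t (ℓ - 1)) = z := rfl
  have hc0w : c 0 ≠ M.wd t 0 := cw 0 t 0 hℓ0
  set φ1 := swap (c 0) (M.wd t 0) * M.φ with hφ1
  have pl1 : Pl φ1 ε2 := by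
    refine y1.phi_nu hc0w ?_
    refine SameCycle.symm ⟨1, ?_⟩
    rw [zpow_one, Perm.mul_apply, hε2 0 hℓ0, cphi]
    have : n - 1 - 0 + 1 = n := by omega
    rw [this, cn]
  have f1 : ∀ x, M.φ x ≠ c 0 → M.φ x ≠ M.wd t 0 → φ1 x = M.φ x := by
    intro x h1 h2
    rw [hφ1, Perm.mul_apply, swap_apply_of_ne_of_ne h1 h2]
  have f2 : φ1 (c (n - 1)) = M.wd t 0 := by
    have e1 : M.φ (c (n - 1)) = c 0 := by
      rw [cphi, Nat.sub_add_cancel hn, cn]
    rw [hφ1, Perm.mul_apply, e1, swap_apply_left]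
  have f3 : ∀ x, M.φ x = M.wd t 0 → φ1 x = c 0 := by
    intro x hx
    rw [hφ1, Perm.mul_apply, hx, swap_apply_right]
  have f4 : ∀ k, k + 1 < n → φ1 (c k) = c (k + 1) := by
    intro k hk
    rw [f1, cphi]
    · rw [cphi]; intro hh
      have := ci _ (by omega) _ (by omega) hh
      omega
    · rw [cphi]; exact cw _ _ _ hℓ0
  have f5 : ∀ k, k + 1 < ℓ → φ1 (M.wd t k) = M.wd t (k + 1) := by
    intro k hk
    rw [f1, M.phi_wd t k hk]
    · rw [M.phi_wd t k hk]; exact (cw _ _ _ hk).symm
    · rw [M.phi_wd t k hk]; intro hh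
      have := wi _ hk _ hℓ0 hh
      omega
  have f6 : φ1 (M.wd t (ℓ - 1)) = z := by
    rw [f1, hφl]
    · rw [hφl]; exact hzc 0
    · rw [hφl]; exact hzw 0 hℓ0
  set φ2 := swap (c (n - ℓ)) z * φ1 with hφ2
  have hcz : c (n - ℓ) ≠ z := (hzc _).symm
  have sc1 : ∀ i, i < ℓ → SameCycle φ1 (c (n - ℓ)) (c (n - ℓ + i)) := by
    intro i
    induction i with
    | zero => intro _; exact SameCycle.refl _ _
    | succ i ih =>
      intro hi
      refine (ih (by omega)).trans ⟨1, ?_⟩
      rw [zpow_one, f4 _ (by omega)]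
      rfl
  have sc2 : ∀ i, i < ℓ → SameCycle φ1 (c (n - ℓ)) (M.wd t i) := by
    intro i
    induction i with
    | zero =>
      intro _
      refine (sc1 (ℓ - 1) (by omega)).trans ⟨1, ?_⟩
      have : n - ℓ + (ℓ - 1) = n - 1 := by omega
      rw [zpow_one, this, f2]
    | succ i ih =>
      intro hi
      refine (ih (by omega)).trans ⟨1, ?_⟩
      rw [zpow_one, f5 _ hi]
  have sc3 : SameCycle φ1 (c (n - ℓ)) z :=
    (sc2 (ℓ - 1) (by omega)).trans ⟨1, by rw [zpow_one, f6]⟩
  have pl2 : Pl φ2 ε2 := pl1.phi_split hcz sc3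
  have g1 : ∀ x, φ1 x ≠ c (n - ℓ) → φ1 x ≠ z → φ2 x = φ1 x := by
    intro x h1 h2
    rw [hφ2, Perm.mul_apply, swap_apply_of_ne_of_ne h1 h2]
  have g2 : φ2 (c (n - ℓ - 1)) = z := by
    rw [hφ2, Perm.mul_apply, f4 _ (by omega)]
    have : n - ℓ - 1 + 1 = n - ℓ := by omega
    rw [this, swap_apply_left]
  have g3 : φ2 (M.wd t (ℓ - 1)) = c (n - ℓ) := by
    rw [hφ2, Perm.mul_apply, f6, swap_apply_right]
  -- the garbage
  let S : D → Prop := fun x => ∃ i < ℓ, x = M.wd t i ∨ x = c (n - 1 - i)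
  have hS : S = fun x => ∃ i < ℓ, x = M.wd t i ∨ x = c (n - 1 - i) := rfl
  have hSφ : ∀ x, S x → S (φ2 x) := by
    rintro x ⟨i, hi, rfl | rfl⟩
    · rcases Nat.lt_or_ge (i + 1) ℓ with h | h
      · refine ⟨i + 1, h, Or.inl ?_⟩
        rw [g1, f5 i h]
        · rw [f5 i h]; exact (cw _ _ _ h).symm
        · rw [f5 i h]; exact (hzw _ h).symm
      · have e1 : i = ℓ - 1 := by omega
        refine ⟨ℓ - 1, by omega, Or.inr ?_⟩
        rw [e1, g3]
        congr 1
        omega
    · rcases Nat.eq_zero_or_pos i with h | h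
      · subst h
        refine ⟨0, hℓ0, Or.inl ?_⟩
        rw [Nat.sub_zero, g1, f2]
        · rw [f2]; exact (cw _ _ _ hℓ0).symm
        · rw [f2]; exact (hzw _ hℓ0).symm
      · refine ⟨i - 1, by omega, Or.inr ?_⟩
        have e1 : n - 1 - i + 1 = n - 1 - (i - 1) := by omega
        rw [g1, f4 _ (by omega), e1]
        · rw [f4 _ (by omega)]; intro hh
          have := ci _ (by omega) _ (by omega) hh
          omega
        · rw [f4 _ (by omega)]; exact (hzc _).symm
  have hSε : ∀ x, S x → S (ε2 x) := by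
    rintro x ⟨i, hi, rfl | rfl⟩
    · exact ⟨i, hi, Or.inr (hε2 i hi)⟩
    · exact ⟨i, hi, Or.inl (hε2' i hi)⟩
  have hSφ' := inv_of_forward hSφ
  have hSε' := inv_of_forward hSε
  obtain ⟨φ', p1, p2, p3⟩ := pl2.kill_phi S hSφ'
  obtain ⟨ε', q1, q2, q3⟩ := p1.kill_eps S hSε'
  have hSr : ¬ S M.root := by
    rintro ⟨i, hi, h | h⟩
    · exact M.wd_root t i hi h.symm
    · exact cr _ h.symm
  have hSw : ∀ t' k, t' ≠ t → k < M.len t' → ¬ S (M.wd t' k) := by
    rintro t' k htt hk ⟨i, hi, h | h⟩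
    · exact htt (M.wd_inj t' k t i hk hi h).1
    · exact cw _ _ _ hk h.symm
  have hSc : ∀ k, k < n - ℓ → ¬ S (c k) := by
    rintro k hk ⟨i, hi, h | h⟩
    · exact cw _ _ _ hi h
    · have := ci _ (by omega) _ (by omega) h
      omega
  -- values of φ' on the new walker
  have v1 : ∀ k, k + 1 < n - ℓ → φ' (c k) = c (k + 1) := by
    intro k hk
    rw [p3 _ (hSc k (by omega)), g1, f4 _ (by omega)]
    · rw [f4 _ (by omega)]; intro hh
      have := ci _ (by omega) _ (by omega) hh
      omega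
    · rw [f4 _ (by omega)]; exact (hzc _).symm
  have v2 : φ' (c (n - ℓ - 1)) = z := by
    rw [p3 _ (hSc _ (by omega)), g2]
  have v3 : ∀ x, ¬ S x → M.φ x = M.wd t 0 → φ' x = c 0 := by
    intro x hx h
    rw [p3 x hx, g1, f3 x h]
    · rw [f3 x h]; intro hh
      have := ci _ (by omega) _ (by omega) hh
      omega
    · rw [f3 x h]; exact (hzc _).symm
  -- generic value: away from the cell and from segment t
  have v4 : ∀ x, (∀ k < n, x ≠ c k) → (∀ k < ℓ, x ≠ M.wd t k) → M.φ x ≠ M.wd t 0 →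
      φ' x = M.φ x := by
    intro x h1 h2 h3
    have hxS : ¬ S x := by
      rintro ⟨i, hi, h | h⟩
      · exact h2 i hi h
      · exact h1 _ (by omega) h
    have e1 : ∀ k < n, M.φ x ≠ c k := by
      intro k hk hh
      rcases Nat.eq_zero_or_pos k with h | h
      · rw [h] at hh
        have : M.φ x = M.φ (c (n - 1)) := by
          rw [hh, cphi, Nat.sub_add_cancel hn, cn]
        exact h1 (n - 1) (by omega) (M.φ.injective this)
      · have : M.φ x = M.φ (c (k - 1)) := by
          rw [hh, cphi, Nat.sub_add_cancel h]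
        exact h1 (k - 1) (by omega) (M.φ.injective this)
    have e2 : φ1 x = M.φ x := f1 x (e1 0 hn) h3
    have e3 : φ1 x ≠ z := by
      rw [e2]
      intro hh
      exact h2 (ℓ - 1) (by omega) (M.φ.injective (hh.trans hφl.symm))
    rw [p3 x hxS, g1 x (by rw [e2]; exact e1 _ (by omega)) e3, e2]
  have v5 : ∀ x, M.inner x → (∀ k < n, x ≠ c k) → φ' x = M.φ x := by
    intro x hx h1
    apply v4 x h1
    · intro k hk hh
      exact M.wd_inner t k hk (hh ▸ hx)
    · intro hh
      exact M.wd_inner t 0 hℓ0 (hh ▸ M.phi_inner x hx)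
  have v6 : ∀ x, (∀ k < n, x ≠ c k) ↔ (∀ k < n, M.φ x ≠ c k) := by
    intro x
    constructor
    · intro h1 k hk hh
      rcases Nat.eq_zero_or_pos k with h | h
      · rw [h] at hh
        have : M.φ x = M.φ (c (n - 1)) := by
          rw [hh, cphi, Nat.sub_add_cancel hn, cn]
        exact h1 (n - 1) (by omega) (M.φ.injective this)
      · have : M.φ x = M.φ (c (k - 1)) := by
          rw [hh, cphi, Nat.sub_add_cancel h]
        exact h1 (k - 1) (by omega) (M.φ.injective this)
    · intro h1 k hk hh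
      rw [hh, cphi] at h1
      rcases Nat.lt_or_ge (k + 1) n with h | h
      · exact h1 (k + 1) h rfl
      · have : k + 1 = n := by omega
        rw [this, cn] at h1
        exact h1 0 hn rfl
  have vpow : ∀ x, M.inner x → (∀ k < n, x ≠ c k) → ∀ i : ℕ, (φ' ^ i) x = (M.φ ^ i) x ∧
      (∀ k < n, (M.φ ^ i) x ≠ c k) := by
    intro x hx h1 i
    induction i with
    | zero => exact ⟨rfl, by simpa using h1⟩
    | succ i ih =>
      have e1 : (M.φ ^ (i + 1)) x = M.φ ((M.φ ^ i) x) := by rw [pow_succ', Perm.mul_apply]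
      have e2 : (φ' ^ (i + 1)) x = φ' ((φ' ^ i) x) := by rw [pow_succ', Perm.mul_apply]
      rw [e1, e2, ih.1, v5 _ (M.inner_pow hx i) ih.2]
      exact ⟨rfl, (v6 _).mp ih.2⟩
  -- φ' on the other segments
  have v7 : ∀ t' k, t' ≠ t → k + 1 < M.len t' → φ' (M.wd t' k) = M.wd t' (k + 1) := by
    intro t' k htt hk
    rw [v4, M.phi_wd t' k hk]
    · intro i hi; exact (cw i t' k (by omega)).symm
    · intro i hi hh; exact htt (M.wd_inj t' k t i (by omega) hi hh).1
    · rw [M.phi_wd t' k hk]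
      intro hh; exact htt (M.wd_inj t' (k + 1) t 0 hk hℓ0 hh).1
  have v8 : ∀ t', t' ≠ t → M.nx t' ≠ M.wd t 0 → φ' (M.wd t' (M.len t' - 1)) = M.nx t' := by
    intro t' htt hne
    have hlt : M.len t' - 1 < M.len t' := Nat.sub_lt (M.len_pos t') Nat.one_pos
    rw [v4]
    · rfl
    · intro i hi; exact (cw i t' _ hlt).symm
    · intro i hi hh; exact htt (M.wd_inj t' _ t i hlt hi hh).1
    · exact hne
  have v9 : ∀ t', t' ≠ t → M.nx t' = M.wd t 0 → φ' (M.wd t' (M.len t' - 1)) = c 0 := by
    intro t' htt heq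
    have hlt : M.len t' - 1 < M.len t' := Nat.sub_lt (M.len_pos t') Nat.one_pos
    exact v3 _ (hSw t' _ htt hlt) heq
  let wd' : Fin m → ℕ → D := fun t' k => if t' = t then c k else M.wd t' k
  let len' : Fin m → ℕ := fun t' => if t' = t then n - ℓ else M.len t'
  let dir' : Fin m → Bool := fun t' => if t' = t then !(M.dir t) else M.dir t'
  have wdt : ∀ k, wd' t k = c k := fun k => if_pos rfl
  have wdo : ∀ t', t' ≠ t → ∀ k, wd' t' k = M.wd t' k := fun t' h k => if_neg h
  have lent : len' t = n - ℓ := if_pos rfl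
  have leno : ∀ t', t' ≠ t → len' t' = M.len t' := fun t' h => if_neg h
  have dirt : dir' t = !(M.dir t) := if_pos rfl
  have diro : ∀ t', t' ≠ t → dir' t' = M.dir t' := fun t' h => if_neg h
  let inner' : D → Prop := fun x => M.inner x ∧ ∀ k < n, x ≠ c k
  have hinn : inner' = fun x => M.inner x ∧ ∀ k < n, x ≠ c k := rfl
  have hSinn : ∀ x, inner' x → ¬ S x := by
    rintro x ⟨hx1, hx2⟩ ⟨i, hi, h | h⟩
    · exact M.wd_inner t i hi (h ▸ hx1)
    · exact hx2 _ (by omega) h
  -- new alive darts = old alive darts outside S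
  have hal : ∀ x, (inner' x ∨ ∃ t' k, k < len' t' ∧ x = wd' t' k) ↔
      ((M.inner x ∨ ∃ t' k, k < M.len t' ∧ x = M.wd t' k) ∧ ¬ S x) := by
    intro x
    constructor
    · rintro (h | ⟨t', k, hk, h⟩)
      · exact ⟨Or.inl h.1, hSinn x h⟩
      · by_cases htt : t' = t
        · subst htt
          rw [lent] at hk
          rw [wdt] at h
          rw [h]
          exact ⟨Or.inl (cinn k), hSc k hk⟩
        · rw [leno t' htt] at hk
          rw [wdo t' htt] at h
          rw [h]
          exact ⟨Or.inr ⟨t', k, hk, rfl⟩, hSw t' k htt hk⟩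
    · rintro ⟨h | ⟨t', k, hk, h⟩, hxS⟩
      · by_cases hc : ∀ k < n, x ≠ c k
        · exact Or.inl ⟨h, hc⟩
        · push Not at hc
          obtain ⟨k, hk, hxk⟩ := hc
          right
          refine ⟨t, k, ?_, by rw [wdt]; exact hxk⟩
          rw [lent]
          by_contra hcon
          apply hxS
          refine ⟨n - 1 - k, by omega, Or.inr ?_⟩
          rw [hxk]
          congr 1
          omega
      · by_cases htt : t' = t
        · subst htt
          exact absurd ⟨k, hk, Or.inl h⟩ hxS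
        · right
          refine ⟨t', k, by rw [leno t' htt]; exact hk, by rw [wdo t' htt]; exact h⟩
  have hm0 : ∀ t' k, k < len' t' → wd' t' k ≠ M.root := by
    intro t' k hk
    by_cases htt : t' = t
    · subst htt; rw [wdt]; exact cr k
    · rw [wdo t' htt]; rw [leno t' htt] at hk; exact M.wd_root t' k hk
  refine ⟨{
    φ := φ'
    ε := ε'
    root := M.root
    dir := dir'
    len := len'
    wd := wd'
    inner := inner'
    tm := M.tm
    sg := M.sg
    bs := M.bs
    pl := q1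
    len_pos := ?_
    len_lt := ?_
    wd_inj := ?_
    wd_tm := ?_
    wd_sg := ?_
    wd_bs := ?_
    wd_inner := ?_
    wd_root := hm0
    root_inner := fun h => M.root_inner h.1
    phi_root := ?_
    phi_wd := ?_
    phi_next := ?_
    phi_last := ?_
    phi_inner := fun x hx => ?_
    sg_inner := fun x hx => by rw [v5 x hx.1 hx.2]; exact M.sg_inner x hx.1
    bs_inner := fun x hx => by rw [v5 x hx.1 hx.2]; exact M.bs_inner x hx.1
    tm_lt := fun x hx => M.tm_lt x hx.1
    tm_succ := fun x hx h => by rw [v5 x hx.1 hx.2]; exact M.tm_succ x hx.1 h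
    tm_zero := fun x hx h => by rw [v5 x hx.1 hx.2]; exact M.tm_zero x hx.1 h
    per_inner := fun x hx => by rw [(vpow x hx.1 hx.2 n).1]; exact M.per_inner x hx.1
    phi_dead := ?_
    glue := ?_ }, ?_⟩
  · intro t'
    by_cases htt : t' = t
    · subst htt; rw [lent]; omega
    · rw [leno t' htt]; exact M.len_pos t'
  · intro t'
    by_cases htt : t' = t
    · subst htt; rw [lent]; omega
    · rw [leno t' htt]; exact M.len_lt t'
  · intro t1 k1 t2 k2 h1 h2 h3
    by_cases ht1 : t1 = t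
    · subst ht1
      rw [lent] at h1
      rw [wdt] at h3
      by_cases ht2 : t2 = t1
      · subst ht2
        rw [lent] at h2
        rw [wdt] at h3
        exact ⟨rfl, ci _ (by omega) _ (by omega) h3⟩
      · rw [leno t2 ht2] at h2
        rw [wdo t2 ht2] at h3
        exact absurd h3 (cw _ _ _ h2)
    · rw [leno t1 ht1] at h1
      rw [wdo t1 ht1] at h3
      by_cases ht2 : t2 = t
      · subst ht2
        rw [wdt] at h3
        exact absurd h3.symm (cw _ _ _ h1)
      · rw [leno t2 ht2] at h2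
        rw [wdo t2 ht2] at h3
        exact M.wd_inj _ _ _ _ h1 h2 h3
  · intro t' k hk
    by_cases htt : t' = t
    · subst htt; rw [wdt]; rw [lent] at hk; exact ctm k (by omega)
    · rw [wdo t' htt]; rw [leno t' htt] at hk; exact M.wd_tm t' k hk
  · intro t' k hk
    by_cases htt : t' = t
    · subst htt; rw [wdt, dirt]; exact csg k
    · rw [wdo t' htt, diro t' htt]; rw [leno t' htt] at hk; exact M.wd_sg t' k hk
  · intro t' k hk
    by_cases htt : t' = t
    · subst htt; rw [wdt]; exact cbs k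
    · rw [wdo t' htt]; rw [leno t' htt] at hk; exact M.wd_bs t' k hk
  · intro t' k hk hin
    by_cases htt : t' = t
    · subst htt
      rw [wdt] at hin
      rw [lent] at hk
      exact hin.2 k (by omega) rfl
    · rw [wdo t' htt] at hin
      rw [leno t' htt] at hk
      exact M.wd_inner t' k hk hin.1
  · intro hm
    by_cases htt : (⟨0, hm⟩ : Fin m) = t
    · rw [htt, wdt]
      apply v3 _ hSr
      rw [M.phi_root hm, htt]
    · rw [wdo _ htt, v4, M.phi_root hm]
      · intro k _; exact (cr k).symm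
      · intro k hk hh; exact M.wd_root t k hk hh.symm
      · rw [M.phi_root hm]
        intro hh
        exact htt (M.wd_inj _ 0 t 0 (M.len_pos _) hℓ0 hh).1
  · intro t' k hk
    by_cases htt : t' = t
    · subst htt; rw [wdt, wdt]; rw [lent] at hk; exact v1 k hk
    · rw [wdo t' htt, wdo t' htt]; rw [leno t' htt] at hk; exact v7 t' k htt hk
  · intro t' h
    have hnx : M.nx t' = M.wd ⟨t'.1 + 1, h⟩ 0 := M.phi_next t' h
    by_cases htt : t' = t
    · subst htt
      rw [lent, wdt, v2, hz, hnx, wdo]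
      intro hh
      have := congrArg Fin.val hh
      simp at this
    · rw [leno t' htt, wdo t' htt]
      by_cases ht2 : (⟨t'.1 + 1, h⟩ : Fin m) = t
      · rw [ht2, wdt]
        apply v9 t' htt
        rw [hnx, ht2]
      · rw [wdo _ ht2, v8 t' htt, hnx]
        rw [hnx]
        intro hh
        exact ht2 (M.wd_inj _ 0 t 0 (M.len_pos _) hℓ0 hh).1
  · intro t' h
    have hnx : M.nx t' = M.root := M.phi_last t' h
    by_cases htt : t' = t
    · subst htt
      rw [lent, wdt, v2, hz, hnx]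
    · rw [leno t' htt, wdo t' htt, v8 t' htt, hnx]
      rw [hnx]
      exact (M.wd_root t 0 hℓ0).symm
  · show inner' (φ' x)
    rw [v5 x hx.1 hx.2]
    exact ⟨M.phi_inner x hx.1, (v6 x).mp hx.2⟩
  · intro x h1 h2 h3
    by_cases hxS : S x
    · exact p2 x hxS
    · have hnot : ¬ (M.inner x ∨ ∃ t' k, k < M.len t' ∧ x = M.wd t' k) := by
        intro hh
        rcases (hal x).mpr ⟨hh, hxS⟩ with h | ⟨t', k, hk, h⟩
        · exact h1 h
        · exact h2 t' k hk h
      have hfix : M.φ x = x := M.phi_dead x (fun hh => hnot (Or.inl hh))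
        (fun t' k hk hh => hnot (Or.inr ⟨t', k, hk, hh⟩)) h3
      rw [v4 x, hfix]
      · intro k hk hh; exact hnot (Or.inl (hh ▸ cinn k))
      · intro k hk hh; exact hnot (Or.inr ⟨t, k, hk, hh⟩)
      · rw [hfix]; intro hh; exact hnot (Or.inr ⟨t, 0, hℓ0, hh⟩)
  · refine ⟨?_, ?_, ?_, ?_, ?_⟩
    · intro d hd
      obtain ⟨hd1, hd2⟩ := (hal d).mp hd
      rw [q3 d hd2]
      exact (hal _).mpr ⟨y2.al d hd1, fun hh => hd2 ((hSε' _).mpr hh)⟩
    · intro d hd
      obtain ⟨hd1, hd2⟩ := (hal d).mp hd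
      rw [q3 d hd2, q3 _ (fun hh => hd2 ((hSε' _).mpr hh))]
      exact y2.inv d hd1
    · intro d hd
      obtain ⟨hd1, hd2⟩ := (hal d).mp hd
      rw [q3 d hd2]
      exact y2.ne d hd1
    · intro d hd
      obtain ⟨hd1, hd2⟩ := (hal d).mp hd
      rw [q3 d hd2]
      exact y2.cm d hd1
    · intro d hd
      by_cases hs : S d
      · exact q2 d hs
      · rw [q3 d hs]
        apply y2.dead
        intro hh
        exact hd ((hal d).mpr ⟨hh, hs⟩)
  · unfold F
    exact card_sub_lt (fun d hd => ⟨hd.1.1, hd.2⟩) (c 0) ⟨cinn 0, ctm 0 hn⟩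
      (fun hh => hh.1.2 0 hn rfl)

end WM

end MM31
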