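import Pool.Agent.LibMM31.Defs

/-!
# Closed orders on the positions of a primitive cyclic word

Let `c` be a cyclically reduced cyclic word of minimal period `n`. An equivalence relation on the
positions which is compatible with the letters and for which every cocycle of total sum `0` has
sum `0` over all closed paths is trivial.
-/

set_option linter.unusedSectionVars false

namespace MM31

variable {X : Type}

/-- an equivalence relation on the positions of the cyclic word `c`, compatible with letters -/
structure EqvP (c : ℕ → Lt X) (n : ℕ) (M : ℕ → ℕ → Prop) : Prop where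
  refl : ∀ i, M i i
  symm : ∀ i k, M i k → M k i
  trans : ∀ i j k, M i j → M j k → M i k
  per : ∀ i, M (i + n) i
  fwd : ∀ i k, c i = c k → (M i k ↔ M (i + 1) (k + 1))
  mix : ∀ i k, c i = linv (c k) → (M i (k + 1) ↔ M (i + 1) k)

/-- a cocycle: a function on the edges of the quotient graph -/
structure Coc (c : ℕ → Lt X) (n : ℕ) (M : ℕ → ℕ → Prop) (φ : ℕ → ℤ) : Prop where
  per : ∀ i, φ (i + n) = φ i
  same : ∀ i k, c i = c k → M i k → φ i = φ k
  opp : ∀ i k, c i = linv (c k) → M i (k + 1) → φ i = - φ k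
  tot : ∑ t ∈ Finset.Ico 0 n, φ t = 0

section

variable {c : ℕ → Lt X} {n : ℕ} {M : ℕ → ℕ → Prop}

/-- edge `i` is the edge `e` -/
def EdS (c : ℕ → Lt X) (M : ℕ → ℕ → Prop) (i e : ℕ) : Prop := c i = c e ∧ M i e

/-- edge `i` is the reverse of the edge `e` -/
def EdO (c : ℕ → Lt X) (M : ℕ → ℕ → Prop) (i e : ℕ) : Prop := c i = linv (c e) ∧ M i (e + 1)

open Classical in
/-- the cocycle of an edge -/
noncomputable def phe (c : ℕ → Lt X) (M : ℕ → ℕ → Prop) (e i : ℕ) : ℤ :=
  (if EdS c M i e then 1 else 0) - (if EdO c M i e then 1 else 0)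

theorem phe_zero {e i : ℕ} (h1 : ¬ EdS c M i e) (h2 : ¬ EdO c M i e) : phe c M e i = 0 := by
  unfold phe; rw [if_neg h1, if_neg h2]; rfl

theorem phe_congr {e i k : ℕ} (h1 : EdS c M i e ↔ EdS c M k e)
    (h2 : EdO c M i e ↔ EdO c M k e) : phe c M e i = phe c M e k := by
  classical
  unfold phe
  rw [if_congr h1 rfl rfl, if_congr h2 rfl rfl]

theorem phe_congr' {e i k : ℕ} (h1 : EdS c M i e ↔ EdO c M k e)
    (h2 : EdO c M i e ↔ EdS c M k e) : phe c M e i = - phe c M e k := by
  classical
  unfold phe
  rw [if_congr h1 rfl rfl, if_congr h2 rfl rfl]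
  ring

theorem not_both_ed {e i : ℕ} : ¬ (EdS c M i e ∧ EdO c M i e) := by
  rintro ⟨⟨h1, _⟩, ⟨h2, _⟩⟩
  rw [h1] at h2
  exact linv_ne _ h2.symm

theorem phe_self (hM : EqvP c n M) (e : ℕ) : phe c M e e = 1 := by
  have h1 : EdS c M e e := ⟨rfl, hM.refl e⟩
  unfold phe
  rw [if_pos h1, if_neg (fun h => not_both_ed ⟨h1, h⟩)]
  rfl

theorem EqvP.per_iff (hM : EqvP c n M) (i k : ℕ) : M (i + n) k ↔ M i k :=
  ⟨fun h => hM.trans _ _ _ (hM.symm _ _ (hM.per i)) h, fun h => hM.trans _ _ _ (hM.per i) h⟩

theorem EqvP.cong_left (hM : EqvP c n M) {i j : ℕ} (h : M i j) (k : ℕ) : M i k ↔ M j k :=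
  ⟨fun h' => hM.trans _ _ _ (hM.symm _ _ h) h', fun h' => hM.trans _ _ _ h h'⟩

/-- the reverse relation is symmetric -/
theorem EdO.symm (hM : EqvP c n M) {i e : ℕ} (h : EdO c M i e) : EdO c M e i := by
  obtain ⟨h1, h2⟩ := h
  refine ⟨by rw [h1, linv_linv], ?_⟩
  exact hM.symm _ _ ((hM.mix i e h1).1 h2)

theorem sum_Ico_per {φ : ℕ → ℤ} (hper : ∀ i, φ (i + n) = φ i) (i : ℕ) :
    ∑ t ∈ Finset.Ico i (i + n), φ t = ∑ t ∈ Finset.Ico 0 n, φ t := by
  induction i with
  | zero => rw [Nat.zero_add]
  | succ i ih =>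
    rw [← ih]
    rcases Nat.eq_zero_or_pos n with h | h
    · subst h; simp
    · have h1 : ∑ t ∈ Finset.Ico i (i + n), φ t =
          φ i + ∑ t ∈ Finset.Ico (i + 1) (i + n), φ t := by
        rw [Finset.sum_eq_sum_Ico_succ_bot (by omega)]
      have h2 : ∑ t ∈ Finset.Ico (i + 1) (i + 1 + n), φ t =
          ∑ t ∈ Finset.Ico (i + 1) (i + n), φ t + φ (i + n) := by
        rw [show i + 1 + n = (i + n) + 1 by omega, Finset.sum_Ico_succ_top (by omega)]
      rw [h1, h2, hper]
      ring

theorem coc_phe (hM : EqvP c n M) (hper : ∀ k, c (k + n) = c k) (e : ℕ)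
    (h0 : ∑ t ∈ Finset.Ico 0 n, phe c M e t = 0) : Coc c n M (phe c M e) := by
  have key : ∀ i k, (EdS c M i e ↔ EdS c M k e) → (EdO c M i e ↔ EdO c M k e) →
      phe c M e i = phe c M e k := by
    intro i k h1 h2
    exact phe_congr h1 h2
  have key2 : ∀ i k, (EdS c M i e ↔ EdO c M k e) → (EdO c M i e ↔ EdS c M k e) →
      phe c M e i = - phe c M e k := by
    intro i k h1 h2
    exact phe_congr' h1 h2
  refine ⟨?_, ?_, ?_, h0⟩
  · intro i
    apply key
    · unfold EdS; rw [hper, hM.per_iff]
    · unfold EdO; rw [hper, hM.per_iff]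
  · intro i k h1 h2
    apply key
    · unfold EdS; rw [h1, hM.cong_left h2]
    · unfold EdO; rw [h1, hM.cong_left h2]
  · intro i k h1 h2
    -- `i` is the reverse of `k`
    have h3 : EdO c M k i := EdO.symm hM ⟨h1, h2⟩
    have hk : c k = linv (c i) := h3.1
    apply key2
    · constructor
      · rintro ⟨a1, a2⟩
        refine ⟨by rw [hk, a1], ?_⟩
        exact hM.trans _ _ _ h3.2 ((hM.fwd i e a1).1 a2)
      · rintro ⟨a1, a2⟩
        have a3 : c i = c e := by rw [h1, a1, linv_linv]
        refine ⟨a3, (hM.fwd i e a3).2 ?_⟩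
        exact hM.trans _ _ _ (hM.symm _ _ h3.2) a2
    · constructor
      · rintro ⟨a1, a2⟩
        have a3 : c k = c e := by rw [hk, a1, linv_linv]
        refine ⟨a3, (hM.fwd k e a3).2 ?_⟩
        exact hM.trans _ _ _ (hM.symm _ _ h2) a2
      · rintro ⟨a1, a2⟩
        refine ⟨by rw [h1, a1], ?_⟩
        exact hM.trans _ _ _ h2 ((hM.fwd k e a1).1 a2)

/-- the combination of two edge cocycles with total sum zero -/
theorem coc_comb (hM : EqvP c n M) (hper : ∀ k, c (k + n) = c k) (d e : ℕ) :
    Coc c n M (fun t => (∑ s ∈ Finset.Ico 0 n, phe c M d s) * phe c M e t -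
      (∑ s ∈ Finset.Ico 0 n, phe c M e s) * phe c M d t) := by
  have gen : ∀ e, (∀ i, phe c M e (i + n) = phe c M e i) ∧
      (∀ i k, c i = c k → M i k → phe c M e i = phe c M e k) ∧
      (∀ i k, c i = linv (c k) → M i (k + 1) → phe c M e i = - phe c M e k) := by
    intro e
    have key : ∀ i k, (EdS c M i e ↔ EdS c M k e) → (EdO c M i e ↔ EdO c M k e) →
        phe c M e i = phe c M e k := by
      intro i k h1 h2
      exact phe_congr h1 h2
    have key2 : ∀ i k, (EdS c M i e ↔ EdO c M k e) → (EdO c M i e ↔ EdS c M k e) →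
        phe c M e i = - phe c M e k := by
      intro i k h1 h2
      exact phe_congr' h1 h2
    refine ⟨?_, ?_, ?_⟩
    · intro i
      apply key
      · unfold EdS; rw [hper, hM.per_iff]
      · unfold EdO; rw [hper, hM.per_iff]
    · intro i k h1 h2
      apply key
      · unfold EdS; rw [h1, hM.cong_left h2]
      · unfold EdO; rw [h1, hM.cong_left h2]
    · intro i k h1 h2
      have h3 : EdO c M k i := EdO.symm hM ⟨h1, h2⟩
      have hk : c k = linv (c i) := h3.1
      apply key2
      · constructor
        · rintro ⟨a1, a2⟩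
          refine ⟨by rw [hk, a1], ?_⟩
          exact hM.trans _ _ _ h3.2 ((hM.fwd i e a1).1 a2)
        · rintro ⟨a1, a2⟩
          have a3 : c i = c e := by rw [h1, a1, linv_linv]
          refine ⟨a3, (hM.fwd i e a3).2 ?_⟩
          exact hM.trans _ _ _ (hM.symm _ _ h3.2) a2
      · constructor
        · rintro ⟨a1, a2⟩
          have a3 : c k = c e := by rw [hk, a1, linv_linv]
          refine ⟨a3, (hM.fwd k e a3).2 ?_⟩
          exact hM.trans _ _ _ (hM.symm _ _ h2) a2
        · rintro ⟨a1, a2⟩
          refine ⟨by rw [h1, a1], ?_⟩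
          exact hM.trans _ _ _ h2 ((hM.fwd k e a1).1 a2)
  obtain ⟨d1, d2, d3⟩ := gen d
  obtain ⟨e1, e2, e3⟩ := gen e
  refine ⟨?_, ?_, ?_, ?_⟩
  · intro i
    simp only [d1, e1]
  · intro i k h1 h2
    simp only [d2 i k h1 h2, e2 i k h1 h2]
  · intro i k h1 h2
    simp only [d3 i k h1 h2, e3 i k h1 h2]
    ring
  · rw [Finset.sum_sub_distrib, ← Finset.mul_sum, ← Finset.mul_sum]
    ring

/-- The main lemma: the quotient graph is a circle, so the relation is trivial. -/
theorem eqv_trivial (hn : 0 < n) (hper : ∀ k, c (k + n) = c k)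
    (hred : ∀ k, c (k + 1) ≠ linv (c k)) (hmin : ∀ d, 0 < d → d < n → ∃ k, c (k + d) ≠ c k)
    (hM : EqvP c n M)
    (hcon : ∀ φ, Coc c n M φ → ∀ i k, i ≤ k → M i k → ∑ t ∈ Finset.Ico i k, φ t = 0) :
    ∀ i k, M i k → i % n = k % n := by
  classical
  have hMn : ∀ m i, M (i + n * m) i := by
    intro m
    induction m with
    | zero => intro i; exact hM.refl i
    | succ m ih =>
      intro i
      have := hM.trans _ _ _ (hM.per (i + n * m)) (ih i)
      rwa [show i + n * m + n = i + n * (m + 1) by ring] at this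
  have hcn : ∀ m i, c (i + n * m) = c i := by
    intro m
    induction m with
    | zero => intro i; rfl
    | succ m ih =>
      intro i
      rw [show i + n * (m + 1) = i + n * m + n by ring, hper, ih]
  by_contra hcontra
  push Not at hcontra
  obtain ⟨i0, k0, hik0, hne0⟩ := hcontra
  -- there is a pair with distance less than `n`
  have hex : ∃ d, 0 < d ∧ d < n ∧ ∃ i, M i (i + d) := by
    have h1 : M (i0 % n) (k0 % n) := by
      have a1 := hMn (i0 / n) (i0 % n)
      have a2 := hMn (k0 / n) (k0 % n)
      rw [Nat.mod_add_div] at a1 a2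
      exact hM.trans _ _ _ (hM.symm _ _ a1) (hM.trans _ _ _ hik0 a2)
    have h2 := Nat.mod_lt i0 hn
    have h3 := Nat.mod_lt k0 hn
    rcases Nat.lt_or_gt_of_ne hne0 with h | h
    · exact ⟨k0 % n - i0 % n, by omega, by omega, i0 % n, by
        rw [Nat.add_sub_cancel' h.le]; exact h1⟩
    · exact ⟨i0 % n - k0 % n, by omega, by omega, k0 % n, by
        rw [Nat.add_sub_cancel' h.le]; exact hM.symm _ _ h1⟩
  -- minimal distance
  have hex' : ∃ d, 0 < d ∧ ∃ i, M i (i + d) := by
    obtain ⟨d, h1, _, h2⟩ := hex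
    exact ⟨d, h1, h2⟩
  set d := Nat.find hex' with hd
  obtain ⟨hd0, i1, hi1⟩ := Nat.find_spec hex'
  have hdmin : ∀ i k, i < k → M i k → d ≤ k - i := by
    intro i k h1 h2
    exact Nat.find_min' hex' ⟨by omega, i, by rw [Nat.add_sub_cancel' h1.le]; exact h2⟩
  have hdn : d < n := by
    obtain ⟨d', h1, h2, i, h3⟩ := hex
    have := hdmin i (i + d') (by omega) h3
    omega
  -- local facts: in an interval where pairs have distance at least `r`, a pair of distance `r`
  -- gives a simple closed path
  have simple : ∀ i k, i < k → M i k → (∀ a b, i ≤ a → a < b → b ≤ k → M a b → k - i ≤ b - a) →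
      ∑ t ∈ Finset.Ico i k, phe c M i t = 1 := by
    intro i k hik hM1 hsm
    rw [Finset.sum_eq_single i]
    · exact phe_self hM i
    · intro t ht hti
      rw [Finset.mem_Ico] at ht
      apply phe_zero
      · rintro ⟨_, h2⟩
        have := hsm i t le_rfl (by omega) (by omega) (hM.symm _ _ h2)
        omega
      · rintro ⟨h1, h2⟩
        rcases Nat.lt_or_ge (i + 1) t with h3 | h3
        · have := hsm (i + 1) t (by omega) h3 (by omega) (hM.symm _ _ h2)
          omega
        · have : t = i + 1 := by omega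
          subst this
          exact hred i h1
    · intro h
      exfalso
      apply h
      rw [Finset.mem_Ico]
      omega
  -- letters agree along a minimal pair
  have step : ∀ i, M i (i + d) → c i = c (i + d) := by
    intro i hi
    by_contra hne
    set k := i + d with hk
    have hsm : ∀ a b, i ≤ a → a < b → b ≤ k → M a b → k - i ≤ b - a := by
      intro a b _ h2 _ h4
      have := hdmin a b h2 h4
      omega
    have hSi := simple i k (by omega) hi hsm
    have hNi : ∑ t ∈ Finset.Ico 0 n, phe c M i t ≠ 0 := by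
      intro h0
      have := hcon _ (coc_phe hM hper i h0) i k (by omega) hi
      rw [hSi] at this
      exact one_ne_zero this
    -- edges with sum zero over the minimal path have total sum zero
    have claimB : ∀ e, ∑ t ∈ Finset.Ico i k, phe c M e t = 0 →
        ∑ t ∈ Finset.Ico 0 n, phe c M e t = 0 := by
      intro e he
      have h1 := hcon _ (coc_comb hM hper i e) i k (by omega) hi
      rw [Finset.sum_sub_distrib, ← Finset.mul_sum, ← Finset.mul_sum, he, hSi] at h1
      linarith
    -- no edge of the path is the edge `k`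
    have hnoE : ∀ t, i ≤ t → t < k → ¬ EdS c M t k ∧ ¬ EdO c M t k := by
      intro t h1 h2
      constructor
      · rintro ⟨h3, h4⟩
        have := hdmin t k h2 h4
        have : t = i := by omega
        subst this
        exact hne h3
      · intro h3
        have h4 := (EdO.symm hM h3).2
        rcases Nat.lt_or_ge (t + 1) k with h5 | h5
        · have := hdmin (t + 1) k h5 (hM.symm _ _ h4)
          omega
        · have h6 : k = t + 1 := by omega
          have h7 := h3.1
          rw [h6] at h7
          apply hred t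
          rw [h7, linv_linv]
    have hSk : ∑ t ∈ Finset.Ico i k, phe c M k t = 0 := by
      apply Finset.sum_eq_zero
      intro t ht
      rw [Finset.mem_Ico] at ht
      obtain ⟨h1, h2⟩ := hnoE t ht.1 ht.2
      exact phe_zero h1 h2
    have hNk := claimB k hSk
    have hzero := hcon _ (coc_phe hM hper k hNk)
    -- the next passage of the edge `k`
    have hexj : ∃ j, k < j ∧ (EdS c M j k ∨ EdO c M j k) :=
      ⟨k + n, by omega, Or.inl ⟨hper k, hM.per k⟩⟩
    set j := Nat.find hexj with hj
    obtain ⟨hjk, hjE⟩ := Nat.find_spec hexj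
    have hjmin : ∀ t, k < t → t < j → ¬ EdS c M t k ∧ ¬ EdO c M t k := by
      intro t h1 h2
      have := Nat.find_min hexj h2
      constructor
      · exact fun h => this ⟨h1, Or.inl h⟩
      · exact fun h => this ⟨h1, Or.inr h⟩
    -- sums over paths through `k`
    have hsum1 : ∀ a b, i ≤ a → a ≤ k → k < b → b ≤ j →
        ∑ t ∈ Finset.Ico a b, phe c M k t = 1 := by
      intro a b h1 h2 h3 h4
      rw [Finset.sum_eq_single k]
      · exact phe_self hM k
      · intro t ht htk
        rw [Finset.mem_Ico] at ht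
        rcases Nat.lt_or_gt_of_ne htk with h5 | h5
        · obtain ⟨h6, h7⟩ := hnoE t (by omega) h5
          exact phe_zero h6 h7
        · obtain ⟨h6, h7⟩ := hjmin t h5 (by omega)
          exact phe_zero h6 h7
      · intro h
        exfalso
        apply h
        rw [Finset.mem_Ico]
        omega
    have hjO : EdO c M j k := by
      rcases hjE with h | h
      · exfalso
        have h1 := hzero k j hjk.le (hM.symm _ _ h.2)
        rw [hsum1 k j (by omega) le_rfl hjk le_rfl] at h1
        exact one_ne_zero h1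
      · exact h
    have hjk2 : k + 1 < j := by
      rcases Nat.lt_or_ge (k + 1) j with h | h
      · exact h
      · exfalso
        have h1 : j = k + 1 := by omega
        have h2 := hjO.1
        rw [h1] at h2
        exact hred k h2
    -- minimal pair in the interval
    have hex2 : ∃ r, 0 < r ∧ ∃ a, k + 1 ≤ a ∧ a + r ≤ j ∧ M a (a + r) := by
      refine ⟨j - (k + 1), by omega, k + 1, le_rfl, by omega, ?_⟩
      rw [Nat.add_sub_cancel' hjk2.le]
      exact hM.symm _ _ hjO.2
    set r := Nat.find hex2 with hr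
    obtain ⟨hr0, a, ha1, ha2, ha3⟩ := Nat.find_spec hex2
    have hrmin : ∀ x y, k + 1 ≤ x → x < y → y ≤ j → M x y → r ≤ y - x := by
      intro x y h1 h2 h3 h4
      exact Nat.find_min' hex2 ⟨by omega, x, h1, by omega, by
        rw [Nat.add_sub_cancel' h2.le]; exact h4⟩
    have hSa := simple a (a + r) (by omega) ha3 (by
      intro x y h1 h2 h3 h4
      have := hrmin x y (by omega) h2 (by omega) h4
      omega)
    have hNa : ∑ t ∈ Finset.Ico 0 n, phe c M a t ≠ 0 := by
      intro h0
      have := hcon _ (coc_phe hM hper a h0) a (a + r) (by omega) ha3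
      rw [hSa] at this
      exact one_ne_zero this
    have hSa2 : ∑ t ∈ Finset.Ico i k, phe c M a t ≠ 0 := fun h => hNa (claimB a h)
    obtain ⟨t, ht, htn⟩ := Finset.exists_ne_zero_of_sum_ne_zero hSa2
    rw [Finset.mem_Ico] at ht
    by_cases h1 : EdS c M t a
    · have h2 := hzero t a (by omega) h1.2
      rw [hsum1 t a ht.1 (by omega) (by omega) (by omega)] at h2
      exact one_ne_zero h2
    · by_cases h2 : EdO c M t a
      · have h3 := (EdO.symm hM h2).2
        have h4 := hzero (t + 1) a (by omega) (hM.symm _ _ h3)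
        rw [hsum1 (t + 1) a (by omega) (by omega) (by omega) (by omega)] at h4
        exact one_ne_zero h4
      · exact htn (phe_zero h1 h2)
  -- hence `d` is a period
  have hall : ∀ s, M (i1 + s) (i1 + s + d) ∧ c (i1 + s) = c (i1 + s + d) := by
    intro s
    induction s with
    | zero => exact ⟨hi1, step _ hi1⟩
    | succ s ih =>
      have h1 := (hM.fwd _ _ ih.2).1 ih.1
      rw [show i1 + s + d + 1 = i1 + (s + 1) + d by ring] at h1
      exact ⟨h1, step _ h1⟩
  obtain ⟨k, hk⟩ := hmin d hd0 hdn
  apply hk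
  have h1 := (hall (k + n * i1 - i1)).2
  have h2 : i1 + (k + n * i1 - i1) = k + n * i1 := by
    have : i1 ≤ n * i1 := Nat.le_mul_of_pos_left _ hn
    omega
  rw [h2, show k + n * i1 + d = (k + d) + n * i1 by ring, hcn, hcn] at h1
  exact h1.symm

end

end MM31
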