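import Pool.Agent.LibMM31.Build3

/-!
# From planar maps to walk diagrams; the group statement
-/

set_option linter.unusedSectionVars false
set_option linter.style.haveILetI false

namespace MM31

open Equiv Equiv.Perm

variable {X G : Type} [Group G] {n : ℕ} {w : ℕ → Lt X} {gv : Lt X → G}

/-- the word of a walk: for every `j` in the list the prefix of length `j` -/
def wword (w : ℕ → Lt X) (l : List ℕ) : List (Lt X) := l.flatMap (fun j => (List.range j).map w)

/-- offset of the `t`-th segment -/
def off (l : List ℕ) (t : ℕ) : ℕ := (l.take t).sum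

theorem wword_length (l : List ℕ) : (wword w l).length = l.sum := by
  induction l with
  | nil => simp [wword]
  | cons j l ih =>
    simp only [wword, List.flatMap_cons, List.length_append, List.length_map, List.length_range,
      List.sum_cons] at ih ⊢
    rw [ih]

theorem off_succ {l : List ℕ} {t : ℕ} (h : t < l.length) : off l (t + 1) = off l t + l[t] := by
  have e : l.take (t + 1) = l.take t ++ [l[t]] := by
    rw [List.take_add_one, List.getElem?_eq_getElem h]; rfl
  unfold off
  rw [e, List.sum_append, List.sum_singleton]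

theorem off_length (l : List ℕ) : off l l.length = l.sum := by
  unfold off
  rw [List.take_length]

theorem off_mono {l : List ℕ} {s t : ℕ} (h : s ≤ t) : off l s ≤ off l t := by
  induction t with
  | zero =>
    have : s = 0 := by omega
    subst this
    exact le_rfl
  | succ t ih =>
    rcases Nat.lt_or_ge t s with h1 | h1
    · have : s = t + 1 := by omega
      subst this
      exact le_rfl
    · refine le_trans (ih h1) ?_
      by_cases ht : t < l.length
      · rw [off_succ ht]; omega
      · unfold off
        rw [List.take_of_length_le (by omega), List.take_of_length_le (by omega)]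

theorem off_lt {l : List ℕ} {t k : ℕ} (h : t < l.length) (hk : k < l[t]) : off l t + k < l.sum := by
  have h1 := off_succ h
  have h2 : off l (t + 1) ≤ off l l.length := off_mono (by omega)
  rw [off_length] at h2
  omega

theorem off_inj {l : List ℕ} {t k t' k' : ℕ} (h : t < l.length) (hk : k < l[t])
    (h' : t' < l.length) (hk' : k' < l[t']) (he : off l t + k = off l t' + k') :
    t = t' ∧ k = k' := by
  have h1 := off_succ h
  have h2 := off_succ h'
  rcases Nat.lt_trichotomy t t' with h3 | h3 | h3
  · have h4 : off l (t + 1) ≤ off l t' := off_mono h3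
    omega
  · subst h3; exact ⟨rfl, by omega⟩
  · have h4 : off l (t' + 1) ≤ off l t := off_mono h3
    omega

theorem off_ex (l : List ℕ) : ∀ i < l.sum, ∃ t, ∃ h : t < l.length, ∃ k < l[t], off l t + k = i := by
  induction l with
  | nil => intro i hi; simp at hi
  | cons j l ih =>
    intro i hi
    rcases Nat.lt_or_ge i j with h | h
    · exact ⟨0, by simp, i, by simpa using h, by simp [off]⟩
    · obtain ⟨t, ht, k, hk, he⟩ := ih (i - j) (by simp only [List.sum_cons] at hi; omega)
      refine ⟨t + 1, by simpa using ht, k, by simpa using hk, ?_⟩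
      unfold off at he ⊢
      rw [List.take_succ_cons, List.sum_cons]
      omega

theorem wword_get (l : List ℕ) : ∀ (t k : ℕ) (h : t < l.length) (_ : k < l[t]),
    (wword w l)[off l t + k]? = some (w k) := by
  induction l with
  | nil => intro t k h; simp at h
  | cons j l ih =>
    intro t k h hk
    unfold wword
    rw [List.flatMap_cons]
    cases t with
    | zero =>
      have hk' : k < j := by simpa using hk
      simp only [off, List.take_zero, List.sum_nil, Nat.zero_add]
      rw [List.getElem?_append_left (by simpa using hk')]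
      simp [hk']
    | succ t =>
      have h' : t < l.length := by simpa using h
      have hk' : k < l[t] := by simpa using hk
      have e1 : off (j :: l) (t + 1) + k = j + (off l t + k) := by
        unfold off; rw [List.take_succ_cons, List.sum_cons]; omega
      rw [e1, List.getElem?_append_right (by simp)]
      simp only [List.length_map, List.length_range]
      have e2 : j + (off l t + k) - j = off l t + k := by omega
      rw [e2]
      exact ih t k h' hk'

/-- product of the values of the first `t` segments -/
def bval (n : ℕ) (w : ℕ → Lt X) (gv : Lt X → G) (l : List ℕ) (t : ℕ) : G :=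
  ((l.take t).map (fun j => pre n w gv true j)).prod

theorem bval_succ {l : List ℕ} {t : ℕ} (h : t < l.length) :
    bval n w gv l (t + 1) = bval n w gv l t * pre n w gv true l[t] := by
  have e : l.take (t + 1) = l.take t ++ [l[t]] := by
    rw [List.take_add_one, List.getElem?_eq_getElem h]; rfl
  unfold bval
  rw [e, List.map_append, List.prod_append, List.map_singleton, List.prod_singleton]

/-- the walk diagram of a closed walk -/
theorem exists_WM (hG : GV n w gv) (hn : 0 < n) (l : List ℕ) (hl : ∀ j ∈ l, 0 < j ∧ j < n)
    (hne : 0 < l.length)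
    (hW : FreeGroup.mk (wword w l) ∈ Subgroup.normalClosure {FreeGroup.mk (wlist n w true)}) :
    ∃ (D : Type) (_ : Fintype D) (_ : DecidableEq D),
      Nonempty (WM n w gv l.length (fun t => bval n w gv l t.1) D) := by
  classical
  obtain ⟨D, i1, i2, M, r, h1, -⟩ := Dg.of_mem hG hn hW 0
  refine ⟨D, i1, i2, ?_⟩
  have hwk : M.wk.map M.lab = wword w l := by
    simp only [List.map_cons, List.cons.injEq] at h1
    exact h1.2
  have hwlen : M.wk.length = l.sum := by
    rw [← wword_length (w := w), ← hwk, List.length_map]
  obtain ⟨hget, hroot⟩ := Seg.get M.seg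
  rw [List.length_cons, hwlen] at hroot
  -- darts of the walker
  let dt : ℕ → D := fun i => (M.φ ^ (i + 1)) M.root
  have hdt : ∀ i (h : i < M.wk.length), M.wk[i] = dt i := by
    intro i h
    have := hget (i + 1) (by simpa using h)
    rwa [List.getElem_cons_succ] at this
  have hdtφ : ∀ i, M.φ (dt i) = dt (i + 1) := by
    intro i
    show M.φ ((M.φ ^ (i + 1)) M.root) = (M.φ ^ (i + 1 + 1)) M.root
    rw [pow_succ' M.φ (i + 1)]
    rfl
  have hdt0 : M.φ M.root = dt 0 := by show _ = (M.φ ^ (0 + 1)) M.root; simp
  have hdtmem : ∀ i, i < l.sum → dt i ∈ M.wk := by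
    intro i hi
    rw [← hdt i (by omega)]
    exact List.getElem_mem _
  have hdtlab : ∀ t k (h : t < l.length) (_ : k < l[t]), M.lab (dt (off l t + k)) = w k := by
    intro t k h hk
    have h2 := wword_get (w := w) l t k h hk
    have h3 := off_lt h hk
    rw [← hwk, List.getElem?_map, List.getElem?_eq_getElem (by omega), hdt] at h2
    simpa using h2
  have hnodup := M.nd
  have hinj : ∀ i j, i < l.sum → j < l.sum → dt i = dt j → i = j := by
    intro i j hi hj h
    have h2 := (List.nodup_cons.mp hnodup).2
    rw [← hdt i (by omega), ← hdt j (by omega)] at h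
    exact (List.Nodup.getElem_inj_iff h2).mp h
  have hdtroot : ∀ i, i < l.sum → dt i ≠ M.root := by
    intro i hi h
    exact (List.nodup_cons.mp hnodup).1 (h ▸ hdtmem i hi)
  have hlast : dt l.sum = M.root := hroot.symm
  -- values
  have hval : ∀ t k (h : t < l.length), k ≤ l[t] →
      M.val (dt (off l t + k)) = bval n w gv l t * pre n w gv true k := by
    intro t
    induction t with
    | zero =>
      intro k
      induction k with
      | zero =>
        intro h _
        have : off l 0 + 0 = 0 := by simp [off]
        rw [this, ← hdt0, M.val_phi_root]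
        simp [bval, pre]
      | succ k ih =>
        intro h hk
        have h2 := ih h (by omega)
        have h3 := off_lt h (show k < l[0] by omega)
        have h4 := M.val_wk _ (hdtmem _ h3)
        rw [hdtφ, h2, hdtlab 0 k h (by omega)] at h4
        rw [← Nat.add_assoc, h4, mul_assoc]
        rfl
    | succ t iht =>
      intro k
      induction k with
      | zero =>
        intro h _
        have h5 := iht l[t] (by omega) le_rfl
        rw [Nat.add_zero, off_succ (by omega), h5, bval_succ (by omega)]
        simp [pre]
      | succ k ih =>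
        intro h hk
        have h2 := ih h (by omega)
        have h3 := off_lt h (show k < l[t + 1] by omega)
        have h4 := M.val_wk _ (hdtmem _ h3)
        rw [hdtφ, h2, hdtlab (t + 1) k h (by omega)] at h4
        rw [← Nat.add_assoc, h4, mul_assoc]
        rfl
  -- coordinates
  have hex : ∀ d ∈ M.wk, ∃ p : Fin l.length × ℕ, p.2 < l[p.1.1] ∧ d = dt (off l p.1.1 + p.2) := by
    intro d hd
    obtain ⟨i, hi, hid⟩ := List.getElem_of_mem hd
    obtain ⟨t, ht, k, hk, he⟩ := off_ex l i (by omega)
    refine ⟨(⟨t, ht⟩, k), hk, ?_⟩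
    rw [← hid, hdt, he]
  let co : D → Fin l.length × ℕ := fun d =>
    if h : ∃ p : Fin l.length × ℕ, p.2 < l[p.1.1] ∧ d = dt (off l p.1.1 + p.2) then h.choose
    else (⟨0, hne⟩, 0)
  have hco : ∀ (t : Fin l.length) k, k < l[t.1] → co (dt (off l t.1 + k)) = (t, k) := by
    intro t k hk
    have hh : ∃ p : Fin l.length × ℕ, p.2 < l[p.1.1] ∧
        dt (off l t.1 + k) = dt (off l p.1.1 + p.2) := ⟨(t, k), hk, rfl⟩
    have h2 : co (dt (off l t.1 + k)) = hh.choose := dif_pos hh
    rw [h2]
    obtain ⟨h3, h4⟩ := hh.choose_spec
    have h5 := hinj _ _ (off_lt t.2 hk) (off_lt hh.choose.1.2 h3) h4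
    obtain ⟨h6, h7⟩ := off_inj t.2 hk hh.choose.1.2 h3 h5
    exact (Prod.ext (Fin.ext h6) h7).symm
  let tm' : D → ℕ := fun d => if M.inner d then M.tm d else (co d).2
  let sg' : D → Bool := fun d => if M.inner d then M.sg d else true
  let bs' : D → G := fun d => if M.inner d then M.bs d else bval n w gv l (co d).1.1
  have hwkin : ∀ d ∈ M.wk, ¬ M.inner d := fun d hd => M.inner_wk d (List.mem_cons_of_mem _ hd)
  have tI : ∀ d, M.inner d → tm' d = M.tm d := fun d h => if_pos h
  have sI : ∀ d, M.inner d → sg' d = M.sg d := fun d h => if_pos h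
  have bI : ∀ d, M.inner d → bs' d = M.bs d := fun d h => if_pos h
  have tW : ∀ (t : Fin l.length) k, k < l[t.1] → tm' (dt (off l t.1 + k)) = k := by
    intro t k hk
    have : ¬ M.inner (dt (off l t.1 + k)) := hwkin _ (hdtmem _ (off_lt t.2 hk))
    show (if _ then _ else _) = _
    rw [if_neg this, hco t k hk]
  have sW : ∀ (t : Fin l.length) k, k < l[t.1] → sg' (dt (off l t.1 + k)) = true := by
    intro t k hk
    have : ¬ M.inner (dt (off l t.1 + k)) := hwkin _ (hdtmem _ (off_lt t.2 hk))
    show (if _ then _ else _) = _
    rw [if_neg this]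
  have bW : ∀ (t : Fin l.length) k, k < l[t.1] →
      bs' (dt (off l t.1 + k)) = bval n w gv l t.1 := by
    intro t k hk
    have : ¬ M.inner (dt (off l t.1 + k)) := hwkin _ (hdtmem _ (off_lt t.2 hk))
    show (if _ then _ else _) = _
    rw [if_neg this, hco t k hk]
  have hlabv : ∀ d, (M.inner d ∨ d ∈ M.wk) → M.lab d = wl n w (sg' d) (tm' d) ∧
      M.val d = bs' d * pre n w gv (sg' d) (tm' d) := by
    rintro d (h | h)
    · rw [tI d h, sI d h, bI d h]
      exact ⟨M.lab_inner d h, M.val_inner d h⟩
    · obtain ⟨⟨t, k⟩, hk, rfl⟩ := hex d h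
      rw [tW t k hk, sW t k hk, bW t k hk]
      exact ⟨hdtlab t.1 k t.2 hk, hval t.1 k t.2 (le_of_lt hk)⟩
  have halive : ∀ d, (M.inner d ∨ ∃ (t : Fin l.length) (k : ℕ), k < l[t.1] ∧
      d = dt (off l t.1 + k)) ↔ (M.inner d ∨ d ∈ M.wk) := by
    intro d
    constructor
    · rintro (h | ⟨t, k, hk, rfl⟩)
      · exact Or.inl h
      · exact Or.inr (hdtmem _ (off_lt t.2 hk))
    · rintro (h | h)
      · exact Or.inl h
      · obtain ⟨⟨t, k⟩, hk, he⟩ := hex d h
        exact Or.inr ⟨t, k, hk, he⟩
  refine ⟨{
    φ := M.φ
    ε := M.ε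
    root := M.root
    dir := fun _ => true
    len := fun t => l[t.1]
    wd := fun t k => dt (off l t.1 + k)
    inner := M.inner
    tm := tm'
    sg := sg'
    bs := bs'
    pl := M.pl
    len_pos := fun t => (hl _ (List.getElem_mem _)).1
    len_lt := fun t => (hl _ (List.getElem_mem _)).2
    wd_inj := ?_
    wd_tm := tW
    wd_sg := sW
    wd_bs := bW
    wd_inner := fun t k hk => hwkin _ (hdtmem _ (off_lt t.2 hk))
    wd_root := fun t k hk => hdtroot _ (off_lt t.2 hk)
    root_inner := M.inner_wk _ (by simp)
    phi_root := ?_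
    phi_wd := ?_
    phi_next := ?_
    phi_last := ?_
    phi_inner := M.phi_inner
    sg_inner := fun d hd => by rw [sI _ hd, sI _ (M.phi_inner d hd)]; exact M.sg_inner d hd
    bs_inner := fun d hd => by rw [bI _ hd, bI _ (M.phi_inner d hd)]; exact M.bs_inner d hd
    tm_lt := fun d hd => by rw [tI _ hd]; exact M.tm_lt d hd
    tm_succ := fun d hd h => by
      rw [tI _ hd] at h ⊢
      rw [tI _ (M.phi_inner d hd)]; exact M.tm_succ d hd h
    tm_zero := fun d hd h => by
      rw [tI _ hd] at h
      rw [tI _ (M.phi_inner d hd)]; exact M.tm_zero d hd h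
    per_inner := M.per_inner
    phi_dead := ?_
    glue := ?_ }⟩
  · intro t k t' k' hk hk' he
    have h5 := hinj _ _ (off_lt t.2 hk) (off_lt t'.2 hk') he
    obtain ⟨h6, h7⟩ := off_inj t.2 hk t'.2 hk' h5
    exact ⟨Fin.ext h6, h7⟩
  · intro h
    show M.φ M.root = dt (off l 0 + 0)
    have : off l 0 + 0 = 0 := by simp [off]
    rw [this, hdt0]
  · intro t k hk
    show M.φ (dt (off l t.1 + k)) = dt (off l t.1 + (k + 1))
    rw [hdtφ]
    rfl
  · intro t h
    show M.φ (dt (off l t.1 + (l[t.1] - 1))) = dt (off l (t.1 + 1) + 0)
    rw [hdtφ, off_succ t.2]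
    have := (hl l[t.1] (List.getElem_mem _)).1
    congr 1
    omega
  · intro t h
    show M.φ (dt (off l t.1 + (l[t.1] - 1))) = M.root
    rw [hdtφ, ← hlast]
    have h2 := off_succ t.2
    have h3 := (hl l[t.1] (List.getElem_mem _)).1
    rw [h, off_length] at h2
    congr 1
    omega
  · intro d h2 h3 h4
    apply M.dead d h2
    intro hh
    simp only [List.mem_cons] at hh
    rcases hh with hh | hh
    · exact h4 hh
    · obtain ⟨⟨t, k⟩, hk, he⟩ := hex d hh
      exact h3 t k hk he
  · have e1 : (fun d => M.inner d ∨ ∃ (t : Fin l.length) (k : ℕ), k < l[t.1] ∧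
        d = dt (off l t.1 + k)) = fun d => M.inner d ∨ d ∈ M.wk := by
      funext d; exact propext (halive d)
    refine ⟨?_, ?_, ?_, ?_, ?_⟩
    · intro d hd
      rw [halive] at hd ⊢
      exact M.glue.al d hd
    · intro d hd
      rw [halive] at hd
      exact M.glue.inv d hd
    · intro d hd
      rw [halive] at hd
      exact M.glue.ne d hd
    · intro d hd
      rw [halive] at hd
      have h5 := M.glue.cm d hd
      have h6 := hlabv d hd
      have h7 := hlabv _ (M.glue.al d hd)
      refine ⟨?_, ?_⟩
      · show wl n w (sg' (M.ε d)) (tm' (M.ε d)) = linv (wl n w (sg' d) (tm' d))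
        rw [← h6.1, ← h7.1]; exact h5.1
      · show bs' (M.ε d) * pre n w gv (sg' (M.ε d)) (tm' (M.ε d)) =
          bs' d * pre n w gv (sg' d) (tm' d + 1)
        have e2 : pre n w gv (sg' d) (tm' d + 1) =
          pre n w gv (sg' d) (tm' d) * gv (wl n w (sg' d) (tm' d)) := rfl
        rw [← h7.2, e2, ← mul_assoc, ← h6.2, ← h6.1]
        exact h5.2
    · intro d hd
      rw [halive] at hd
      exact M.glue.dead d hd

end MM31

namespace MM31

variable {X : Type}

/-- the one-relator group of the loop `w` -/
abbrev Gr (n : ℕ) (w : ℕ → Lt X) : Type := PresentedGroup {FreeGroup.mk (wlist n w true)}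

/-- the value of a letter in the one-relator group -/
def gvl (n : ℕ) (w : ℕ → Lt X) (l : Lt X) : Gr n w :=
  PresentedGroup.mk {FreeGroup.mk (wlist n w true)} (FreeGroup.mk [l])

theorem gvl_word (n : ℕ) (w : ℕ → Lt X) (k : ℕ) :
    pre n w (gvl n w) true k =
      PresentedGroup.mk {FreeGroup.mk (wlist n w true)} (FreeGroup.mk ((List.range k).map w)) := by
  induction k with
  | zero =>
    show (1 : Gr n w) = _
    simp only [List.range_zero, List.map_nil]
    rw [← FreeGroup.one_eq_mk, map_one]
  | succ k ih =>
    show pre n w (gvl n w) true k * gvl n w (w k) = _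
    rw [ih, List.range_succ, List.map_append, ← FreeGroup.mul_mk, map_mul]
    rfl

theorem gvl_GV (n : ℕ) (w : ℕ → Lt X) : GV n w (gvl n w) := by
  refine ⟨?_, ?_⟩
  · intro l
    unfold gvl
    rw [← map_inv, FreeGroup.inv_mk]
    rfl
  · rw [gvl_word]
    have : (List.range n).map w = wlist n w true := rfl
    rw [this]
    exact (PresentedGroup.mk_eq_one_iff).mpr (Subgroup.subset_normalClosure (Set.mem_singleton _))

theorem wword_val (n : ℕ) (w : ℕ → Lt X) (l : List ℕ) :
    PresentedGroup.mk {FreeGroup.mk (wlist n w true)} (FreeGroup.mk (wword w l)) =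
      (l.map (fun j => pre n w (gvl n w) true j)).prod := by
  induction l with
  | nil =>
    simp only [wword, List.flatMap_nil, List.map_nil, List.prod_nil]
    rw [← FreeGroup.one_eq_mk, map_one]
  | cons j l ih =>
    have e : wword w (j :: l) = (List.range j).map w ++ wword w l := by
      simp [wword]
    rw [e, ← FreeGroup.mul_mk, map_mul, ih, List.map_cons, List.prod_cons, gvl_word]

/-- Main group theorem: if `T0` holds there are no closed walks. -/
theorem no_closed_walk {n : ℕ} {w : ℕ → Lt X} (hn : 2 ≤ n)
    (hw : ∀ k, k + 1 < n → w (k + 1) ≠ linv (w k)) (hc : w (n - 1) ≠ linv (w 0))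
    (hU : w 0 ≠ w (n - 1)) (hT : T0 n w) (l : List ℕ) (hl : ∀ j ∈ l, 0 < j ∧ j < n)
    (hne : l ≠ []) : (l.map (fun j => pre n w (gvl n w) true j)).prod ≠ 1 := by
  suffices H : ∀ N, ∀ l : List ℕ, l.length = N → (∀ j ∈ l, 0 < j ∧ j < n) → l ≠ [] →
      (l.map (fun j => pre n w (gvl n w) true j)).prod ≠ 1 from H _ l rfl hl hne
  intro N
  induction N using Nat.strong_induction_on with
  | _ N ih =>
    intro l hlen hl hne h1
    have hpos : 0 < l.length := List.length_pos_iff.mpr hne
    -- the base values are distinct
    have hb : Function.Injective (fun t : Fin l.length => bval n w (gvl n w) l t.1) := by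
      have key : ∀ s t : ℕ, s < t → t < l.length →
          bval n w (gvl n w) l s ≠ bval n w (gvl n w) l t := by
        intro s t hst ht heq
        have e1 : l.take t = l.take s ++ (l.take t).drop s := by
          conv_lhs => rw [← List.take_append_drop s (l.take t)]
          rw [List.take_take, min_eq_left hst.le]
        have e2 : bval n w (gvl n w) l t = bval n w (gvl n w) l s *
            (((l.take t).drop s).map (fun j => pre n w (gvl n w) true j)).prod := by
          unfold bval
          conv_lhs => rw [e1]
          rw [List.map_append, List.prod_append]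
        rw [heq] at e2
        have e3 : (((l.take t).drop s).map (fun j => pre n w (gvl n w) true j)).prod = 1 :=
          mul_left_cancel (a := bval n w (gvl n w) l t) (by rw [mul_one]; exact e2.symm)
        have hlen2 : ((l.take t).drop s).length = t - s := by
          rw [List.length_drop, List.length_take, min_eq_left ht.le]
        refine ih (t - s) (by omega) ((l.take t).drop s) hlen2 ?_ ?_ e3
        · intro j hj
          exact hl j (List.mem_of_mem_take (List.mem_of_mem_drop hj))
        · intro hnil
          rw [hnil] at hlen2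
          simp at hlen2
          omega
      intro s t hst
      rcases Nat.lt_trichotomy s.1 t.1 with h | h | h
      · exact absurd hst (key _ _ h t.2)
      · exact Fin.ext h
      · exact absurd hst.symm (key _ _ h s.2)
    have hmem : FreeGroup.mk (wword w l) ∈
        Subgroup.normalClosure {FreeGroup.mk (wlist n w true)} := by
      rw [← PresentedGroup.mk_eq_one_iff, wword_val]
      exact h1
    obtain ⟨D, i1, i2, ⟨M⟩⟩ := exists_WM (gvl_GV n w) (by omega) l hl hpos hmem
    exact M.no_diagram hn hw hc hU hT (gvl_GV n w) hb hpos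

/-- the inverse of a proper prefix is not a product of prefixes -/
theorem prefix_inv_not_mem {n : ℕ} {w : ℕ → Lt X} (hn : 2 ≤ n)
    (hw : ∀ k, k + 1 < n → w (k + 1) ≠ linv (w k)) (hc : w (n - 1) ≠ linv (w 0))
    (hU : w 0 ≠ w (n - 1)) (hT : T0 n w) (j : ℕ) (hj0 : 0 < j) (hj : j < n) :
    (pre n w (gvl n w) true j)⁻¹ ∉
      Submonoid.closure {g | ∃ i, i < n ∧ g = pre n w (gvl n w) true i} := by
  intro hmem
  obtain ⟨l, hl, hprod⟩ := Submonoid.exists_list_of_mem_closure hmem
  -- choose indices
  have hidx : ∃ l' : List ℕ, (∀ i ∈ l', i < n) ∧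
      l'.map (fun i => pre n w (gvl n w) true i) = l := by
    clear hprod hmem
    induction l with
    | nil => exact ⟨[], by simp, rfl⟩
    | cons g l ih =>
      obtain ⟨l', h1, h2⟩ := ih (fun y hy => hl y (by simp [hy]))
      obtain ⟨i, hi, hgi⟩ := hl g (by simp)
      refine ⟨i :: l', ?_, ?_⟩
      · intro k hk
        rcases List.mem_cons.mp hk with h | h
        · rw [h]; exact hi
        · exact h1 k h
      · rw [List.map_cons, h2, hgi]
  obtain ⟨l', h1, h2⟩ := hidx
  -- remove zeros
  have h3 : ((l'.filter (fun i => 0 < i)).map (fun i => pre n w (gvl n w) true i)).prod =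
      l.prod := by
    rw [← h2]
    clear hprod hmem h2 hl h1
    induction l' with
    | nil => simp
    | cons i l' ih =>
      rcases Nat.eq_zero_or_pos i with h | h
      · subst h
        rw [List.filter_cons_of_neg (by simp), ih, List.map_cons, List.prod_cons]
        simp [pre]
      · rw [List.filter_cons_of_pos (by simpa using h), List.map_cons, List.prod_cons, ih,
          List.map_cons, List.prod_cons]
  refine no_closed_walk hn hw hc hU hT (l'.filter (fun i => 0 < i) ++ [j]) ?_ (by simp) ?_
  · intro i hi
    rcases List.mem_append.mp hi with h | h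
    · have h4 := List.mem_filter.mp h
      exact ⟨by simpa using h4.2, h1 i h4.1⟩
    · rw [List.mem_singleton.mp h]; exact ⟨hj0, hj⟩
  · rw [List.map_append, List.prod_append, h3, hprod]
    simp

end MM31
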