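import Pool.Agent.LibMM31.WDisch
import Pool.Agent.LibMM31.Walk

/-!
# From planar maps to walk diagrams over a graph
-/

set_option linter.unusedSectionVars false
set_option linter.style.haveILetI false

namespace MM31

open Equiv Equiv.Perm

variable {X V : Type}

/-- periodic extension of the loop -/
def wp (n : ℕ) (w : ℕ → Lt X) (k : ℕ) : Lt X := w (k % n)

/-- cyclic successor -/
def nxt (ℓ i : ℕ) : ℕ := if i + 1 < ℓ then i + 1 else 0

theorem wl_wp {n κ : ℕ} (w : ℕ → Lt X) (s : Bool) {k : ℕ} (hn : 0 < n) (hk : k < κ * n) :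
    wl (κ * n) (wp n w) s k = wl n w s (k % n) := by
  cases s
  · show linv (w ((κ * n - 1 - k) % n)) = linv (w (n - 1 - k % n))
    congr 2
    have h1 : k % n < n := Nat.mod_lt _ hn
    have h2 : n * (k / n) + k % n = k := Nat.div_add_mod k n
    have h3 : k / n < κ := by
      apply Nat.div_lt_of_lt_mul
      rwa [mul_comm]
    obtain ⟨m, hm⟩ : ∃ m, κ = k / n + 1 + m := ⟨κ - (k / n + 1), by omega⟩
    have h4 : κ * n = n * (k / n) + n + n * m := by
      rw [hm]; ring
    have h5 : κ * n - 1 - k = n * m + (n - 1 - k % n) := by omega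
    rw [h5, Nat.mul_add_mod, Nat.mod_eq_of_lt (by omega)]
  · rfl

/-- the walk diagram of a closed walk with jumps -/
theorem exists_WD {Γ : PG X V} {n κ : ℕ} {w : ℕ → Lt X} {cl : ℕ → V}
    (hn : 0 < n) (hκ : 0 < κ) (ℓ : ℕ) (S T : ℕ → V) (x : ℕ → Lt X)
    (hE : ∀ i < ℓ, Γ.E (S i) (x i) (T i))
    (hT : ∀ i < ℓ, S (nxt ℓ i) = T i ∨ (T i ≠ Γ.st ∧ S (nxt ℓ i) = Γ.st))
    (hJ : ∃ i < ℓ, T i ≠ Γ.st ∧ S (nxt ℓ i) = Γ.st)
    (hW : FreeGroup.mk ((List.range ℓ).map x) ∈
      Subgroup.normalClosure {FreeGroup.mk (wlist (κ * n) (wp n w) true)}) :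
    ∃ (D : Type) (_ : Fintype D) (_ : DecidableEq D), Nonempty (WD Γ n κ w cl D) := by
  classical
  have hkn : 0 < κ * n := Nat.mul_pos hκ hn
  obtain ⟨D, i1, i2, M, r, h1, -⟩ := Dg.of_mem (gvl_GV (κ * n) (wp n w)) hkn hW 0
  refine ⟨D, i1, i2, ?_⟩
  have hwk : M.wk.map M.lab = (List.range ℓ).map x := by
    simp only [List.map_cons, List.cons.injEq] at h1
    exact h1.2
  have hwlen : M.wk.length = ℓ := by
    rw [← List.length_map M.lab, hwk, List.length_map, List.length_range]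
  obtain ⟨hget, hroot⟩ := Seg.get M.seg
  rw [List.length_cons, hwlen] at hroot
  have hJ2 := hJ
  -- darts of the walker
  let dt : ℕ → D := fun i => (M.φ ^ (i + 1)) M.root
  have hdt : ∀ i (h : i < M.wk.length), M.wk[i] = dt i := by
    intro i h
    have := hget (i + 1) (by simpa using h)
    rwa [List.getElem_cons_succ] at this
  have hdtφ : ∀ i, M.φ (dt i) = dt (i + 1) := by
    intro i
    show M.φ ((M.φ ^ (i + 1)) M.root) = (M.φ ^ (i + 1 + 1)) M.root
    rw [pow_succ' M.φ (i + 1)]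
    rfl
  have hdt0 : M.φ M.root = dt 0 := by show _ = (M.φ ^ (0 + 1)) M.root; simp
  have hdtmem : ∀ i, i < ℓ → dt i ∈ M.wk := by
    intro i hi
    rw [← hdt i (by omega)]
    exact List.getElem_mem _
  have hdtlab : ∀ i, i < ℓ → M.lab (dt i) = x i := by
    intro i hi
    have h2 : (M.wk.map M.lab)[i]? = some (x i) := by
      rw [hwk, List.getElem?_map, List.getElem?_range hi]
      rfl
    rw [List.getElem?_map, List.getElem?_eq_getElem (by omega), hdt] at h2
    simpa using h2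
  have hnodup := M.nd
  have hinj : ∀ i j, i < ℓ → j < ℓ → dt i = dt j → i = j := by
    intro i j hi hj h
    have h2 := (List.nodup_cons.mp hnodup).2
    rw [← hdt i (by omega), ← hdt j (by omega)] at h
    exact (List.Nodup.getElem_inj_iff h2).mp h
  have hrootwk : M.root ∉ M.wk := (List.nodup_cons.mp hnodup).1
  have hdtroot : ∀ i, i < ℓ → dt i ≠ M.root := by
    intro i hi h
    exact hrootwk (h ▸ hdtmem i hi)
  have hlast : dt ℓ = M.root := hroot.symm
  have hex : ∀ d ∈ M.wk, ∃ i, i < ℓ ∧ d = dt i := by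
    intro d hd
    obtain ⟨i, hi, hid⟩ := List.getElem_of_mem hd
    exact ⟨i, by omega, by rw [← hid, hdt]⟩
  have hwkin : ∀ d ∈ M.wk, ¬ M.inner d := fun d hd => M.inner_wk d (List.mem_cons_of_mem _ hd)
  have hrin : ¬ M.inner M.root := M.inner_wk _ (by simp)
  -- index
  let ix : D → ℕ := fun d => if h : ∃ i, i < ℓ ∧ d = dt i then h.choose else 0
  have hix : ∀ i, i < ℓ → ix (dt i) = i := by
    intro i hi
    have hh : ∃ k, k < ℓ ∧ dt i = dt k := ⟨i, hi, rfl⟩
    have h2 : ix (dt i) = hh.choose := dif_pos hh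
    rw [h2]
    obtain ⟨h3, h4⟩ := hh.choose_spec
    exact (hinj _ _ hi h3 h4).symm
  -- remove the root
  obtain ⟨φ', q1, q2, q3, q4, q5⟩ := M.pl.iso M.root
  have hφin : ∀ d, M.inner d → φ' d = M.φ d := by
    intro d hd
    apply q4
    · rintro rfl; exact hrin hd
    · intro hh; exact hrin (hh ▸ M.phi_inner d hd)
  have hφdt : ∀ i, i < ℓ → φ' (dt i) = dt (nxt ℓ i) := by
    intro i hi
    unfold nxt
    by_cases h2 : i + 1 < ℓ
    · rw [if_pos h2, q4 _ (hdtroot i hi), hdtφ]
      rw [hdtφ]; exact hdtroot _ h2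
    · rw [if_neg h2, q3 _ (hdtroot i hi), hdt0]
      rw [hdtφ, ← hlast]
      congr 1
      omega
  have hnx : ∀ i, i < ℓ → nxt ℓ i < ℓ := by
    intro i hi
    unfold nxt
    split_ifs <;> omega
  let sr' : D → V := fun d => if M.inner d then cv n cl (M.sg d) (M.tm d % n) else S (ix d)
  let ds' : D → V := fun d => if M.inner d then cv n cl (M.sg d) (M.tm d % n + 1) else T (ix d)
  have srI : ∀ d, M.inner d → sr' d = cv n cl (M.sg d) (M.tm d % n) := fun d h => if_pos h
  have dsI : ∀ d, M.inner d → ds' d = cv n cl (M.sg d) (M.tm d % n + 1) := fun d h => if_pos h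
  have srW : ∀ i, i < ℓ → sr' (dt i) = S i := by
    intro i hi
    have : ¬ M.inner (dt i) := hwkin _ (hdtmem _ hi)
    show (if _ then _ else _) = _
    rw [if_neg this, hix i hi]
  have dsW : ∀ i, i < ℓ → ds' (dt i) = T i := by
    intro i hi
    have : ¬ M.inner (dt i) := hwkin _ (hdtmem _ hi)
    show (if _ then _ else _) = _
    rw [if_neg this, hix i hi]
  have tmφ : ∀ d, M.inner d → M.tm (M.φ d) = (M.tm d + 1) % (κ * n) := by
    intro d hd
    have h := M.tm_lt d hd
    rcases Nat.lt_or_ge (M.tm d + 1) (κ * n) with h1 | h1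
    · rw [M.tm_succ d hd h1, Nat.mod_eq_of_lt h1]
    · have h2 : M.tm d + 1 = κ * n := by omega
      rw [M.tm_zero d hd h2, h2, Nat.mod_self]
  have tmn : ∀ d, M.inner d → M.tm (M.φ d) % n = (M.tm d % n + 1) % n := by
    intro d hd
    rw [tmφ d hd, Nat.mod_mod_of_dvd _ (Dvd.intro_left κ rfl), Nat.mod_add_mod]
  have hpow : ∀ d, M.inner d → ∀ k : ℕ, M.inner ((M.φ ^ k) d) ∧
      M.tm ((M.φ ^ k) d) = (M.tm d + k) % (κ * n) := by
    intro d hd k
    induction k with
    | zero => exact ⟨hd, by simp [Nat.mod_eq_of_lt (M.tm_lt d hd)]⟩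
    | succ k ih =>
      rw [pow_succ', Perm.mul_apply]
      refine ⟨M.phi_inner _ ih.1, ?_⟩
      rw [tmφ _ ih.1, ih.2, Nat.mod_add_mod]
      rfl
  refine ⟨{
    φ := φ'
    ε := M.ε
    inner := M.inner
    wk := fun d => d ∈ M.wk
    tm := fun d => M.tm d % n
    sg := M.sg
    sr := sr'
    ds := ds'
    lt := M.lab
    pl := q1
    disj := fun d h1 h2 => hwkin d h2 h1
    edge := ?_
    phi_inner := fun d hd => by rw [hφin d hd]; exact M.phi_inner d hd
    sg_inner := fun d hd => by rw [hφin d hd]; exact M.sg_inner d hd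
    tm_lt := fun d _ => Nat.mod_lt _ hn
    tm_succ := fun d hd h => by
      rw [hφin d hd]
      show M.tm (M.φ d) % n = M.tm d % n + 1
      rw [tmn d hd, Nat.mod_eq_of_lt h]
    tm_zero := fun d hd h => by
      rw [hφin d hd]
      show M.tm (M.φ d) % n = 0
      have h' : M.tm d % n + 1 = n := h
      rw [tmn d hd, h', Nat.mod_self]
    per_inner := fun d hd => by
      rw [(pow_agree (P := M.inner) hφin M.phi_inner d hd _).1]
      exact M.per_inner d hd
    min_inner := fun d hd k h1 h2 => by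
      rw [(pow_agree (P := M.inner) hφin M.phi_inner d hd _).1]
      intro hh
      have h3 := (hpow d hd k).2
      rw [hh] at h3
      have h4 : (M.tm d + 0) ≡ (M.tm d + k) [MOD (κ * n)] := by
        show (M.tm d + 0) % (κ * n) = (M.tm d + k) % (κ * n)
        rw [← h3, Nat.add_zero, Nat.mod_eq_of_lt (M.tm_lt d hd)]
      have h5 := Nat.ModEq.add_left_cancel' _ h4
      rw [Nat.ModEq, Nat.mod_eq_of_lt h2, Nat.zero_mod] at h5
      omega
    lt_inner := fun d hd => by
      rw [M.lab_inner d hd]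
      exact wl_wp w _ hn (M.tm_lt d hd)
    sr_inner := srI
    ds_inner := dsI
    phi_wk := ?_
    trans := ?_
    one := ?_
    sw := ?_
    dead := ?_
    glue := ?_ }⟩
  · intro d hd
    obtain ⟨i, hi, rfl⟩ := hex d hd
    rw [srW i hi, dsW i hi, hdtlab i hi]
    exact hE i hi
  · intro d hd
    obtain ⟨i, hi, rfl⟩ := hex d hd
    rw [hφdt i hi]
    exact hdtmem _ (hnx i hi)
  · intro d hd
    obtain ⟨i, hi, rfl⟩ := hex d hd
    rw [hφdt i hi, srW _ (hnx i hi), dsW i hi]
    exact hT i hi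
  · intro d e hd he
    obtain ⟨i, hi, rfl⟩ := hex d hd
    obtain ⟨j, hj, rfl⟩ := hex e he
    apply q5 _ _ (hdtroot i hi) (hdtroot j hj)
    have r1 : SameCycle M.φ M.root (dt i) := ⟨((i + 1 : ℕ) : ℤ), by rw [zpow_natCast]⟩
    have r2 : SameCycle M.φ M.root (dt j) := ⟨((j + 1 : ℕ) : ℤ), by rw [zpow_natCast]⟩
    exact r1.symm.trans r2
  · obtain ⟨i, hi, h2, h3⟩ := hJ2
    refine ⟨dt i, hdtmem i hi, ?_, ?_⟩
    · rw [dsW i hi]; exact h2
    · rw [hφdt i hi, srW _ (hnx i hi)]; exact h3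
  · intro d h2 h3
    by_cases h4 : d = M.root
    · rw [h4]; exact q2
    · have h5 := M.dead d h2 (by
        intro hh
        rcases List.mem_cons.mp hh with hh | hh
        · exact h4 hh
        · exact h3 hh)
      rw [q4 d h4 (by rw [h5]; exact h4), h5]
  · refine ⟨M.glue.al, M.glue.inv, M.glue.ne, fun d hd => (M.glue.cm d hd).1, M.glue.dead⟩

end MM31
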