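import Pool.Agent.LibMM31.WMove2

/-!
# The topological bound for walk diagrams
-/

set_option linter.unusedSectionVars false
set_option linter.style.haveILetI false

namespace MM31

open Equiv Equiv.Perm Finset

namespace WD

variable {X V : Type} {Γ : PG X V} {n κ : ℕ} {w : ℕ → Lt X} {cl : ℕ → V}
variable {D : Type} [Fintype D] [DecidableEq D]

theorem phi_dead' (M : WD Γ n κ w cl D) {d : D} (h : ¬ M.al d) : M.φ d = d :=
  M.dead d (fun hh => h (Or.inl hh)) (fun hh => h (Or.inr hh))

open Classical in
/-- the topological bound -/
theorem euler (M : WD Γ n κ w cl D) :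
    (univ.filter (fun d => M.al d)).card + 2 * (univ.filter (fun d => ¬ M.al d)).card + 2 ≤
      2 * (univ.filter (fun d => M.inner d ∧ M.tm d = 0)).card + 2 * cyc (M.φ * M.ε) := by
  set A := (univ.filter (fun d => M.al d)).card with hA
  set δ := (univ.filter (fun d => ¬ M.al d)).card with hδ
  set F0 := (univ.filter (fun d => M.inner d ∧ M.tm d = 0)).card with hF
  have hsplit := Finset.card_filter_add_card_filter_not (s := (univ : Finset D))
    (fun d => M.al d)
  have hD : Nat.card D = A + δ := by
    rw [Nat.card_eq_fintype_card, ← Finset.card_univ (α := D)]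
    exact hsplit.symm
  obtain ⟨z, z1, -, -⟩ := M.sw
  -- orbits
  have hO : δ + 1 ≤ orb M.φ M.ε := by
    have h1 := ncl_weight_le (cs M.φ ⊔ cs M.ε) (fun d => ¬ M.al d ∨ d = z) (by
      intro x y hx hy hxy
      rcases hx with hx | hx
      · exact orbit_isolated (M.phi_dead' hx) (M.glue.dead x hx) hxy
      · rcases hy with hy | hy
        · exact (orbit_isolated (M.phi_dead' hy) (M.glue.dead y hy)
            ((cs M.φ ⊔ cs M.ε).symm' hxy)).symm
        · rw [hx, hy])
    have h2 : (univ.filter (fun d => ¬ M.al d ∨ d = z)).card = δ + 1 := by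
      have h3 : univ.filter (fun d => ¬ M.al d ∨ d = z) =
          insert z (univ.filter (fun d => ¬ M.al d)) := by
        ext x
        simp only [Finset.mem_filter, Finset.mem_univ, true_and, Finset.mem_insert]
        tauto
      rw [h3, Finset.card_insert_of_notMem]
      simp only [Finset.mem_filter, Finset.mem_univ, true_and, not_not]
      exact Or.inr z1
    unfold orb
    omega
  -- edges
  have hE : 2 * cyc M.ε ≤ A + 2 * δ := by
    have h1 := ncl_weight (cs M.ε) 2 (fun d => if M.al d then 1 else 2) (fun _ => 0) (by
      intro x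
      simp only [Finset.sum_const_zero, Nat.add_zero]
      by_cases hx : M.al x
      · have hsub : ({x, M.ε x} : Finset D) ⊆ univ.filter (fun d => cs M.ε x d) := by
          intro y hy
          simp only [Finset.mem_insert, Finset.mem_singleton] at hy
          simp only [Finset.mem_filter, Finset.mem_univ, true_and]
          rcases hy with rfl | rfl
          · exact SameCycle.refl _ _
          · exact ⟨1, by simp⟩
        refine le_trans ?_ (Finset.sum_le_sum_of_subset hsub)
        rw [Finset.sum_pair (M.glue.ne x hx).symm, if_pos hx, if_pos (M.al_eps hx)]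
      · have hsub : ({x} : Finset D) ⊆ univ.filter (fun d => cs M.ε x d) := by
          intro y hy
          simp only [Finset.mem_singleton] at hy
          simp only [Finset.mem_filter, Finset.mem_univ, true_and]
          exact hy ▸ SameCycle.refl _ _
        refine le_trans ?_ (Finset.sum_le_sum_of_subset hsub)
        rw [Finset.sum_singleton, if_neg hx])
    have h2 : ∑ d, (if M.al d then 1 else 2) = A + 2 * δ := by
      rw [Finset.sum_ite]
      simp only [Finset.sum_const, smul_eq_mul, mul_one]
      rw [← hA, ← hδ]
      ring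
    rw [h2] at h1
    simpa [cyc] using h1
  -- faces
  have hΦ : cyc M.φ ≤ F0 + 1 + δ := by
    have h1 := ncl_weight (cs M.φ) 1
      (fun d => if (M.inner d ∧ M.tm d = 0) ∨ ¬ M.al d ∨ d = z then 1 else 0) (fun _ => 0) (by
      intro x
      simp only [Finset.sum_const_zero, Nat.add_zero]
      have key : ∃ y, SameCycle M.φ x y ∧ ((M.inner y ∧ M.tm y = 0) ∨ ¬ M.al y ∨ y = z) := by
        by_cases hx : M.al x
        · rcases hx with hx | hx
          · obtain ⟨k, hk⟩ := M.exists_tm_zero hx
            exact ⟨(M.φ ^ k) x, ⟨(k : ℤ), by rw [zpow_natCast]⟩, Or.inl ⟨M.inner_pow hx _, hk⟩⟩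
          · exact ⟨z, M.one x z hx z1, Or.inr (Or.inr rfl)⟩
        · exact ⟨x, SameCycle.refl _ _, Or.inr (Or.inl hx)⟩
      obtain ⟨y, hy1, hy2⟩ := key
      have hsub : ({y} : Finset D) ⊆ univ.filter (fun d => cs M.φ x d) := by
        intro z hz
        simp only [Finset.mem_singleton] at hz
        simp only [Finset.mem_filter, Finset.mem_univ, true_and]
        rw [hz]
        exact hy1
      refine le_trans ?_ (Finset.sum_le_sum_of_subset hsub)
      rw [Finset.sum_singleton, if_pos hy2])
    have h2 : ∑ d, (if (M.inner d ∧ M.tm d = 0) ∨ ¬ M.al d ∨ d = z then 1 else 0) ≤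
        F0 + 1 + δ := by
      rw [← Finset.card_filter]
      have h3 : univ.filter (fun d => (M.inner d ∧ M.tm d = 0) ∨ ¬ M.al d ∨ d = z) ⊆
          insert z (univ.filter (fun d => M.inner d ∧ M.tm d = 0) ∪
            univ.filter (fun d => ¬ M.al d)) := by
        intro x
        simp only [Finset.mem_filter, Finset.mem_univ, true_and, Finset.mem_insert,
          Finset.mem_union]
        tauto
      refine le_trans (Finset.card_le_card h3) ?_
      refine le_trans (Finset.card_insert_le _ _) ?_
      have := Finset.card_union_le (univ.filter (fun d => M.inner d ∧ M.tm d = 0))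
        (univ.filter (fun d => ¬ M.al d))
      omega
    simp only [one_mul, Finset.sum_const_zero, Nat.add_zero] at h1
    exact le_trans h1 h2
  have hpl := (Pl.iff _ _).mp M.pl
  rw [hD] at hpl
  omega

end WD

end MM31
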