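import Pool.Agent.LibMM31.WOps

/-!
# Walk diagrams whose walker reads paths of a folded pointed graph
-/

set_option linter.unusedSectionVars false
set_option linter.style.haveILetI false

namespace MM31

open Equiv Equiv.Perm

/-- a folded graph with a base vertex, edges labelled by letters -/
structure PG (X V : Type) where
  st : V
  E : V → Lt X → V → Prop
  symm : ∀ {p x q}, E p x q → E q (linv x) p
  det : ∀ {p x q q'}, E p x q → E p x q' → q = q'

variable {X V : Type}

/-- the vertex of the graph at time `k` of the loop read in the direction `s` -/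
def cv (n : ℕ) (cl : ℕ → V) : Bool → ℕ → V
  | true, k => cl k
  | false, k => cl (n - k)

/-- the loop `w` of length `n` is a closed path of the graph at the base vertex -/
structure CellIn (Γ : PG X V) (n : ℕ) (w : ℕ → Lt X) (cl : ℕ → V) : Prop where
  base : cl 0 = Γ.st
  per : cl n = Γ.st
  edge : ∀ k < n, Γ.E (cl k) (w k) (cl (k + 1))

theorem CellIn.dir {Γ : PG X V} {n : ℕ} {w : ℕ → Lt X} {cl : ℕ → V} (h : CellIn Γ n w cl)
    (s : Bool) {k : ℕ} (hk : k < n) : Γ.E (cv n cl s k) (wl n w s k) (cv n cl s (k + 1)) := by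
  cases s
  · simp only [cv, wl]
    have h1 := Γ.symm (h.edge (n - 1 - k) (by omega))
    have e1 : n - 1 - k + 1 = n - k := by omega
    have e2 : n - (k + 1) = n - 1 - k := by omega
    rw [e1] at h1
    rw [e2]
    exact h1
  · exact h.edge k hk

theorem CellIn.cv_zero {Γ : PG X V} {n : ℕ} {w : ℕ → Lt X} {cl : ℕ → V} (h : CellIn Γ n w cl)
    (s : Bool) : cv n cl s 0 = Γ.st := by
  cases s
  · simp only [cv, Nat.sub_zero]; exact h.per
  · exact h.base

theorem CellIn.cv_n {Γ : PG X V} {n : ℕ} {w : ℕ → Lt X} {cl : ℕ → V} (h : CellIn Γ n w cl)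
    (s : Bool) : cv n cl s n = Γ.st := by
  cases s
  · simp only [cv, Nat.sub_self]; exact h.base
  · exact h.per

/-! ### germs -/

/-- A germ at a vertex of a cell (`L s k`: the cell is read in the direction `s` and has left its
base `k` letters before) or at a vertex of the walker (`W p x q b`: along the edge `(p, x, q)` of
the graph; `b = true` backwards along the walker, `b = false` forwards). -/
inductive Gm (X V : Type) where
  | L (s : Bool) (k : ℕ)
  | W (p : V) (x : Lt X) (q : V) (b : Bool)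
  deriving DecidableEq

section germs

variable (Γ : PG X V) (n : ℕ) (w : ℕ → Lt X) (cl : ℕ → V)

/-- letter of a germ -/
def Gm.lt : Gm X V → Lt X
  | .L s k => wl n w s k
  | .W _ x _ _ => x

/-- start of a germ -/
def Gm.sr : Gm X V → V
  | .L s k => cv n cl s k
  | .W p _ _ _ => p

/-- the germs that occur at vertices without base corners -/
def Gm.valid : Gm X V → Prop
  | .L _ k => 1 ≤ k ∧ k < n
  | .W p x q b => Γ.E p x q ∧ p ≠ Γ.st ∧ (b = false → q ≠ Γ.st)

/-- the germ reaches the base with its edge -/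
def Gm.term : Gm X V → Prop
  | .L _ k => k + 1 = n
  | .W _ _ q b => q = Γ.st ∧ b = true

/-- `g` and `h` can be the germs of the two sides of an edge -/
def Gm.ok : Gm X V → Gm X V → Prop
  | .L s k, .L s' k' => wl n w s k = wl n w s' k' ∧ (s, k) ≠ (s', k')
  | g, h => g.lt n w = h.lt n w ∧ g.sr n cl ≠ h.sr n cl

/-- continuation of a germ -/
def Gm.cont : Gm X V → Gm X V → Prop
  | .L s k, .L s' k' => s' = s ∧ k' = k + 1
  | .W _ x q b, .W p' x' _ b' => p' = q ∧ x' ≠ linv x ∧ b' = b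
  | _, _ => False

/-- the two germs of a corner -/
def Gm.cor : Gm X V → Gm X V → Prop
  | .L s k, .L s' k' => s' = !s ∧ k' = n - k
  | .W p x _ b, .W p' x' _ b' => p' = p ∧ x' ≠ x ∧ b' = !b
  | _, _ => False

mutual
/-- closable pairs of germs -/
inductive ClW : Gm X V → Gm X V → Prop
  | term (g h : Gm X V) : g.valid Γ n → h.valid Γ n → g.ok n w cl h →
      (g.term Γ n ∨ h.term Γ n) → ClW g h
  | step (g h g' h' : Gm X V) : g.valid Γ n → h.valid Γ n → g.ok n w cl h →
      g'.valid Γ n → h'.valid Γ n → g.cont g' → h.cont h' → ChnW g' h' → ClW g h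
/-- alternating chains of closable pairs -/
inductive ChnW : Gm X V → Gm X V → Prop
  | one (g h : Gm X V) : ClW g h → ChnW g h
  | cons (g h h' k : Gm X V) : ClW g h → h'.valid Γ n → h.cor n h' → ChnW h' k → ChnW g k
end

/-- the condition `T0W`: there is no closed alternating chain -/
def T0W : Prop := ∀ g h : Gm X V, g.valid Γ n → h.valid Γ n → h.cor n g →
  ¬ ChnW Γ n w cl g h

end germs

/-! ### walk diagrams -/

/-- A planar map with one walker face reading a cyclic sequence of edges of the graph `Γ`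
(consecutive edges match, or the walker jumps from a vertex which is not the base to the base; at
least one such jump occurs); all other faces are copies of the loop `w`, read `κ` times. -/
structure WD (Γ : PG X V) (n κ : ℕ) (w : ℕ → Lt X) (cl : ℕ → V)
    (D : Type) [Finite D] [DecidableEq D] where
  φ : Perm D
  ε : Perm D
  inner : D → Prop
  wk : D → Prop
  tm : D → ℕ
  sg : D → Bool
  sr : D → V
  ds : D → V
  lt : D → Lt X
  pl : Pl φ ε
  disj : ∀ d, inner d → ¬ wk d
  edge : ∀ d, wk d → Γ.E (sr d) (lt d) (ds d)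
  phi_inner : ∀ d, inner d → inner (φ d)
  sg_inner : ∀ d, inner d → sg (φ d) = sg d
  tm_lt : ∀ d, inner d → tm d < n
  tm_succ : ∀ d, inner d → tm d + 1 < n → tm (φ d) = tm d + 1
  tm_zero : ∀ d, inner d → tm d + 1 = n → tm (φ d) = 0
  per_inner : ∀ d, inner d → (φ ^ (κ * n)) d = d
  min_inner : ∀ d, inner d → ∀ k, 0 < k → k < κ * n → (φ ^ k) d ≠ d
  lt_inner : ∀ d, inner d → lt d = wl n w (sg d) (tm d)
  sr_inner : ∀ d, inner d → sr d = cv n cl (sg d) (tm d)
  ds_inner : ∀ d, inner d → ds d = cv n cl (sg d) (tm d + 1)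
  phi_wk : ∀ d, wk d → wk (φ d)
  trans : ∀ d, wk d → sr (φ d) = ds d ∨ (ds d ≠ Γ.st ∧ sr (φ d) = Γ.st)
  one : ∀ d e, wk d → wk e → SameCycle φ d e
  sw : ∃ d, wk d ∧ ds d ≠ Γ.st ∧ sr (φ d) = Γ.st
  dead : ∀ d, ¬ inner d → ¬ wk d → φ d = d
  glue : Glue (fun d => inner d ∨ wk d) (fun d e => lt e = linv (lt d)) ε

namespace WD

variable {Γ : PG X V} {n κ : ℕ} {w : ℕ → Lt X} {cl : ℕ → V}
variable {D : Type} [Finite D] [DecidableEq D]

/-- alive darts -/
def al (M : WD Γ n κ w cl D) (d : D) : Prop := M.inner d ∨ M.wk d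

/-- number of base corners of cells -/
noncomputable def F (M : WD Γ n κ w cl D) : ℕ := Nat.card {d : D // M.inner d ∧ M.tm d = 0}

/-- length of the walker -/
noncomputable def N (M : WD Γ n κ w cl D) : ℕ := Nat.card {d : D // M.wk d}

/-- the two sides `d, e` of an edge are mirror images -/
def Mir (M : WD Γ n κ w cl D) (d e : D) : Prop :=
  (M.inner d ∧ M.inner e ∧ M.sg e = !(M.sg d) ∧ M.tm e = n - 1 - M.tm d) ∨
    (¬ (M.inner d ∧ M.inner e) ∧ M.sr e = M.ds d)

/-- reduced diagrams -/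
def Red (M : WD Γ n κ w cl D) : Prop := ∀ d, M.al d → ¬ M.Mir d (M.ε d)

/-- the walker does not backtrack -/
def Imm (M : WD Γ n κ w cl D) : Prop :=
  ∀ d, M.wk d → M.sr (M.φ d) = M.ds d → M.lt (M.φ d) ≠ linv (M.lt d)

theorem compat (M : WD Γ n κ w cl D) : Compat (fun d e => M.lt e = linv (M.lt d)) := by
  refine ⟨?_, ?_⟩
  · intro a b h; rw [h, linv_linv]
  · intro a b c d h1 h2 h3; rw [h3, h2, h1, linv_linv]

theorem al_eps (M : WD Γ n κ w cl D) {d : D} (h : M.al d) : M.al (M.ε d) := M.glue.al d h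

theorem eps_eps (M : WD Γ n κ w cl D) (d : D) : M.ε (M.ε d) = d := by
  by_cases h : M.al d
  · exact M.glue.inv d h
  · have := M.glue.dead d h
    rw [this, this]

theorem eps_ne (M : WD Γ n κ w cl D) {d : D} (h : M.al d) : M.ε d ≠ d := M.glue.ne d h

theorem lt_eps (M : WD Γ n κ w cl D) {d : D} (h : M.al d) : M.lt (M.ε d) = linv (M.lt d) :=
  M.glue.cm d h

theorem edge_al (hC : CellIn Γ n w cl) (M : WD Γ n κ w cl D) {d : D} (h : M.al d) :
    Γ.E (M.sr d) (M.lt d) (M.ds d) := by
  rcases h with h | h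
  · rw [M.sr_inner d h, M.lt_inner d h, M.ds_inner d h]
    exact hC.dir _ (M.tm_lt d h)
  · exact M.edge d h

theorem inner_trans (hC : CellIn Γ n w cl) (M : WD Γ n κ w cl D) {d : D} (h : M.inner d) :
    M.sr (M.φ d) = M.ds d := by
  rw [M.ds_inner d h, M.sr_inner _ (M.phi_inner d h), M.sg_inner d h]
  have h1 := M.tm_lt d h
  rcases Nat.lt_or_ge (M.tm d + 1) n with h2 | h2
  · rw [M.tm_succ d h h2]
  · have h3 : M.tm d + 1 = n := by omega
    rw [M.tm_zero d h h3, h3, hC.cv_zero, hC.cv_n]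

/-- at a mirror pair the other ends agree as well -/
theorem Mir.ds (hC : CellIn Γ n w cl) {M : WD Γ n κ w cl D} {d : D} (h : M.al d)
    (hm : M.Mir d (M.ε d)) : M.sr (M.ε d) = M.ds d ∧ M.ds (M.ε d) = M.sr d := by
  have key : M.sr (M.ε d) = M.ds d := by
    rcases hm with ⟨h1, h2, h3, h4⟩ | ⟨_, h2⟩
    · rw [M.sr_inner _ h2, M.ds_inner _ h1, h3, h4]
      have := M.tm_lt d h1
      cases M.sg d
      · simp only [cv, Bool.not_false]; congr 1; omega
      · simp only [cv, Bool.not_true]; congr 1; omega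
    · exact h2
  refine ⟨key, ?_⟩
  have h1 := M.edge_al hC (M.al_eps h)
  rw [M.lt_eps h, key] at h1
  exact Γ.det h1 (Γ.symm (M.edge_al hC h))

theorem inner_pow (M : WD Γ n κ w cl D) {d : D} (hd : M.inner d) (k : ℕ) :
    M.inner ((M.φ ^ k) d) := by
  induction k with
  | zero => simpa using hd
  | succ k ih => rw [pow_succ', Perm.mul_apply]; exact M.phi_inner _ ih

theorem wk_pow (M : WD Γ n κ w cl D) {d : D} (hd : M.wk d) (k : ℕ) :
    M.wk ((M.φ ^ k) d) := by
  induction k with
  | zero => simpa using hd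
  | succ k ih => rw [pow_succ', Perm.mul_apply]; exact M.phi_wk _ ih

theorem sg_pow (M : WD Γ n κ w cl D) {d : D} (hd : M.inner d) (k : ℕ) :
    M.sg ((M.φ ^ k) d) = M.sg d := by
  induction k with
  | zero => simp
  | succ k ih =>
    rw [pow_succ', Perm.mul_apply, M.sg_inner _ (M.inner_pow hd k), ih]

theorem tm_step (M : WD Γ n κ w cl D) {d : D} (hd : M.inner d) :
    M.tm (M.φ d) = (M.tm d + 1) % n := by
  have h := M.tm_lt d hd
  rcases Nat.lt_or_ge (M.tm d + 1) n with h1 | h1
  · rw [M.tm_succ d hd h1, Nat.mod_eq_of_lt h1]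
  · have h2 : M.tm d + 1 = n := by omega
    rw [M.tm_zero d hd h2, h2, Nat.mod_self]

theorem tm_pow (M : WD Γ n κ w cl D) {d : D} (hd : M.inner d) (k : ℕ) :
    M.tm ((M.φ ^ k) d) = (M.tm d + k) % n := by
  induction k with
  | zero => simp [Nat.mod_eq_of_lt (M.tm_lt d hd)]
  | succ k ih =>
    rw [pow_succ', Perm.mul_apply, M.tm_step (M.inner_pow hd k), ih]
    rw [Nat.mod_add_mod]
    rfl

theorem inner_iff (M : WD Γ n κ w cl D) (d : D) : M.inner d ↔ M.inner (M.φ d) :=
  inv_of_forward M.phi_inner d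

theorem wk_iff (M : WD Γ n κ w cl D) (d : D) : M.wk d ↔ M.wk (M.φ d) :=
  inv_of_forward M.phi_wk d

/-- change of the permutations and of the sets of darts -/
def modify (M : WD Γ n κ w cl D) (φ' ε' : Perm D) (I' W' : D → Prop) (hpl : Pl φ' ε')
    (hI : ∀ d, I' d → M.inner d ∧ φ' d = M.φ d ∧ I' (M.φ d))
    (hW : ∀ d, W' d → Γ.E (M.sr d) (M.lt d) (M.ds d) ∧ ¬ I' d ∧ W' (φ' d))
    (htr : ∀ d, W' d → M.sr (φ' d) = M.ds d ∨ (M.ds d ≠ Γ.st ∧ M.sr (φ' d) = Γ.st))
    (hone : ∀ d e, W' d → W' e → SameCycle φ' d e)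
    (hsw : ∃ d, W' d ∧ M.ds d ≠ Γ.st ∧ M.sr (φ' d) = Γ.st)
    (hdead : ∀ d, ¬ I' d → ¬ W' d → φ' d = d)
    (hglue : Glue (fun d => I' d ∨ W' d) (fun d e => M.lt e = linv (M.lt d)) ε') :
    WD Γ n κ w cl D where
  φ := φ'
  ε := ε'
  inner := I'
  wk := W'
  tm := M.tm
  sg := M.sg
  sr := M.sr
  ds := M.ds
  lt := M.lt
  pl := hpl
  disj := fun d h1 h2 => (hW d h2).2.1 h1
  edge := fun d h => (hW d h).1
  phi_inner := fun d h => by rw [(hI d h).2.1]; exact (hI d h).2.2
  sg_inner := fun d h => by rw [(hI d h).2.1]; exact M.sg_inner d (hI d h).1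
  tm_lt := fun d h => M.tm_lt d (hI d h).1
  tm_succ := fun d h h2 => by rw [(hI d h).2.1]; exact M.tm_succ d (hI d h).1 h2
  tm_zero := fun d h h2 => by rw [(hI d h).2.1]; exact M.tm_zero d (hI d h).1 h2
  per_inner := fun d h => by
    rw [(pow_agree (P := I') (fun d hd => (hI d hd).2.1) (fun d hd => (hI d hd).2.2) d h _).1]
    exact M.per_inner d (hI d h).1
  min_inner := fun d h k h1 h2 => by
    rw [(pow_agree (P := I') (fun d hd => (hI d hd).2.1) (fun d hd => (hI d hd).2.2) d h _).1]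
    exact M.min_inner d (hI d h).1 k h1 h2
  lt_inner := fun d h => M.lt_inner d (hI d h).1
  sr_inner := fun d h => M.sr_inner d (hI d h).1
  ds_inner := fun d h => M.ds_inner d (hI d h).1
  phi_wk := fun d h => (hW d h).2.2
  trans := htr
  one := hone
  sw := hsw
  dead := hdead
  glue := hglue

end WD

end MM31
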