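import Pool.Agent.LibMM31.WCount

/-!
# Discharging for walk diagrams over a folded graph
-/

set_option linter.unusedSectionVars false
set_option linter.style.haveILetI false

namespace MM31

open Equiv Equiv.Perm Finset

variable {X V : Type}

/-- the two directions of the loop at the same vertex -/
theorem cv_flip (n : ℕ) (cl : ℕ → V) (s : Bool) {k : ℕ} (hk : k < n) :
    cv n cl (!s) (n - 1 - k) = cv n cl s (k + 1) := by
  cases s
  · simp only [cv, Bool.not_false]; congr 1; omega
  · simp only [cv, Bool.not_true]; congr 1; omega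

/-- at the base of the graph a letter and its inverse can only be read along loops -/
def LoopP (Γ : PG X V) : Prop :=
  ∀ (x : Lt X) (p q : V), Γ.E Γ.st x p → Γ.E Γ.st (linv x) q → p = Γ.st

namespace WD

variable {Γ : PG X V} {n κ : ℕ} {w : ℕ → Lt X} {cl : ℕ → V}
variable {D : Type} [Fintype D] [DecidableEq D]

/-- the dart leaves the base -/
def B (M : WD Γ n κ w cl D) (d : D) : Prop :=
  (M.inner d ∧ M.tm d = 0) ∨ (M.wk d ∧ M.sr d = Γ.st)

/-- the walker enters the base along the dart -/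
def En (M : WD Γ n κ w cl D) (d : D) : Prop := M.wk d ∧ M.ds d = Γ.st ∧ M.sr d ≠ Γ.st

/-- the dart is adjacent to a base corner of its face -/
def be (M : WD Γ n κ w cl D) (d : D) : Prop :=
  (M.inner d ∧ (M.tm d = 0 ∨ M.tm d = n - 1)) ∨ (M.wk d ∧ (M.sr d = Γ.st ∨ M.ds d = Γ.st))

open Classical in
/-- the germ of a dart at its start -/
noncomputable def fg (M : WD Γ n κ w cl D) (d : D) : Gm X V :=
  if M.inner d then .L (M.sg d) (M.tm d) else .W (M.sr d) (M.lt d) (M.ds d) false

open Classical in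
/-- the germ of a dart at its end -/
noncomputable def bg (M : WD Γ n κ w cl D) (e : D) : Gm X V :=
  if M.inner e then .L (!(M.sg e)) (n - 1 - M.tm e)
  else .W (M.ds e) (linv (M.lt e)) (M.sr e) true

theorem fg_inner (M : WD Γ n κ w cl D) {d : D} (h : M.inner d) :
    M.fg d = .L (M.sg d) (M.tm d) := by unfold fg; rw [if_pos h]

theorem fg_wk (M : WD Γ n κ w cl D) {d : D} (h : M.wk d) :
    M.fg d = .W (M.sr d) (M.lt d) (M.ds d) false := by
  unfold fg; rw [if_neg (fun hh => M.disj d hh h)]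

theorem bg_inner (M : WD Γ n κ w cl D) {d : D} (h : M.inner d) :
    M.bg d = .L (!(M.sg d)) (n - 1 - M.tm d) := by unfold bg; rw [if_pos h]

theorem bg_wk (M : WD Γ n κ w cl D) {d : D} (h : M.wk d) :
    M.bg d = .W (M.ds d) (linv (M.lt d)) (M.sr d) true := by
  unfold bg; rw [if_neg (fun hh => M.disj d hh h)]

/-- the germs of the two sides of an edge fit -/
theorem ok_germs (hC : CellIn Γ n w cl) (M : WD Γ n κ w cl D) (hR : M.Red) {d : D}
    (h : M.al d) : (M.fg d).ok n w cl (M.bg (M.ε d)) := by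
  have he := M.al_eps h
  have hlt : M.lt (M.ε d) = linv (M.lt d) := M.lt_eps h
  have hR1 := hR d h
  have hR2 := hR _ he
  rw [M.eps_eps] at hR2
  unfold Mir at hR1 hR2
  push Not at hR1 hR2
  rcases h with h | h <;> rcases he with he | he
  · rw [M.fg_inner h, M.bg_inner he]
    have ht := M.tm_lt _ he
    have htd := M.tm_lt _ h
    refine ⟨?_, ?_⟩
    · rw [wl_flip n w _ _ ht, ← M.lt_inner _ he, hlt, linv_linv, M.lt_inner _ h]
    · intro hh
      have h1 := congrArg Prod.fst hh
      have h2 := congrArg Prod.snd hh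
      simp only at h1 h2
      refine hR1.1 h he ?_ ?_
      · rw [h1]; simp
      · omega
  · rw [M.fg_inner h, M.bg_wk he]
    refine ⟨?_, ?_⟩
    · show wl n w (M.sg d) (M.tm d) = linv (M.lt (M.ε d))
      rw [hlt, linv_linv, M.lt_inner _ h]
    · show cv n cl (M.sg d) (M.tm d) ≠ M.ds (M.ε d)
      rw [← M.sr_inner _ h]
      exact hR2.2 (fun hh => absurd he (M.disj _ hh))
  · rw [M.fg_wk h, M.bg_inner he]
    have ht := M.tm_lt _ he
    refine ⟨?_, ?_⟩
    · show M.lt d = wl n w (!(M.sg (M.ε d))) (n - 1 - M.tm (M.ε d))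
      rw [wl_flip n w _ _ ht, ← M.lt_inner _ he, hlt, linv_linv]
    · show M.sr d ≠ cv n cl (!(M.sg (M.ε d))) (n - 1 - M.tm (M.ε d))
      rw [cv_flip n cl _ ht, ← M.ds_inner _ he]
      exact hR2.2 (fun _ hh => absurd h (M.disj _ hh))
  · rw [M.fg_wk h, M.bg_wk he]
    refine ⟨?_, ?_⟩
    · show M.lt d = linv (M.lt (M.ε d))
      rw [hlt, linv_linv]
    · show M.sr d ≠ M.ds (M.ε d)
      exact hR2.2 (fun hh => absurd he (M.disj _ hh))

/-- base corners are not adjacent to the two sides of an edge -/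
theorem not_both (hC : CellIn Γ n w cl) (hn : 2 ≤ n) (hc : w (n - 1) ≠ linv (w 0))
    (hU : w 0 ≠ w (n - 1)) (hL : LoopP Γ) (M : WD Γ n κ w cl D) (hR : M.Red) {d : D}
    (h : M.al d) : ¬ (M.be d ∧ M.be (M.ε d)) := by
  rintro ⟨b1, b2⟩
  have he := M.al_eps h
  have hlt : M.lt (M.ε d) = linv (M.lt d) := M.lt_eps h
  have hR1 := hR d h
  have hR2 := hR _ he
  rw [M.eps_eps] at hR2
  by_cases hii : M.inner d ∧ M.inner (M.ε d)
  · obtain ⟨i1, i2⟩ := hii
    have h1 : M.tm d = 0 ∨ M.tm d = n - 1 := by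
      rcases b1 with b1 | b1
      · exact b1.2
      · exact absurd b1.1 (M.disj _ i1)
    have h2 : M.tm (M.ε d) = 0 ∨ M.tm (M.ε d) = n - 1 := by
      rcases b2 with b2 | b2
      · exact b2.2
      · exact absurd b2.1 (M.disj _ i2)
    have hl := hlt
    rw [M.lt_inner _ i1, M.lt_inner _ i2] at hl
    have hred : ¬ (M.sg (M.ε d) = !(M.sg d) ∧ M.tm (M.ε d) = n - 1 - M.tm d) :=
      fun hh => hR1 (Or.inl ⟨i1, i2, hh⟩)
    have e0 : n - 1 - (n - 1) = 0 := by omega
    have e1 : n - 1 - 0 = n - 1 := by omega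
    rcases h1 with h1 | h1 <;> rcases h2 with h2 | h2 <;> rw [h1, h2] at hl hred <;>
      cases hs : M.sg d <;> cases hs' : M.sg (M.ε d) <;> rw [hs, hs'] at hl hred <;>
      simp only [wl, e0, e1, linv_linv, not_true_eq_false, and_true, Bool.not_true, Bool.not_false,
        and_self] at hl hred <;>
      first
      | exact linv_ne _ hl.symm
      | exact linv_ne _ hl
      | exact hU hl
      | exact hU hl.symm
      | exact hU (linv_inj hl)
      | exact hU (linv_inj hl).symm
      | exact hc hl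
      | exact hc hl.symm
      | exact hc (by rw [hl, linv_linv])
      | exact hc (by rw [← hl, linv_linv])
  · have n1 : M.sr (M.ε d) ≠ M.ds d := fun hh => hR1 (Or.inr ⟨hii, hh⟩)
    have n2 : M.sr d ≠ M.ds (M.ε d) := fun hh => hR2 (Or.inr ⟨fun hx => hii hx.symm, hh⟩)
    have end1 : ∀ x, M.be x → M.sr x = Γ.st ∨ M.ds x = Γ.st := by
      rintro x (⟨i, t | t⟩ | ⟨_, hx⟩)
      · left; rw [M.sr_inner _ i, t, hC.cv_zero]
      · right; rw [M.ds_inner _ i, t, show n - 1 + 1 = n by omega, hC.cv_n]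
      · exact hx
    have ed := M.edge_al hC h
    have ee := M.edge_al hC he
    rw [hlt] at ee
    rcases end1 _ b1 with x1 | x1 <;> rcases end1 _ b2 with x2 | x2
    · rw [x1] at ed; rw [x2] at ee
      exact n1 (x2.trans (hL _ _ _ ed ee).symm)
    · exact n2 (x1.trans x2.symm)
    · exact n1 (x2.trans x1.symm)
    · have ed' := Γ.symm ed
      have ee' := Γ.symm ee
      rw [x1] at ed'; rw [x2, linv_linv] at ee'
      exact n1 ((hL _ _ _ ee' ed').trans x1.symm)

/-- all darts at the vertex of `d` are alive, do not leave the base and do not enter it as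
walker darts -/
def um (M : WD Γ n κ w cl D) (d : D) : Prop :=
  ∀ e, SameCycle (M.φ * M.ε) d e → M.al e ∧ ¬ M.B e ∧ ¬ M.En e

/-- closable half edges -/
def clo (M : WD Γ n κ w cl D) (d : D) : Prop := ClW Γ n w cl (M.fg d) (M.bg (M.ε d))

theorem um_next (M : WD Γ n κ w cl D) {d : D} (h : M.um d) : M.um ((M.φ * M.ε) d) := by
  intro e he
  exact h e (SameCycle.trans ⟨1, by simp⟩ he)

theorem um_inner (M : WD Γ n κ w cl D) {d : D} (h : M.um d) (he : M.inner (M.ε d)) :
    M.tm (M.ε d) + 1 < n := by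
  have hlt := M.tm_lt _ he
  rcases Nat.lt_or_ge (M.tm (M.ε d) + 1) n with h1 | h1
  · exact h1
  · exfalso
    have h2 := M.tm_zero _ he (by omega)
    exact (h ((M.φ * M.ε) d) ⟨1, by simp⟩).2.1 (Or.inl ⟨M.phi_inner _ he, h2⟩)

theorem um_wk (hC : CellIn Γ n w cl) (M : WD Γ n κ w cl D) {d : D} (h : M.um d)
    (he : M.wk (M.ε d)) :
    M.ds (M.ε d) ≠ Γ.st ∧ M.sr (M.φ (M.ε d)) = M.ds (M.ε d) := by
  have h1 := (h ((M.φ * M.ε) d) ⟨1, by simp⟩).2.1
  have h2 : M.sr (M.φ (M.ε d)) ≠ Γ.st := fun hh => h1 (Or.inr ⟨M.phi_wk _ he, hh⟩)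
  rcases M.trans _ he with h3 | h3
  · exact ⟨by rw [← h3]; exact h2, h3⟩
  · exact absurd h3.2 h2

theorem valid_fg (hC : CellIn Γ n w cl) (M : WD Γ n κ w cl D) {d : D} (h : M.um d) :
    (M.fg d).valid Γ n := by
  obtain ⟨h1, h2, h3⟩ := h d (SameCycle.refl _ _)
  rcases h1 with h1 | h1
  · rw [M.fg_inner h1]
    refine ⟨?_, M.tm_lt d h1⟩
    by_contra hcon
    exact h2 (Or.inl ⟨h1, by omega⟩)
  · rw [M.fg_wk h1]
    refine ⟨M.edge d h1, fun hh => h2 (Or.inr ⟨h1, hh⟩), fun _ hh => h3 ⟨h1, hh, ?_⟩⟩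
    exact fun hh => h2 (Or.inr ⟨h1, hh⟩)

theorem valid_bg (hC : CellIn Γ n w cl) (M : WD Γ n κ w cl D) {d : D} (h : M.um d) :
    (M.bg (M.ε d)).valid Γ n := by
  obtain ⟨h1, h2, h3⟩ := h d (SameCycle.refl _ _)
  rcases M.al_eps h1 with he | he
  · rw [M.bg_inner he]
    have := M.um_inner h he
    show 1 ≤ n - 1 - M.tm (M.ε d) ∧ n - 1 - M.tm (M.ε d) < n
    omega
  · rw [M.bg_wk he]
    exact ⟨Γ.symm (M.edge _ he), (M.um_wk hC h he).1, fun hh => absurd hh (by decide)⟩

theorem cor_next (hC : CellIn Γ n w cl) (M : WD Γ n κ w cl D) (hI : M.Imm) {d : D}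
    (h : M.um d) : (M.bg (M.ε d)).cor n (M.fg ((M.φ * M.ε) d)) := by
  obtain ⟨h1, h2, h3⟩ := h d (SameCycle.refl _ _)
  rw [Perm.mul_apply]
  rcases M.al_eps h1 with he | he
  · have h4 := M.um_inner h he
    rw [M.bg_inner he, M.fg_inner (M.phi_inner _ he), M.tm_succ _ he h4, M.sg_inner _ he]
    refine ⟨by simp, ?_⟩
    show M.tm (M.ε d) + 1 = n - (n - 1 - M.tm (M.ε d))
    omega
  · rw [M.bg_wk he, M.fg_wk (M.phi_wk _ he)]
    exact ⟨(M.um_wk hC h he).2, hI _ he (M.um_wk hC h he).2, rfl⟩

theorem chain_of (hC : CellIn Γ n w cl) (M : WD Γ n κ w cl D) (hI : M.Imm) (r : ℕ) :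
    ∀ d : D, M.um d → (∀ i ≤ r, M.clo (((M.φ * M.ε) ^ i) d)) →
    ChnW Γ n w cl (M.fg d) (M.bg (M.ε (((M.φ * M.ε) ^ r) d))) := by
  induction r with
  | zero =>
    intro d _ h
    exact ChnW.one _ _ (h 0 le_rfl)
  | succ r ih =>
    intro d hd h
    have h1 := ih ((M.φ * M.ε) d) (M.um_next hd) (fun i hi => by
      have := h (i + 1) (by omega)
      rwa [pow_succ, Perm.mul_apply] at this)
    have h2 := h 0 (by omega)
    rw [pow_succ, Perm.mul_apply]
    exact ChnW.cons _ _ _ _ h2 (M.valid_fg hC (M.um_next hd)) (M.cor_next hC hI hd) h1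

open Classical in
/-- the charge of a dart -/
noncomputable def chg (M : WD Γ n κ w cl D) (d : D) : ℕ :=
  if ¬ M.al d then 2
  else if M.B d then 2
  else if (M.inner (M.ε d) ∧ M.tm (M.ε d) = n - 1) ∨ M.En (M.ε d) then 2
  else if M.um d ∧ ¬ M.clo d then (if M.um (M.ε d) ∧ ¬ M.clo (M.ε d) then 1 else 2)
  else 0

variable (hC : CellIn Γ n w cl) (hn : 2 ≤ n) (hw : ∀ k, k + 1 < n → w (k + 1) ≠ linv (w k))
  (hc : w (n - 1) ≠ linv (w 0)) (hU : w 0 ≠ w (n - 1)) (hL : LoopP Γ) (hT : T0W Γ n w cl)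

theorem be_of_B (M : WD Γ n κ w cl D) {d : D} (h : M.B d) : M.be d := by
  rcases h with h | h
  · exact Or.inl ⟨h.1, Or.inl h.2⟩
  · exact Or.inr ⟨h.1, Or.inl h.2⟩

theorem be_of_B' (M : WD Γ n κ w cl D) {e : D} (h : (M.inner e ∧ M.tm e = n - 1) ∨ M.En e) :
    M.be e := by
  rcases h with h | h
  · exact Or.inl ⟨h.1, Or.inr h.2⟩
  · exact Or.inr ⟨h.1, Or.inr h.2.1⟩

include hC hn in
/-- the other half edge of a base edge is closable if its vertex is unmarked -/
theorem clo_of_base (M : WD Γ n κ w cl D) (hR : M.Red) {d : D} (hu : M.um (M.ε d))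
    (hb : M.B d ∨ (M.inner (M.ε d) ∧ M.tm (M.ε d) = n - 1) ∨ M.En (M.ε d)) :
    M.clo (M.ε d) := by
  have heal := (hu _ (SameCycle.refl _ _)).1
  have hv1 := M.valid_fg hC hu
  have hv2 := M.valid_bg hC hu
  have hok := M.ok_germs hC hR heal
  rw [M.eps_eps] at hv2 hok
  unfold clo
  rw [M.eps_eps]
  refine ClW.term _ _ hv1 hv2 hok ?_
  rcases hb with (⟨h1, h2⟩ | ⟨h1, h2⟩) | ⟨h1, h2⟩ | h1
  · right
    rw [M.bg_inner h1, h2]
    show n - 1 - 0 + 1 = n
    omega
  · right
    rw [M.bg_wk h1]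
    exact ⟨h2, rfl⟩
  · left
    rw [M.fg_inner h1, h2]
    show n - 1 + 1 = n
    omega
  · exact absurd h1 (hu _ (SameCycle.refl _ _)).2.2

include hC hn hc hU hL in
theorem chg_base (M : WD Γ n κ w cl D) (hR : M.Red) {d : D} (h : M.al d)
    (hb : M.B d ∨ (M.inner (M.ε d) ∧ M.tm (M.ε d) = n - 1) ∨ M.En (M.ε d)) :
    M.chg d = 2 ∧ M.chg (M.ε d) = 0 := by
  have hnb := M.not_both hC hn hc hU hL hR h
  have he := M.al_eps h
  constructor
  · unfold chg
    rw [if_neg (not_not.mpr h)]
    by_cases h1 : M.B d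
    · rw [if_pos h1]
    · rw [if_neg h1, if_pos (hb.resolve_left h1)]
  · unfold chg
    rw [if_neg (not_not.mpr he), M.eps_eps]
    have h2 : ¬ M.B (M.ε d) := by
      intro h2
      rcases hb with hb | hb
      · exact hnb ⟨M.be_of_B hb, M.be_of_B h2⟩
      · rcases hb with hb | hb
        · rcases h2 with h2 | h2
          · omega
          · exact M.disj _ hb.1 h2.1
        · rcases h2 with h2 | h2
          · exact M.disj _ h2.1 hb.1
          · exact hb.2.2 h2.2
    have h3 : ¬ ((M.inner d ∧ M.tm d = n - 1) ∨ M.En d) := by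
      intro h3
      rcases hb with hb | hb
      · rcases h3 with h3 | h3
        · rcases hb with hb | hb
          · omega
          · exact M.disj _ h3.1 hb.1
        · rcases hb with hb | hb
          · exact M.disj _ hb.1 h3.1
          · exact h3.2.2 hb.2
      · exact hnb ⟨M.be_of_B' h3, M.be_of_B' hb⟩
    rw [if_neg h2, if_neg h3, if_neg (fun hh => hh.2 (M.clo_of_base hC hn hR hh.1 hb))]

include hC hn hc hU hL in
theorem chg_pair (M : WD Γ n κ w cl D) (hR : M.Red) {d : D} (h : M.al d) :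
    M.chg d + M.chg (M.ε d) ≤ 2 := by
  have he := M.al_eps h
  by_cases h1 : M.B d ∨ (M.inner (M.ε d) ∧ M.tm (M.ε d) = n - 1) ∨ M.En (M.ε d)
  · have := M.chg_base hC hn hc hU hL hR h h1
    omega
  by_cases h2 : M.B (M.ε d) ∨ (M.inner d ∧ M.tm d = n - 1) ∨ M.En d
  · have := M.chg_base hC hn hc hU hL hR he (by rw [M.eps_eps]; exact h2)
    rw [M.eps_eps] at this
    omega
  rw [not_or] at h1 h2
  unfold chg
  rw [if_neg (not_not.mpr h), if_neg (not_not.mpr he), M.eps_eps, if_neg h1.1, if_neg h1.2,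
    if_neg h2.1, if_neg h2.2]
  by_cases h3 : M.um d ∧ ¬ M.clo d <;> by_cases h4 : M.um (M.ε d) ∧ ¬ M.clo (M.ε d)
  · rw [if_pos h3, if_pos h4, if_pos h4, if_pos h3]
  · rw [if_pos h3, if_neg h4, if_neg h4]
  · rw [if_neg h3, if_pos h4, if_neg h3]
  · rw [if_neg h3, if_neg h4]; omega

include hC hn hc hU hL in
open Classical in
theorem chg_sum (M : WD Γ n κ w cl D) (hR : M.Red) :
    ∑ d, M.chg d ≤ (univ.filter (fun d => M.al d)).card +
      2 * (univ.filter (fun d => ¬ M.al d)).card := by
  have h1 : ∑ d, M.chg (M.ε d) = ∑ d, M.chg d := Equiv.sum_comp M.ε M.chg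
  have h2 : ∑ d, (M.chg d + M.chg (M.ε d)) ≤
      ∑ d, ((if M.al d then 2 else 0) + (if ¬ M.al d then 4 else 0)) := by
    apply Finset.sum_le_sum
    intro d _
    by_cases hd : M.al d
    · rw [if_pos hd, if_neg (not_not.mpr hd)]
      have := M.chg_pair hC hn hc hU hL hR hd
      omega
    · rw [if_neg hd, M.glue.dead d hd, if_pos hd]
      have : M.chg d = 2 := by
        unfold chg; rw [if_pos hd]
      omega
  rw [Finset.sum_add_distrib, Finset.sum_add_distrib, h1] at h2
  have h3 : ∑ d, (if M.al d then 2 else 0) = 2 * (univ.filter (fun d => M.al d)).card := by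
    rw [← Finset.sum_filter, Finset.sum_const, smul_eq_mul, mul_comm]
  have h4 : ∑ d, (if ¬ M.al d then 4 else 0) = 4 * (univ.filter (fun d => ¬ M.al d)).card := by
    rw [← Finset.sum_filter, Finset.sum_const, smul_eq_mul, mul_comm]
  rw [h3, h4] at h2
  omega

include hC hn hw hT in
open Classical in
/-- unmarked vertices receive charge at least 2 -/
theorem chg_um (M : WD Γ n κ w cl D) (hR : M.Red) (hI : M.Imm) {x : D} (hx : M.um x) :
    2 ≤ ∑ d with cs (M.φ * M.ε) x d, M.chg d := by
  set ν := M.φ * M.ε with hν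
  have humall : ∀ d, SameCycle ν x d → M.um d := fun d hd e he => hx e (hd.trans he)
  have hval : ∀ d, SameCycle ν x d → ¬ M.clo d →
      M.chg d = if M.um (M.ε d) ∧ ¬ M.clo (M.ε d) then 1 else 2 := by
    intro d hd hcl
    have hud := humall d hd
    have h1 := hud d (SameCycle.refl _ _)
    have h2 : ¬ ((M.inner (M.ε d) ∧ M.tm (M.ε d) = n - 1) ∨ M.En (M.ε d)) := by
      rintro (h2 | h2)
      · have := M.um_inner hud h2.1
        omega
      · exact (M.um_wk hC hud h2.1).1 h2.2.1
    unfold chg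
    rw [if_neg (not_not.mpr h1.1), if_neg h1.2.1, if_neg h2, if_pos ⟨hud, hcl⟩]
  by_cases hex : ∃ d, SameCycle ν x d ∧ ¬ M.clo d
  · obtain ⟨d0, hd0, hcl0⟩ := hex
    by_cases hex2 : ∃ d, SameCycle ν x d ∧ ¬ M.clo d ∧ d ≠ d0
    · obtain ⟨d1, hd1, hcl1, hne⟩ := hex2
      have hsub : ({d0, d1} : Finset D) ⊆ univ.filter (fun d => cs ν x d) := by
        intro y hy
        simp only [Finset.mem_insert, Finset.mem_singleton] at hy
        simp only [Finset.mem_filter, Finset.mem_univ, true_and]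
        rcases hy with rfl | rfl
        · exact hd0
        · exact hd1
      refine le_trans ?_ (Finset.sum_le_sum_of_subset hsub)
      rw [Finset.sum_pair hne.symm, hval d0 hd0 hcl0, hval d1 hd1 hcl1]
      split_ifs <;> omega
    · push Not at hex2
      have hclo : ∀ d, SameCycle ν x d → d ≠ d0 → M.clo d := by
        intro d hd hne
        by_contra hcon
        exact hne (hex2 d hd hcon)
      have hsub : ({d0} : Finset D) ⊆ univ.filter (fun d => cs ν x d) := by
        intro y hy
        simp only [Finset.mem_singleton] at hy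
        simp only [Finset.mem_filter, Finset.mem_univ, true_and]
        exact hy ▸ hd0
      refine le_trans ?_ (Finset.sum_le_sum_of_subset hsub)
      rw [Finset.sum_singleton, hval d0 hd0 hcl0, if_neg]
      rintro ⟨hue, hcle⟩
      apply hcle
      -- the reverse half edge is closable
      have hud := humall d0 hd0
      have hd0al := hud d0 (SameCycle.refl _ _)
      have heal := hue (M.ε d0) (SameCycle.refl _ _)
      -- minimal period
      have hper : ∃ k, 0 < k ∧ (ν ^ k) d0 = d0 :=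
        ⟨orderOf ν, orderOf_pos ν, by simp [pow_orderOf_eq_one]⟩
      let p := Nat.find hper
      obtain ⟨hp0, hp⟩ : 0 < p ∧ (ν ^ p) d0 = d0 := Nat.find_spec hper
      have hmin : ∀ i, 0 < i → i < p → (ν ^ i) d0 ≠ d0 := fun i h0 hi h1 =>
        Nat.find_min hper hi ⟨h0, h1⟩
      have hsc : ∀ i : ℕ, SameCycle ν x ((ν ^ i) d0) := fun i =>
        hd0.trans ⟨(i : ℤ), by rw [zpow_natCast]⟩
      have hltd : M.lt (M.ε d0) = linv (M.lt d0) := M.lt_eps hd0al.1
      have hp2 : 2 ≤ p := by
        by_contra hcon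
        have hp1 : p = 1 := by omega
        rw [hp1, pow_one] at hp
        have hp' : M.φ (M.ε d0) = d0 := hp
        rcases heal.1 with he | he
        · have h1 := M.um_inner hud he
          have h2 := M.tm_succ _ he h1
          have h3 := M.sg_inner _ he
          have h4 := M.phi_inner _ he
          rw [hp'] at h2 h3 h4
          rw [M.lt_inner _ he, M.lt_inner _ h4, h2, h3] at hltd
          cases hs : M.sg (M.ε d0)
          · rw [hs] at hltd
            simp only [wl, linv_linv] at hltd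
            apply hw (n - 1 - (M.tm (M.ε d0) + 1)) (by omega)
            have e1 : n - 1 - (M.tm (M.ε d0) + 1) + 1 = n - 1 - M.tm (M.ε d0) := by omega
            rw [e1, ← hltd, linv_linv]
          · rw [hs] at hltd
            simp only [wl] at hltd
            apply hw (M.tm (M.ε d0)) (by omega)
            rw [hltd, linv_linv]
        · have h1 := M.um_wk hC hud he
          have h2 := hI _ he h1.2
          rw [hp', hltd, linv_linv] at h2
          exact h2 rfl
      have hchain := M.chain_of hC hI (p - 2) (ν d0) (M.um_next hud) (fun i hi => by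
        have e1 : ((M.φ * M.ε) ^ i) (ν d0) = (ν ^ (i + 1)) d0 := by
          rw [pow_succ]; rfl
        rw [e1]
        apply hclo _ (hsc _)
        exact hmin _ (by omega) (by omega))
      have e2 : ((M.φ * M.ε) ^ (p - 2)) (ν d0) = (ν ^ (p - 1)) d0 := by
        have : p - 1 = (p - 2) + 1 := by omega
        rw [this, pow_succ]; rfl
      rw [e2] at hchain
      set l := (ν ^ (p - 1)) d0 with hl
      have hul : M.um l := humall _ (hsc (p - 1))
      have e3 : M.φ (M.ε l) = d0 := by
        show ν l = d0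
        rw [hl, ← Perm.mul_apply, ← pow_succ', Nat.sub_add_cancel hp0, hp]
      have hcl : M.al (M.ε l) := M.al_eps (hul l (SameCycle.refl _ _)).1
      have hv1 := M.valid_fg hC hue
      have hv2 := M.valid_bg hC hue
      have hok := M.ok_germs hC hR heal.1
      rw [M.eps_eps] at hv2 hok
      unfold clo
      rw [M.eps_eps]
      refine ClW.step _ _ _ _ hv1 hv2 hok (M.valid_fg hC (M.um_next hud)) (M.valid_bg hC hul)
        ?_ ?_ hchain
      · -- continuation along `ε d0`
        rw [Perm.mul_apply]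
        rcases heal.1 with he | he
        · have h1 := M.um_inner hud he
          rw [M.fg_inner he, M.fg_inner (M.phi_inner _ he), M.tm_succ _ he h1, M.sg_inner _ he]
          exact ⟨rfl, rfl⟩
        · have h1 := M.um_wk hC hud he
          rw [M.fg_wk he, M.fg_wk (M.phi_wk _ he)]
          exact ⟨h1.2, hI _ he h1.2, rfl⟩
      · -- continuation along `d0` backwards
        rcases hcl with he | he
        · have h1 := M.um_inner hul he
          have h2 := M.tm_succ _ he h1
          have h3 := M.sg_inner _ he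
          have h4 := M.phi_inner _ he
          rw [e3] at h2 h3 h4
          rw [M.bg_inner he, M.bg_inner h4, h2, h3]
          refine ⟨rfl, ?_⟩
          show n - 1 - M.tm (M.ε l) = n - 1 - (M.tm (M.ε l) + 1) + 1
          omega
        · have h1 := M.um_wk hC hul he
          have h2 := hI _ he h1.2
          have h4 := M.phi_wk _ he
          rw [e3] at h1 h2 h4
          rw [M.bg_wk he, M.bg_wk h4]
          refine ⟨h1.2.symm, ?_, rfl⟩
          rw [linv_linv]
          exact fun hh => h2 hh.symm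
  · -- everything closable: contradiction with T0W
    exfalso
    push Not at hex
    have ho : 0 < orderOf ν := orderOf_pos ν
    have hchain := M.chain_of hC hI (orderOf ν - 1) x hx
      (fun i _ => hex _ ⟨(i : ℤ), by rw [zpow_natCast]⟩)
    set l := (ν ^ (orderOf ν - 1)) x with hl
    have hul : M.um l := humall _ ⟨((orderOf ν - 1 : ℕ) : ℤ), by rw [zpow_natCast]⟩
    have e3 : (M.φ * M.ε) l = x := by
      rw [← hν, hl, ← Perm.mul_apply, ← pow_succ', Nat.sub_add_cancel ho, pow_orderOf_eq_one]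
      rfl
    have h5 := M.cor_next hC hI hul
    rw [e3] at h5
    exact hT _ _ (M.valid_fg hC hx) (M.valid_bg hC hul) h5 hchain

open Classical in
/-- weight of a dart -/
noncomputable def wgt (M : WD Γ n κ w cl D) (d : D) : ℕ :=
  (if M.inner d ∧ M.tm d = 0 then 2 else 0) + (if M.En (M.φ⁻¹ d) then 2 else 0)

open Classical in
/-- charge with the compensation of the darts entering the base -/
noncomputable def cg2 (M : WD Γ n κ w cl D) (d : D) : ℕ :=
  M.chg d + (if M.En d then 2 else 0)

include hC hn hw hc hU hL hT in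
open Classical in
theorem chg_class (M : WD Γ n κ w cl D) (hR : M.Red) (hI : M.Imm) (x : D) :
    2 + ∑ d with cs (M.φ * M.ε) x d, M.wgt d ≤ ∑ d with cs (M.φ * M.ε) x d, M.cg2 d := by
  set ν := M.φ * M.ε with hν
  have enB : ∀ d, M.En (M.φ⁻¹ d) → M.B d := by
    intro d hd
    have h1 := M.trans _ hd.1
    have h2 := M.phi_wk _ hd.1
    have h3 : M.φ (M.φ⁻¹ d) = d := by simp
    rw [h3] at h1 h2
    rcases h1 with h1 | h1
    · exact Or.inr ⟨h2, h1.trans hd.2.1⟩
    · exact absurd hd.2.1 h1.1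
  by_cases hmark : ∃ y, SameCycle ν x y ∧ M.B y
  · obtain ⟨y, hy, hyB⟩ := hmark
    let p : D → D := fun d => M.ε (M.φ⁻¹ d)
    have hpν : ∀ d, ν (p d) = d := by
      intro d
      show M.φ (M.ε (M.ε (M.φ⁻¹ d))) = d
      rw [M.eps_eps]
      simp
    have hpinj : Function.Injective p := by
      intro a c hac
      rw [← hpν a, hac, hpν]
    let T : D → Prop := fun d => (M.inner d ∧ M.tm d = 0) ∨ M.En (M.φ⁻¹ d)
    have hpt : ∀ d, T d → M.al (p d) ∧
        ((M.inner (M.ε (p d)) ∧ M.tm (M.ε (p d)) = n - 1) ∨ M.En (M.ε (p d))) := by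
      intro d hd
      have e0 : M.ε (p d) = M.φ⁻¹ d := M.eps_eps _
      rw [e0]
      rcases hd with hd | hd
      · have h1 : M.inner (M.φ⁻¹ d) := (M.inner_iff _).mpr (by simpa using hd.1)
        refine ⟨M.al_eps (Or.inl h1), Or.inl ⟨h1, ?_⟩⟩
        have h2 := M.tm_step h1
        have h3 := M.tm_lt _ h1
        have h4 : M.φ (M.φ⁻¹ d) = d := by simp
        rw [h4, hd.2] at h2
        rcases Nat.lt_or_ge (M.tm (M.φ⁻¹ d) + 1) n with h5 | h5
        · rw [Nat.mod_eq_of_lt h5] at h2; omega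
        · omega
      · exact ⟨M.al_eps (Or.inr hd.1), Or.inr hd⟩
    let Q : Finset D := univ.filter (fun d => cs ν x d)
    let Z : Finset D := Q.filter (fun d => M.B d)
    let I : Finset D := Q.filter (fun d => T d)
    let P : Finset D := I.image p
    have hPQ : P ⊆ Q := by
      intro z hz
      obtain ⟨d, hd, rfl⟩ := Finset.mem_image.mp hz
      simp only [I, Q, Finset.mem_filter, Finset.mem_univ, true_and] at hd ⊢
      refine SameCycle.trans hd.1 (SameCycle.symm ⟨1, ?_⟩)
      rw [zpow_one, hpν]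
    have hZQ : Z ⊆ Q := Finset.filter_subset _ _
    have hPc : ∀ z ∈ P, M.chg z = 2 ∧ ¬ M.B z := by
      intro z hz
      obtain ⟨d, hd, rfl⟩ := Finset.mem_image.mp hz
      simp only [I, Q, Finset.mem_filter, Finset.mem_univ, true_and] at hd
      obtain ⟨h1, h2⟩ := hpt d hd.2
      refine ⟨(M.chg_base hC hn hc hU hL hR h1 (Or.inr h2)).1, ?_⟩
      intro h3
      exact M.not_both hC hn hc hU hL hR h1 ⟨M.be_of_B h3, M.be_of_B' h2⟩
    have hBal : ∀ z, M.B z → M.al z := by
      rintro z (h | h)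
      · exact Or.inl h.1
      · exact Or.inr h.1
    have hZc : ∀ z ∈ Z, M.chg z = 2 ∧ M.B z := by
      intro z hz
      simp only [Z, Finset.mem_filter] at hz
      exact ⟨(M.chg_base hC hn hc hU hL hR (hBal z hz.2) (Or.inl hz.2)).1, hz.2⟩
    have hdisj : Disjoint Z P := by
      rw [Finset.disjoint_left]
      intro z h1 h2
      exact (hPc z h2).2 (hZc z h1).2
    have hsum : ∑ d ∈ Z ∪ P, M.chg d ≤ ∑ d ∈ Q, M.cg2 d :=
      le_trans (Finset.sum_le_sum_of_subset (Finset.union_subset hZQ hPQ))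
        (Finset.sum_le_sum (fun d _ => Nat.le_add_right _ _))
    rw [Finset.sum_union hdisj, Finset.sum_congr rfl (fun z hz => (hZc z hz).1),
      Finset.sum_congr rfl (fun z hz => (hPc z hz).1), Finset.sum_const, Finset.sum_const,
      smul_eq_mul, smul_eq_mul, Finset.card_image_of_injective I hpinj] at hsum
    have hZpos : 0 < Z.card := Finset.card_pos.mpr ⟨y, by
      simp only [Z, Q, Finset.mem_filter, Finset.mem_univ, true_and]
      exact ⟨hy, hyB⟩⟩
    have hI2 : ∑ d with cs ν x d, M.wgt d ≤ I.card * 2 := by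
      have h1 : ∑ d with cs ν x d, M.wgt d ≤ ∑ d with cs ν x d, (if T d then 2 else 0) := by
        apply Finset.sum_le_sum
        intro d _
        unfold wgt
        by_cases h1 : M.inner d ∧ M.tm d = 0
        · have h2 : ¬ M.En (M.φ⁻¹ d) := by
            intro hh
            have h3 := M.phi_wk _ hh.1
            have h4 : M.φ (M.φ⁻¹ d) = d := by simp
            rw [h4] at h3
            exact M.disj _ h1.1 h3
          rw [if_pos h1, if_neg h2, if_pos (Or.inl h1)]
        · rw [if_neg h1]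
          by_cases h2 : M.En (M.φ⁻¹ d)
          · rw [if_pos h2, if_pos (Or.inr h2)]
          · rw [if_neg h2]; exact Nat.zero_le _
      refine le_trans h1 (le_of_eq ?_)
      rw [← Finset.sum_filter, Finset.sum_const, smul_eq_mul]
    have : ∑ d ∈ Q, M.cg2 d = ∑ d with cs ν x d, M.cg2 d := rfl
    omega
  · push Not at hmark
    have hg0 : ∑ d with cs ν x d, M.wgt d = 0 := by
      apply Finset.sum_eq_zero
      intro d hd
      simp only [Finset.mem_filter, Finset.mem_univ, true_and] at hd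
      unfold wgt
      rw [if_neg (fun hh => hmark d hd (Or.inl hh)),
        if_neg (fun hh => hmark d hd (enB d hh)), Nat.add_zero]
    rw [hg0, Nat.add_zero]
    have single : ∀ y, SameCycle ν x y → 2 ≤ M.cg2 y →
        2 ≤ ∑ d with cs ν x d, M.cg2 d := by
      intro y hy h2
      have hsub : ({y} : Finset D) ⊆ univ.filter (fun d => cs ν x d) := by
        intro z hz
        simp only [Finset.mem_singleton] at hz
        simp only [Finset.mem_filter, Finset.mem_univ, true_and]
        exact hz ▸ hy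
      refine le_trans ?_ (Finset.sum_le_sum_of_subset hsub)
      rw [Finset.sum_singleton]
      exact h2
    by_cases hall : ∀ y, SameCycle ν x y → M.al y ∧ ¬ M.En y
    · have h1 := M.chg_um hC hn hw hT hR hI (x := x) (fun e he =>
        ⟨(hall e he).1, hmark e he, (hall e he).2⟩)
      exact le_trans h1 (Finset.sum_le_sum (fun d _ => Nat.le_add_right _ _))
    · push Not at hall
      obtain ⟨y, hy, hyal⟩ := hall
      apply single y hy
      by_cases h1 : M.al y
      · have h2 := hyal h1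
        unfold cg2
        rw [if_pos h2]
        omega
      · have h2 : M.chg y = 2 := by unfold chg; rw [if_pos h1]
        unfold cg2
        omega

include hC hn hw hc hU hL hT in
/-- there is no reduced walk diagram if `T0W` holds -/
theorem no_reduced (M : WD Γ n κ w cl D) (hR : M.Red) (hI : M.Imm) : False := by
  classical
  have h1 := ncl_weight (cs (M.φ * M.ε)) 2 M.cg2 M.wgt
    (fun x => M.chg_class hC hn hw hc hU hL hT hR hI x)
  have h2 := M.chg_sum hC hn hc hU hL hR
  have h3 := M.euler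
  have h5 : ∑ d, M.wgt d = 2 * (univ.filter (fun d => M.inner d ∧ M.tm d = 0)).card +
      2 * (univ.filter (fun d => M.En d)).card := by
    unfold wgt
    rw [Finset.sum_add_distrib]
    congr 1
    · rw [← Finset.sum_filter, Finset.sum_const, smul_eq_mul, mul_comm]
    · have : ∑ d, (if M.En (M.φ⁻¹ d) then 2 else 0) = ∑ d, (if M.En d then 2 else 0) :=
        Equiv.sum_comp M.φ⁻¹ (fun d => if M.En d then 2 else 0)
      rw [this, ← Finset.sum_filter, Finset.sum_const, smul_eq_mul, mul_comm]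
  have h6 : ∑ d, M.cg2 d = ∑ d, M.chg d + 2 * (univ.filter (fun d => M.En d)).card := by
    unfold cg2
    rw [Finset.sum_add_distrib]
    congr 1
    rw [← Finset.sum_filter, Finset.sum_const, smul_eq_mul, mul_comm]
  have h7 : ncl (cs (M.φ * M.ε)) = cyc (M.φ * M.ε) := rfl
  rw [h7, h5, h6] at h1
  omega

include hC hn hw hc hU hL hT in
/-- Main topological theorem: if `T0W` holds then there is no walk diagram at all. -/
theorem no_diagram (hκ : 0 < κ) (M : WD Γ n κ w cl D) : False := by
  obtain ⟨M', h1, h2⟩ := exists_red hC hκ M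
  exact M'.no_reduced hC hn hw hc hU hL hT h1 h2

end WD

end MM31
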