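import Pool.Agent.LibMM31.WDefs

/-!
# Closable pairs without a corner at a maximal position

Fix a position `p0` of the loop which is maximal for an order. Closable pairs whose half tree has
no corner at `p0` are typed: the flags say which of the two sides ends at its own base inside.
Around a vertex all of whose half edges are closable in this sense there are at least two
corners at `p0`.
-/

set_option linter.unusedSectionVars false

namespace MM31

variable {X V : Type}

/-- the object at the start of a germ: a position of the loop or a vertex of the graph -/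
def Gm.ob (n : ℕ) : Gm X V → ℕ ⊕ V
  | .L true k => Sum.inl k
  | .L false k => Sum.inl (n - k)
  | .W p _ _ _ => Sum.inr p

section

variable (Γ : PG X V) (n : ℕ) (w : ℕ → Lt X) (cl : ℕ → V) (p0 : ℕ)

mutual
/-- closable pairs without corners at `p0`; the flags tell whether the left (right) side ends
at its own base -/
inductive ClZ : Bool → Bool → Gm X V → Gm X V → Prop
  | tl (g h : Gm X V) : g.valid Γ n → h.valid Γ n → g.ok n w cl h → g.term Γ n →
      ClZ true false g h
  | tr (g h : Gm X V) : g.valid Γ n → h.valid Γ n → g.ok n w cl h → h.term Γ n →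
      ClZ false true g h
  | step (s t : Bool) (g h g' h' : Gm X V) : g.valid Γ n → h.valid Γ n → g.ok n w cl h →
      g'.valid Γ n → h'.valid Γ n → g.cont g' → h.cont h' →
      g'.ob n ≠ Sum.inl p0 → h'.ob n ≠ Sum.inl p0 → ChZ s t g' h' → ClZ s t g h
/-- alternating chains of such pairs; the inner corners are not at `p0` -/
inductive ChZ : Bool → Bool → Gm X V → Gm X V → Prop
  | one (s t : Bool) (g h : Gm X V) : ClZ s t g h → ChZ s t g h
  | cons (s t s' t' : Bool) (g h h' k : Gm X V) : ClZ s t g h → h'.valid Γ n → h.cor n h' →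
      h.ob n ≠ Sum.inl p0 → ChZ s' t' h' k → ChZ s t' g k
end

/-- An order of the objects with `p0` maximal. -/
structure OrdH where
  lt : ℕ ⊕ V → ℕ ⊕ V → Prop
  irr : ∀ a, ¬ lt a a
  trans : ∀ a b c, lt a b → lt b c → lt a c
  base : ∀ g h : Gm X V, g.valid Γ n → h.valid Γ n → g.ok n w cl h → g.term Γ n →
    lt (g.ob n) (h.ob n)
  comp : ∀ g h g' h' : Gm X V, g.valid Γ n → h.valid Γ n → g'.valid Γ n → h'.valid Γ n →
    g.ok n w cl h → g.cont g' → h.cont h' → lt (g'.ob n) (h'.ob n) → lt (g.ob n) (h.ob n)
  p0_pos : 1 ≤ p0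
  p0_lt : p0 < n
  maxi : ∀ h : Gm X V, h.valid Γ n → ¬ lt (Sum.inl p0) (h.ob n)

/-- the side of a germ ends at its own base before it reaches `p0` -/
def Gm.sh : Gm X V → Prop
  | .L true k => p0 ≤ k
  | .L false k => n - p0 ≤ k
  | .W _ _ _ b => b = true

end

section

variable {Γ : PG X V} {n : ℕ} {w : ℕ → Lt X} {cl : ℕ → V} {p0 : ℕ}

theorem Gm.ok_symm {g h : Gm X V} (hk : g.ok n w cl h) : h.ok n w cl g := by
  cases g <;> cases h <;> simp only [Gm.ok] at hk ⊢ <;> exact ⟨hk.1.symm, fun e => hk.2 e.symm⟩

/-- the two germs of a corner have the same object -/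
theorem Gm.cor_ob {g h : Gm X V} (hg : g.valid Γ n) (hc : g.cor n h) : g.ob n = h.ob n := by
  cases g with
  | L s k =>
    cases h with
    | L s' k' =>
      obtain ⟨rfl, rfl⟩ := hc
      obtain ⟨h1, h2⟩ := hg
      cases s
      · rfl
      · show Sum.inl k = Sum.inl (n - (n - k))
        congr 1
        omega
    | W p x q b => exact absurd hc (by simp [Gm.cor])
  | W p x q b =>
    cases h with
    | L s' k' => exact absurd hc (by simp [Gm.cor])
    | W p' x' q' b' =>
      obtain ⟨rfl, _, _⟩ := hc
      rfl

/-- a corner both of whose germs are short is at `p0` -/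
theorem Gm.cor_sh (hp : p0 < n) {g h : Gm X V} (hg : g.valid Γ n)
    (hc : g.cor n h) (h1 : g.sh n p0) (h2 : h.sh n p0) : g.ob n = Sum.inl p0 := by
  cases g with
  | L s k =>
    cases h with
    | L s' k' =>
      obtain ⟨rfl, rfl⟩ := hc
      obtain ⟨h3, h4⟩ := hg
      cases s
      · have h1' : n - p0 ≤ k := h1
        have h2' : p0 ≤ n - k := h2
        show Sum.inl (n - k) = Sum.inl p0
        congr 1
        omega
      · have h1' : p0 ≤ k := h1
        have h2' : n - p0 ≤ n - k := h2
        show Sum.inl k = Sum.inl p0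
        congr 1
        omega
    | W p x q b => exact absurd hc (by simp [Gm.cor])
  | W p x q b =>
    cases h with
    | L s' k' => exact absurd hc (by simp [Gm.cor])
    | W p' x' q' b' =>
      obtain ⟨_, _, h3⟩ := hc
      have h1' : b = true := h1
      have h2' : b' = true := h2
      rw [h1', h2'] at h3
      exact absurd h3 (by decide)

theorem Gm.sh_cont {g g' : Gm X V} (hg' : g'.valid Γ n) (hc : g.cont g')
    (hne : g'.ob n ≠ Sum.inl p0) (hs : g'.sh n p0) : g.sh n p0 := by
  cases g with
  | L s k =>
    cases g' with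
    | L s' k' =>
      obtain ⟨rfl, rfl⟩ := hc
      obtain ⟨h3, h4⟩ := hg'
      cases s'
      · have h1 : n - p0 ≤ k + 1 := hs
        have h2 : (Sum.inl (n - (k + 1)) : ℕ ⊕ V) ≠ Sum.inl p0 := hne
        show n - p0 ≤ k
        rcases Nat.lt_or_ge k (n - p0) with h5 | h5
        · exfalso
          apply h2
          congr 1
          omega
        · exact h5
      · have h1 : p0 ≤ k + 1 := hs
        have h2 : (Sum.inl (k + 1) : ℕ ⊕ V) ≠ Sum.inl p0 := hne
        show p0 ≤ k
        rcases Nat.lt_or_ge k p0 with h5 | h5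
        · exfalso
          apply h2
          congr 1
          omega
        · exact h5
    | W p x q b => exact absurd hc (by simp [Gm.cont])
  | W p x q b =>
    cases g' with
    | L s' k' => exact absurd hc (by simp [Gm.cont])
    | W p' x' q' b' =>
      obtain ⟨_, _, h3⟩ := hc
      have h1 : b' = true := hs
      show b = true
      rw [← h3, h1]

theorem Gm.term_sh (h1 : 1 ≤ p0) (h2 : p0 < n) {g : Gm X V} (ht : g.term Γ n) : g.sh n p0 := by
  cases g with
  | L s k =>
    have h3 : k + 1 = n := ht
    cases s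
    · show n - p0 ≤ k
      omega
    · show p0 ≤ k
      omega
  | W p x q b => exact ht.2

/-- what the flags mean -/
structure Typ (O : OrdH Γ n w cl p0) (s t : Bool) (g h : Gm X V) : Prop where
  vg : g.valid Γ n
  vh : h.valid Γ n
  ne : s = false → t = false → False
  sg : s = true → g.sh n p0
  sh : t = true → h.sh n p0
  up : s = true → t = false → O.lt (g.ob n) (h.ob n)
  dn : s = false → t = true → O.lt (h.ob n) (g.ob n)

theorem typ_cons (O : OrdH Γ n w cl p0) {s t s' t' : Bool} {g h h' k : Gm X V}
    (h1 : Typ O s t g h) (hc : h.cor n h') (hne : h.ob n ≠ Sum.inl p0)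
    (h2 : Typ O s' t' h' k) : Typ O s t' g k := by
  have hob := Gm.cor_ob (Γ := Γ) h1.vh hc
  have hmin : ¬ (t = true ∧ s' = true) := fun hh =>
    hne (Gm.cor_sh O.p0_lt h1.vh hc (h1.sh hh.1) (h2.sg hh.2))
  refine ⟨h1.vg, h2.vh, ?_, h1.sg, h2.sh, ?_, ?_⟩
  · intro e1 e2
    -- the first pair is descending, the rest is ascending
    have e3 : t = true := by
      cases t
      · exact (h1.ne e1 rfl).elim
      · rfl
    have e4 : s' = true := by
      cases s'
      · exact (h2.ne rfl e2).elim
      · rfl
    exact hmin ⟨e3, e4⟩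
  · intro e1 e2
    have e4 : s' = true := by
      cases s'
      · exact (h2.ne rfl e2).elim
      · rfl
    have e3 : t = false := by
      cases t
      · rfl
      · exact absurd ⟨rfl, e4⟩ hmin
    have h3 := h2.up e4 e2
    rw [← hob] at h3
    exact O.trans _ _ _ (h1.up e1 e3) h3
  · intro e1 e2
    have e3 : t = true := by
      cases t
      · exact (h1.ne e1 rfl).elim
      · rfl
    have e4 : s' = false := by
      cases s'
      · rfl
      · exact absurd ⟨e3, rfl⟩ hmin
    have h3 := h2.dn e4 e2
    rw [← hob] at h3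
    exact O.trans _ _ _ h3 (h1.dn e1 e3)

theorem ChZ.typ (O : OrdH Γ n w cl p0) {s t : Bool} {g h : Gm X V}
    (hc : ChZ Γ n w cl p0 s t g h) : Typ O s t g h := by
  refine ChZ.rec (motive_1 := fun s t g h _ => Typ O s t g h)
    (motive_2 := fun s t g h _ => Typ O s t g h) ?_ ?_ ?_ ?_ ?_ hc
  · intro g h v1 v2 hok ht
    exact ⟨v1, v2, fun e => absurd e (by decide),
      fun _ => Gm.term_sh O.p0_pos O.p0_lt ht, fun e => absurd e (by decide),
      fun _ _ => O.base g h v1 v2 hok ht, fun e => absurd e (by decide)⟩
  · intro g h v1 v2 hok ht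
    exact ⟨v1, v2, fun _ e => absurd e (by decide), fun e => absurd e (by decide),
      fun _ => Gm.term_sh O.p0_pos O.p0_lt ht, fun e => absurd e (by decide),
      fun _ _ => O.base h g v2 v1 (Gm.ok_symm hok) ht⟩
  · intro s t g h g' h' v1 v2 hok v1' v2' c1 c2 n1 n2 _ ih
    exact ⟨v1, v2, ih.ne, fun e => Gm.sh_cont v1' c1 n1 (ih.sg e),
      fun e => Gm.sh_cont v2' c2 n2 (ih.sh e),
      fun e1 e2 => O.comp g h g' h' v1 v2 v1' v2' hok c1 c2 (ih.up e1 e2),
      fun e1 e2 => O.comp h g h' g' v2 v1 v2' v1' (Gm.ok_symm hok) c2 c1 (ih.dn e1 e2)⟩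
  · intro s t g h _ ih
    exact ih
  · intro s t s' t' g h h' k _ _ hcor hne _ ih1 ih2
    exact typ_cons O ih1 hcor hne ih2

theorem ClZ.typ (O : OrdH Γ n w cl p0) {s t : Bool} {g h : Gm X V}
    (hc : ClZ Γ n w cl p0 s t g h) : Typ O s t g h := (ChZ.one s t g h hc).typ O

/-- the two germs of a corner have different letters -/
theorem Gm.cor_lt (hw : ∀ k, k + 1 < n → w (k + 1) ≠ linv (w k)) {g h : Gm X V}
    (hg : g.valid Γ n) (hc : g.cor n h) : g.lt n w ≠ h.lt n w := by
  cases g with
  | L s k =>
    cases h with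
    | L s' k' =>
      obtain ⟨rfl, rfl⟩ := hc
      obtain ⟨h3, h4⟩ := hg
      intro he
      cases s
      · have h5 : linv (w (n - 1 - k)) = w (n - k) := he
        have h6 := hw (n - 1 - k) (by omega)
        rw [show n - 1 - k + 1 = n - k by omega] at h6
        exact h6 h5.symm
      · have h5 : w k = linv (w (n - 1 - (n - k))) := he
        have h6 := hw (k - 1) (by omega)
        rw [show k - 1 + 1 = k by omega] at h6
        rw [show n - 1 - (n - k) = k - 1 by omega] at h5
        exact h6 h5
    | W p x q b => exact absurd hc (by simp [Gm.cor])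
  | W p x q b =>
    cases h with
    | L s' k' => exact absurd hc (by simp [Gm.cor])
    | W p' x' q' b' =>
      obtain ⟨_, h3, _⟩ := hc
      exact fun he => h3 he.symm

theorem Gm.ok_lt {g h : Gm X V} (hk : g.ok n w cl h) : g.lt n w = h.lt n w := by
  cases g <;> cases h <;> exact hk.1

theorem ClZ.ok {s t : Bool} {g h : Gm X V} (hc : ClZ Γ n w cl p0 s t g h) :
    g.ok n w cl h := by
  cases hc with
  | tl _ _ _ _ h _ => exact h
  | tr _ _ _ _ h _ => exact h
  | step _ _ _ _ _ _ _ _ h _ _ _ _ _ _ _ => exact h

/-- There is no closed chain all of whose corners but one are known not to be at `p0`. -/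
theorem no_closed (O : OrdH Γ n w cl p0) (hw : ∀ k, k + 1 < n → w (k + 1) ≠ linv (w k))
    {s t : Bool} {g k : Gm X V} (hc : ChZ Γ n w cl p0 s t g k) (hcor : k.cor n g) : False := by
  have hT := hc.typ O
  have hob : k.ob n = g.ob n := Gm.cor_ob (Γ := Γ) hT.vh hcor
  cases s with
  | false =>
    cases t with
    | false => exact hT.ne rfl rfl
    | true =>
      have := hT.dn rfl rfl
      rw [hob] at this
      exact O.irr _ this
  | true =>
    cases t with
    | false =>
      have := hT.up rfl rfl
      rw [hob] at this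
      exact O.irr _ this
    | true =>
      have h0 : k.ob n = Sum.inl p0 := Gm.cor_sh O.p0_lt hT.vh hcor (hT.sh rfl) (hT.sg rfl)
      cases hc with
      | one _ _ _ _ h1 => exact Gm.cor_lt hw hT.vh hcor (Gm.ok_lt h1.ok).symm
      | cons _ t1 s1 _ _ h h' _ h1 hv h2 h3 h4 =>
        have T1 := h1.typ O
        have T2 := h4.typ O
        cases t1 with
        | false =>
          have := T1.up rfl rfl
          rw [← hob, h0] at this
          exact O.maxi _ T1.vh this
        | true =>
          cases s1 with
          | true => exact h3 (Gm.cor_sh O.p0_lt T1.vh h2 (T1.sh rfl) (T2.sg rfl))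
          | false =>
            have := T2.dn rfl rfl
            rw [h0] at this
            exact O.maxi _ hv this

end

end MM31
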