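import Pool.Agent.LibMM31.WDisch
import Pool.Agent.LibMM31.WPowDefs

/-!
# Discharging for walk diagrams whose cells are proper powers
-/

set_option linter.unusedSectionVars false
set_option linter.style.haveILetI false

namespace MM31

open Equiv Equiv.Perm Finset

variable {X V : Type}

namespace WD

variable {Γ : PG X V} {n κ : ℕ} {w : ℕ → Lt X} {cl : ℕ → V}
variable {D : Type} [Fintype D] [DecidableEq D]

/-- half edges which are closable without corners at `p0` -/
def clz (M : WD Γ n κ w cl D) (p0 : ℕ) (d : D) : Prop :=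
  ∃ s t, ClZ Γ n w cl p0 s t (M.fg d) (M.bg (M.ε d))

/-- the corner at the start of the dart is at `p0` -/
def gt (M : WD Γ n κ w cl D) (p0 : ℕ) (d : D) : Prop := (M.fg d).ob n = Sum.inl p0

theorem gt_inner (M : WD Γ n κ w cl D) {p0 : ℕ} {d : D} (h : M.gt p0 d) : M.inner d := by
  by_contra hc
  unfold gt fg at h
  rw [if_neg hc] at h
  exact absurd h (by simp [Gm.ob])

theorem chain_z (hC : CellIn Γ n w cl) (M : WD Γ n κ w cl D) (hI : M.Imm) (p0 : ℕ) (r : ℕ) :
    ∀ d : D, M.um d → (∀ i ≤ r, M.clz p0 (((M.φ * M.ε) ^ i) d)) →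
    (∀ i, 1 ≤ i → i ≤ r → ¬ M.gt p0 (((M.φ * M.ε) ^ i) d)) →
    ∃ s t, ChZ Γ n w cl p0 s t (M.fg d) (M.bg (M.ε (((M.φ * M.ε) ^ r) d))) := by
  induction r with
  | zero =>
    intro d _ h _
    obtain ⟨s, t, h1⟩ := h 0 le_rfl
    exact ⟨s, t, ChZ.one _ _ _ _ h1⟩
  | succ r ih =>
    intro d hd h hg
    obtain ⟨s', t', h1⟩ := ih ((M.φ * M.ε) d) (M.um_next hd) (fun i hi => by
      have := h (i + 1) (by omega)
      rwa [pow_succ, Perm.mul_apply] at this) (fun i hi1 hi2 => by
      have := hg (i + 1) (by omega) (by omega)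
      rwa [pow_succ, Perm.mul_apply] at this)
    obtain ⟨s, t, h2⟩ := h 0 (by omega)
    have h3 := hg 1 le_rfl (by omega)
    have hcor := M.cor_next hC hI hd
    refine ⟨s, t', ?_⟩
    rw [pow_succ, Perm.mul_apply]
    refine ChZ.cons _ _ _ _ _ _ _ _ h2 (M.valid_fg hC (M.um_next hd)) hcor ?_ h1
    intro hh
    apply h3
    rw [pow_one]
    unfold gt
    rw [← hh]
    exact (Gm.cor_ob (Γ := Γ) (M.valid_bg hC hd) hcor).symm

open Classical in
/-- the charge of a dart -/
noncomputable def chz (M : WD Γ n κ w cl D) (p0 : ℕ) (d : D) : ℕ :=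
  if ¬ M.al d then 2
  else if M.B d then 2
  else if (M.inner (M.ε d) ∧ M.tm (M.ε d) = n - 1) ∨ M.En (M.ε d) then 2
  else if M.um d ∧ ¬ M.clz p0 d then (if M.um (M.ε d) ∧ ¬ M.clz p0 (M.ε d) then 1 else 2)
  else 0

variable (hC : CellIn Γ n w cl) (hn : 2 ≤ n) (hw : ∀ k, k + 1 < n → w (k + 1) ≠ linv (w k))
  (hc : w (n - 1) ≠ linv (w 0)) (hU : w 0 ≠ w (n - 1)) (hL : LoopP Γ)

include hC hn in
/-- the other half edge of a base edge is closable if its vertex is unmarked -/
theorem clz_of_base (M : WD Γ n κ w cl D) (p0 : ℕ) (hR : M.Red) {d : D} (hu : M.um (M.ε d))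
    (hb : M.B d ∨ (M.inner (M.ε d) ∧ M.tm (M.ε d) = n - 1) ∨ M.En (M.ε d)) :
    M.clz p0 (M.ε d) := by
  have heal := (hu _ (SameCycle.refl _ _)).1
  have hv1 := M.valid_fg hC hu
  have hv2 := M.valid_bg hC hu
  have hok := M.ok_germs hC hR heal
  rw [M.eps_eps] at hv2 hok
  unfold clz
  rw [M.eps_eps]
  rcases hb with (⟨h1, h2⟩ | ⟨h1, h2⟩) | ⟨h1, h2⟩ | h1
  · refine ⟨false, true, ClZ.tr _ _ hv1 hv2 hok ?_⟩
    rw [M.bg_inner h1, h2]
    show n - 1 - 0 + 1 = n
    omega
  · refine ⟨false, true, ClZ.tr _ _ hv1 hv2 hok ?_⟩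
    rw [M.bg_wk h1]
    exact ⟨h2, rfl⟩
  · refine ⟨true, false, ClZ.tl _ _ hv1 hv2 hok ?_⟩
    rw [M.fg_inner h1, h2]
    show n - 1 + 1 = n
    omega
  · exact absurd h1 (hu _ (SameCycle.refl _ _)).2.2

include hC hn hc hU hL in
theorem chz_base (M : WD Γ n κ w cl D) (p0 : ℕ) (hR : M.Red) {d : D} (h : M.al d)
    (hb : M.B d ∨ (M.inner (M.ε d) ∧ M.tm (M.ε d) = n - 1) ∨ M.En (M.ε d)) :
    M.chz p0 d = 2 ∧ M.chz p0 (M.ε d) = 0 := by
  have hnb := M.not_both hC hn hc hU hL hR h
  have he := M.al_eps h
  constructor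
  · unfold chz
    rw [if_neg (not_not.mpr h)]
    by_cases h1 : M.B d
    · rw [if_pos h1]
    · rw [if_neg h1, if_pos (hb.resolve_left h1)]
  · unfold chz
    rw [if_neg (not_not.mpr he), M.eps_eps]
    have h2 : ¬ M.B (M.ε d) := by
      intro h2
      rcases hb with hb | hb
      · exact hnb ⟨M.be_of_B hb, M.be_of_B h2⟩
      · rcases hb with hb | hb
        · rcases h2 with h2 | h2
          · omega
          · exact M.disj _ hb.1 h2.1
        · rcases h2 with h2 | h2
          · exact M.disj _ h2.1 hb.1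
          · exact hb.2.2 h2.2
    have h3 : ¬ ((M.inner d ∧ M.tm d = n - 1) ∨ M.En d) := by
      intro h3
      rcases hb with hb | hb
      · rcases h3 with h3 | h3
        · rcases hb with hb | hb
          · omega
          · exact M.disj _ h3.1 hb.1
        · rcases hb with hb | hb
          · exact M.disj _ hb.1 h3.1
          · exact h3.2.2 hb.2
      · exact hnb ⟨M.be_of_B' h3, M.be_of_B' hb⟩
    rw [if_neg h2, if_neg h3, if_neg (fun hh => hh.2 (M.clz_of_base hC hn p0 hR hh.1 hb))]

include hC hn hc hU hL in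
theorem chz_pair (M : WD Γ n κ w cl D) (p0 : ℕ) (hR : M.Red) {d : D} (h : M.al d) :
    M.chz p0 d + M.chz p0 (M.ε d) ≤ 2 := by
  have he := M.al_eps h
  by_cases h1 : M.B d ∨ (M.inner (M.ε d) ∧ M.tm (M.ε d) = n - 1) ∨ M.En (M.ε d)
  · have := M.chz_base hC hn hc hU hL p0 hR h h1
    omega
  by_cases h2 : M.B (M.ε d) ∨ (M.inner d ∧ M.tm d = n - 1) ∨ M.En d
  · have := M.chz_base hC hn hc hU hL p0 hR he (by rw [M.eps_eps]; exact h2)
    rw [M.eps_eps] at this
    omega
  rw [not_or] at h1 h2
  unfold chz
  rw [if_neg (not_not.mpr h), if_neg (not_not.mpr he), M.eps_eps, if_neg h1.1, if_neg h1.2,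
    if_neg h2.1, if_neg h2.2]
  by_cases h3 : M.um d ∧ ¬ M.clz p0 d <;> by_cases h4 : M.um (M.ε d) ∧ ¬ M.clz p0 (M.ε d)
  · rw [if_pos h3, if_pos h4, if_pos h4, if_pos h3]
  · rw [if_pos h3, if_neg h4, if_neg h4]
  · rw [if_neg h3, if_pos h4, if_neg h3]
  · rw [if_neg h3, if_neg h4]; omega

include hC hn hc hU hL in
open Classical in
theorem chz_sum (M : WD Γ n κ w cl D) (p0 : ℕ) (hR : M.Red) :
    ∑ d, M.chz p0 d ≤ (univ.filter (fun d => M.al d)).card +
      2 * (univ.filter (fun d => ¬ M.al d)).card := by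
  have h1 : ∑ d, M.chz p0 (M.ε d) = ∑ d, M.chz p0 d := Equiv.sum_comp M.ε (M.chz p0)
  have h2 : ∑ d, (M.chz p0 d + M.chz p0 (M.ε d)) ≤
      ∑ d, ((if M.al d then 2 else 0) + (if ¬ M.al d then 4 else 0)) := by
    apply Finset.sum_le_sum
    intro d _
    by_cases hd : M.al d
    · rw [if_pos hd, if_neg (not_not.mpr hd)]
      have := M.chz_pair hC hn hc hU hL p0 hR hd
      omega
    · rw [if_neg hd, M.glue.dead d hd, if_pos hd]
      have : M.chz p0 d = 2 := by
        unfold chz; rw [if_pos hd]
      omega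
  rw [Finset.sum_add_distrib, Finset.sum_add_distrib, h1] at h2
  have h3 : ∑ d, (if M.al d then 2 else 0) = 2 * (univ.filter (fun d => M.al d)).card := by
    rw [← Finset.sum_filter, Finset.sum_const, smul_eq_mul, mul_comm]
  have h4 : ∑ d, (if ¬ M.al d then 4 else 0) = 4 * (univ.filter (fun d => ¬ M.al d)).card := by
    rw [← Finset.sum_filter, Finset.sum_const, smul_eq_mul, mul_comm]
  rw [h3, h4] at h2
  omega

open Classical in
/-- the gift of a corner at `p0` -/
noncomputable def gf (M : WD Γ n κ w cl D) (p0 : ℕ) (d : D) : ℕ := if M.gt p0 d then 1 else 0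

include hC hn hw in
open Classical in
/-- unmarked vertices receive charge at least 2 -/
theorem chz_um (M : WD Γ n κ w cl D) {p0 : ℕ} (O : OrdH Γ n w cl p0) (hR : M.Red) (hI : M.Imm)
    {x : D} (hx : M.um x) :
    2 ≤ ∑ d with cs (M.φ * M.ε) x d, (M.chz p0 d + M.gf p0 d) := by
  set ν := M.φ * M.ε with hν
  have humall : ∀ d, SameCycle ν x d → M.um d := fun d hd e he => hx e (hd.trans he)
  have hval : ∀ d, SameCycle ν x d → ¬ M.clz p0 d →
      M.chz p0 d = if M.um (M.ε d) ∧ ¬ M.clz p0 (M.ε d) then 1 else 2 := by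
    intro d hd hcl
    have hud := humall d hd
    have h1 := hud d (SameCycle.refl _ _)
    have h2 : ¬ ((M.inner (M.ε d) ∧ M.tm (M.ε d) = n - 1) ∨ M.En (M.ε d)) := by
      rintro (h2 | h2)
      · have := M.um_inner hud h2.1
        omega
      · exact (M.um_wk hC hud h2.1).1 h2.2.1
    unfold chz
    rw [if_neg (not_not.mpr h1.1), if_neg h1.2.1, if_neg h2, if_pos ⟨hud, hcl⟩]
  have hval1 : ∀ d, SameCycle ν x d → ¬ M.clz p0 d → 1 ≤ M.chz p0 d := by
    intro d hd hcl
    rw [hval d hd hcl]
    split_ifs <;> omega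
  have hgf : ∀ d, M.gt p0 d → M.gf p0 d = 1 := fun d hd => by unfold gf; rw [if_pos hd]
  -- two different darts with value at least one
  have two : ∀ d e, SameCycle ν x d → SameCycle ν x e → d ≠ e →
      1 ≤ M.chz p0 d + M.gf p0 d → 1 ≤ M.chz p0 e + M.gf p0 e →
      2 ≤ ∑ d with cs ν x d, (M.chz p0 d + M.gf p0 d) := by
    intro d e hd he hne h1 h2
    have hsub : ({d, e} : Finset D) ⊆ univ.filter (fun d => cs ν x d) := by
      intro y hy
      simp only [Finset.mem_insert, Finset.mem_singleton] at hy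
      simp only [Finset.mem_filter, Finset.mem_univ, true_and]
      rcases hy with rfl | rfl
      · exact hd
      · exact he
    refine le_trans ?_ (Finset.sum_le_sum_of_subset hsub)
    rw [Finset.sum_pair hne]
    omega
  have one : ∀ d, SameCycle ν x d → 2 ≤ M.chz p0 d + M.gf p0 d →
      2 ≤ ∑ d with cs ν x d, (M.chz p0 d + M.gf p0 d) := by
    intro d hd h1
    have hsub : ({d} : Finset D) ⊆ univ.filter (fun d => cs ν x d) := by
      intro y hy
      simp only [Finset.mem_singleton] at hy
      simp only [Finset.mem_filter, Finset.mem_univ, true_and]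
      exact hy ▸ hd
    refine le_trans ?_ (Finset.sum_le_sum_of_subset hsub)
    rw [Finset.sum_singleton]
    exact h1
  -- the minimal period of a dart
  have hperiod : ∀ d, ∃ p, 0 < p ∧ (ν ^ p) d = d ∧ ∀ i, 0 < i → i < p → (ν ^ i) d ≠ d := by
    intro d
    have hper : ∃ k, 0 < k ∧ (ν ^ k) d = d :=
      ⟨orderOf ν, orderOf_pos ν, by simp [pow_orderOf_eq_one]⟩
    exact ⟨Nat.find hper, (Nat.find_spec hper).1, (Nat.find_spec hper).2,
      fun i h0 hi h1 => Nat.find_min hper hi ⟨h0, h1⟩⟩
  by_cases hex : ∃ d, SameCycle ν x d ∧ ¬ M.clz p0 d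
  · obtain ⟨d0, hd0, hcl0⟩ := hex
    by_cases hex2 : ∃ d, SameCycle ν x d ∧ ¬ M.clz p0 d ∧ d ≠ d0
    · obtain ⟨d1, hd1, hcl1, hne⟩ := hex2
      have h1 := hval1 _ hd0 hcl0
      have h2 := hval1 _ hd1 hcl1
      exact two d0 d1 hd0 hd1 hne.symm (by omega) (by omega)
    · push Not at hex2
      have hclo : ∀ d, SameCycle ν x d → d ≠ d0 → M.clz p0 d := by
        intro d hd hne
        by_contra hcon
        exact hne (hex2 d hd hcon)
      by_cases hg : ∃ y, SameCycle ν x y ∧ M.gt p0 y
      · obtain ⟨y, hy, hyg⟩ := hg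
        have h1 := hval1 _ hd0 hcl0
        have h2 := hgf y hyg
        by_cases hyd : y = d0
        · subst hyd
          exact one y hy (by omega)
        · exact two y d0 hy hd0 hyd (by omega) (by omega)
      push Not at hg
      refine one d0 hd0 ?_
      rw [hval d0 hd0 hcl0, if_neg]
      · omega
      rintro ⟨hue, hcle⟩
      apply hcle
      -- the reverse half edge is closable
      have hud := humall d0 hd0
      have hd0al := hud d0 (SameCycle.refl _ _)
      have heal := hue (M.ε d0) (SameCycle.refl _ _)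
      obtain ⟨p, hp0, hp, hmin⟩ := hperiod d0
      have hsc : ∀ i : ℕ, SameCycle ν x ((ν ^ i) d0) := fun i =>
        hd0.trans ⟨(i : ℤ), by rw [zpow_natCast]⟩
      have hltd : M.lt (M.ε d0) = linv (M.lt d0) := M.lt_eps hd0al.1
      have hp2 : 2 ≤ p := by
        by_contra hcon
        have hp1 : p = 1 := by omega
        rw [hp1, pow_one] at hp
        have hp' : M.φ (M.ε d0) = d0 := hp
        rcases heal.1 with he | he
        · have h1 := M.um_inner hud he
          have h2 := M.tm_succ _ he h1
          have h3 := M.sg_inner _ he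
          have h4 := M.phi_inner _ he
          rw [hp'] at h2 h3 h4
          rw [M.lt_inner _ he, M.lt_inner _ h4, h2, h3] at hltd
          cases hs : M.sg (M.ε d0)
          · rw [hs] at hltd
            simp only [wl, linv_linv] at hltd
            apply hw (n - 1 - (M.tm (M.ε d0) + 1)) (by omega)
            have e1 : n - 1 - (M.tm (M.ε d0) + 1) + 1 = n - 1 - M.tm (M.ε d0) := by omega
            rw [e1, ← hltd, linv_linv]
          · rw [hs] at hltd
            simp only [wl] at hltd
            apply hw (M.tm (M.ε d0)) (by omega)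
            rw [hltd, linv_linv]
        · have h1 := M.um_wk hC hud he
          have h2 := hI _ he h1.2
          rw [hp', hltd, linv_linv] at h2
          exact h2 rfl
      obtain ⟨s, t, hchain⟩ := M.chain_z hC hI p0 (p - 2) (ν d0) (M.um_next hud) (fun i hi => by
        have e1 : ((M.φ * M.ε) ^ i) (ν d0) = (ν ^ (i + 1)) d0 := by
          rw [pow_succ]; rfl
        rw [e1]
        apply hclo _ (hsc _)
        exact hmin _ (by omega) (by omega)) (fun i _ _ => by
        have e1 : ((M.φ * M.ε) ^ i) (ν d0) = (ν ^ (i + 1)) d0 := by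
          rw [pow_succ]; rfl
        rw [e1]
        exact hg _ (hsc _))
      have e2 : ((M.φ * M.ε) ^ (p - 2)) (ν d0) = (ν ^ (p - 1)) d0 := by
        have : p - 1 = (p - 2) + 1 := by omega
        rw [this, pow_succ]; rfl
      rw [e2] at hchain
      set l := (ν ^ (p - 1)) d0 with hl
      have hul : M.um l := humall _ (hsc (p - 1))
      have e3 : M.φ (M.ε l) = d0 := by
        show ν l = d0
        rw [hl, ← Perm.mul_apply, ← pow_succ', Nat.sub_add_cancel hp0, hp]
      have hcl : M.al (M.ε l) := M.al_eps (hul l (SameCycle.refl _ _)).1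
      have hv1 := M.valid_fg hC hue
      have hv2 := M.valid_bg hC hue
      have hok := M.ok_germs hC hR heal.1
      rw [M.eps_eps] at hv2 hok
      unfold clz
      rw [M.eps_eps]
      refine ⟨s, t, ClZ.step _ _ _ _ _ _ hv1 hv2 hok (M.valid_fg hC (M.um_next hud))
        (M.valid_bg hC hul) ?_ ?_ ?_ ?_ hchain⟩
      · -- continuation along `ε d0`
        rw [Perm.mul_apply]
        rcases heal.1 with he | he
        · have h1 := M.um_inner hud he
          rw [M.fg_inner he, M.fg_inner (M.phi_inner _ he), M.tm_succ _ he h1, M.sg_inner _ he]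
          exact ⟨rfl, rfl⟩
        · have h1 := M.um_wk hC hud he
          rw [M.fg_wk he, M.fg_wk (M.phi_wk _ he)]
          exact ⟨h1.2, hI _ he h1.2, rfl⟩
      · -- continuation along `d0` backwards
        rcases hcl with he | he
        · have h1 := M.um_inner hul he
          have h2 := M.tm_succ _ he h1
          have h3 := M.sg_inner _ he
          have h4 := M.phi_inner _ he
          rw [e3] at h2 h3 h4
          rw [M.bg_inner he, M.bg_inner h4, h2, h3]
          refine ⟨rfl, ?_⟩
          show n - 1 - M.tm (M.ε l) = n - 1 - (M.tm (M.ε l) + 1) + 1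
          omega
        · have h1 := M.um_wk hC hul he
          have h2 := hI _ he h1.2
          have h4 := M.phi_wk _ he
          rw [e3] at h1 h2 h4
          rw [M.bg_wk he, M.bg_wk h4]
          refine ⟨h1.2.symm, ?_, rfl⟩
          rw [linv_linv]
          exact fun hh => h2 hh.symm
      · -- not at `p0`
        have := hg _ (hsc 1)
        rw [pow_one] at this
        exact this
      · have h1 := hg _ hd0
        intro h2
        apply h1
        have h3 := M.cor_next hC hI hul
        have h4 := Gm.cor_ob (Γ := Γ) (M.valid_bg hC hul) h3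
        have h5 : (M.φ * M.ε) l = d0 := e3
        rw [h2, h5] at h4
        exact h4.symm
  · -- everything closable: there are two corners at `p0`
    push Not at hex
    by_cases hg2 : ∃ y z, SameCycle ν x y ∧ SameCycle ν x z ∧ y ≠ z ∧ M.gt p0 y ∧ M.gt p0 z
    · obtain ⟨y, z, hy, hz, hne, h1, h2⟩ := hg2
      have h3 := hgf y h1
      have h4 := hgf z h2
      exact two y z hy hz hne (by omega) (by omega)
    exfalso
    push Not at hg2
    -- start the chain at the corner `p0`
    obtain ⟨y, hy, hyu⟩ : ∃ y, SameCycle ν x y ∧ ∀ z, SameCycle ν x z → z ≠ y → ¬ M.gt p0 z := by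
      by_cases hg : ∃ y, SameCycle ν x y ∧ M.gt p0 y
      · obtain ⟨y, hy, hyg⟩ := hg
        exact ⟨y, hy, fun z hz hne => hg2 y z hy hz hne.symm hyg⟩
      · push Not at hg
        exact ⟨x, SameCycle.refl _ _, fun z hz _ => hg z hz⟩
    obtain ⟨p, hp0, hp, hmin⟩ := hperiod y
    have hsc : ∀ i : ℕ, SameCycle ν x ((ν ^ i) y) := fun i =>
      hy.trans ⟨(i : ℤ), by rw [zpow_natCast]⟩
    have huy := humall y hy
    obtain ⟨s, t, hchain⟩ := M.chain_z hC hI p0 (p - 1) y huy
      (fun i _ => hex _ (hsc i)) (fun i h1 h2 => hyu _ (hsc i) (hmin i (by omega) (by omega)))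
    set l := ((M.φ * M.ε) ^ (p - 1)) y with hl
    have hul : M.um l := humall _ (hsc (p - 1))
    have e3 : (M.φ * M.ε) l = y := by
      rw [hl, ← Perm.mul_apply, ← pow_succ', Nat.sub_add_cancel hp0]
      exact hp
    have h5 := M.cor_next hC hI hul
    rw [e3] at h5
    exact no_closed O hw hchain h5

open Classical in
/-- charge with the compensation of the darts entering the base -/
noncomputable def cz2 (M : WD Γ n κ w cl D) (p0 : ℕ) (d : D) : ℕ :=
  M.chz p0 d + M.gf p0 d + (if M.En d then 2 else 0)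

include hC hn hw hc hU hL in
open Classical in
theorem chz_class (M : WD Γ n κ w cl D) {p0 : ℕ} (O : OrdH Γ n w cl p0) (hR : M.Red)
    (hI : M.Imm) (x : D) :
    2 + ∑ d with cs (M.φ * M.ε) x d, M.wgt d ≤ ∑ d with cs (M.φ * M.ε) x d, M.cz2 p0 d := by
  set ν := M.φ * M.ε with hν
  have enB : ∀ d, M.En (M.φ⁻¹ d) → M.B d := by
    intro d hd
    have h1 := M.trans _ hd.1
    have h2 := M.phi_wk _ hd.1
    have h3 : M.φ (M.φ⁻¹ d) = d := by simp
    rw [h3] at h1 h2
    rcases h1 with h1 | h1
    · exact Or.inr ⟨h2, h1.trans hd.2.1⟩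
    · exact absurd hd.2.1 h1.1
  by_cases hmark : ∃ y, SameCycle ν x y ∧ M.B y
  · obtain ⟨y, hy, hyB⟩ := hmark
    let p : D → D := fun d => M.ε (M.φ⁻¹ d)
    have hpν : ∀ d, ν (p d) = d := by
      intro d
      show M.φ (M.ε (M.ε (M.φ⁻¹ d))) = d
      rw [M.eps_eps]
      simp
    have hpinj : Function.Injective p := by
      intro a c hac
      rw [← hpν a, hac, hpν]
    let T : D → Prop := fun d => (M.inner d ∧ M.tm d = 0) ∨ M.En (M.φ⁻¹ d)
    have hpt : ∀ d, T d → M.al (p d) ∧
        ((M.inner (M.ε (p d)) ∧ M.tm (M.ε (p d)) = n - 1) ∨ M.En (M.ε (p d))) := by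
      intro d hd
      have e0 : M.ε (p d) = M.φ⁻¹ d := M.eps_eps _
      rw [e0]
      rcases hd with hd | hd
      · have h1 : M.inner (M.φ⁻¹ d) := (M.inner_iff _).mpr (by simpa using hd.1)
        refine ⟨M.al_eps (Or.inl h1), Or.inl ⟨h1, ?_⟩⟩
        have h2 := M.tm_step h1
        have h3 := M.tm_lt _ h1
        have h4 : M.φ (M.φ⁻¹ d) = d := by simp
        rw [h4, hd.2] at h2
        rcases Nat.lt_or_ge (M.tm (M.φ⁻¹ d) + 1) n with h5 | h5
        · rw [Nat.mod_eq_of_lt h5] at h2; omega
        · omega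
      · exact ⟨M.al_eps (Or.inr hd.1), Or.inr hd⟩
    let Q : Finset D := univ.filter (fun d => cs ν x d)
    let Z : Finset D := Q.filter (fun d => M.B d)
    let I : Finset D := Q.filter (fun d => T d)
    let P : Finset D := I.image p
    have hPQ : P ⊆ Q := by
      intro z hz
      obtain ⟨d, hd, rfl⟩ := Finset.mem_image.mp hz
      simp only [I, Q, Finset.mem_filter, Finset.mem_univ, true_and] at hd ⊢
      refine SameCycle.trans hd.1 (SameCycle.symm ⟨1, ?_⟩)
      rw [zpow_one, hpν]
    have hZQ : Z ⊆ Q := Finset.filter_subset _ _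
    have hPc : ∀ z ∈ P, M.chz p0 z = 2 ∧ ¬ M.B z := by
      intro z hz
      obtain ⟨d, hd, rfl⟩ := Finset.mem_image.mp hz
      simp only [I, Q, Finset.mem_filter, Finset.mem_univ, true_and] at hd
      obtain ⟨h1, h2⟩ := hpt d hd.2
      refine ⟨(M.chz_base hC hn hc hU hL p0 hR h1 (Or.inr h2)).1, ?_⟩
      intro h3
      exact M.not_both hC hn hc hU hL hR h1 ⟨M.be_of_B h3, M.be_of_B' h2⟩
    have hBal : ∀ z, M.B z → M.al z := by
      rintro z (h | h)
      · exact Or.inl h.1
      · exact Or.inr h.1
    have hZc : ∀ z ∈ Z, M.chz p0 z = 2 ∧ M.B z := by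
      intro z hz
      simp only [Z, Finset.mem_filter] at hz
      exact ⟨(M.chz_base hC hn hc hU hL p0 hR (hBal z hz.2) (Or.inl hz.2)).1, hz.2⟩
    have hdisj : Disjoint Z P := by
      rw [Finset.disjoint_left]
      intro z h1 h2
      exact (hPc z h2).2 (hZc z h1).2
    have hsum : ∑ d ∈ Z ∪ P, M.chz p0 d ≤ ∑ d ∈ Q, M.cz2 p0 d :=
      le_trans (Finset.sum_le_sum_of_subset (Finset.union_subset hZQ hPQ))
        (Finset.sum_le_sum (fun d _ => by unfold cz2; omega))
    rw [Finset.sum_union hdisj, Finset.sum_congr rfl (fun z hz => (hZc z hz).1),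
      Finset.sum_congr rfl (fun z hz => (hPc z hz).1), Finset.sum_const, Finset.sum_const,
      smul_eq_mul, smul_eq_mul, Finset.card_image_of_injective I hpinj] at hsum
    have hZpos : 0 < Z.card := Finset.card_pos.mpr ⟨y, by
      simp only [Z, Q, Finset.mem_filter, Finset.mem_univ, true_and]
      exact ⟨hy, hyB⟩⟩
    have hI2 : ∑ d with cs ν x d, M.wgt d ≤ I.card * 2 := by
      have h1 : ∑ d with cs ν x d, M.wgt d ≤ ∑ d with cs ν x d, (if T d then 2 else 0) := by
        apply Finset.sum_le_sum
        intro d _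
        unfold wgt
        by_cases h1 : M.inner d ∧ M.tm d = 0
        · have h2 : ¬ M.En (M.φ⁻¹ d) := by
            intro hh
            have h3 := M.phi_wk _ hh.1
            have h4 : M.φ (M.φ⁻¹ d) = d := by simp
            rw [h4] at h3
            exact M.disj _ h1.1 h3
          rw [if_pos h1, if_neg h2, if_pos (Or.inl h1)]
        · rw [if_neg h1]
          by_cases h2 : M.En (M.φ⁻¹ d)
          · rw [if_pos h2, if_pos (Or.inr h2)]
          · rw [if_neg h2]; exact Nat.zero_le _
      refine le_trans h1 (le_of_eq ?_)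
      rw [← Finset.sum_filter, Finset.sum_const, smul_eq_mul]
    have : ∑ d ∈ Q, M.cz2 p0 d = ∑ d with cs ν x d, M.cz2 p0 d := rfl
    omega
  · push Not at hmark
    have hg0 : ∑ d with cs ν x d, M.wgt d = 0 := by
      apply Finset.sum_eq_zero
      intro d hd
      simp only [Finset.mem_filter, Finset.mem_univ, true_and] at hd
      unfold wgt
      rw [if_neg (fun hh => hmark d hd (Or.inl hh)),
        if_neg (fun hh => hmark d hd (enB d hh)), Nat.add_zero]
    rw [hg0, Nat.add_zero]
    have single : ∀ y, SameCycle ν x y → 2 ≤ M.cz2 p0 y →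
        2 ≤ ∑ d with cs ν x d, M.cz2 p0 d := by
      intro y hy h2
      have hsub : ({y} : Finset D) ⊆ univ.filter (fun d => cs ν x d) := by
        intro z hz
        simp only [Finset.mem_singleton] at hz
        simp only [Finset.mem_filter, Finset.mem_univ, true_and]
        exact hz ▸ hy
      refine le_trans ?_ (Finset.sum_le_sum_of_subset hsub)
      rw [Finset.sum_singleton]
      exact h2
    by_cases hall : ∀ y, SameCycle ν x y → M.al y ∧ ¬ M.En y
    · have h1 := M.chz_um hC hn hw O hR hI (x := x) (fun e he =>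
        ⟨(hall e he).1, hmark e he, (hall e he).2⟩)
      exact le_trans h1 (Finset.sum_le_sum (fun d _ => Nat.le_add_right _ _))
    · push Not at hall
      obtain ⟨y, hy, hyal⟩ := hall
      apply single y hy
      by_cases h1 : M.al y
      · have h2 := hyal h1
        unfold cz2
        rw [if_pos h2]
        omega
      · have h2 : M.chz p0 y = 2 := by unfold chz; rw [if_pos h1]
        unfold cz2
        omega

/-- in a cell which is a proper power there are at least two base corners -/
theorem two_base (hn : 0 < n) (hκ : 2 ≤ κ) (M : WD Γ n κ w cl D) {x : D} (hx : M.inner x) :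
    ∃ y z, SameCycle M.φ x y ∧ SameCycle M.φ x z ∧ y ≠ z ∧
      (M.inner y ∧ M.tm y = 0) ∧ (M.inner z ∧ M.tm z = 0) := by
  obtain ⟨k, hk⟩ := M.exists_tm_zero hx
  have hy := M.inner_pow hx k
  refine ⟨(M.φ ^ k) x, (M.φ ^ n) ((M.φ ^ k) x), ⟨(k : ℤ), by rw [zpow_natCast]⟩,
    SameCycle.trans ⟨(k : ℤ), by rw [zpow_natCast]⟩ ⟨(n : ℤ), by rw [zpow_natCast]⟩, ?_,
    ⟨hy, hk⟩, ⟨M.inner_pow hy n, ?_⟩⟩
  · refine (M.min_inner _ hy n hn ?_).symm
    calc n < n + n := by omega
      _ = 2 * n := by ring
      _ ≤ κ * n := Nat.mul_le_mul_right _ hκ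
  · rw [M.tm_pow hy n, hk, Nat.zero_add, Nat.mod_self]

open Classical in
/-- the topological bound for proper powers -/
theorem euler_pow (hn : 0 < n) (hκ : 2 ≤ κ) (M : WD Γ n κ w cl D) :
    (univ.filter (fun d => M.al d)).card + 2 * (univ.filter (fun d => ¬ M.al d)).card + 2 ≤
      (univ.filter (fun d => M.inner d ∧ M.tm d = 0)).card + 2 * cyc (M.φ * M.ε) := by
  set A := (univ.filter (fun d => M.al d)).card with hA
  set δ := (univ.filter (fun d => ¬ M.al d)).card with hδ
  set F0 := (univ.filter (fun d => M.inner d ∧ M.tm d = 0)).card with hF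
  have hsplit := Finset.card_filter_add_card_filter_not (s := (univ : Finset D))
    (fun d => M.al d)
  have hD : Nat.card D = A + δ := by
    rw [Nat.card_eq_fintype_card, ← Finset.card_univ (α := D)]
    exact hsplit.symm
  obtain ⟨z, z1, -, -⟩ := M.sw
  -- orbits
  have hO : δ + 1 ≤ orb M.φ M.ε := by
    have h1 := ncl_weight_le (cs M.φ ⊔ cs M.ε) (fun d => ¬ M.al d ∨ d = z) (by
      intro x y hx hy hxy
      rcases hx with hx | hx
      · exact orbit_isolated (M.phi_dead' hx) (M.glue.dead x hx) hxy
      · rcases hy with hy | hy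
        · exact (orbit_isolated (M.phi_dead' hy) (M.glue.dead y hy)
            ((cs M.φ ⊔ cs M.ε).symm' hxy)).symm
        · rw [hx, hy])
    have h2 : (univ.filter (fun d => ¬ M.al d ∨ d = z)).card = δ + 1 := by
      have h3 : univ.filter (fun d => ¬ M.al d ∨ d = z) =
          insert z (univ.filter (fun d => ¬ M.al d)) := by
        ext x
        simp only [Finset.mem_filter, Finset.mem_univ, true_and, Finset.mem_insert]
        tauto
      rw [h3, Finset.card_insert_of_notMem]
      simp only [Finset.mem_filter, Finset.mem_univ, true_and, not_not]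
      exact Or.inr z1
    unfold orb
    omega
  -- edges
  have hE : 2 * cyc M.ε ≤ A + 2 * δ := by
    have h1 := ncl_weight (cs M.ε) 2 (fun d => if M.al d then 1 else 2) (fun _ => 0) (by
      intro x
      simp only [Finset.sum_const_zero, Nat.add_zero]
      by_cases hx : M.al x
      · have hsub : ({x, M.ε x} : Finset D) ⊆ univ.filter (fun d => cs M.ε x d) := by
          intro y hy
          simp only [Finset.mem_insert, Finset.mem_singleton] at hy
          simp only [Finset.mem_filter, Finset.mem_univ, true_and]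
          rcases hy with rfl | rfl
          · exact SameCycle.refl _ _
          · exact ⟨1, by simp⟩
        refine le_trans ?_ (Finset.sum_le_sum_of_subset hsub)
        rw [Finset.sum_pair (M.glue.ne x hx).symm, if_pos hx, if_pos (M.al_eps hx)]
      · have hsub : ({x} : Finset D) ⊆ univ.filter (fun d => cs M.ε x d) := by
          intro y hy
          simp only [Finset.mem_singleton] at hy
          simp only [Finset.mem_filter, Finset.mem_univ, true_and]
          exact hy ▸ SameCycle.refl _ _
        refine le_trans ?_ (Finset.sum_le_sum_of_subset hsub)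
        rw [Finset.sum_singleton, if_neg hx])
    have h2 : ∑ d, (if M.al d then 1 else 2) = A + 2 * δ := by
      rw [Finset.sum_ite]
      simp only [Finset.sum_const, smul_eq_mul, mul_one]
      rw [← hA, ← hδ]
      ring
    rw [h2] at h1
    simpa [cyc] using h1
  -- faces
  have hΦ : 2 * cyc M.φ ≤ F0 + 2 + 2 * δ := by
    have h1 := ncl_weight (cs M.φ) 2
      (fun d => (if M.inner d ∧ M.tm d = 0 then 1 else 0) + (if ¬ M.al d then 2 else 0) +
        (if d = z then 2 else 0)) (fun _ => 0) (by
      intro x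
      simp only [Finset.sum_const_zero, Nat.add_zero]
      by_cases hx : M.al x
      · rcases hx with hx | hx
        · obtain ⟨y, y', hy, hy', hne, h2, h3⟩ := M.two_base hn hκ hx
          have hsub : ({y, y'} : Finset D) ⊆ univ.filter (fun d => cs M.φ x d) := by
            intro z hz
            simp only [Finset.mem_insert, Finset.mem_singleton] at hz
            simp only [Finset.mem_filter, Finset.mem_univ, true_and]
            rcases hz with rfl | rfl
            · exact hy
            · exact hy'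
          refine le_trans ?_ (Finset.sum_le_sum_of_subset hsub)
          rw [Finset.sum_pair hne, if_pos h2, if_pos h3]
          omega
        · have hsub : ({z} : Finset D) ⊆ univ.filter (fun d => cs M.φ x d) := by
            intro y hy
            simp only [Finset.mem_singleton] at hy
            simp only [Finset.mem_filter, Finset.mem_univ, true_and]
            rw [hy]
            exact M.one x z hx z1
          refine le_trans ?_ (Finset.sum_le_sum_of_subset hsub)
          rw [Finset.sum_singleton, if_pos rfl]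
          omega
      · have hsub : ({x} : Finset D) ⊆ univ.filter (fun d => cs M.φ x d) := by
          intro y hy
          simp only [Finset.mem_singleton] at hy
          simp only [Finset.mem_filter, Finset.mem_univ, true_and]
          exact hy ▸ SameCycle.refl _ _
        refine le_trans ?_ (Finset.sum_le_sum_of_subset hsub)
        rw [Finset.sum_singleton, if_pos hx]
        omega)
    have h2 : ∑ d, ((if M.inner d ∧ M.tm d = 0 then 1 else 0) + (if ¬ M.al d then 2 else 0) +
        (if d = z then 2 else 0)) = F0 + 2 * δ + 2 := by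
      rw [Finset.sum_add_distrib, Finset.sum_add_distrib]
      have e1 : ∑ d, (if M.inner d ∧ M.tm d = 0 then 1 else 0) = F0 := by
        rw [← Finset.card_filter]
      have e2 : ∑ d, (if ¬ M.al d then 2 else 0) = 2 * δ := by
        rw [← Finset.sum_filter, Finset.sum_const, smul_eq_mul, mul_comm]
      have e3 : ∑ d, (if d = z then 2 else 0) = 2 := by
        rw [Finset.sum_ite_eq' univ z (fun _ => 2), if_pos (Finset.mem_univ _)]
      rw [e1, e2, e3]
    simp only [Finset.sum_const_zero, Nat.add_zero] at h1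
    rw [h2] at h1
    have h3 : ncl (cs M.φ) = cyc M.φ := rfl
    rw [h3] at h1
    omega
  have hpl := (Pl.iff _ _).mp M.pl
  rw [hD] at hpl
  omega

open Classical in
/-- the gifts: one corner at `p0` for every base corner -/
theorem gf_sum (M : WD Γ n κ w cl D) {p0 : ℕ} (h1 : 1 ≤ p0) (h2 : p0 < n) :
    ∑ d, M.gf p0 d ≤ (univ.filter (fun d => M.inner d ∧ M.tm d = 0)).card := by
  have e1 : ∑ d, M.gf p0 d = (univ.filter (fun d => M.gt p0 d)).card := by
    unfold gf
    rw [← Finset.card_filter]
  rw [e1]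
  have htm : ∀ d, M.gt p0 d → M.tm d = if M.sg d then p0 else n - p0 := by
    intro d hd
    have hi := M.gt_inner hd
    have hlt := M.tm_lt _ hi
    unfold gt at hd
    rw [M.fg_inner hi] at hd
    cases hs : M.sg d
    · rw [hs] at hd
      have h3 : n - M.tm d = p0 := Sum.inl.inj hd
      simp only [Bool.false_eq_true, if_false]
      omega
    · rw [hs] at hd
      have h3 : M.tm d = p0 := Sum.inl.inj hd
      simp only [if_true]
      exact h3
  refine Finset.card_le_card_of_injOn (fun d => (M.φ ^ (n - M.tm d)) d) ?_ ?_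
  · intro d hd
    simp only [Finset.coe_filter, Finset.mem_univ, true_and, Set.mem_setOf_eq] at hd ⊢
    have hi := M.gt_inner hd
    have hlt := M.tm_lt _ hi
    refine ⟨M.inner_pow hi _, ?_⟩
    rw [M.tm_pow hi, Nat.add_sub_cancel' hlt.le, Nat.mod_self]
  · intro d hd e he hde
    simp only [Finset.coe_filter, Finset.mem_univ, true_and, Set.mem_setOf_eq] at hd he hde
    have hi := M.gt_inner hd
    have hi' := M.gt_inner he
    have h3 := M.sg_pow hi (n - M.tm d)
    have h4 := M.sg_pow hi' (n - M.tm e)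
    rw [hde, h4] at h3
    have h5 : M.tm d = M.tm e := by rw [htm d hd, htm e he, h3]
    rw [h5] at hde
    exact (M.φ ^ (n - M.tm e)).injective hde

include hC hn hw hc hU hL in
/-- there is no reduced walk diagram for a proper power -/
theorem no_reduced_pow (hκ : 2 ≤ κ) (M : WD Γ n κ w cl D) {p0 : ℕ} (O : OrdH Γ n w cl p0)
    (hR : M.Red) (hI : M.Imm) : False := by
  classical
  have h1 := ncl_weight (cs (M.φ * M.ε)) 2 (M.cz2 p0) M.wgt
    (fun x => M.chz_class hC hn hw hc hU hL O hR hI x)
  have h2 := M.chz_sum hC hn hc hU hL p0 hR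
  have h3 := M.euler_pow (by omega) hκ
  have h4 := M.gf_sum O.p0_pos O.p0_lt
  have h5 : ∑ d, M.wgt d = 2 * (univ.filter (fun d => M.inner d ∧ M.tm d = 0)).card +
      2 * (univ.filter (fun d => M.En d)).card := by
    unfold wgt
    rw [Finset.sum_add_distrib]
    congr 1
    · rw [← Finset.sum_filter, Finset.sum_const, smul_eq_mul, mul_comm]
    · have : ∑ d, (if M.En (M.φ⁻¹ d) then 2 else 0) = ∑ d, (if M.En d then 2 else 0) :=
        Equiv.sum_comp M.φ⁻¹ (fun d => if M.En d then 2 else 0)
      rw [this, ← Finset.sum_filter, Finset.sum_const, smul_eq_mul, mul_comm]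
  have h6 : ∑ d, M.cz2 p0 d = ∑ d, M.chz p0 d + ∑ d, M.gf p0 d +
      2 * (univ.filter (fun d => M.En d)).card := by
    unfold cz2
    rw [Finset.sum_add_distrib, Finset.sum_add_distrib]
    congr 1
    rw [← Finset.sum_filter, Finset.sum_const, smul_eq_mul, mul_comm]
  have h7 : ncl (cs (M.φ * M.ε)) = cyc (M.φ * M.ε) := rfl
  rw [h7, h5, h6] at h1
  omega

include hC hn hw hc hU hL in
/-- There is no walk diagram whose cells are proper powers, if there is an order. -/
theorem no_diagram_pow (hκ : 2 ≤ κ) (M : WD Γ n κ w cl D) {p0 : ℕ}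
    (O : OrdH Γ n w cl p0) : False := by
  obtain ⟨M', h1, h2⟩ := exists_red hC (by omega) M
  exact M'.no_reduced_pow hC hn hw hc hU hL hκ O h1 h2

end WD

end MM31
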