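import Pool.Agent.LibMM31.WBuild
import Pool.Agent.LibMM31.WPow
import Pool.Agent.LibMM31.Dom
import Pool.Agent.LibMM31.Final70

/-!
# Cyclic conjugates equal to one: the certificate theorem with a folded graph
-/

set_option linter.unusedSectionVars false
set_option linter.style.haveILetI false

namespace MM31

variable {X V : Type}

/-- the cyclic word: the letter at position `k` modulo the length -/
def cw (w : List (Lt X)) (a : Lt X) (k : ℕ) : Lt X := wf w a (k % w.length)

theorem cw_of_lt {w : List (Lt X)} {a : Lt X} {k : ℕ} (h : k < w.length) :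
    cw w a k = wf w a k := by
  unfold cw; rw [Nat.mod_eq_of_lt h]

theorem CycRed.cw_succ {w : List (Lt X)} (h : CycRed w) (a : Lt X) (hn : 0 < w.length) (k : ℕ) :
    cw w a (k + 1) ≠ linv (cw w a k) := by
  unfold cw
  have h1 : k % w.length < w.length := Nat.mod_lt _ hn
  rcases Nat.lt_or_ge (k % w.length + 1) w.length with h2 | h2
  · have h3 : (k + 1) % w.length = k % w.length + 1 := by
      rw [← Nat.mod_add_mod, Nat.mod_eq_of_lt h2]
    rw [h3]
    exact h.wf_succ a _ h2
  · have h3 : k % w.length = w.length - 1 := by omega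
    have h4 : (k + 1) % w.length = 0 := by
      rw [← Nat.mod_add_mod, h3, Nat.sub_add_cancel hn, Nat.mod_self]
    rw [h3, h4]
    intro h5
    exact h.wf_last a hn (by rw [h5, linv_linv])

theorem rotate_eq_cw (w : List (Lt X)) (a : Lt X) (u : ℕ) :
    w.rotate u = (List.range w.length).map (fun k => cw w a (u + k)) := by
  apply List.ext_getElem
  · simp
  · intro i h1 h2
    rw [List.length_rotate] at h1
    have h3 : (i + u) % w.length < w.length := Nat.mod_lt _ (by omega)
    rw [List.getElem_rotate, List.getElem_map, List.getElem_range]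
    unfold cw wf
    rw [Nat.add_comm u i, List.getD_eq_getElem?_getD, List.getElem?_eq_getElem h3]
    rfl

theorem normalClosure_rotate (w : List (Lt X)) (u : ℕ) :
    Subgroup.normalClosure ({FreeGroup.mk w} : Set (FreeGroup X)) ≤
      Subgroup.normalClosure ({FreeGroup.mk (w.rotate u)} : Set (FreeGroup X)) := by
  apply Subgroup.normalClosure_le_normal
  rw [Set.singleton_subset_iff]
  have h1 : w.rotate u = w.rotate (u % w.length) := (List.rotate_mod w u).symm
  by_cases hw : w.length = 0
  · have : w = [] := List.length_eq_zero_iff.mp hw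
    subst this
    have : FreeGroup.mk ([] : List (X × Bool)) = 1 := FreeGroup.one_eq_mk.symm
    rw [this]
    exact one_mem _
  have h2 : u % w.length ≤ w.length := (Nat.mod_lt _ (Nat.pos_of_ne_zero hw)).le
  rw [h1, List.rotate_eq_drop_append_take h2]
  set A := w.take (u % w.length)
  set B := w.drop (u % w.length)
  have h3 : FreeGroup.mk w = FreeGroup.mk A * FreeGroup.mk (B ++ A) * (FreeGroup.mk A)⁻¹ := by
    rw [← FreeGroup.mul_mk]
    have : FreeGroup.mk w = FreeGroup.mk A * FreeGroup.mk B := by
      rw [FreeGroup.mul_mk, List.take_append_drop]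
    rw [this]; group
  rw [h3]
  exact Subgroup.normalClosure_normal.conj_mem _
    (Subgroup.subset_normalClosure (Set.mem_singleton _)) _

/-- If the cyclic conjugate of `w` starting at position `j` is `1` then there is a walk
containing the segment `j`. -/
theorem exists_walkWord_mem (w : List (Lt X)) (j : ℕ)
    (hj0 : 0 < j) (hj : j < w.length) (h : EqOne w (w.rotate j)) :
    ∃ js : List ℕ, j ∈ js ∧ (∀ k ∈ js, 0 < k ∧ k < w.length) ∧
      FreeGroup.mk (walkWord w js) ∈
        Subgroup.normalClosure ({FreeGroup.mk w} : Set (FreeGroup X)) := by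
  have hw : val (fun x => (PresentedGroup.of x : Gp w)) w = 1 := by rw [val_of, gval_self]
  obtain ⟨js, h1, h2⟩ := exists_list_of_mem_prefMon _ w hw
    (prefix_inv_mem_of_eqOne _ w hw j hj.le h)
  refine ⟨j :: js, by simp, ?_, ?_⟩
  · intro k hk
    rcases List.mem_cons.1 hk with rfl | hk
    · exact ⟨hj0, hj⟩
    · exact h1 k hk
  · have h3 : ((j :: js).map fun k => val (fun x => (PresentedGroup.of x : Gp w))
        (w.take k)).prod = 1 := by
      rw [List.map_cons, List.prod_cons, h2]
      simp
    rw [← gval_eq_one_iff, ← val_of, ← h3]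
    unfold walkWord
    clear h3 h1 h2
    generalize (j :: js) = ks
    induction ks with
    | nil => simp
    | cons k js ih => simp [ih]

/-- If there is no walk diagram then a conjugate which does not start at the base is not `1`. -/
theorem not_eqOne_of_nodiag (w : List (Lt X)) (a : Lt X) (n κ u : ℕ)
    (hn : 2 ≤ n) (hκ : 0 < κ) (hlen : κ * n = w.length)
    (hper : ∀ k, cw w a (k + n) = cw w a k)
    (Γ : PG X V) (c : ℕ → V) (c0 : c 0 = Γ.st)
    (cE : ∀ k, Γ.E (c k) (cw w a k) (c (k + 1)))
    (hno : ∀ (D : Type) [Fintype D] [DecidableEq D],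
      WD Γ n κ (fun k => cw w a (u + k)) (fun k => c (u + k)) D → False)
    (j : ℕ) (hj : j < w.length) (hcj : c j ≠ Γ.st) : ¬ EqOne w (w.rotate j) := by
  intro hone
  have hN : 0 < w.length := by omega
  have hj0 : 0 < j := by
    rcases Nat.eq_zero_or_pos j with h | h
    · subst h; exact absurd c0 hcj
    · exact h
  obtain ⟨js, hjm, hjs, hW⟩ := exists_walkWord_mem w j hj0 hj hone
  -- the walk
  have hpos : ∃ pos : ℕ → ℕ, ∀ t k (h : t < js.length), k < js[t] → pos (off js t + k) = k := by
    classical
    refine ⟨fun i => if h : ∃ k, ∃ t, ∃ h : t < js.length, k < js[t] ∧ i = off js t + k then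
      h.choose else 0, ?_⟩
    intro t k h hk
    have hh : ∃ k', ∃ t', ∃ h : t' < js.length, k' < js[t'] ∧ off js t + k = off js t' + k' :=
      ⟨k, t, h, hk, rfl⟩
    refine Eq.trans (dif_pos hh) ?_
    obtain ⟨t', h', hk', he⟩ := hh.choose_spec
    exact ((off_inj h hk h' hk' he).2).symm
  obtain ⟨pos, hpos⟩ := hpos
  set ℓ := js.sum with hℓ
  have hcoord : ∀ i < ℓ, ∃ t, ∃ h : t < js.length, ∃ k < js[t], off js t + k = i ∧ pos i = k := by
    intro i hi
    obtain ⟨t, h, k, hk, he⟩ := off_ex js i hi
    exact ⟨t, h, k, hk, he, by rw [← he]; exact hpos t k h hk⟩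
  have hpos0 : ∀ t, t < js.length → pos (off js t) = 0 := by
    intro t h
    have := hpos t 0 h (hjs _ (List.getElem_mem h)).1
    rwa [Nat.add_zero] at this
  -- the next position
  have hnext : ∀ t k (h : t < js.length), k < js[t] →
      (k + 1 < js[t] ∧ pos (nxt ℓ (off js t + k)) = k + 1) ∨
      (k + 1 = js[t] ∧ pos (nxt ℓ (off js t + k)) = 0) := by
    intro t k h hk
    rcases Nat.lt_or_ge (k + 1) js[t] with h1 | h1
    · left
      refine ⟨h1, ?_⟩
      have h2 := off_lt h h1
      unfold nxt
      rw [if_pos (by omega), Nat.add_assoc]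
      exact hpos t (k + 1) h h1
    · right
      have h3 : k + 1 = js[t] := by omega
      refine ⟨h3, ?_⟩
      have h4 := off_succ h
      unfold nxt
      rcases Nat.lt_or_ge (t + 1) js.length with h5 | h5
      · have h6 := off_lt h5 (hjs _ (List.getElem_mem h5)).1
        rw [if_pos (by omega)]
        have h7 : off js t + k + 1 = off js (t + 1) := by omega
        rw [h7]
        exact hpos0 _ h5
      · have h6 : t + 1 = js.length := by omega
        rw [h6, off_length] at h4
        rw [if_neg (by omega)]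
        have h7 := hpos0 0 (by omega)
        simpa [off] using h7
  have hx : (List.range ℓ).map (fun i => cw w a (pos i)) = walkWord w js := by
    rw [← wword_wf w a js (fun k hk => (hjs k hk).2)]
    apply List.ext_getElem?
    intro i
    rcases Nat.lt_or_ge i ℓ with hi | hi
    · obtain ⟨t, h, k, hk, he, hp⟩ := hcoord i hi
      rw [List.getElem?_map, List.getElem?_range hi]
      have h2 := wword_get (w := wf w a) js t k h hk
      rw [he] at h2
      rw [h2]
      show some (cw w a (pos i)) = _
      rw [hp, cw_of_lt]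
      have := (hjs _ (List.getElem_mem h)).2
      omega
    · rw [List.getElem?_eq_none (by simpa using hi), List.getElem?_eq_none]
      rw [wword_length]
      exact hi
  have hmem : FreeGroup.mk ((List.range ℓ).map (fun i => cw w a (pos i))) ∈
      Subgroup.normalClosure
        {FreeGroup.mk (wlist (κ * n) (wp n (fun k => cw w a (u + k))) true)} := by
    rw [hx]
    have e1 : wlist (κ * n) (wp n (fun k => cw w a (u + k))) true = w.rotate u := by
      rw [rotate_eq_cw w a u, ← hlen]
      unfold wlist
      apply List.map_congr_left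
      intro k _
      show cw w a (u + k % n) = cw w a (u + k)
      have key : ∀ m r, cw w a (u + r) = cw w a (u + (n * m + r)) := by
        intro m
        induction m with
        | zero => intro r; simp
        | succ m ih =>
          intro r
          have : u + (n * (m + 1) + r) = u + (n * m + r) + n := by ring
          rw [this, hper, ← ih r]
      rw [key (k / n) (k % n), Nat.div_add_mod]
    rw [e1]
    exact normalClosure_rotate w u hW
  obtain ⟨D, i1, i2, ⟨M⟩⟩ := exists_WD (Γ := Γ) (n := n) (κ := κ)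
    (w := fun k => cw w a (u + k)) (cl := fun k => c (u + k)) (by omega) hκ ℓ
    (fun i => c (pos i)) (fun i => c (pos i + 1)) (fun i => cw w a (pos i))
    (fun i _ => cE _) (by
      intro i hi
      obtain ⟨t, h, k, hk, he, hp⟩ := hcoord i hi
      have h1 := hnext t k h hk
      rw [he] at h1
      rw [hp]
      rcases h1 with ⟨_, h1⟩ | ⟨_, h1⟩
      · left; rw [h1]
      · rw [h1, c0]
        by_cases h2 : c (k + 1) = Γ.st
        · left; exact h2.symm
        · right; exact ⟨h2, rfl⟩) (by
      obtain ⟨t, ht, hte⟩ := List.getElem_of_mem hjm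
      have h1 := hnext t (j - 1) ht (by omega)
      have h2 := hpos t (j - 1) ht (by omega)
      refine ⟨off js t + (j - 1), off_lt ht (by omega), ?_⟩
      rw [h2, Nat.sub_add_cancel hj0]
      refine ⟨hcj, ?_⟩
      rcases h1 with ⟨h1, _⟩ | ⟨_, h1⟩
      · omega
      · rw [h1]; exact c0) hmem
  exact hno D M

theorem cellIn_cw (w : List (Lt X)) (a : Lt X) {n u : ℕ} {Γ : PG X V} {c : ℕ → V}
    (cu : c u = Γ.st) (cE : ∀ k, Γ.E (c k) (cw w a k) (c (k + 1)))
    (cper : ∀ k, c (k + n) = c k) :
    CellIn Γ n (fun k => cw w a (u + k)) (fun k => c (u + k)) := by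
  refine ⟨cu, ?_, ?_⟩
  · show c (u + n) = Γ.st
    rw [cper]; exact cu
  · intro k _
    exact cE (u + k)

theorem cw_last (w : List (Lt X)) (hred : CycRed w) (a : Lt X) {n u : ℕ} (hn : 2 ≤ n)
    (hN : 0 < w.length) (hper : ∀ k, cw w a (k + n) = cw w a k) :
    cw w a (u + (n - 1)) ≠ linv (cw w a (u + 0)) := by
  intro h
  have h1 := hred.cw_succ a hN (u + (n - 1))
  have h2 : u + (n - 1) + 1 = u + n := by omega
  rw [h2, hper] at h1
  exact h1 (by rw [h, linv_linv]; rfl)

/-- The certificate theorem. -/
theorem not_eqOne_of_cert (w : List (Lt X)) (hred : CycRed w) (a : Lt X) (n κ u : ℕ)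
    (hn : 2 ≤ n) (hκ : 0 < κ) (hlen : κ * n = w.length)
    (hper : ∀ k, cw w a (k + n) = cw w a k)
    (Γ : PG X V) (c : ℕ → V) (c0 : c 0 = Γ.st) (cu : c u = Γ.st)
    (cE : ∀ k, Γ.E (c k) (cw w a k) (c (k + 1))) (cper : ∀ k, c (k + n) = c k)
    (hU : cw w a u ≠ cw w a (u + (n - 1))) (hL : LoopP Γ)
    (hT : T0W Γ n (fun k => cw w a (u + k)) (fun k => c (u + k)))
    (j : ℕ) (hj : j < w.length) (hcj : c j ≠ Γ.st) : ¬ EqOne w (w.rotate j) := by
  have hN : 0 < w.length := by omega
  refine not_eqOne_of_nodiag w a n κ u hn hκ hlen hper Γ c c0 cE ?_ j hj hcj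
  intro D i1 i2 M
  refine M.no_diagram (cellIn_cw w a cu cE cper) hn ?_ (cw_last w hred a hn hN hper) hU hL hT hκ
  intro k _
  exact hred.cw_succ a hN (u + k)

/-- The theorem for proper powers. -/
theorem not_eqOne_of_pow (w : List (Lt X)) (hred : CycRed w) (a : Lt X) (n κ u : ℕ)
    (hn : 2 ≤ n) (hκ : 2 ≤ κ) (hlen : κ * n = w.length)
    (hper : ∀ k, cw w a (k + n) = cw w a k)
    (Γ : PG X V) (c : ℕ → V) (c0 : c 0 = Γ.st) (cu : c u = Γ.st)
    (cE : ∀ k, Γ.E (c k) (cw w a k) (c (k + 1))) (cper : ∀ k, c (k + n) = c k)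
    (hU : cw w a u ≠ cw w a (u + (n - 1))) (hL : LoopP Γ) {p0 : ℕ}
    (O : OrdH Γ n (fun k => cw w a (u + k)) (fun k => c (u + k)) p0)
    (j : ℕ) (hj : j < w.length) (hcj : c j ≠ Γ.st) : ¬ EqOne w (w.rotate j) := by
  have hN : 0 < w.length := by omega
  refine not_eqOne_of_nodiag w a n κ u hn (by omega) hlen hper Γ c c0 cE ?_ j hj hcj
  intro D i1 i2 M
  refine M.no_diagram_pow (cellIn_cw w a cu cE cper) hn ?_ (cw_last w hred a hn hN hper) hU hL
    hκ O
  intro k _
  exact hred.cw_succ a hN (u + k)

end MM31
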