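import Pool.Agent.LibMM31.WDefs

/-!
# Simplifying walk diagrams: mirror cells, rerouting
-/

set_option linter.unusedSectionVars false
set_option linter.style.haveILetI false

namespace MM31

open Equiv Equiv.Perm

theorem inv_sameCycle {D : Type} {φ : Perm D} {S : D → Prop} (h : ∀ x, S x ↔ S (φ x))
    {x y : D} (hxy : SameCycle φ x y) : S x ↔ S y := by
  classical
  have hle : cs φ ≤ (⟨fun a b => (S a ↔ S b), by
      refine ⟨fun x => Iff.rfl, fun h => h.symm, fun h k => h.trans k⟩⟩ : Setoid D) := by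
    apply cs_le_of_apply
    intro a
    exact h a
  exact hle hxy

theorem card_sub_le {D : Type} [Finite D] {P Q : D → Prop} (h : ∀ d, P d → Q d) :
    Nat.card {d // P d} ≤ Nat.card {d // Q d} := by
  apply Nat.card_le_card_of_injective (fun x : {d // P d} => (⟨x.1, h _ x.2⟩ : {d // Q d}))
  intro x y hxy
  apply Subtype.ext
  have h1 := congrArg Subtype.val hxy
  exact h1

/-- the walker rule is preserved when a mirror pair is skipped -/
theorem comb {V : Type} {st a b c d : V} (h1 : b = a ∨ (a ≠ st ∧ b = st))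
    (h2 : d = c ∨ (c ≠ st ∧ d = st)) (h3 : c = b) : d = a ∨ (a ≠ st ∧ d = st) := by
  subst h3
  rcases h1 with h1 | ⟨h1, h1'⟩ <;> rcases h2 with h2 | ⟨h2, h2'⟩
  · exact Or.inl (h2.trans h1)
  · exact Or.inr ⟨by rw [← h1]; exact h2, h2'⟩
  · exact Or.inr ⟨h1, h2.trans h1'⟩
  · exact absurd h1' h2

namespace WD

variable {X V : Type} {Γ : PG X V} {n κ : ℕ} {w : ℕ → Lt X} {cl : ℕ → V}
variable {D : Type} [Finite D] [DecidableEq D]

theorem n_pos (M : WD Γ n κ w cl D) {d : D} (hd : M.inner d) : 0 < n :=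
  lt_of_le_of_lt (Nat.zero_le _) (M.tm_lt d hd)

theorem pow_inj (M : WD Γ n κ w cl D) {d : D} (hd : M.inner d) {k l : ℕ} (hk : k < κ * n)
    (hl : l < κ * n) (h : (M.φ ^ k) d = (M.φ ^ l) d) : k = l := by
  have key : ∀ k l : ℕ, k < l → l < κ * n → (M.φ ^ k) d ≠ (M.φ ^ l) d := by
    intro k l hkl hl h
    have e : l = k + (l - k) := by omega
    rw [e, pow_add, Perm.mul_apply] at h
    exact M.min_inner d hd (l - k) (by omega) (by omega) ((M.φ ^ k).injective h).symm
  rcases Nat.lt_trichotomy k l with h1 | h1 | h1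
  · exact absurd h (key k l h1 hl)
  · exact h1
  · exact absurd h.symm (key l k h1 hk)

theorem exists_tm_zero (M : WD Γ n κ w cl D) {d : D} (hd : M.inner d) :
    ∃ k, M.tm ((M.φ ^ k) d) = 0 := by
  refine ⟨n - M.tm d, ?_⟩
  rw [M.tm_pow hd]
  have := M.tm_lt d hd
  have e1 : M.tm d + (n - M.tm d) = n := by omega
  rw [e1, Nat.mod_self]

/-- removal of an invariant set of inner darts -/
theorem removeInner (M : WD Γ n κ w cl D) (ε1 : Perm D) (hpl : Pl M.φ ε1)
    (hgl : Glue (fun d => M.inner d ∨ M.wk d) (fun d e => M.lt e = linv (M.lt d)) ε1)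
    (S : D → Prop) (hS : ∀ d, S d → M.inner d) (h1 : ∀ d, S d → S (M.φ d))
    (h2 : ∀ d, S d → S (ε1 d)) (hex : ∃ d, S d) :
    ∃ M' : WD Γ n κ w cl D, M'.F < M.F := by
  have h1' := inv_of_forward h1
  obtain ⟨φ', ε', p1, p2, p3⟩ := hpl.kill2 S h1 h2
  have hg := hgl.kill S h2 (fun d hd => (p2 d hd).2) (fun d hd => (p3 d hd).2)
  have hwS : ∀ d, M.wk d → ¬ S d := fun d hd hs => M.disj d (hS d hs) hd
  refine ⟨M.modify φ' ε' (fun d => M.inner d ∧ ¬ S d) M.wk p1 ?_ ?_ ?_ ?_ ?_ ?_ ?_, ?_⟩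
  · rintro d ⟨hd, hs⟩
    exact ⟨hd, (p3 d hs).1, M.phi_inner d hd, fun hh => hs ((h1' d).mpr hh)⟩
  · intro d hd
    refine ⟨M.edge d hd, fun hh => M.disj d hh.1 hd, ?_⟩
    rw [(p3 d (hwS d hd)).1]; exact M.phi_wk d hd
  · intro d hd
    rw [(p3 d (hwS d hd)).1]; exact M.trans d hd
  · intro d e hd he
    obtain ⟨i, hi⟩ := (M.one d e hd he).exists_nat_pow_eq
    have := pow_agree (P := M.wk) (fun d hd => (p3 d (hwS d hd)).1) M.phi_wk d hd i
    refine ⟨(i : ℤ), ?_⟩
    rw [zpow_natCast, this.1, hi]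
  · obtain ⟨d, h3, h4, h5⟩ := M.sw
    exact ⟨d, h3, h4, by rw [(p3 d (hwS d h3)).1]; exact h5⟩
  · intro d h3 h4
    by_cases hs : S d
    · exact (p2 d hs).1
    · rw [(p3 d hs).1]
      exact M.dead d (fun hh => h3 ⟨hh, hs⟩) h4
  · refine hg.congr ?_
    intro d
    constructor
    · rintro ⟨h | h, hs⟩
      · exact Or.inl ⟨h, hs⟩
      · exact Or.inr h
    · rintro (h | h)
      · exact ⟨Or.inl h.1, h.2⟩
      · exact ⟨Or.inr h, hwS d h⟩
  · obtain ⟨d, hd⟩ := hex
    obtain ⟨k, hk⟩ := M.exists_tm_zero (hS d hd)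
    have hSk : S ((M.φ ^ k) d) := by
      have : ∀ k, S ((M.φ ^ k) d) := by
        intro k
        induction k with
        | zero => simpa using hd
        | succ k ih => rw [pow_succ', Perm.mul_apply]; exact h1 _ ih
      exact this k
    unfold F
    exact card_sub_lt (fun d hd => ⟨hd.1.1, hd.2⟩) ((M.φ ^ k) d) ⟨hS _ hSk, hk⟩
      (fun hh => hh.1.2 hSk)

/-- two inner mirror cells can be removed -/
theorem R1 (M : WD Γ n κ w cl D) (hκ : 0 < κ) (d : D) (hd : M.inner d)
    (he : M.inner (M.ε d)) (hs : M.sg (M.ε d) = !(M.sg d))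
    (ht : M.tm (M.ε d) = n - 1 - M.tm d) : ∃ M' : WD Γ n κ w cl D, M'.F < M.F := by
  classical
  have hn := M.n_pos hd
  have htd := M.tm_lt d hd
  set e := M.ε d with hee
  have hglue := M.glue
  set A : ℕ → D := fun k => (M.φ ^ k) d with hA
  set B : ℕ → D := fun k => (M.φ ^ (κ * n - k)) e with hB
  have innA : ∀ k, M.inner (A k) := fun k => M.inner_pow hd k
  have innB : ∀ k, M.inner (B k) := fun k => M.inner_pow he _
  have tAB : ∀ k < κ * n, M.tm (B k) = n - 1 - M.tm (A k) := by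
    intro k hk
    have h1 := M.tm_pow hd k
    have h2 := M.tm_pow he (κ * n - k)
    have h3 := M.tm_lt _ (innA k)
    have h4 := M.tm_lt _ (innB k)
    rw [ht] at h2
    have h5 : (M.tm (A k) + (M.tm (B k) + 1)) % n = 0 := by
      rw [show M.tm (A k) = (M.tm d + k) % n from h1,
        show M.tm (B k) = (n - 1 - M.tm d + (κ * n - k)) % n from h2]
      have e1 : ((M.tm d + k) % n + ((n - 1 - M.tm d + (κ * n - k)) % n + 1)) % n =
          (M.tm d + k + (n - 1 - M.tm d + (κ * n - k) + 1)) % n := by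
        have := Nat.ModEq.add (Nat.mod_modEq (M.tm d + k) n)
          ((Nat.mod_modEq (n - 1 - M.tm d + (κ * n - k)) n).add_right 1)
        exact this
      rw [e1]
      have e2 : M.tm d + k + (n - 1 - M.tm d + (κ * n - k) + 1) = (κ + 1) * n := by
        have : (κ + 1) * n = κ * n + n := by ring
        omega
      rw [e2]
      exact Nat.mul_mod_left _ _
    have h6 : n ∣ (M.tm (A k) + (M.tm (B k) + 1)) := Nat.dvd_of_mod_eq_zero h5
    obtain ⟨c, hc⟩ := h6
    have hc1 : c = 1 := by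
      rcases Nat.lt_or_ge c 1 with h | h
      · have : c = 0 := by omega
        rw [this, Nat.mul_zero] at hc
        omega
      · rcases Nat.lt_or_ge 1 c with h' | h'
        · have : n * 2 ≤ n * c := Nat.mul_le_mul_left n h'
          omega
        · omega
    rw [hc1, Nat.mul_one] at hc
    omega
  have fA : ∀ k, M.φ (A k) = A (k + 1) := by
    intro k
    rw [hA]
    simp only
    rw [pow_succ', Perm.mul_apply]
  have fB : ∀ k, k + 1 ≤ κ * n → M.φ (B (k + 1)) = B k := by
    intro k hk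
    rw [hB]
    simp only
    rw [← Perm.mul_apply, ← pow_succ']
    congr 2
    omega
  have B0 : B 0 = e := by rw [hB]; simp only [Nat.sub_zero]; exact M.per_inner e he
  have A0 : A 0 = d := by simp [hA]
  have iA : ∀ k < κ * n, ∀ l < κ * n, A k = A l → k = l := fun k hk l hl h =>
    M.pow_inj hd hk hl h
  have iB : ∀ k < κ * n, ∀ l < κ * n, B k = B l → k = l := by
    have key : ∀ k < κ * n, ∀ l < κ * n, k < l → B k ≠ B l := by
      intro k hk l hl hkl h
      rcases Nat.eq_zero_or_pos k with h0 | h0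
      · subst h0
        rw [B0] at h
        exact M.min_inner e he (κ * n - l) (by omega) (by omega) h.symm
      · have := M.pow_inj he (k := κ * n - k) (l := κ * n - l) (by omega) (by omega) h
        omega
    intro k hk l hl h
    rcases Nat.lt_trichotomy k l with h1 | h1 | h1
    · exact absurd h (key k hk l hl h1)
    · exact h1
    · exact absurd h.symm (key l hl k hk h1)
  have sA : ∀ k, M.sg (A k) = M.sg d := fun k => M.sg_pow hd k
  have sB : ∀ k, M.sg (B k) = !(M.sg d) := fun k => by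
    rw [← hs]; exact M.sg_pow he _
  have iAB : ∀ k < κ * n, ∀ l < κ * n, A k ≠ B l := by
    intro k _ l _ h
    have h1 := congrArg M.sg h
    rw [sA, sB] at h1
    cases hh : M.sg d <;> rw [hh] at h1 <;> simp at h1
  have hc : ∀ k < κ * n, M.lt (B k) = linv (M.lt (A k)) := by
    intro k hk
    rw [M.lt_inner _ (innB k), M.lt_inner _ (innA k), sA, sB, tAB k hk]
    exact wl_flip n w _ _ (M.tm_lt _ (innA k))
  have hkn : 0 < κ * n := Nat.mul_pos hκ hn
  obtain ⟨ε1, z1, z2, z3, z4⟩ := zip M.pl M.compat hglue (κ * n) A B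
    (fun k _ => Or.inl (innA k)) (fun k _ => Or.inl (innB k)) (fun k _ => fA k)
    (fun k hk => fB k (by omega)) iA iB iAB hc (fun _ => by rw [A0, B0])
  refine M.removeInner ε1 z1 z2 (fun x => ∃ k < κ * n, x = A k ∨ x = B k) ?_ ?_ ?_
    ⟨A 0, 0, hkn, Or.inl rfl⟩
  · rintro x ⟨k, _, rfl | rfl⟩
    · exact innA k
    · exact innB k
  · rintro x ⟨k, hk, rfl | rfl⟩
    · rcases Nat.lt_or_ge (k + 1) (κ * n) with h1 | h1
      · exact ⟨k + 1, h1, Or.inl (fA k)⟩
      · refine ⟨0, hkn, Or.inl ?_⟩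
        rw [fA, A0]
        have : k + 1 = κ * n := by omega
        rw [this]
        exact M.per_inner d hd
    · rcases Nat.eq_zero_or_pos k with h0 | h0
      · refine ⟨κ * n - 1, by omega, Or.inr ?_⟩
        subst h0
        rw [B0, hB]
        simp only
        rw [show κ * n - (κ * n - 1) = 1 by omega, pow_one]
      · refine ⟨k - 1, by omega, Or.inr ?_⟩
        have := fB (k - 1) (by omega)
        rwa [Nat.sub_add_cancel h0] at this
  · rintro x ⟨k, hk, rfl | rfl⟩
    · exact ⟨k, hk, Or.inr (z3 k hk)⟩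
    · refine ⟨k, hk, Or.inl ?_⟩
      have := z2.inv (A k) (Or.inl (innA k))
      rw [z3 k hk] at this
      exact this

end WD

end MM31
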