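import Pool.Agent.LibMM31.WMove

/-!
# Simplifying walk diagrams: moves involving the walker
-/

set_option linter.unusedSectionVars false
set_option linter.style.haveILetI false

namespace MM31

open Equiv Equiv.Perm

/-- after a merge the old cycles are contained in the new ones -/
theorem sc_join {D : Type} [Finite D] [DecidableEq D] {φ : Perm D} {x y : D}
    (h : ¬ SameCycle φ x y) : SameCycle (swap x y * φ) x y ∧
      ∀ a b, SameCycle φ a b → SameCycle (swap x y * φ) a b := by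
  have h4 := sameCycle_mul_swap (σ := φ⁻¹) (x := x) (y := y) (fun hh => h (sameCycle_inv.mp hh))
  have h5 : cs (swap x y * φ) x y := by
    rw [cs_swap_mul]
    exact h4
  refine ⟨h5, ?_⟩
  intro a b hab
  have e1 : cs (swap x y * φ) ⊔ jn x y = cs φ ⊔ jn x y := cs_swap_mul_sup_jn φ _ _
  rw [sup_jn_eq h5] at e1
  have : cs φ ≤ cs (swap x y * φ) := by rw [e1]; exact le_sup_left
  exact this hab

/-- after a split the old cycle is covered by the two new ones -/
theorem sc_split {D : Type} [Finite D] [DecidableEq D] {φ : Perm D} {x y z : D}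
    (h : SameCycle φ z x) : SameCycle (swap x y * φ) z x ∨ SameCycle (swap x y * φ) z y := by
  have e1 : cs (swap x y * φ) ⊔ jn x y = cs φ ⊔ jn x y := cs_swap_mul_sup_jn φ _ _
  have h2 : (cs φ ⊔ jn x y) z x := (le_sup_left : cs φ ≤ cs φ ⊔ jn x y) h
  rw [← e1, sup_jn_iff] at h2
  rcases h2 with h2 | ⟨h2, _⟩ | ⟨h2, _⟩
  · exact Or.inl h2
  · exact Or.inl h2
  · exact Or.inr h2

theorem combJ1 {V : Type} {st a b c d : V} (h1 : a ≠ st ∧ b = st)
    (h2 : d = c ∨ (c ≠ st ∧ d = st)) (h3 : c = b) : a ≠ st ∧ d = st := by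
  subst h3
  rcases h2 with h2 | ⟨h2, _⟩
  · exact ⟨h1.1, h2.trans h1.2⟩
  · exact absurd h1.2 h2

theorem combJ2 {V : Type} {st a b c d : V} (h1 : b = a ∨ (a ≠ st ∧ b = st))
    (h2 : c ≠ st ∧ d = st) (h3 : c = b) : a ≠ st ∧ d = st := by
  subst h3
  rcases h1 with h1 | ⟨_, h1⟩
  · exact ⟨by rw [← h1]; exact h2.1, h2.2⟩
  · exact absurd h1 h2.1

namespace WD

variable {X V : Type} {Γ : PG X V} {n κ : ℕ} {w : ℕ → Lt X} {cl : ℕ → V}
variable {D : Type} [Finite D] [DecidableEq D]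

/-- the walker is rerouted around a cell -/
theorem R2 (hC : CellIn Γ n w cl) (M : WD Γ n κ w cl D) (d : D) (hd : M.wk d)
    (he : M.inner (M.ε d)) (h1 : M.sr (M.ε d) = M.ds d) (h2 : M.ds (M.ε d) = M.sr d) :
    ∃ M' : WD Γ n κ w cl D, M'.F < M.F := by
  set e := M.ε d with hee
  have hne : M.φ e ≠ d := fun hh => M.disj _ (M.phi_inner e he) (hh ▸ hd)
  have hnd : ¬ SameCycle M.φ d (M.φ e) := by
    intro hh
    exact M.disj _ (M.phi_inner e he) ((inv_sameCycle M.wk_iff hh).mp hd)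
  obtain ⟨j1, j2⟩ := sc_join hnd
  set φ1 := swap d (M.φ e) * M.φ with hφ1
  have v1 : ∀ x, M.φ x = d → φ1 x = M.φ e := by
    intro x hx; rw [hφ1, Perm.mul_apply, hx, swap_apply_left]
  have v2 : φ1 e = d := by rw [hφ1, Perm.mul_apply, swap_apply_right]
  have v3 : ∀ x, M.φ x ≠ d → x ≠ e → φ1 x = M.φ x := by
    intro x h3 h4
    rw [hφ1, Perm.mul_apply, swap_apply_of_ne_of_ne h3 (fun hh => h4 (M.φ.injective hh))]
  have hQe : SameCycle M.φ e (M.φ e) := ⟨1, by simp⟩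
  have hQs : ∀ x, SameCycle M.φ e x ↔ SameCycle M.φ e (M.φ x) := fun x =>
    sameCycle_apply_right.symm
  have hQi : ∀ x, SameCycle M.φ e x → M.inner x := fun x hx =>
    (inv_sameCycle M.inner_iff hx).mp he
  refine ⟨M.modify φ1 M.ε (fun x => M.inner x ∧ ¬ SameCycle M.φ e x)
    (fun x => M.wk x ∨ SameCycle M.φ e x) (M.pl.join hee.symm hne) ?_ ?_ ?_ ?_ ?_ ?_ ?_, ?_⟩
  · rintro x ⟨hx, hs⟩
    refine ⟨hx, v3 x ?_ ?_, M.phi_inner x hx, fun hh => hs ((hQs x).mpr hh)⟩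
    · intro hh; exact M.disj _ (M.phi_inner x hx) (hh ▸ hd)
    · rintro rfl; exact hs (SameCycle.refl _ _)
  · intro x hx
    have hal : M.al x := by
      rcases hx with hx | hx
      · exact Or.inr hx
      · exact Or.inl (hQi x hx)
    refine ⟨M.edge_al hC hal, ?_, ?_⟩
    · rintro ⟨h3, h4⟩
      rcases hx with hx | hx
      · exact M.disj x h3 hx
      · exact h4 hx
    · by_cases h3 : M.φ x = d
      · rw [v1 x h3]; exact Or.inr hQe
      by_cases h4 : x = e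
      · rw [h4, v2]; exact Or.inl hd
      rw [v3 x h3 h4]
      rcases hx with hx | hx
      · exact Or.inl (M.phi_wk x hx)
      · exact Or.inr ((hQs x).mp hx)
  · intro x hx
    by_cases h3 : M.φ x = d
    · rw [v1 x h3, M.inner_trans hC he, h2]
      have hxw : M.wk x := (M.wk_iff x).mpr (h3 ▸ hd)
      have := M.trans x hxw
      rwa [h3] at this
    by_cases h4 : x = e
    · rw [h4, v2]; exact Or.inl h2.symm
    rw [v3 x h3 h4]
    rcases hx with hx | hx
    · exact M.trans x hx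
    · exact Or.inl (M.inner_trans hC (hQi x hx))
  · have key : ∀ x, M.wk x ∨ SameCycle M.φ e x → SameCycle φ1 x d := by
      rintro x (hx | hx)
      · exact j2 _ _ (M.one x d hx hd)
      · exact (j2 _ _ (hx.symm.trans hQe)).trans j1.symm
    intro x y hx hy
    exact (key x hx).trans (key y hy).symm
  · obtain ⟨z, z1, z2, z3⟩ := M.sw
    refine ⟨z, Or.inl z1, z2, ?_⟩
    by_cases h3 : M.φ z = d
    · rw [v1 z h3, M.inner_trans hC he, h2, ← h3]; exact z3
    · rw [v3 z h3 (fun hh => M.disj e he (hh ▸ z1))]; exact z3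
  · intro x h3 h4
    have hx : M.φ x = x := M.dead x (fun hh => h4 (Or.inr (by
      by_contra hcon
      exact h3 ⟨hh, hcon⟩))) (fun hh => h4 (Or.inl hh))
    rw [v3 x]
    · exact hx
    · rw [hx]; rintro rfl; exact h4 (Or.inl hd)
    · rintro rfl; exact h4 (Or.inr (SameCycle.refl _ _))
  · refine M.glue.congr ?_
    intro x
    constructor
    · rintro (h | h)
      · by_cases hq : SameCycle M.φ e x
        · exact Or.inr (Or.inr hq)
        · exact Or.inl ⟨h, hq⟩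
      · exact Or.inr (Or.inl h)
    · rintro (h | h | h)
      · exact Or.inl h.1
      · exact Or.inr h
      · exact Or.inl (hQi x h)
  · obtain ⟨k, hk⟩ := M.exists_tm_zero he
    have hq : SameCycle M.φ e ((M.φ ^ k) e) := ⟨(k : ℤ), by rw [zpow_natCast]⟩
    unfold F
    exact card_sub_lt (fun x hx => ⟨hx.1.1, hx.2⟩) ((M.φ ^ k) e) ⟨hQi _ hq, hk⟩
      (fun hh => hh.1.2 hq)

/-- two facing edges of the walker: cut the walker -/
theorem R3 (M : WD Γ n κ w cl D) (d : D) (hd : M.wk d) (he : M.wk (M.ε d))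
    (h2 : M.ds (M.ε d) = M.sr d) (hne : M.φ (M.ε d) ≠ d) :
    ∃ M' : WD Γ n κ w cl D, M'.F ≤ M.F ∧ M'.N < M.N := by
  set e := M.ε d with hee
  have hsame : SameCycle M.φ d (M.φ e) := M.one _ _ hd (M.phi_wk e he)
  have hν : SameCycle (M.φ * M.ε) d (M.φ e) := ⟨1, by rw [zpow_one, Perm.mul_apply, hee]⟩
  have hbr := M.pl.bridge hne.symm hsame hν
  have hpl : Pl (swap d (M.φ e) * M.φ) M.ε := M.pl.phi_split hne.symm hsame
  have hsp : ∀ z, M.wk z → SameCycle (swap d (M.φ e) * M.φ) z d ∨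
      SameCycle (swap d (M.φ e) * M.φ) z (M.φ e) := fun z hz => sc_split (M.one z d hz hd)
  set φ1 := swap d (M.φ e) * M.φ with hφ1
  have v1 : ∀ x, M.φ x = d → φ1 x = M.φ e := by
    intro x hx; rw [hφ1, Perm.mul_apply, hx, swap_apply_left]
  have v2 : φ1 e = d := by rw [hφ1, Perm.mul_apply, swap_apply_right]
  have v3 : ∀ x, M.φ x ≠ d → x ≠ e → φ1 x = M.φ x := by
    intro x h3 h4
    rw [hφ1, Perm.mul_apply, swap_apply_of_ne_of_ne h3 (fun hh => h4 (M.φ.injective hh))]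
  have w1 : ∀ x, M.wk x → M.wk (φ1 x) := by
    intro x hx
    by_cases h3 : M.φ x = d
    · rw [v1 x h3]; exact M.phi_wk e he
    by_cases h4 : x = e
    · rw [h4, v2]; exact hd
    rw [v3 x h3 h4]; exact M.phi_wk x hx
  have i1 : ∀ x, M.inner x → φ1 x = M.φ x := by
    intro x hx
    apply v3
    · intro hh; exact M.disj _ (M.phi_inner x hx) (hh ▸ hd)
    · rintro rfl; exact M.disj _ hx he
  have tr1 : ∀ x, M.wk x → M.sr (φ1 x) = M.ds x ∨ (M.ds x ≠ Γ.st ∧ M.sr (φ1 x) = Γ.st) := by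
    intro x hx
    by_cases h3 : M.φ x = d
    · rw [v1 x h3]
      have a1 := M.trans x hx
      rw [h3] at a1
      exact comb a1 (M.trans e he) h2
    by_cases h4 : x = e
    · rw [h4, v2]; exact Or.inl h2.symm
    rw [v3 x h3 h4]; exact M.trans x hx
  have jmp : ∃ z, M.wk z ∧ M.ds z ≠ Γ.st ∧ M.sr (φ1 z) = Γ.st := by
    obtain ⟨z, z1, z2, z3⟩ := M.sw
    by_cases h3 : M.φ z = d
    · refine ⟨z, z1, ?_⟩
      rw [v1 z h3]
      rw [h3] at z3
      exact combJ1 ⟨z2, z3⟩ (M.trans e he) h2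
    by_cases h4 : z = e
    · obtain ⟨a, ha⟩ := M.φ.surjective d
      have haw : M.wk a := (M.wk_iff a).mpr (ha ▸ hd)
      refine ⟨a, haw, ?_⟩
      rw [v1 a ha]
      have a1 := M.trans a haw
      rw [ha] at a1
      rw [h4] at z2 z3
      exact combJ2 a1 ⟨z2, z3⟩ h2
    exact ⟨z, z1, z2, by rw [v3 z h3 h4]; exact z3⟩
  -- removal of one side
  have main : ∀ p q : D, M.wk q → ¬ (cs φ1 ⊔ cs M.ε) p q →
      (∀ z, M.wk z → SameCycle φ1 z p ∨ SameCycle φ1 z q) →
      (∃ z, M.wk z ∧ SameCycle φ1 z p ∧ M.ds z ≠ Γ.st ∧ M.sr (φ1 z) = Γ.st) →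
      ∃ M' : WD Γ n κ w cl D, M'.F ≤ M.F ∧ M'.N < M.N := by
    intro p q hq hpq hcov hj
    have le1 : cs φ1 ≤ cs φ1 ⊔ cs M.ε := le_sup_left
    have le2 : cs M.ε ≤ cs φ1 ⊔ cs M.ε := le_sup_right
    set S : D → Prop := fun x => (cs φ1 ⊔ cs M.ε) q x with hS
    have S1 : ∀ x, S x → S (φ1 x) := fun x hx =>
      (cs φ1 ⊔ cs M.ε).trans' hx (le1 (⟨1, by simp⟩ : SameCycle φ1 x (φ1 x)))
    have S2 : ∀ x, S x → S (M.ε x) := fun x hx =>
      (cs φ1 ⊔ cs M.ε).trans' hx (le2 (⟨1, by simp⟩ : SameCycle M.ε x (M.ε x)))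
    have S1' := inv_of_forward S1
    have Sp : ∀ z, SameCycle φ1 z p → ¬ S z := fun z hz hs =>
      hpq ((cs φ1 ⊔ cs M.ε).trans' (le1 hz.symm) ((cs φ1 ⊔ cs M.ε).symm' hs))
    have Sn : ∀ z, M.wk z → ¬ S z → SameCycle φ1 z p := by
      intro z hz hs
      rcases hcov z hz with h | h
      · exact h
      · exact absurd ((cs φ1 ⊔ cs M.ε).symm' (le1 h)) hs
    obtain ⟨φ', ε', p1, p2, p3⟩ := hpl.kill2 S S1 S2
    have hg := M.glue.kill S S2 (fun d hd => (p2 d hd).2) (fun d hd => (p3 d hd).2)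
    have pa := pow_agree (P := fun x => ¬ S x) (fun d hd => (p3 d hd).1)
      (fun d hd hh => hd ((S1' d).mpr hh))
    refine ⟨M.modify φ' ε' (fun x => M.inner x ∧ ¬ S x) (fun x => M.wk x ∧ ¬ S x) p1
      ?_ ?_ ?_ ?_ ?_ ?_ ?_, ?_, ?_⟩
    · rintro x ⟨hx, hs⟩
      refine ⟨hx, ?_, M.phi_inner x hx, ?_⟩
      · rw [(p3 x hs).1, i1 x hx]
      · rw [← i1 x hx]; exact fun hh => hs ((S1' x).mpr hh)
    · rintro x ⟨hx, hs⟩
      refine ⟨M.edge x hx, fun hh => M.disj x hh.1 hx, ?_⟩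
      rw [(p3 x hs).1]
      exact ⟨w1 x hx, fun hh => hs ((S1' x).mpr hh)⟩
    · rintro x ⟨hx, hs⟩
      rw [(p3 x hs).1]; exact tr1 x hx
    · rintro x y ⟨hx, hxs⟩ ⟨hy, hys⟩
      have h3 : SameCycle φ1 x y := (Sn x hx hxs).trans (Sn y hy hys).symm
      obtain ⟨i, hi⟩ := h3.exists_nat_pow_eq
      refine ⟨(i : ℤ), ?_⟩
      rw [zpow_natCast, (pa x hxs i).1, hi]
    · obtain ⟨z, z1, z2, z3, z4⟩ := hj
      exact ⟨z, ⟨z1, Sp z z2⟩, z3, by rw [(p3 z (Sp z z2)).1]; exact z4⟩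
    · intro x h3 h4
      by_cases hs : S x
      · exact (p2 x hs).1
      · have hni : ¬ M.inner x := fun hh => h3 ⟨hh, hs⟩
        have hnw : ¬ M.wk x := fun hh => h4 ⟨hh, hs⟩
        have hx := M.dead x hni hnw
        rw [(p3 x hs).1, v3 x]
        · exact hx
        · rw [hx]; rintro rfl; exact hnw hd
        · rintro rfl; exact hnw he
    · refine hg.congr ?_
      intro x
      constructor
      · rintro ⟨h | h, hs⟩
        · exact Or.inl ⟨h, hs⟩
        · exact Or.inr ⟨h, hs⟩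
      · rintro (h | h)
        · exact ⟨Or.inl h.1, h.2⟩
        · exact ⟨Or.inr h.1, h.2⟩
    · unfold F
      exact card_sub_le (fun x hx => ⟨hx.1.1, hx.2⟩)
    · unfold N
      exact card_sub_lt (fun x hx => hx.1) q hq
        (fun hh => hh.2 ((cs φ1 ⊔ cs M.ε).refl' q))
  obtain ⟨z, z1, z2, z3⟩ := jmp
  rcases hsp z z1 with h | h
  · exact main d (M.φ e) (M.phi_wk e he) hbr hsp ⟨z, z1, h, z2, z3⟩
  · exact main (M.φ e) d hd (fun hh => hbr ((cs φ1 ⊔ cs M.ε).symm' hh))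
      (fun z hz => (hsp z hz).symm) ⟨z, z1, h, z2, z3⟩

/-- a backtracking of the walker is removed -/
theorem R4 (M : WD Γ n κ w cl D) (a : D) (ha : M.wk a) (h1 : M.sr (M.φ a) = M.ds a)
    (h2 : M.lt (M.φ a) = linv (M.lt a)) :
    ∃ M' : WD Γ n κ w cl D, M'.F ≤ M.F ∧ M'.N < M.N := by
  set b := M.φ a with hb
  have hbw : M.wk b := M.phi_wk a ha
  have hab : a ≠ b := by
    intro hh
    have := h2
    rw [← hh] at this
    exact linv_ne _ this.symm
  have hds : M.ds b = M.sr a := by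
    have e1 := M.edge b hbw
    rw [h1, h2] at e1
    exact Γ.det e1 (Γ.symm (M.edge a ha))
  have tb := M.trans b hbw
  have hba : M.φ b ≠ a := by
    intro hh
    obtain ⟨z, z1, z2, z3⟩ := M.sw
    have hz : z = a ∨ z = b := by
      have hP : ∀ x, (x = a ∨ x = b) → (M.φ x = a ∨ M.φ x = b) := by
        rintro x (rfl | rfl)
        · exact Or.inr rfl
        · exact Or.inl hh
      have hP' := inv_of_forward hP
      exact (inv_sameCycle (S := fun x => x = a ∨ x = b) hP' (M.one a z ha z1)).mp (Or.inl rfl)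
    rcases hz with rfl | rfl
    · rw [← hb, h1] at z3; exact z2 z3
    · rw [hh] at z3; rw [hds] at z2; exact z2 z3
  obtain ⟨ε', f1, f2⟩ := fold M.pl M.compat M.glue (Or.inr ha) (Or.inr hbw) hab hb.symm h2
  obtain ⟨φ2, g1, g2, g3, g4, g5⟩ := f1.iso a
  obtain ⟨φ3, k1, k2, k3, k4, k5⟩ := g1.iso b
  have v2b : φ2 b = M.φ b := g4 b hab.symm hba
  have u1 : ∀ x, x ≠ a → x ≠ b → M.φ x = a → φ3 x = M.φ b := by
    intro x hxa hxb hx
    rw [k3 x hxb (g3 x hxa hx), v2b]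
  have u2 : ∀ x, x ≠ a → x ≠ b → M.φ x ≠ a → φ3 x = M.φ x := by
    intro x hxa hxb hx
    have h3 : φ2 x = M.φ x := g4 x hxa hx
    rw [k4 x hxb, h3]
    rw [h3]
    exact fun hh => hxa (M.φ.injective (hh.trans hb))
  have u3 : φ3 a = a := by rw [k4 a hab (by rw [g2]; exact hab), g2]
  have hbb : M.φ b ≠ b := fun hh => hab (M.φ.injective (hb.symm.trans hh.symm))
  refine ⟨M.modify φ3 ε' M.inner (fun x => M.wk x ∧ x ≠ a ∧ x ≠ b) k1 ?_ ?_ ?_ ?_ ?_ ?_ ?_, ?_, ?_⟩
  · intro x hx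
    refine ⟨hx, u2 x ?_ ?_ ?_, M.phi_inner x hx⟩
    · rintro rfl; exact M.disj _ hx ha
    · rintro rfl; exact M.disj _ hx hbw
    · intro hh; exact M.disj _ (M.phi_inner x hx) (hh ▸ ha)
  · rintro x ⟨hx, hxa, hxb⟩
    refine ⟨M.edge x hx, fun hh => M.disj x hh hx, ?_⟩
    by_cases h3 : M.φ x = a
    · rw [u1 x hxa hxb h3]; exact ⟨M.phi_wk b hbw, hba, hbb⟩
    · rw [u2 x hxa hxb h3]
      exact ⟨M.phi_wk x hx, h3, fun hh => hxa (M.φ.injective (hh.trans hb))⟩
  · rintro x ⟨hx, hxa, hxb⟩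
    by_cases h3 : M.φ x = a
    · rw [u1 x hxa hxb h3]
      have a1 := M.trans x hx
      rw [h3] at a1
      exact comb a1 tb hds
    · rw [u2 x hxa hxb h3]; exact M.trans x hx
  · rintro x y ⟨hx, hxa, hxb⟩ ⟨hy, hya, hyb⟩
    exact k5 x y hxb hyb (g5 x y hxa hya (M.one x y hx hy))
  · obtain ⟨z, z1, z2, z3⟩ := M.sw
    by_cases hza : z = a
    · subst hza
      rw [← hb, h1] at z3; exact absurd z3 z2
    by_cases hzb : z = b
    · subst hzb
      obtain ⟨p, hp⟩ := M.φ.surjective a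
      have hpw : M.wk p := (M.wk_iff p).mpr (hp ▸ ha)
      have hpa : p ≠ a := by
        rintro rfl
        exact hab (hp.symm.trans hb.symm)
      have hpb : p ≠ b := by
        rintro rfl
        exact hba hp
      refine ⟨p, ⟨hpw, hpa, hpb⟩, ?_⟩
      rw [u1 p hpa hpb hp]
      have a1 := M.trans p hpw
      rw [hp] at a1
      exact combJ2 a1 ⟨z2, z3⟩ hds
    refine ⟨z, ⟨z1, hza, hzb⟩, ?_⟩
    by_cases h3 : M.φ z = a
    · rw [u1 z hza hzb h3]
      rw [h3] at z3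
      exact combJ1 ⟨z2, z3⟩ tb hds
    · rw [u2 z hza hzb h3]; exact ⟨z2, z3⟩
  · intro x h3 h4
    by_cases hxa : x = a
    · rw [hxa]; exact u3
    by_cases hxb : x = b
    · rw [hxb]; exact k2
    have hnw : ¬ M.wk x := fun hh => h4 ⟨hh, hxa, hxb⟩
    have hx := M.dead x h3 hnw
    rw [u2 x hxa hxb (by rw [hx]; exact hxa), hx]
  · refine f2.congr ?_
    intro x
    constructor
    · rintro ⟨h | h, hxa, hxb⟩
      · exact Or.inl h
      · exact Or.inr ⟨h, hxa, hxb⟩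
    · rintro (h | h)
      · refine ⟨Or.inl h, ?_, ?_⟩
        · rintro rfl; exact M.disj _ h ha
        · rintro rfl; exact M.disj _ h hbw
      · exact ⟨Or.inr h.1, h.2.1, h.2.2⟩
  · exact le_refl _
  · unfold N
    exact card_sub_lt (fun x hx => hx.1) a ha (fun hh => hh.2.1 rfl)

/-- every walk diagram can be reduced -/
theorem exists_red (hC : CellIn Γ n w cl) (hκ : 0 < κ) (M : WD Γ n κ w cl D) :
    ∃ M' : WD Γ n κ w cl D, M'.Red ∧ M'.Imm := by
  suffices H : ∀ f k, ∀ M : WD Γ n κ w cl D, M.F = f → M.N = k →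
      ∃ M' : WD Γ n κ w cl D, M'.Red ∧ M'.Imm from H _ _ M rfl rfl
  intro f
  induction f using Nat.strong_induction_on with
  | _ f ihf =>
  intro k
  induction k using Nat.strong_induction_on with
  | _ k ihk =>
  intro M hF hN
  have go1 : (∃ M' : WD Γ n κ w cl D, M'.F < M.F) →
      ∃ M' : WD Γ n κ w cl D, M'.Red ∧ M'.Imm := by
    rintro ⟨M', h⟩
    exact ihf M'.F (by omega) M'.N M' rfl rfl
  have go2 : (∃ M' : WD Γ n κ w cl D, M'.F ≤ M.F ∧ M'.N < M.N) →
      ∃ M' : WD Γ n κ w cl D, M'.Red ∧ M'.Imm := by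
    rintro ⟨M', h, h'⟩
    rcases Nat.lt_or_ge M'.F M.F with h1 | h1
    · exact go1 ⟨M', h1⟩
    · exact ihk M'.N (by omega) M' (by omega) rfl
  by_cases hR : M.Red
  · by_cases hI : M.Imm
    · exact ⟨M, hR, hI⟩
    · unfold Imm at hI
      push Not at hI
      obtain ⟨a, h1, h2, h3⟩ := hI
      exact go2 (M.R4 a h1 h2 h3)
  · unfold Red at hR
    push Not at hR
    obtain ⟨d, hd, hm⟩ := hR
    obtain ⟨m1, m2⟩ := Mir.ds hC hd hm
    rcases hm with ⟨h1, h2, h3, h4⟩ | ⟨h0, _⟩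
    · exact go1 (M.R1 hκ d h1 h2 h3 h4)
    · have heal := M.al_eps hd
      rcases hd with hd | hd
      · have hew : M.wk (M.ε d) := by
          rcases heal with h | h
          · exact absurd ⟨hd, h⟩ h0
          · exact h
        refine go1 (M.R2 hC (M.ε d) hew ?_ ?_ ?_)
        · rw [M.eps_eps]; exact hd
        · rw [M.eps_eps]; exact m2.symm
        · rw [M.eps_eps]; exact m1.symm
      · rcases heal with he | he
        · exact go1 (M.R2 hC d hd he m1 m2)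
        · by_cases hne : M.φ (M.ε d) = d
          · refine go2 (M.R4 (M.ε d) he ?_ ?_)
            · rw [hne]; exact m2.symm
            · rw [hne]
              have := M.lt_eps (Or.inr hd)
              rw [this, linv_linv]
          · exact go2 (M.R3 d hd he m2 hne)

end WD

end MM31
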