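import Pool.Agent.LibMM31.R1
import Pool.Agent.LibMM31.Build

/-!
# Further operations on planar pairs
-/

set_option linter.unusedSectionVars false
set_option linter.style.haveILetI false

namespace MM31

open Equiv Equiv.Perm

variable {D : Type} [Finite D] [DecidableEq D]

/-- isolate one dart in `φ` -/
theorem Pl.iso {φ ε : Perm D} (h : Pl φ ε) (z : D) :
    ∃ φ' : Perm D, Pl φ' ε ∧ φ' z = z ∧
      (∀ x, x ≠ z → φ x = z → φ' x = φ z) ∧ (∀ x, x ≠ z → φ x ≠ z → φ' x = φ x) ∧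
      (∀ x y, x ≠ z → y ≠ z → SameCycle φ x y → SameCycle φ' x y) := by
  by_cases hz : φ z = z
  · refine ⟨φ, h, hz, ?_, fun _ _ _ => rfl, fun _ _ _ _ h => h⟩
    intro x hx h1
    exact absurd (φ.injective (h1.trans hz.symm)) hx
  · have hpl : Pl (swap z (φ z) * φ) ε := h.phi_split (Ne.symm hz) ⟨1, by simp⟩
    have v0 : (swap z (φ z) * φ) z = z := by simp
    refine ⟨swap z (φ z) * φ, hpl, v0, ?_, ?_, ?_⟩
    · intro x _ h1
      rw [Perm.mul_apply, h1, swap_apply_left]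
    · intro x hx h1
      rw [Perm.mul_apply, swap_apply_of_ne_of_ne h1 (fun hh => hx (φ.injective hh))]
    · intro x y hx hy hxy
      have e1 : cs (swap z (φ z) * φ) ⊔ jn z (φ z) = cs φ ⊔ jn z (φ z) := cs_swap_mul_sup_jn φ _ _
      have h2 : (cs φ ⊔ jn z (φ z)) x y := (le_sup_left : cs φ ≤ cs φ ⊔ jn z (φ z)) hxy
      rw [← e1, sup_jn_iff] at h2
      have fixed : ∀ u, SameCycle (swap z (φ z) * φ) u z → u = z := by
        intro u hu
        obtain ⟨i, hi⟩ := hu.symm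
        rw [← hi]
        exact Function.IsFixedPt.perm_zpow (e := swap z (φ z) * φ) v0 i
      rcases h2 with h2 | ⟨h2, _⟩ | ⟨_, h2⟩
      · exact h2
      · exact absurd (fixed x h2) hx
      · exact absurd (fixed y (SameCycle.symm h2)) hy

/-- merge or split the faces along an edge `{d, e}` -/
theorem Pl.join {φ ε : Perm D} (h : Pl φ ε) {d e : D} (hde : ε d = e) (hne : φ e ≠ d) :
    Pl (swap d (φ e) * φ) ε :=
  h.phi_nu (Ne.symm hne) ⟨1, by rw [zpow_one, Perm.mul_apply, hde]⟩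

/-- the two faces obtained from an edge with the same face on both sides lie in different
components -/
theorem Pl.bridge {φ ε : Perm D} (h : Pl φ ε) {x y : D} (hxy : x ≠ y) (h1 : SameCycle φ x y)
    (h2 : SameCycle (φ * ε) x y) : ¬ (cs (swap x y * φ) ⊔ cs ε) x y := by
  intro hO
  have hpl : Pl (swap x y * φ) ε := h.phi_split hxy h1
  rw [Pl.iff] at h hpl
  have hg := genus (swap x y * φ) ε
  have c1 := cyc_swap_mul_of_same h1 hxy
  have c2 : cyc (swap x y * φ * ε) = cyc (φ * ε) + 1 := by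
    rw [mul_assoc]
    exact cyc_swap_mul_of_same h2 hxy
  have e1 : (cs (swap x y * φ) ⊔ cs ε) ⊔ jn x y = (cs φ ⊔ cs ε) ⊔ jn x y := by
    rw [sup_right_comm, cs_swap_mul_sup_jn, sup_right_comm]
  have h3 : (cs φ ⊔ cs ε) x y := (le_sup_left : cs φ ≤ cs φ ⊔ cs ε) h1
  have e2 : orb (swap x y * φ) ε = orb φ ε := by
    unfold orb
    rw [sup_jn_eq hO, sup_jn_eq h3] at e1
    rw [e1]
  omega

/-- isolate an invariant set of darts -/
theorem Pl.kill2 {φ ε : Perm D} (h : Pl φ ε) (S : D → Prop) (h1 : ∀ d, S d → S (φ d))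
    (h2 : ∀ d, S d → S (ε d)) :
    ∃ φ' ε' : Perm D, Pl φ' ε' ∧ (∀ d, S d → φ' d = d ∧ ε' d = d) ∧
      (∀ d, ¬ S d → φ' d = φ d ∧ ε' d = ε d) := by
  obtain ⟨φ', p1, p2, p3⟩ := h.kill_phi S (inv_of_forward h1)
  obtain ⟨ε', q1, q2, q3⟩ := p1.kill_eps S (inv_of_forward h2)
  exact ⟨φ', ε', q1, fun d hd => ⟨p2 d hd, q2 d hd⟩, fun d hd => ⟨p3 d hd, q3 d hd⟩⟩

theorem Glue.kill {alive : D → Prop} {C : D → D → Prop} {ε ε' : Perm D} (hg : Glue alive C ε)
    (S : D → Prop) (h2 : ∀ d, S d → S (ε d)) (h3 : ∀ d, S d → ε' d = d)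
    (h4 : ∀ d, ¬ S d → ε' d = ε d) : Glue (fun d => alive d ∧ ¬ S d) C ε' := by
  have h2' := inv_of_forward h2
  refine ⟨?_, ?_, ?_, ?_, ?_⟩
  · rintro d ⟨hd, hs⟩
    rw [h4 d hs]
    exact ⟨hg.al d hd, fun hh => hs ((h2' d).mpr hh)⟩
  · rintro d ⟨hd, hs⟩
    rw [h4 d hs, h4 _ (fun hh => hs ((h2' d).mpr hh))]
    exact hg.inv d hd
  · rintro d ⟨hd, hs⟩
    rw [h4 d hs]; exact hg.ne d hd
  · rintro d ⟨hd, hs⟩
    rw [h4 d hs]; exact hg.cm d hd
  · intro d hd
    by_cases hs : S d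
    · exact h3 d hs
    · rw [h4 d hs]
      exact hg.dead d (fun hh => hd ⟨hh, hs⟩)

/-- cutting an edge -/
theorem cutEdge {φ ε : Perm D} (h : Pl φ ε) {alive : D → Prop} {C : D → D → Prop}
    (hg : Glue alive C ε) {a b : D} (ha : alive a) (hpp : ε a = b) :
    ∃ ε' : Perm D, Pl φ ε' ∧ Glue (fun d => alive d ∧ d ≠ a ∧ d ≠ b) C ε' := by
  have hab : a ≠ b := by rw [← hpp]; exact (hg.ne a ha).symm
  have hba : ε b = a := by rw [← hpp, hg.inv a ha]
  have h1 : Pl φ (ε * swap a b) := h.eps_split hab ⟨1, by rw [zpow_one, hpp]⟩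
  have va : (ε * swap a b) a = a := by rw [Perm.mul_apply, swap_apply_left, hba]
  have vb : (ε * swap a b) b = b := by rw [Perm.mul_apply, swap_apply_right, hpp]
  have vo : ∀ d, d ≠ a → d ≠ b → (ε * swap a b) d = ε d := by
    intro d h1 h2
    rw [Perm.mul_apply, swap_apply_of_ne_of_ne h1 h2]
  refine ⟨ε * swap a b, h1, ⟨?_, ?_, ?_, ?_, ?_⟩⟩
  · rintro d ⟨hd, hda, hdb⟩
    rw [vo d hda hdb]
    refine ⟨hg.al d hd, ?_, ?_⟩
    · intro hh; apply hdb; rw [← hg.inv d hd, hh, hpp]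
    · intro hh; apply hda; rw [← hg.inv d hd, hh, hba]
  · rintro d ⟨hd, hda, hdb⟩
    rw [vo d hda hdb, vo, hg.inv d hd]
    · intro hh; apply hdb; rw [← hg.inv d hd, hh, hpp]
    · intro hh; apply hda; rw [← hg.inv d hd, hh, hba]
  · rintro d ⟨hd, hda, hdb⟩
    rw [vo d hda hdb]; exact hg.ne d hd
  · rintro d ⟨hd, hda, hdb⟩
    rw [vo d hda hdb]; exact hg.cm d hd
  · intro d hd
    by_cases hda : d = a; · rw [hda, va]
    by_cases hdb : d = b; · rw [hdb, vb]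
    rw [vo d hda hdb]
    exact hg.dead d (fun hh => hd ⟨hh, hda, hdb⟩)

theorem Glue.congr {alive alive' : D → Prop} {C : D → D → Prop} {ε : Perm D}
    (hg : Glue alive C ε) (h : ∀ d, alive d ↔ alive' d) : Glue alive' C ε := by
  have : alive = alive' := funext fun d => propext (h d)
  rw [← this]; exact hg

end MM31
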